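import Pool.Graph.R_pool_sql_team_seeded_620a6dc7.Helper609_TT.LGP
import Pool.Graph.R_pool_sql_team_seeded_620a6dc7.Helper609_TT.Pts

/-!
# Localizing subcategories
-/

namespace Pool.Agent.H939.TT

open CategoryTheory CategoryTheory.Limits CategoryTheory.Pretriangulated
open CategoryTheory.MonoidalCategory Pool.Agent.Helper609_TT

universe v u u'

variable {T : Type u} [Category.{v} T] [Preadditive T] [HasZeroObject T]
    [HasShift T ℤ] [∀ n : ℤ, (shiftFunctor T n).Additive] [Pretriangulated T]

/-- Localizing subcategories, as classes of objects (without assuming that the category is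
rigidly-compactly generated). -/
structure IsLocS [HasCoproducts.{v} T] (L : ObjectProperty T) : Prop where
  iso : ∀ {X Y : T}, (X ≅ Y) → L X → L Y
  shift : ∀ (X : T) (n : ℤ), L X → L (X⟦n⟧)
  ext₂ : ∀ D : Triangle T, D ∈ distTriang T → L D.obj₁ → L D.obj₃ → L D.obj₂
  coprod : ∀ (J : Type v) (X : J → T), (∀ j, L (X j)) → L (∐ X)


end Pool.Agent.H939.TT
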