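import Pool.Agent.H939.TT.AbsDefs

/-!
# Fields
-/

namespace Pool.Agent.H939.TT

open CategoryTheory CategoryTheory.Limits CategoryTheory.Pretriangulated
open CategoryTheory.MonoidalCategory Pool.Agent.Helper609_TT

universe v u u'

variable {T : Type u} [Category.{v} T] [Preadditive T] [HasZeroObject T]
    [HasShift T ℤ] [∀ n : ℤ, (shiftFunctor T n).Additive] [Pretriangulated T]
    [MonoidalCategory T] [SymmetricCategory T] [RigidlyCompactlyGenerated T]
    {S : Type u'} [Category.{v} S] [Preadditive S] [HasZeroObject S]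
    [HasShift S ℤ] [∀ n : ℤ, (shiftFunctor S n).Additive] [Pretriangulated S]
    [MonoidalCategory S] [SymmetricCategory S] [RigidlyCompactlyGenerated S]

theorem absField_whisker_zero (X Y Z : S) : (0 : X ⟶ Y) ▷ Z = 0 := by
  have h1 : Z ◁ (0 : X ⟶ Y) = 0 := (tensorLeft Z).map_zero X Y
  have h2 := BraidedCategory.braiding_naturality_left (0 : X ⟶ Y) Z
  rw [h1, comp_zero] at h2
  rw [← cancel_mono (β_ Y Z).hom, h2, zero_comp]

/-- the transpose of a morphism killed by an endomorphism of the unit -/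
theorem absField_transpose (π : 𝟙_ S ⟶ 𝟙_ S) {c c' X : S} [ExactPairing c c'] (v : c ⟶ X)
    (h : π ≫ tensorRightHomEquiv (𝟙_ S) c c' X ((λ_ c).hom ≫ v) = 0) :
    v ≫ (λ_ X).inv ≫ π ▷ X ≫ (λ_ X).hom = 0 := by
  have h1 : (tensorRightHomEquiv (𝟙_ S) c c' X).symm
      (π ≫ tensorRightHomEquiv (𝟙_ S) c c' X ((λ_ c).hom ≫ v)) =
      π ▷ c ≫ (λ_ c).hom ≫ v := by
    rw [tensorRightHomEquiv_symm_naturality, Equiv.symm_apply_apply]
  have h2 : (tensorRightHomEquiv (𝟙_ S) c c' X).symm 0 = 0 := by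
    have h3 := tensorRightHomEquiv_symm_naturality (Y := c) (Y' := c') (0 : 𝟙_ S ⟶ 𝟙_ S)
      (0 : 𝟙_ S ⟶ X ⊗ c')
    rw [comp_zero, absField_whisker_zero, zero_comp] at h3
    exact h3
  rw [h, h2] at h1
  have h4 : π ▷ c ≫ (λ_ c).hom ≫ v = (λ_ c).hom ≫ v ≫ (λ_ X).inv ≫ π ▷ X ≫ (λ_ X).hom := by
    rw [← leftUnitor_naturality, ← Category.assoc, ← whisker_exchange, Category.assoc,
      ← leftUnitor_naturality_assoc, Iso.hom_inv_id_assoc]
  rw [h4] at h1
  rw [← cancel_epi (λ_ c).hom, ← h1, comp_zero]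

/-- If every morphism from the unit not killed by the idempotent `π` of the unit can be continued
to `π`, then the image `e` of `π` belongs to every localizing ideal which contains an object not
annihilated by `e`. -/
theorem field_of_split (π : 𝟙_ S ⟶ 𝟙_ S) (e : S) (r : Retract e (𝟙_ S)) (hr : r.r ≫ r.i = π)
    (hPP : ∀ (X : S) (f : 𝟙_ S ⟶ X), π ≫ f ≠ 0 → ∃ g : X ⟶ 𝟙_ S, f ≫ g = π) :
    ∀ X : S, ¬ IsZero (e ⊗ X) → locIdeal (fun x => x = X) e := by
  intro X hX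
  obtain ⟨c, hc, u, hu⟩ : ∃ c : S, IsCpt c ∧ ∃ u : c ⟶ e ⊗ X, u ≠ 0 := by
    by_contra hcon
    push Not at hcon
    exact hX (isZero_of_forall_cpt fun c hc f => hcon c hc f)
  obtain ⟨c', _, ⟨hp⟩, _⟩ := exists_dual hc
  have hri : r.i ≫ π = r.i := by
    rw [← hr, ← Category.assoc, r.retract, Category.id_comp]
  -- the morphism `c ⟶ X`
  obtain ⟨w, hw⟩ : ∃ w : c ⟶ X, w = u ≫ r.i ▷ X ≫ (λ_ X).hom := ⟨_, rfl⟩
  have hwπ : w ≫ (λ_ X).inv ≫ π ▷ X ≫ (λ_ X).hom = w := by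
    rw [hw, Category.assoc, Category.assoc, Iso.hom_inv_id_assoc, ← comp_whiskerRight_assoc, hri]
  have hw0 : w ≠ 0 := by
    intro h
    apply hu
    have h1 : u ≫ r.i ▷ X = 0 := by
      rw [← cancel_mono (λ_ X).hom, zero_comp, Category.assoc, ← hw, h]
    have h2 : (u ≫ r.i ▷ X) ≫ r.r ▷ X = u := by
      rw [Category.assoc, ← comp_whiskerRight, r.retract, id_whiskerRight, Category.comp_id]
    rw [← h2, h1, zero_comp]
  obtain ⟨f, hf⟩ : ∃ f, f = tensorRightHomEquiv (𝟙_ S) c c' X ((λ_ c).hom ≫ w) := ⟨_, rfl⟩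
  have hπf : π ≫ f ≠ 0 := by
    intro h
    rw [hf] at h
    have h1 := absField_transpose π w h
    rw [hwπ] at h1
    exact hw0 h1
  obtain ⟨g, hg⟩ := hPP _ f hπf
  have hret : Retract e (X ⊗ c') := by
    refine ⟨r.i ≫ f, g ≫ r.r, ?_⟩
    rw [Category.assoc, ← Category.assoc f, hg, ← Category.assoc, hri, r.retract]
  intro L hL hLX
  exact hL.toIsLoc.retract hret (hL.tensor' X (hLX X rfl))

end Pool.Agent.H939.TT
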