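import Pool.Agent.H939.TT.AbsDefs

/-!
# A criterion for rigid-compact generation
-/

set_option linter.unusedSectionVars false

namespace Pool.Agent.H939.TT

open CategoryTheory CategoryTheory.Limits CategoryTheory.Pretriangulated
open CategoryTheory.MonoidalCategory Pool.Agent.Helper609_TT

universe v u u'

variable {T : Type u} [Category.{v} T] [Preadditive T] [HasZeroObject T]
    [HasShift T ℤ] [∀ n : ℤ, (shiftFunctor T n).Additive] [Pretriangulated T]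

/-! ### objects with a dual are compact -/

section Rigid

variable [MonoidalCategory T] [SymmetricCategory T]

/-- an object with a dual is compact, if the unit is compact -/
theorem ag_cpt_of_dual [HasCoproducts.{v} T]
    [∀ X : T, (tensorLeft X).Additive]
    [∀ (X : T) (J : Type v), PreservesColimitsOfShape (Discrete J) (tensorLeft X)]
    (hunit : IsCpt (𝟙_ T)) {X Y : T} (i : ExactPairing X Y) : IsCpt X := by
  intro J Z _ f
  have i2 : ExactPairing Y X := BraidedCategory.exactPairing_swap X Y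
  let e : Y ⊗ (∐ Z) ≅ ∐ fun j => Y ⊗ Z j := PreservesCoproduct.iso (tensorLeft Y) Z
  have he : ∀ j, Sigma.ι (fun j => Y ⊗ Z j) j ≫ e.inv = Y ◁ Sigma.ι Z j := by
    intro j
    simp only [e, PreservesCoproduct.inv_hom]
    exact ι_comp_sigmaComparison (tensorLeft Y) Z j
  obtain ⟨s, g, hg⟩ := hunit J (fun j => Y ⊗ Z j)
    (tensorLeftHomEquiv (𝟙_ T) Y X (∐ Z) ((ρ_ X).hom ≫ f) ≫ e.hom)
  have h1 : tensorLeftHomEquiv (𝟙_ T) Y X (∐ Z) ((ρ_ X).hom ≫ f) =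
      ∑ j ∈ s, g j ≫ Y ◁ Sigma.ι Z j := by
    rw [← cancel_mono e.hom, hg, Preadditive.sum_comp]
    refine Finset.sum_congr rfl (fun j _ => ?_)
    rw [Category.assoc, ← he, Category.assoc, e.inv_hom_id, Category.comp_id]
  refine ⟨s, fun j => (ρ_ X).inv ≫ (tensorLeftHomEquiv (𝟙_ T) Y X (Z j)).symm (g j), ?_⟩
  have h2 : f = (ρ_ X).inv ≫ (tensorLeftHomEquiv (𝟙_ T) Y X (∐ Z)).symm
      (tensorLeftHomEquiv (𝟙_ T) Y X (∐ Z) ((ρ_ X).hom ≫ f)) := by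
    rw [Equiv.symm_apply_apply, Iso.inv_hom_id_assoc]
  rw [h2, h1]
  have h3 : ∀ (W : T) (h : 𝟙_ T ⟶ Y ⊗ W), (tensorLeftHomEquiv (𝟙_ T) Y X W).symm h =
      X ◁ h ≫ (α_ _ _ _).inv ≫ (ε_ Y X) ▷ W ≫ (λ_ _).hom := fun W h => rfl
  have h4 : X ◁ (∑ j ∈ s, g j ≫ Y ◁ Sigma.ι Z j) = ∑ j ∈ s, X ◁ (g j ≫ Y ◁ Sigma.ι Z j) :=
    (tensorLeft X).map_sum _ _
  rw [h3, h4, Preadditive.sum_comp, Preadditive.comp_sum]
  refine Finset.sum_congr rfl (fun j _ => ?_)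
  dsimp only
  rw [h3]
  simp only [MonoidalCategory.whiskerLeft_comp, Category.assoc]
  rw [associator_inv_naturality_right_assoc, whisker_exchange_assoc, leftUnitor_naturality]

/-- retracts of an object with a dual have a dual -/
theorem ag_dual_aux {X A Y : T} [HasRightDual A] (s : X ⟶ A) (r : A ⟶ X) (hsr : s ≫ r = 𝟙 X)
    (u : Aᘁ ⟶ Y) (q : Y ⟶ Aᘁ) (huq : u ≫ q = (r ≫ s)ᘁ) (hqu : q ≫ u = 𝟙 Y) :
    Nonempty (ExactPairing X Y) := by
  have hs : s ≫ (r ≫ s) = s := by rw [← Category.assoc, hsr, Category.id_comp]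
  have hq : q ≫ (r ≫ s)ᘁ = q := by rw [← huq, ← Category.assoc, hqu, Category.id_comp]
  have hm : ((r ≫ s)ᘁ ▷ A) ≫ ε_ A Aᘁ = (Aᘁ ◁ (r ≫ s)) ≫ ε_ A Aᘁ :=
    rightAdjointMate_comp_evaluation (r ≫ s)
  refine ⟨{ coevaluation' := η_ A Aᘁ ≫ (r ⊗ₘ u)
            evaluation' := (q ⊗ₘ s) ≫ ε_ A Aᘁ
            coevaluation_evaluation' := ?_
            evaluation_coevaluation' := ?_ }⟩
  · have h1 : Y ◁ (r ⊗ₘ u) ≫ (α_ Y X Y).inv ≫ (q ⊗ₘ s) ▷ Y =
        (α_ Y A Aᘁ).inv ≫ ((q ⊗ₘ (r ≫ s)) ⊗ₘ u) := by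
      rw [← id_tensorHom, associator_inv_naturality_assoc, ← tensorHom_id,
        tensorHom_comp_tensorHom, tensorHom_comp_tensorHom, Category.id_comp, Category.comp_id]
    have h2 : ((q ⊗ₘ (r ≫ s)) ⊗ₘ u) ≫ ε_ A Aᘁ ▷ Y =
        (q ▷ A) ▷ Aᘁ ≫ (ε_ A Aᘁ ▷ Aᘁ) ≫ 𝟙_ T ◁ u := by
      have h3 : (q ⊗ₘ (r ≫ s)) ≫ ε_ A Aᘁ = q ▷ A ≫ ε_ A Aᘁ := by
        rw [MonoidalCategory.tensorHom_def, Category.assoc, ← hm, ← comp_whiskerRight_assoc, hq]
      rw [← tensorHom_id, tensorHom_comp_tensorHom, h3, Category.comp_id,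
        MonoidalCategory.tensorHom_def, comp_whiskerRight, Category.assoc]
    calc Y ◁ (η_ A Aᘁ ≫ (r ⊗ₘ u)) ≫ (α_ Y X Y).inv ≫ ((q ⊗ₘ s) ≫ ε_ A Aᘁ) ▷ Y
        = Y ◁ η_ A Aᘁ ≫ (Y ◁ (r ⊗ₘ u) ≫ (α_ Y X Y).inv ≫ (q ⊗ₘ s) ▷ Y) ≫ ε_ A Aᘁ ▷ Y := by
          simp only [MonoidalCategory.whiskerLeft_comp, comp_whiskerRight, Category.assoc]
      _ = Y ◁ η_ A Aᘁ ≫ (α_ Y A Aᘁ).inv ≫ ((q ⊗ₘ (r ≫ s)) ⊗ₘ u) ≫ ε_ A Aᘁ ▷ Y := by
          rw [h1, Category.assoc]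
      _ = Y ◁ η_ A Aᘁ ≫ (α_ Y A Aᘁ).inv ≫ (q ▷ A) ▷ Aᘁ ≫ (ε_ A Aᘁ ▷ Aᘁ) ≫ 𝟙_ T ◁ u := by
          rw [h2]
      _ = q ▷ 𝟙_ T ≫ (Aᘁ ◁ η_ A Aᘁ ≫ (α_ Aᘁ A Aᘁ).inv ≫ (ε_ A Aᘁ ▷ Aᘁ)) ≫ 𝟙_ T ◁ u := by
          rw [← associator_inv_naturality_left_assoc, whisker_exchange_assoc]
          simp only [Category.assoc]
      _ = (ρ_ Y).hom ≫ (λ_ Y).inv := by
          rw [ExactPairing.coevaluation_evaluation]
          simp [reassoc_of% hqu]
  · have h1 : (r ⊗ₘ u) ▷ X ≫ (α_ X Y X).hom ≫ X ◁ (q ⊗ₘ s) =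
        (α_ A Aᘁ X).hom ≫ (r ⊗ₘ ((r ≫ s)ᘁ ⊗ₘ s)) := by
      rw [← tensorHom_id, associator_naturality_assoc, ← id_tensorHom,
        tensorHom_comp_tensorHom, tensorHom_comp_tensorHom, Category.id_comp, Category.comp_id,
        huq]
    have h2 : (r ⊗ₘ ((r ≫ s)ᘁ ⊗ₘ s)) ≫ X ◁ ε_ A Aᘁ =
        A ◁ (Aᘁ ◁ s) ≫ (A ◁ ε_ A Aᘁ) ≫ r ▷ 𝟙_ T := by
      have h3 : ((r ≫ s)ᘁ ⊗ₘ s) ≫ ε_ A Aᘁ = Aᘁ ◁ s ≫ ε_ A Aᘁ := by
        rw [tensorHom_def', Category.assoc, hm, ← whiskerLeft_comp_assoc, hs]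
      rw [← id_tensorHom, tensorHom_comp_tensorHom, h3, Category.comp_id, tensorHom_def',
        MonoidalCategory.whiskerLeft_comp, Category.assoc]
    calc (η_ A Aᘁ ≫ (r ⊗ₘ u)) ▷ X ≫ (α_ X Y X).hom ≫ X ◁ ((q ⊗ₘ s) ≫ ε_ A Aᘁ)
        = η_ A Aᘁ ▷ X ≫ ((r ⊗ₘ u) ▷ X ≫ (α_ X Y X).hom ≫ X ◁ (q ⊗ₘ s)) ≫ X ◁ ε_ A Aᘁ := by
          simp only [MonoidalCategory.whiskerLeft_comp, comp_whiskerRight, Category.assoc]
      _ = η_ A Aᘁ ▷ X ≫ (α_ A Aᘁ X).hom ≫ (r ⊗ₘ ((r ≫ s)ᘁ ⊗ₘ s)) ≫ X ◁ ε_ A Aᘁ := by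
          rw [h1, Category.assoc]
      _ = η_ A Aᘁ ▷ X ≫ (α_ A Aᘁ X).hom ≫ A ◁ (Aᘁ ◁ s) ≫ (A ◁ ε_ A Aᘁ) ≫ r ▷ 𝟙_ T := by
          rw [h2]
      _ = 𝟙_ T ◁ s ≫ (η_ A Aᘁ ▷ A ≫ (α_ A Aᘁ A).hom ≫ (A ◁ ε_ A Aᘁ)) ≫ r ▷ 𝟙_ T := by
          rw [← associator_naturality_right_assoc, ← whisker_exchange_assoc]
          simp only [Category.assoc]
      _ = (λ_ X).hom ≫ (ρ_ X).inv := by
          rw [ExactPairing.evaluation_coevaluation]
          simp [reassoc_of% hsr]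

/-- retracts of an object with a dual have a dual, if idempotents split -/
theorem ag_dual_retract (hsplit : ∀ {A : T} (p : A ⟶ A), p ≫ p = p →
      ∃ (H : T) (u : A ⟶ H) (q : H ⟶ A), u ≫ q = p ∧ q ≫ u = 𝟙 H)
    {X A D : T} (i : ExactPairing A D) (s : X ⟶ A) (r : A ⟶ X) (hsr : s ≫ r = 𝟙 X) :
    ∃ Y : T, Nonempty (ExactPairing X Y) := by
  let iA : HasRightDual A := { rightDual := D, exact := i }
  have hp : (r ≫ s)ᘁ ≫ (r ≫ s)ᘁ = (r ≫ s)ᘁ := by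
    rw [← comp_rightAdjointMate]
    congr 1
    rw [Category.assoc, ← Category.assoc s r s, hsr, Category.id_comp]
  obtain ⟨Y, u, q, huq, hqu⟩ := hsplit _ hp
  exact ⟨Y, ag_dual_aux s r hsr u q huq hqu⟩

end Rigid

/-! ### localizing subcategories -/

section Loc

variable [HasCoproducts.{v} T]

theorem ag_ext₃ {L : ObjectProperty T} (hL : IsLocS L) (D : Triangle T)
    (hD : D ∈ distTriang T) (h₁ : L D.obj₁) (h₂ : L D.obj₂) : L D.obj₃ :=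
  hL.ext₂ _ (rot_of_distTriang _ hD) h₂ (hL.shift _ 1 h₁)

/-- classes of compact objects closed under isomorphisms, shifts and extensions -/
structure AgTri (R : ObjectProperty T) : Prop where
  cpt : ∀ {X : T}, R X → IsCpt X
  iso : ∀ {X Y : T}, (X ≅ Y) → R X → R Y
  zero : ∀ X : T, IsZero X → R X
  shift : ∀ (X : T) (n : ℤ), R X → R (X⟦n⟧)
  ext₂ : ∀ D : Triangle T, D ∈ distTriang T → R D.obj₁ → R D.obj₃ → R D.obj₂

/-- morphisms factoring through `R` -/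
def AgFac (R : ObjectProperty T) {c X : T} (f : c ⟶ X) : Prop :=
  ∃ (w : T) (a : c ⟶ w) (b : w ⟶ X), R w ∧ f = a ≫ b

variable {R : ObjectProperty T}

theorem AgTri.ext₁ (hR : AgTri R) (D : Triangle T) (hD : D ∈ distTriang T)
    (h₂ : R D.obj₂) (h₃ : R D.obj₃) : R D.obj₁ :=
  hR.ext₂ _ (inv_rot_of_distTriang _ hD) (hR.shift _ (-1) h₃) h₂

theorem AgTri.biprod (hR : AgTri R) {X Y : T} (hX : R X) (hY : R Y) : R (X ⊞ Y) :=
  hR.ext₂ _ (binaryBiproductTriangle_distinguished X Y) hX hY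

theorem AgFac.add (hR : AgTri R) {c X : T} {f g : c ⟶ X} (hf : AgFac R f) (hg : AgFac R g) :
    AgFac R (f + g) := by
  obtain ⟨w, a, b, hw, rfl⟩ := hf
  obtain ⟨w', a', b', hw', rfl⟩ := hg
  exact ⟨w ⊞ w', biprod.lift a a', biprod.desc b b', hR.biprod hw hw', by simp⟩

theorem AgFac.zero (hR : AgTri R) {c X : T} : AgFac R (0 : c ⟶ X) := by
  obtain ⟨z, hz⟩ := HasZeroObject.zero (C := T)
  exact ⟨z, 0, 0, hR.zero z hz, by simp⟩

theorem AgFac.comp {c c' X X' : T} {f : c ⟶ X} (h : AgFac R f) (u : c' ⟶ c)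
    (v : X ⟶ X') : AgFac R (u ≫ f ≫ v) := by
  obtain ⟨w, a, b, hw, rfl⟩ := h
  exact ⟨w, u ≫ a, b ≫ v, hw, by simp⟩

theorem AgFac.sum (hR : AgTri R) {c X : T} {J : Type*} (s : Finset J)
    (f : J → (c ⟶ X)) (h : ∀ j ∈ s, AgFac R (f j)) : AgFac R (∑ j ∈ s, f j) := by
  classical
  induction s using Finset.induction_on with
  | empty => simpa using AgFac.zero hR
  | insert a s ha ih =>
    rw [Finset.sum_insert ha]
    exact (h a (Finset.mem_insert_self a s)).add hR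
      (ih (fun k hk => h k (Finset.mem_insert_of_mem hk)))

/-- every morphism from a compact object factors through `R` -/
def AgAll (R : ObjectProperty T) : ObjectProperty T :=
  fun X => ∀ c : T, IsCpt c → ∀ f : c ⟶ X, AgFac R f

theorem agAll_shift (hR : AgTri R) {X : T} (n : ℤ) (h : AgAll R X) : AgAll R (X⟦n⟧) := by
  intro c hc f
  let adj : shiftFunctor T (-n : ℤ) ⊣ shiftFunctor T n :=
    (shiftEquiv' T (-n : ℤ) n (by simp)).toAdjunction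
  obtain ⟨w, a, b, hw, hab⟩ := h _ (isCpt_shift hc (-n)) ((adj.homEquiv _ _).symm f)
  refine ⟨w⟦n⟧, adj.homEquiv _ _ a, b⟦n⟧', hR.shift _ n hw, ?_⟩
  rw [← adj.homEquiv_naturality_right, ← hab, Equiv.apply_symm_apply]

theorem agAll_loc (hR : AgTri R) : IsLocS (AgAll R) where
  iso {X Y} i h c hc f := by
    have := (h c hc (f ≫ i.inv)).comp (𝟙 _) i.hom
    simpa using this
  shift X n h := agAll_shift hR n h
  coprod J X h c hc f := by
    obtain ⟨s, g, rfl⟩ := hc J X f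
    refine AgFac.sum hR _ _ (fun j _ => ?_)
    have := (h j c hc (g j)).comp (𝟙 _) (Sigma.ι X j)
    simpa using this
  ext₂ D hT h₁ h₃ c hc f := by
    obtain ⟨X₁, X₂, X₃, g₁, g, g₃⟩ := D
    change c ⟶ X₂ at f
    change AgAll R X₁ at h₁
    change AgAll R X₃ at h₃
    obtain ⟨w₃, a, b, hw₃, hab⟩ := h₃ c hc (f ≫ g)
    have h₁' : AgAll R (X₁⟦(1 : ℤ)⟧) := agAll_shift hR 1 h₁
    obtain ⟨w, p, q, hw, hpq⟩ := h₁' w₃ (hR.cpt hw₃) (b ≫ g₃)
    have h23 : g ≫ g₃ = 0 := comp_distTriang_mor_zero₂₃ _ hT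
    -- `a ≫ p ≫ q = 0`
    have h0 : (a ≫ p) ≫ q = 0 := by
      rw [Category.assoc, ← hpq, ← Category.assoc, ← hab, Category.assoc, h23, comp_zero]
    obtain ⟨z, r, s, hT2⟩ := distinguished_cocone_triangle (a ≫ p)
    have hzc : IsCpt z := isCpt_ext₃ _ hT2 hc (hR.cpt hw)
    obtain ⟨q', hq'⟩ : ∃ q' : z ⟶ X₁⟦(1 : ℤ)⟧, q = r ≫ q' :=
      Triangle.yoneda_exact₂ _ hT2 q h0
    obtain ⟨w', t, q'', hw', htq⟩ := h₁' z hzc q'
    have hr0 : (a ≫ p) ≫ r = 0 := comp_distTriang_mor_zero₁₂ _ hT2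
    -- the new map `w₃ ⟶ w'`
    have hap : a ≫ (p ≫ r ≫ t) = 0 := by
      rw [← Category.assoc, ← Category.assoc, hr0, zero_comp]
    have hb' : (p ≫ r ≫ t) ≫ q'' = b ≫ g₃ := by
      rw [hpq, hq', htq]; simp
    obtain ⟨w₂, m, k, hT3⟩ := distinguished_cocone_triangle₁ (p ≫ r ≫ t)
    have hw₂ : R w₂ := hR.ext₁ _ hT3 hw₃ hw'
    obtain ⟨a₂, ha₂⟩ : ∃ a₂ : c ⟶ w₂, a = a₂ ≫ m := Triangle.coyoneda_exact₂ _ hT3 a hap
    have hk0 : (p ≫ r ≫ t) ≫ k = 0 := comp_distTriang_mor_zero₂₃ _ hT3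
    -- lift `m ≫ b` to `X₂`
    have hmb : (m ≫ b) ≫ g₃ = 0 := by
      have hm0 : m ≫ (p ≫ r ≫ t) = 0 := comp_distTriang_mor_zero₁₂ _ hT3
      rw [Category.assoc, ← hb', ← Category.assoc, hm0, zero_comp]
    obtain ⟨r₂, hr₂⟩ : ∃ r₂ : w₂ ⟶ X₂, m ≫ b = r₂ ≫ g :=
      Triangle.coyoneda_exact₃ _ hT (m ≫ b) hmb
    have hdiff : (f - a₂ ≫ r₂) ≫ g = 0 := by
      rw [Preadditive.sub_comp, Category.assoc, ← hr₂, ← Category.assoc, ← ha₂, hab, sub_self]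
    obtain ⟨l, hl⟩ : ∃ l : c ⟶ X₁, f - a₂ ≫ r₂ = l ≫ g₁ :=
      Triangle.coyoneda_exact₂ _ hT (f - a₂ ≫ r₂) hdiff
    have hfin : f = l ≫ g₁ + a₂ ≫ r₂ := by rw [← hl, sub_add_cancel]
    change AgFac R f
    rw [hfin]
    refine AgFac.add hR ?_ ⟨w₂, a₂, r₂, hw₂, rfl⟩
    have := (h₁ c hc l).comp (𝟙 _) g₁
    simpa using this

/-- the objects `Z` without nonzero maps to the shifts of `X` -/
theorem ag_orth_loc (X : T) : IsLocS fun Z : T => ∀ (n : ℤ) (f : Z ⟶ X⟦n⟧), f = 0 where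
  iso {Z Z'} e h n f := by
    have := h n (e.hom ≫ f)
    rw [← cancel_epi e.hom, this, comp_zero]
  shift Z m h n f := by
    let adj : shiftFunctor T m ⊣ shiftFunctor T (-m : ℤ) :=
      (shiftEquiv' T m (-m) (by simp)).toAdjunction
    let e : (X⟦n⟧)⟦(-m : ℤ)⟧ ≅ X⟦n + (-m)⟧ := ((shiftFunctorAdd T n (-m)).app X).symm
    have h1 := h (n + (-m)) (adj.homEquiv _ _ f ≫ e.hom)
    have h2 : adj.homEquiv _ _ f = 0 := by
      rw [← cancel_mono e.hom, h1, zero_comp]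
    exact (adj.homAddEquiv _ _).injective (h2.trans (adj.homAddEquiv _ _).map_zero.symm)
  ext₂ D hD h₁ h₃ n f := by
    obtain ⟨k, hk⟩ := D.yoneda_exact₂ hD f (h₁ n _)
    rw [hk, h₃ n k, comp_zero]
  coprod J Z h n f := by
    apply Sigma.hom_ext
    intro j
    exact (h j n _).trans comp_zero.symm

/-- the objects of a class of generators detect zero objects -/
theorem ag_generated (hR : AgTri R) (hgen : ∀ L : ObjectProperty T, IsLocS L → (∀ X, R X → L X) →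
    ∀ X, L X) (X : T) (h : ∀ c : T, IsCpt c → ∀ f : c ⟶ X, f = 0) : IsZero X := by
  have h1 := hgen _ (ag_orth_loc X) (fun c hc n f => by
    let adj : shiftFunctor T (-n : ℤ) ⊣ shiftFunctor T n :=
      (shiftEquiv' T (-n : ℤ) n (by simp)).toAdjunction
    have h2 := h _ (isCpt_shift (hR.cpt hc) (-n)) ((adj.homEquiv _ _).symm f)
    exact (adj.homAddEquiv _ _).symm.injective
      (h2.trans (adj.homAddEquiv _ _).symm.map_zero.symm)) X 0
    ((shiftFunctorZero T ℤ).inv.app X)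
  rw [IsZero.iff_id_eq_zero, ← cancel_mono ((shiftFunctorZero T ℤ).inv.app X)]
  change 𝟙 X ≫ (shiftFunctorZero T ℤ).inv.app X = 0 ≫ (shiftFunctorZero T ℤ).inv.app X
  rw [h1, comp_zero, comp_zero]

end Loc

/-! ### homotopy colimits -/

section Hoc

variable [HasCoproducts.{v} T]

/-- the coproduct of a sequence, indexed by `ULift ℕ` -/
noncomputable abbrev agtot (F : ℕ → T) : T := ∐ fun n : ULift.{v} ℕ => F n.down

/-- the inclusion of a term -/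
noncomputable abbrev agtin (F : ℕ → T) (n : ℕ) : F n ⟶ agtot F :=
  Sigma.ι (fun n : ULift.{v} ℕ => F n.down) ⟨n⟩

/-- the projection to a term -/
noncomputable abbrev agtpr (F : ℕ → T) (n : ℕ) : agtot F ⟶ F n :=
  Sigma.π (fun n : ULift.{v} ℕ => F n.down) ⟨n⟩

theorem agtin_tpr (F : ℕ → T) (n : ℕ) : agtin F n ≫ agtpr F n = 𝟙 _ := Sigma.ι_π_eq_id _ _

theorem agtin_tpr_ne (F : ℕ → T) {n m : ℕ} (h : n ≠ m) : agtin F n ≫ agtpr F m = 0 :=
  Sigma.ι_π_of_ne _ (fun h' => h (congrArg ULift.down h'))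

/-- identity minus shift -/
noncomputable def agSub (F : ℕ → T) (φ : ∀ n, F n ⟶ F (n + 1)) : agtot F ⟶ agtot F :=
  Sigma.desc (fun n : ULift.{v} ℕ => agtin F n.down - φ n.down ≫ agtin F (n.down + 1))

theorem agtin_sub (F : ℕ → T) (φ : ∀ n, F n ⟶ F (n + 1)) (n : ℕ) :
    agtin F n ≫ agSub F φ = agtin F n - φ n ≫ agtin F (n + 1) := by
  simp [agSub, agtin]

theorem agSub_tpr_zero (F : ℕ → T) (φ : ∀ n, F n ⟶ F (n + 1)) :
    agSub F φ ≫ agtpr F 0 = agtpr F 0 := by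
  apply Sigma.hom_ext
  rintro ⟨n⟩
  change agtin F n ≫ _ = agtin F n ≫ _
  rw [← Category.assoc, agtin_sub, Preadditive.sub_comp, Category.assoc,
    agtin_tpr_ne F (Nat.succ_ne_zero n), comp_zero, sub_zero]

theorem agSub_tpr_succ (F : ℕ → T) (φ : ∀ n, F n ⟶ F (n + 1)) (m : ℕ) :
    agSub F φ ≫ agtpr F (m + 1) = agtpr F (m + 1) - agtpr F m ≫ φ m := by
  apply Sigma.hom_ext
  rintro ⟨n⟩
  change agtin F n ≫ _ = agtin F n ≫ _
  rw [← Category.assoc, agtin_sub, Preadditive.sub_comp, Category.assoc, Preadditive.comp_sub,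
    ← Category.assoc (agtin F n) (agtpr F m)]
  congr 1
  by_cases h : n = m
  · subst h
    rw [agtin_tpr, agtin_tpr, Category.comp_id, Category.id_comp]
  · rw [agtin_tpr_ne F h, agtin_tpr_ne F (by omega), comp_zero, zero_comp]

/-- for compact `c`, composing with `1 - shift` is injective -/
theorem ag_eq_zero (F : ℕ → T) (φ : ∀ n, F n ⟶ F (n + 1)) {c : T} (hc : IsCpt c)
    (f : c ⟶ agtot F) (h : f ≫ agSub F φ = 0) : f = 0 := by
  classical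
  have hp : ∀ m, f ≫ agtpr F m = 0 := by
    intro m
    induction m with
    | zero => rw [← agSub_tpr_zero F φ, ← Category.assoc, h, zero_comp]
    | succ m ih =>
      have h1 : f ≫ agSub F φ ≫ agtpr F (m + 1) = 0 := by rw [← Category.assoc, h, zero_comp]
      rw [agSub_tpr_succ, Preadditive.comp_sub, ← Category.assoc f (agtpr F m), ih, zero_comp,
        sub_zero] at h1
      exact h1
  obtain ⟨s, g, hg⟩ := hc _ _ f
  have h2 : ∀ j ∈ s, g j = 0 := by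
    intro j hj
    have h3 := hp j.down
    rw [hg, Preadditive.sum_comp, Finset.sum_eq_single j] at h3
    · rw [Category.assoc] at h3
      have : Sigma.ι (fun n : ULift.{v} ℕ => F n.down) j ≫ agtpr F j.down = 𝟙 _ :=
        Sigma.ι_π_eq_id _ _
      rwa [this, Category.comp_id] at h3
    · intro i _ hi
      rw [Category.assoc]
      have : Sigma.ι (fun n : ULift.{v} ℕ => F n.down) i ≫ agtpr F j.down = 0 :=
        Sigma.ι_π_of_ne _ hi
      rw [this, comp_zero]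
    · intro h'; exact absurd hj h'
  rw [hg]
  refine Finset.sum_eq_zero (fun j hj => ?_)
  rw [h2 j hj, zero_comp]

/-- Homotopy colimit of a constant sequence whose maps are an idempotent. -/
theorem ag_hocolim {A : T} (p : A ⟶ A) (hp : p ≫ p = p) :
    ∃ (H : T) (u : A ⟶ H) (q : H ⟶ A), p ≫ u = u ∧ u ≫ q = p ∧
      ∀ (c : T), IsCpt c → ∀ f : c ⟶ H, ∃ f' : c ⟶ A, f = f' ≫ u := by
  classical
  let F : ℕ → T := fun _ => A
  let φ : ∀ n, F n ⟶ F (n + 1) := fun _ => p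
  obtain ⟨H, q, δ, hT⟩ := distinguished_cocone_triangle (agSub F φ)
  have h12 : agSub F φ ≫ q = 0 := comp_distTriang_mor_zero₁₂ _ hT
  have hι : ∀ n, p ≫ agtin F (n + 1) ≫ q = agtin F n ≫ q := by
    intro n
    have := agtin F n ≫= h12
    rw [← Category.assoc, agtin_sub, Preadditive.sub_comp, comp_zero, sub_eq_zero,
      Category.assoc] at this
    exact this.symm
  have hι2 : ∀ n, p ≫ agtin F n ≫ q = agtin F n ≫ q := by
    intro n
    rw [← hι n, ← Category.assoc p p, hp]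
  have hι3 : ∀ n, agtin F n ≫ q = agtin F 0 ≫ q := by
    intro n
    induction n with
    | zero => rfl
    | succ n ih =>
      have h1 : agtin F (n + 1) ≫ q = agtin F n ≫ q := by
        rw [← hι n]
        exact (hι2 (n + 1)).symm
      exact h1.trans ih
  -- the map to `A`
  let G : agtot F ⟶ A := Sigma.desc (fun _ : ULift.{v} ℕ => p)
  have hG : ∀ n, agtin F n ≫ G = p := fun n => by simp [G, agtin]
  have h0 : agSub F φ ≫ G = 0 := by
    apply Sigma.hom_ext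
    rintro ⟨n⟩
    change agtin F n ≫ _ = agtin F n ≫ _
    rw [← Category.assoc, agtin_sub, Preadditive.sub_comp, Category.assoc, hG, hG, comp_zero]
    change p - p ≫ p = 0
    rw [hp, sub_self]
  obtain ⟨h, hh⟩ : ∃ h : H ⟶ A, G = q ≫ h := Triangle.yoneda_exact₂ _ hT G h0
  refine ⟨H, agtin F 0 ≫ q, h, hι2 0, ?_, ?_⟩
  · rw [Category.assoc, ← hh, hG]
  · intro c hc f
    let adj : shiftFunctor T (-1 : ℤ) ⊣ shiftFunctor T (1 : ℤ) :=
      (shiftEquiv' T (-1 : ℤ) 1 (by norm_num)).toAdjunction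
    have hδ : f ≫ δ = 0 := by
      have h31 : δ ≫ (agSub F φ)⟦(1 : ℤ)⟧' = 0 := comp_distTriang_mor_zero₃₁ _ hT
      have h1 : (adj.homEquiv _ _).symm (f ≫ δ) ≫ agSub F φ = 0 := by
        rw [← adj.homEquiv_naturality_right_symm, Category.assoc, h31, comp_zero]
        exact (adj.homAddEquiv _ _).symm.map_zero
      have h2 := ag_eq_zero F φ (isCpt_shift hc (-1)) _ h1
      exact (adj.homAddEquiv _ _).symm.injective (h2.trans (adj.homAddEquiv _ _).symm.map_zero.symm)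
    obtain ⟨k, hk⟩ : ∃ k : c ⟶ agtot F, f = k ≫ q := Triangle.coyoneda_exact₃ _ hT f hδ
    obtain ⟨s, g, hg⟩ := hc _ _ k
    refine ⟨∑ j ∈ s, g j, ?_⟩
    rw [hk, hg, Preadditive.sum_comp, Preadditive.sum_comp]
    refine Finset.sum_congr rfl (fun j _ => ?_)
    rw [Category.assoc]
    exact congrArg (g j ≫ ·) (hι3 j.down)

/-- a map which is bijective on the maps from compact objects is an isomorphism -/
theorem ag_isIso (hcg : ∀ X : T, (∀ c : T, IsCpt c → ∀ f : c ⟶ X, f = 0) → IsZero X)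
    {X Y : T} (f : X ⟶ Y) (hinj : ∀ c : T, IsCpt c → ∀ g : c ⟶ X, g ≫ f = 0 → g = 0)
    (hsurj : ∀ c : T, IsCpt c → ∀ g : c ⟶ Y, ∃ g' : c ⟶ X, g' ≫ f = g) : IsIso f := by
  obtain ⟨Z, b, d, hT⟩ := distinguished_cocone_triangle f
  have hZ : IsZero Z := by
    refine hcg Z fun c hc ψ => ?_
    have hz : ∀ (ψ' : c ⟶ X⟦(1 : ℤ)⟧), ψ' ≫ f⟦(1 : ℤ)⟧' = 0 → ψ' = 0 := by
      intro ψ' hψ'
      let adj : shiftFunctor T (-1 : ℤ) ⊣ shiftFunctor T (1 : ℤ) :=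
        (shiftEquiv' T (-1 : ℤ) 1 (by norm_num)).toAdjunction
      have h1' : (adj.homEquiv _ _).symm ψ' ≫ f = 0 := by
        rw [← adj.homEquiv_naturality_right_symm, hψ']
        exact (adj.homAddEquiv _ _).symm.map_zero
      have h3' := hinj _ (isCpt_shift hc (-1)) _ h1'
      exact (adj.homAddEquiv _ _).symm.injective
        (h3'.trans (adj.homAddEquiv _ _).symm.map_zero.symm)
    have h31 : d ≫ f⟦(1 : ℤ)⟧' = 0 := comp_distTriang_mor_zero₃₁ _ hT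
    have hd : ψ ≫ d = 0 := hz _ (by rw [Category.assoc, h31, comp_zero])
    obtain ⟨β, hβ⟩ : ∃ β : c ⟶ Y, ψ = β ≫ b := Triangle.coyoneda_exact₃ _ hT ψ hd
    obtain ⟨α, hα⟩ := hsurj c hc β
    have hab : f ≫ b = 0 := comp_distTriang_mor_zero₁₂ _ hT
    rw [hβ, ← hα, Category.assoc, hab, comp_zero]
  exact (Triangle.isZero₃_iff_isIso₁ _ hT).1 hZ

/-- idempotents split -/
theorem ag_split (hcg : ∀ X : T, (∀ c : T, IsCpt c → ∀ f : c ⟶ X, f = 0) → IsZero X)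
    {A : T} (p : A ⟶ A) (hp : p ≫ p = p) :
    ∃ (H : T) (u : A ⟶ H) (q : H ⟶ A), u ≫ q = p ∧ q ≫ u = 𝟙 H := by
  obtain ⟨H, u, q, h1, h2, h3⟩ := ag_hocolim p hp
  have key : ∀ c : T, IsCpt c → ∀ g : c ⟶ H, g ≫ (q ≫ u) = g := by
    intro c hc g
    obtain ⟨g', rfl⟩ := h3 c hc g
    rw [Category.assoc, ← Category.assoc u q u, h2, h1]
  have hiso : IsIso (q ≫ u) := by
    refine ag_isIso hcg _ (fun c hc g hg => ?_) (fun c hc g => ⟨g, key c hc g⟩)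
    rw [key c hc g] at hg
    exact hg
  refine ⟨H, u, q, h2, ?_⟩
  have h4 : (q ≫ u) ≫ (q ≫ u) = (q ≫ u) ≫ 𝟙 H := by
    rw [Category.comp_id, Category.assoc, ← Category.assoc u q u, h2, h1]
  exact (cancel_epi (q ≫ u)).1 h4

end Hoc

section Final

variable [MonoidalCategory T] [SymmetricCategory T]

/-- A criterion for rigid-compact generation: `R` is a class of rigid objects, closed under
cones, with the duals in `R`, the unit is compact and the localizing subcategory generated by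
`R` is the whole category. -/
theorem compact_of_generated [HasCoproducts.{v} T]
    [∀ X : T, (tensorLeft X).CommShift ℤ] [∀ X : T, (tensorLeft X).IsTriangulated]
    [∀ (X : T) (J : Type v), PreservesColimitsOfShape (Discrete J) (tensorLeft X)]
    (R : ObjectProperty T)
    (hiso : ∀ {X Y : T}, (X ≅ Y) → R X → R Y)
    (hzero : ∀ X : T, IsZero X → R X)
    (hshift : ∀ (X : T) (n : ℤ), R X → R (X⟦n⟧))
    (hext : ∀ D : Triangle T, D ∈ distTriang T → R D.obj₁ → R D.obj₃ → R D.obj₂)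
    (hrig : ∀ X : T, R X → ∃ Y : T, Nonempty (ExactPairing X Y))
    (hunit : IsCpt (𝟙_ T))
    (hgen : ∀ L : ObjectProperty T, IsLocS L → (∀ X, R X → L X) → ∀ X, L X)
    (hsmall : ∃ (I : Type v) (G : I → T), ∀ X, R X → ∃ i, Nonempty (X ≅ G i)) :
    (∀ X : T, IsCpt X ↔ ∃ Y : T, Nonempty (ExactPairing X Y)) ∧
    (∀ X : T, (∀ c : T, IsCpt c → ∀ f : c ⟶ X, f = 0) → IsZero X) ∧
    (∃ (I : Type v) (G : I → T), (∀ i, IsCpt (G i)) ∧
      ∀ c : T, IsCpt c → ∃ i, Nonempty (c ≅ G i)) ∧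
    (∀ X : T, IsCpt X → ∃ Y : T, R Y ∧ Nonempty (Retract X Y)) := by
  have hadd : ∀ X : T, (tensorLeft X).Additive := fun X => inferInstance
  have hdc : ∀ X : T, (∃ Y : T, Nonempty (ExactPairing X Y)) → IsCpt X := by
    rintro X ⟨Y, ⟨i⟩⟩
    exact ag_cpt_of_dual hunit i
  have hR : AgTri R := ⟨fun hX => hdc _ (hrig _ hX), hiso, hzero, hshift, hext⟩
  have hcg := ag_generated hR hgen
  have hretr : ∀ X : T, IsCpt X → ∃ Y : T, R Y ∧ Nonempty (Retract X Y) := by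
    intro X hX
    obtain ⟨w, a, b, hw, hab⟩ := hgen _ (agAll_loc hR)
      (fun Y hY c _ f => ⟨Y, f, 𝟙 _, hY, by simp⟩) X X hX (𝟙 X)
    exact ⟨w, hw, ⟨⟨a, b, hab.symm⟩⟩⟩
  refine ⟨fun X => ⟨fun hX => ?_, hdc X⟩, hcg, ?_, hretr⟩
  · obtain ⟨Y, hY, ⟨ρ⟩⟩ := hretr X hX
    obtain ⟨D, ⟨i⟩⟩ := hrig Y hY
    exact ag_dual_retract (fun p hp => ag_split hcg p hp) i ρ.i ρ.r ρ.retract
  · obtain ⟨I, G, hG⟩ := hsmall
    let I' : Type v := Σ i : I, {p : G i ⟶ G i // p ≫ p = p ∧ IsCpt (G i)}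
    have hsp : ∀ j : I', ∃ (H : T) (u : G j.1 ⟶ H) (q : H ⟶ G j.1),
        u ≫ q = j.2.1 ∧ q ≫ u = 𝟙 H := fun j => ag_split hcg j.2.1 j.2.2.1
    choose H u q huq hqu using hsp
    refine ⟨I', H, fun j => isCpt_of_retract ⟨q j, u j, hqu j⟩ j.2.2.2, ?_⟩
    intro c hc
    obtain ⟨Y, hY, ⟨ρ⟩⟩ := hretr c hc
    obtain ⟨i, ⟨e⟩⟩ := hG Y hY
    have hGi : IsCpt (G i) := isCpt_of_iso e (hR.cpt hY)
    -- `c` is a retract of `G i`
    have hsr : (ρ.i ≫ e.hom) ≫ (e.inv ≫ ρ.r) = 𝟙 c := by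
      rw [Category.assoc, e.hom_inv_id_assoc, ρ.retract]
    obtain ⟨s, hs⟩ : ∃ s, s = ρ.i ≫ e.hom := ⟨_, rfl⟩
    obtain ⟨r, hr⟩ : ∃ r, r = e.inv ≫ ρ.r := ⟨_, rfl⟩
    rw [← hs, ← hr] at hsr
    have hp : (r ≫ s) ≫ (r ≫ s) = r ≫ s := by
      rw [Category.assoc, ← Category.assoc s r s, hsr, Category.id_comp]
    let j : I' := ⟨i, r ≫ s, hp, hGi⟩
    have h1 : u j ≫ q j = r ≫ s := huq j
    have h2 : q j ≫ u j = 𝟙 (H j) := hqu j
    refine ⟨j, ⟨⟨s ≫ u j, q j ≫ r, ?_, ?_⟩⟩⟩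
    · rw [Category.assoc, ← Category.assoc (u j), h1, Category.assoc, hsr, Category.comp_id, hsr]
    · rw [Category.assoc, ← Category.assoc r, ← h1, Category.assoc, h2, Category.comp_id, h2]

end Final

end Pool.Agent.H939.TT
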