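import Pool.Agent.H939.TT.AbsDefs

/-!
# The abstract form of the counterexample
-/

namespace Pool.Agent.H939.TT

open CategoryTheory CategoryTheory.Limits CategoryTheory.Pretriangulated
open CategoryTheory.MonoidalCategory Pool.Agent.Helper609_TT

universe v u u'

variable {T : Type u} [Category.{v} T] [Preadditive T] [HasZeroObject T]
    [HasShift T ℤ] [∀ n : ℤ, (shiftFunctor T n).Additive] [Pretriangulated T]
    [MonoidalCategory T] [SymmetricCategory T] [RigidlyCompactlyGenerated T]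
    {S : Type u'} [Category.{v} S] [Preadditive S] [HasZeroObject S]
    [HasShift S ℤ] [∀ n : ℤ, (shiftFunctor S n).Additive] [Pretriangulated S]
    [MonoidalCategory S] [SymmetricCategory S] [RigidlyCompactlyGenerated S]

open ZeroObject in
/-- If the only prime is the zero ideal then the unit is the Balmer-Favi idempotent of the unique
point. -/
private lemma absNot_balmerFavi
    (hP : ∀ (P : Spc T) (x : T), P.1 x ↔ IsCpt x ∧ IsZero x) (P₀ : Spc T) :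
    WeaklyNoetherian T ∧ IsBalmerFavi P₀ (𝟙_ T) := by
  have hsub : ∀ P P' : Spc T, P = P' := fun P P' =>
    Subtype.ext (funext fun x => propext ((hP P x).trans (hP P' x).symm))
  have hY₁ : IsThomason (Set.univ : Set (Spc T)) :=
    isThomason_of fun P _ => ⟨𝟙_ T, isCpt_unit, P.2.ne_top, Set.subset_univ _⟩
  have hY₂ : IsThomason (∅ : Set (Spc T)) := isThomason_of fun P hP => hP.elim
  have hpt : ∀ P : Spc T, {P} = (Set.univ : Set (Spc T)) ∩ ∅ᶜ := by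
    intro P
    ext P'
    simp only [Set.mem_singleton_iff, Set.compl_empty, Set.inter_univ, Set.mem_univ, iff_true]
    exact hsub P' P
  refine ⟨fun P => ⟨Set.univ, ∅, hY₁, hY₂, hpt P⟩, Set.univ, ∅, 𝟙_ T, 0, 0, 𝟙_ T, hY₁, hY₂,
    hpt P₀, ⟨𝟙 _, 0, 0, contractible_distinguished _, ?_, ?_⟩,
    ⟨0, 𝟙 _, 0, contractible_distinguished₁ _, ?_, ?_⟩, ⟨(λ_ _).symm⟩⟩
  · exact subset_locIdeal _ ⟨isCpt_unit, Set.subset_univ _⟩
  · intro c _ f
    exact (isZero_zero T).eq_of_tgt _ _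
  · exact (isLocIdeal_locIdeal _).toIsLoc.zero (isZero_zero T)
  · intro c hc f
    have h1 : P₀ ∉ supp c := fun h => hc.2 h
    exact ((hP P₀ c).1 (notMem_supp.1 h1)).2.eq_of_src _ _

/-- The abstract form of the counterexample. -/
theorem not_stratified (Φ : T ⥤ S) [Φ.Monoidal] [Φ.CommShift ℤ] [Φ.IsTriangulated]
    (hpres : ∀ J : Type v, PreservesColimitsOfShape (Discrete J) Φ)
    (hcons : ∀ t : T, IsZero (Φ.obj t) → IsZero t) (e₁ e₂ : S)
    (hQ : ∀ Q : Spc S, (∀ x, Q.1 x ↔ IsCpt x ∧ IsZero (e₁ ⊗ x)) ∨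
        (∀ x, Q.1 x ↔ IsCpt x ∧ IsZero (e₂ ⊗ x)))
    (hc₁ : ∀ x : T, IsCpt x → IsZero (e₁ ⊗ Φ.obj x) → IsZero x)
    (hc₂ : ∀ x : T, IsCpt x → IsZero (e₂ ⊗ Φ.obj x) → IsZero x)
    (hne : ¬ IsZero e₁) (H : T) (hH : ¬ IsZero H) (hH₁ : IsZero (e₁ ⊗ Φ.obj H)) :
    WeaklyNoetherian T ∧ ¬ Stratified T := by
  have hsurj := comap_surjective_of_conservative (Φ := Φ) hcons
  have hP : ∀ (P : Spc T) (x : T), P.1 x ↔ IsCpt x ∧ IsZero x := by
    intro P x
    obtain ⟨Q, rfl⟩ := hsurj P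
    constructor
    · rintro ⟨hx, hQx⟩
      refine ⟨hx, ?_⟩
      rcases hQ Q with h | h
      · exact hc₁ x hx ((h _).1 hQx).2
      · exact hc₂ x hx ((h _).1 hQx).2
    · rintro ⟨_, h0⟩
      exact (Spc.comap Φ Q).2.zero x h0
  have h1 : ¬ IsZero (𝟙_ T) := fun h =>
    hH ((isZero_tensor_left H h).of_iso (ρ_ H).symm)
  obtain ⟨P₀, -, -⟩ := exists_prime_of_not_mem (isThickIdeal_ann (𝟙_ T)) (isCpt_unit (C := T))
    (fun h => h1 (IsZero.of_iso (X := 𝟙_ T) h.2 (λ_ (𝟙_ T)).symm))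
  obtain ⟨hWN, hBF⟩ := absNot_balmerFavi hP P₀
  refine ⟨hWN, ?_⟩
  rintro ⟨-, hmin⟩
  have hL : IsLocIdeal (fun X : T => Ann e₁ (Φ.obj X)) := isLocIdeal_map hpres (isLocIdeal_ann e₁)
  have hall : ∀ x : T, locIdeal (fun y : T => y = 𝟙_ T) x := fun x =>
    (isLocIdeal_locIdeal _).iso (ρ_ x)
      ((isLocIdeal_locIdeal _).tensor x _ (subset_locIdeal _ rfl))
  have h2 := (hmin P₀ (𝟙_ T) hBF).2 _ hL (fun x _ => hall x) ⟨H, hH₁, hH⟩
  have h3 : locIdeal (fun y : T => y = 𝟙_ T) (𝟙_ T) := hall _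
  rw [← h2] at h3
  have h4 : IsZero (e₁ ⊗ Φ.obj (𝟙_ T)) := h3
  exact hne (h4.of_iso ((ρ_ e₁).symm ≪≫ whiskerLeftIso e₁ (Functor.Monoidal.εIso Φ)))

end Pool.Agent.H939.TT
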