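import Pool.Agent.H939.TT.AbsDefs

/-!
# Idempotents split
-/

namespace Pool.Agent.H939.TT

open CategoryTheory CategoryTheory.Limits CategoryTheory.Pretriangulated
open CategoryTheory.MonoidalCategory Pool.Agent.Helper609_TT

universe v u u'

variable {T : Type u} [Category.{v} T] [Preadditive T] [HasZeroObject T]
    [HasShift T ℤ] [∀ n : ℤ, (shiftFunctor T n).Additive] [Pretriangulated T]
    [MonoidalCategory T] [SymmetricCategory T] [RigidlyCompactlyGenerated T]
    {S : Type u'} [Category.{v} S] [Preadditive S] [HasZeroObject S]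
    [HasShift S ℤ] [∀ n : ℤ, (shiftFunctor S n).Additive] [Pretriangulated S]
    [MonoidalCategory S] [SymmetricCategory S] [RigidlyCompactlyGenerated S]

/-- An endomorphism which acts as the identity on the morphisms from the compact objects is an
isomorphism. -/
theorem absSplit_isIso {H : S} (w : H ⟶ H) (hw : ∀ c : S, IsCpt c → ∀ f : c ⟶ H, f ≫ w = f) :
    IsIso w := by
  obtain ⟨Q, q, δ, hT⟩ := distinguished_cocone_triangle w
  have hQ : IsZero Q := by
    apply isZero_of_forall_cpt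
    intro c hc f
    have h31 : δ ≫ w⟦(1 : ℤ)⟧' = 0 := comp_distTriang_mor_zero₃₁ _ hT
    have hz : f ≫ δ = 0 := by
      let adj : shiftFunctor S (-1 : ℤ) ⊣ shiftFunctor S (1 : ℤ) :=
        (shiftEquiv' S (-1 : ℤ) 1 (by norm_num)).toAdjunction
      have h1 : (adj.homEquiv _ _).symm (f ≫ δ) ≫ w = 0 := by
        rw [← adj.homEquiv_naturality_right_symm, Category.assoc, h31, comp_zero]
        exact (adj.homAddEquiv _ _).symm.map_zero
      have h2 := hw _ (isCpt_shift hc (-1)) ((adj.homEquiv _ _).symm (f ≫ δ))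
      rw [h1] at h2
      exact (adj.homAddEquiv _ _).symm.injective
        (h2.symm.trans (adj.homAddEquiv _ _).symm.map_zero.symm)
    obtain ⟨k, hk⟩ : ∃ k : c ⟶ H, f = k ≫ q := Triangle.coyoneda_exact₃ _ hT f hz
    have h12 : w ≫ q = 0 := comp_distTriang_mor_zero₁₂ _ hT
    rw [hk, ← hw c hc k, Category.assoc, h12, comp_zero]
  exact (Triangle.isZero₃_iff_isIso₁ _ hT).1 hQ

/-- Idempotents split in a rigidly-compactly generated category. -/
theorem exists_split {X : S} (p : X ⟶ X) (hp : p ≫ p = p) :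
    ∃ (Y : S) (r : Retract Y X), r.r ≫ r.i = p := by
  obtain ⟨H, ι, hι, hext, hcpt, _⟩ := exists_hocolim (fun _ : ℕ => X) (fun _ => p)
  obtain ⟨q, hq⟩ := hext X (fun _ => p) (fun _ => hp)
  have h3 : ∀ m, p ≫ ι m = ι m := by
    intro m
    have h1 : p ≫ ι (m + 1) = ι m := hι m
    rw [← h1, ← Category.assoc, hp]
  have h4 : ∀ n, ι n = ι 0 := by
    intro n
    induction n with
    | zero => rfl
    | succ n ih =>
      have h1 : p ≫ ι (n + 1) = ι n := hι n
      rw [← ih, ← h1]
      exact (h3 (n + 1)).symm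
  have hq0 : ι 0 ≫ q = p := hq 0
  have hw : ∀ c : S, IsCpt c → ∀ f : c ⟶ H, f ≫ q ≫ ι 0 = f := by
    intro c hc f
    obtain ⟨n, f', rfl⟩ := hcpt c hc f
    have hqn : ι n ≫ q = p := hq n
    rw [Category.assoc, ← Category.assoc (ι n), hqn, h3]
    exact congrArg (f' ≫ ·) (h4 n).symm
  have hiso : IsIso (q ≫ ι 0) := absSplit_isIso _ hw
  have hidem : (q ≫ ι 0) ≫ (q ≫ ι 0) = q ≫ ι 0 := by
    rw [Category.assoc, ← Category.assoc (ι 0), hq0, h3]
  have hone : q ≫ ι 0 = 𝟙 H := by
    rw [← cancel_epi (q ≫ ι 0), hidem, Category.comp_id]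
  exact ⟨H, ⟨q, ι 0, hone⟩, hq0⟩

end Pool.Agent.H939.TT
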