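import Pool.Agent.H939.TT.AbsDefs
import Pool.Graph.R_pool_sql_team_seeded_620a6dc7.Helper609_TT.Hoc

/-!
# Telescopes
-/

namespace Pool.Agent.H939.TT

open CategoryTheory CategoryTheory.Limits CategoryTheory.Pretriangulated
open CategoryTheory.MonoidalCategory Pool.Agent.Helper609_TT

universe v u u'

variable {T : Type u} [Category.{v} T] [Preadditive T] [HasZeroObject T]
    [HasShift T ℤ] [∀ n : ℤ, (shiftFunctor T n).Additive] [Pretriangulated T]
    [MonoidalCategory T] [SymmetricCategory T] [RigidlyCompactlyGenerated T]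
    {S : Type u'} [Category.{v} S] [Preadditive S] [HasZeroObject S]
    [HasShift S ℤ] [∀ n : ℤ, (shiftFunctor S n).Additive] [Pretriangulated S]
    [MonoidalCategory S] [SymmetricCategory S] [RigidlyCompactlyGenerated S]

/-- The telescope of a sequence of morphisms killed by `e₁`, whose composites are nonzero. -/
theorem exists_tel (Φ : T ⥤ S) [Φ.Monoidal] [Φ.CommShift ℤ] [Φ.IsTriangulated]
    (hpres : ∀ J : Type v, PreservesColimitsOfShape (Discrete J) Φ) (e₁ : S)
    (F : ℕ → T) (φ : ∀ n, F n ⟶ F (n + 1)) (hF0 : IsCpt (F 0))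
    (hz : ∀ n, e₁ ◁ Φ.map (φ n) = 0) (hnz : ∀ n, trans F φ 0 n ≠ 0) :
    ∃ H : T, ¬ IsZero H ∧ IsZero (e₁ ⊗ Φ.obj H) := by
  obtain ⟨H, ι, hι⟩ := exists_isHoc F φ
  refine ⟨H, ?_, ?_⟩
  · intro h0
    obtain ⟨k, hk⟩ := hι.vanish hF0 0 (𝟙 _) (h0.eq_of_tgt _ _)
    rw [Category.id_comp] at hk
    exact hnz k hk
  · have h1 := (hι.map Φ hpres).map (tensorLeft e₁) (fun _ => inferInstance)
    exact h1.isZero_of_zero hz

end Pool.Agent.H939.TT
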