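import Pool.Agent.H939.TT.AbsDefs

/-!
# Two points
-/

namespace Pool.Agent.H939.TT

open CategoryTheory CategoryTheory.Limits CategoryTheory.Pretriangulated
open CategoryTheory.MonoidalCategory Pool.Agent.Helper609_TT

universe v u u'

variable {T : Type u} [Category.{v} T] [Preadditive T] [HasZeroObject T]
    [HasShift T ℤ] [∀ n : ℤ, (shiftFunctor T n).Additive] [Pretriangulated T]
    [MonoidalCategory T] [SymmetricCategory T] [RigidlyCompactlyGenerated T]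
    {S : Type u'} [Category.{v} S] [Preadditive S] [HasZeroObject S]
    [HasShift S ℤ] [∀ n : ℤ, (shiftFunctor S n).Additive] [Pretriangulated S]
    [MonoidalCategory S] [SymmetricCategory S] [RigidlyCompactlyGenerated S]

namespace AbsTwo

/-- every object is a retract of the sum of its two parts -/
noncomputable def ret {e₁ e₂ : S} (r₁ : Retract e₁ (𝟙_ S)) (r₂ : Retract e₂ (𝟙_ S))
    (hsum : 𝟙 (𝟙_ S) = r₁.r ≫ r₁.i + r₂.r ≫ r₂.i) (X : S) :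
    Retract X ((X ⊗ e₁) ⊞ (X ⊗ e₂)) where
  i := (ρ_ X).inv ≫ biprod.lift (X ◁ r₁.r) (X ◁ r₂.r)
  r := biprod.desc (X ◁ r₁.i) (X ◁ r₂.i) ≫ (ρ_ X).hom
  retract := by
    have h1 : X ◁ (𝟙 (𝟙_ S)) = X ◁ (r₁.r ≫ r₁.i) + X ◁ (r₂.r ≫ r₂.i) := by
      conv_lhs => rw [hsum]
      exact (tensorLeft X).map_add
    rw [Category.assoc, biprod.lift_desc_assoc, ← MonoidalCategory.whiskerLeft_comp,
      ← MonoidalCategory.whiskerLeft_comp, ← h1, MonoidalCategory.whiskerLeft_id,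
      Category.id_comp, Iso.inv_hom_id]

lemma biprod_mem {L : ObjectProperty S} (hL : IsLoc L) {X Y : S} (hX : L X) (hY : L Y) :
    L (X ⊞ Y) :=
  hL.ext₂ _ (binaryBiproductTriangle_distinguished X Y) hX hY

variable {e₁ e₂ : S}

lemma dec_loc (r₁ : Retract e₁ (𝟙_ S)) (r₂ : Retract e₂ (𝟙_ S))
    (hsum : 𝟙 (𝟙_ S) = r₁.r ≫ r₁.i + r₂.r ≫ r₂.i) {L : ObjectProperty S} (hL : IsLoc L)
    {X : S} (h1 : L (X ⊗ e₁)) (h2 : L (X ⊗ e₂)) : L X :=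
  hL.retract (ret r₁ r₂ hsum X) (biprod_mem hL h1 h2)

lemma dec_thick (r₁ : Retract e₁ (𝟙_ S)) (r₂ : Retract e₂ (𝟙_ S))
    (hsum : 𝟙 (𝟙_ S) = r₁.r ≫ r₁.i + r₂.r ≫ r₂.i) {K : ObjectProperty S} (hK : IsThickIdeal K)
    {X : S} (h1 : K (X ⊗ e₁)) (h2 : K (X ⊗ e₂)) : K X :=
  hK.retract (ret r₁ r₂ hsum X) (hK.biprod h1 h2)

lemma dec_zero (r₁ : Retract e₁ (𝟙_ S)) (r₂ : Retract e₂ (𝟙_ S))
    (hsum : 𝟙 (𝟙_ S) = r₁.r ≫ r₁.i + r₂.r ≫ r₂.i) {X : S} (h1 : IsZero (e₁ ⊗ X))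
    (h2 : IsZero (e₂ ⊗ X)) : IsZero X :=
  dec_loc r₁ r₂ hsum isLoc_isZero (h1.of_iso (β_ X e₁)) (h2.of_iso (β_ X e₂))

/-- `e₁ ⊗ e₁` is not zero -/
lemma sq_ne_zero (r₁ : Retract e₁ (𝟙_ S)) (r₂ : Retract e₂ (𝟙_ S))
    (hsum : 𝟙 (𝟙_ S) = r₁.r ≫ r₁.i + r₂.r ≫ r₂.i) (h12 : IsZero (e₁ ⊗ e₂)) (hn : ¬ IsZero e₁) :
    ¬ IsZero (e₁ ⊗ e₁) :=
  fun h => hn (dec_zero r₁ r₂ hsum h (h12.of_iso (β_ e₂ e₁)))

/-- the prime of `e₁` -/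
lemma isPrime (r₁ : Retract e₁ (𝟙_ S)) (r₂ : Retract e₂ (𝟙_ S))
    (hsum : 𝟙 (𝟙_ S) = r₁.r ≫ r₁.i + r₂.r ≫ r₂.i) (h12 : IsZero (e₁ ⊗ e₂)) (hn : ¬ IsZero e₁)
    (hf : ∀ X : S, ¬ IsZero (e₁ ⊗ X) → locIdeal (fun x => x = X) e₁) :
    IsPrimeIdeal (fun x : S => IsCpt x ∧ Ann e₁ x) where
  toIsThickIdeal := isThickIdeal_ann e₁
  ne_top h := hn (IsZero.of_iso h.2 (ρ_ e₁).symm)
  prime X Y hX hY h := by
    by_contra hcon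
    push Not at hcon
    have hX1 : ¬ IsZero (e₁ ⊗ X) := hcon.1 hX
    have hY1 : ¬ IsZero (e₁ ⊗ Y) := hcon.2 hY
    apply hY1
    -- `X` annihilates `e₁ ⊗ Y`
    have h1 : Ann (e₁ ⊗ Y) X := by
      have h2 : IsZero (e₁ ⊗ (X ⊗ Y)) := h.2
      refine h2.of_iso ?_
      exact α_ e₁ Y X ≪≫ whiskerLeftIso e₁ (β_ Y X)
    have h3 : Ann (e₁ ⊗ Y) e₁ := locIdeal_le (isLocIdeal_ann _)
      (fun x hx => by rw [show x = X from hx]; exact h1) (hf X hX1)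
    refine dec_zero r₁ r₂ hsum (ann_symm h3) ?_
    have h4 : Ann e₂ (e₁ ⊗ Y) :=
      (isLocIdeal_ann e₂).tensor' e₁ (h12.of_iso (β_ e₂ e₁))
    exact h4

/-- a thick ideal which contains an object `x` with `e₁ ⊗ x ≠ 0` contains `e₁` -/
lemma mem_thick (r₁ : Retract e₁ (𝟙_ S))
    (hf : ∀ X : S, ¬ IsZero (e₁ ⊗ X) → locIdeal (fun x => x = X) e₁)
    {K : ObjectProperty S} (hK : IsThickIdeal K) {x : S} (hx : K x) (h : ¬ IsZero (e₁ ⊗ x)) :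
    K e₁ := by
  obtain ⟨e, f, a, b, hi⟩ := exists_idem hK
  have h1 : Ann f e₁ := locIdeal_le (isLocIdeal_ann f)
    (fun y hy => by rw [show y = x from hy]; exact hi.kill' hK hx) (hf x h)
  exact mem_of_ann hK hi (isCpt_of_retract r₁ isCpt_unit) h1

/-- the primes which contain `e₂` but not `e₁` -/
lemma prime_eq (r₁ : Retract e₁ (𝟙_ S)) (r₂ : Retract e₂ (𝟙_ S))
    (hsum : 𝟙 (𝟙_ S) = r₁.r ≫ r₁.i + r₂.r ≫ r₂.i)
    (hf : ∀ X : S, ¬ IsZero (e₁ ⊗ X) → locIdeal (fun x => x = X) e₁)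
    (Q : Spc S) (h1 : ¬ Q.1 e₁) (h2 : Q.1 e₂) (x : S) :
    Q.1 x ↔ IsCpt x ∧ IsZero (e₁ ⊗ x) := by
  constructor
  · intro hx
    refine ⟨Q.2.cpt hx, ?_⟩
    by_contra h
    exact h1 (mem_thick r₁ hf Q.2.toIsThickIdeal hx h)
  · rintro ⟨hx, hz⟩
    refine dec_thick r₁ r₂ hsum Q.2.toIsThickIdeal ?_ (Q.2.tensor x e₂ hx h2)
    exact Q.2.zero _ (hz.of_iso (β_ x e₁))

lemma not_both (r₁ : Retract e₁ (𝟙_ S)) (r₂ : Retract e₂ (𝟙_ S))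
    (hsum : 𝟙 (𝟙_ S) = r₁.r ≫ r₁.i + r₂.r ≫ r₂.i) {K : ObjectProperty S} (hK : IsThickIdeal K)
    (hK1 : ¬ K (𝟙_ S)) (h1 : K e₁) (h2 : K e₂) : False :=
  hK1 (dec_thick r₁ r₂ hsum hK (hK.tensor _ _ isCpt_unit h1) (hK.tensor _ _ isCpt_unit h2))

/-- the support of `e₁` is a point -/
lemma supp_eq (r₁ : Retract e₁ (𝟙_ S)) (r₂ : Retract e₂ (𝟙_ S))
    (hsum : 𝟙 (𝟙_ S) = r₁.r ≫ r₁.i + r₂.r ≫ r₂.i) (h12 : IsZero (e₁ ⊗ e₂))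
    (hf : ∀ X : S, ¬ IsZero (e₁ ⊗ X) → locIdeal (fun x => x = X) e₁)
    (P : Spc S) (h1 : ¬ P.1 e₁) : supp e₁ = {P} := by
  have key : ∀ Q : Spc S, ¬ Q.1 e₁ → ∀ x, Q.1 x ↔ IsCpt x ∧ IsZero (e₁ ⊗ x) := by
    intro Q hQ
    refine prime_eq r₁ r₂ hsum hf Q hQ ?_
    rcases Q.2.prime e₁ e₂ (isCpt_of_retract r₁ isCpt_unit) (isCpt_of_retract r₂ isCpt_unit)
      (Q.2.zero _ h12) with h | h
    · exact absurd h hQ
    · exact h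
  ext Q
  rw [mem_supp, Set.mem_singleton_iff]
  constructor
  · intro hQ
    apply Subtype.ext
    funext x
    exact propext ((key Q hQ x).trans (key P h1 x).symm)
  · rintro rfl
    exact h1

lemma thomason_empty : IsThomason (∅ : Set (Spc S)) :=
  isThomason_of fun P hP => absurd hP (Set.notMem_empty P)

/-- the isolated point -/
lemma isolated (r₁ : Retract e₁ (𝟙_ S)) (r₂ : Retract e₂ (𝟙_ S))
    (hsum : 𝟙 (𝟙_ S) = r₁.r ≫ r₁.i + r₂.r ≫ r₂.i) (h12 : IsZero (e₁ ⊗ e₂)) (hn : ¬ IsZero e₁)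
    (hf : ∀ X : S, ¬ IsZero (e₁ ⊗ X) → locIdeal (fun x => x = X) e₁)
    {W : ObjectProperty S} (hW : IsThickIdeal W) (h : ¬ W e₁) :
    ∃ (P : Spc S) (d : S), IsCpt d ∧ (∀ w, W w → P.1 w) ∧ ¬ W d ∧ ∀ x, P.1 x → W (d ⊗ x) := by
  refine ⟨⟨_, isPrime r₁ r₂ hsum h12 hn hf⟩, e₁, isCpt_of_retract r₁ isCpt_unit, ?_, h, ?_⟩
  · intro w hw
    refine ⟨hW.cpt hw, ?_⟩
    by_contra hz
    exact h (mem_thick r₁ hf hW hw hz)
  · intro x hx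
    exact hW.zero _ hx.2

lemma minimal (r₁ : Retract e₁ (𝟙_ S)) (r₂ : Retract e₂ (𝟙_ S))
    (hsum : 𝟙 (𝟙_ S) = r₁.r ≫ r₁.i + r₂.r ≫ r₂.i)
    (hf : ∀ X : S, ¬ IsZero (e₁ ⊗ X) → locIdeal (fun x => x = X) e₁)
    (P : Spc S) (h2 : P.1 e₂) (g : S) (hg : IsBalmerFavi P g) :
    ¬ IsZero g ∧ ∀ L : ObjectProperty S, IsLocIdeal L →
      (∀ x, L x → locIdeal (fun y => y = g) x) → (∃ x, L x ∧ ¬ IsZero x) →
      L = locIdeal (fun y => y = g) := by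
  constructor
  · intro h0
    obtain ⟨c, e, f, a, b, hc, hU, hcf, hx⟩ := exists_piece hg
    refine hx (𝟙_ S) isCpt_unit P.2.ne_top ?_
    exact locIdeal_le (isLocIdeal_ann (𝟙_ S)) (fun y hy => by
      rw [show y = g from hy]; exact isZero_tensor_left _ h0) hcf
  · intro L hL hLg hx
    obtain ⟨x, hxL, hx0⟩ := hx
    have hg2 : Ann e₂ g := ann_of_mem hg h2
    have hx2 : Ann e₂ x := locIdeal_le (isLocIdeal_ann e₂)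
      (fun y hy => by rw [show y = g from hy]; exact hg2) (hLg x hxL)
    have hx1 : ¬ IsZero (e₁ ⊗ x) := fun h => hx0 (dec_zero r₁ r₂ hsum h hx2)
    have hL1 : L e₁ := locIdeal_le hL (fun y hy => by rw [show y = x from hy]; exact hxL) (hf x hx1)
    have hLgm : L g := dec_loc r₁ r₂ hsum hL.toIsLoc (hL.tensor g e₁ hL1)
      (hL.toIsLoc.zero (ann_symm hg2))
    funext y
    exact propext ⟨fun hy => hLg y hy, fun hy => locIdeal_le hL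
      (fun z hz => by rw [show z = g from hz]; exact hLgm) hy⟩

end AbsTwo

open AbsTwo in
/-- A category whose unit is the sum of two orthogonal `fields` is stratified, with a spectrum
of two points. -/
theorem two_point (e₁ e₂ : S) (r₁ : Retract e₁ (𝟙_ S)) (r₂ : Retract e₂ (𝟙_ S))
    (hsum : 𝟙 (𝟙_ S) = r₁.r ≫ r₁.i + r₂.r ≫ r₂.i)
    (h12 : IsZero (e₁ ⊗ e₂)) (hn₁ : ¬ IsZero e₁) (hn₂ : ¬ IsZero e₂)
    (hf₁ : ∀ X : S, ¬ IsZero (e₁ ⊗ X) → locIdeal (fun x => x = X) e₁)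
    (hf₂ : ∀ X : S, ¬ IsZero (e₂ ⊗ X) → locIdeal (fun x => x = X) e₂) :
    WeaklyNoetherian S ∧ Stratified S ∧
      ∀ Q : Spc S, (∀ x, Q.1 x ↔ IsCpt x ∧ IsZero (e₁ ⊗ x)) ∨
        (∀ x, Q.1 x ↔ IsCpt x ∧ IsZero (e₂ ⊗ x)) := by
  have hsum' : 𝟙 (𝟙_ S) = r₂.r ≫ r₂.i + r₁.r ≫ r₁.i := by rw [hsum, add_comm]
  have h21 : IsZero (e₂ ⊗ e₁) := h12.of_iso (β_ e₂ e₁)
  have hc₁ : IsCpt e₁ := isCpt_of_retract r₁ isCpt_unit
  have hc₂ : IsCpt e₂ := isCpt_of_retract r₂ isCpt_unit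
  have hcase : ∀ Q : Spc S, (¬ Q.1 e₁ ∧ Q.1 e₂) ∨ (¬ Q.1 e₂ ∧ Q.1 e₁) := by
    intro Q
    rcases Q.2.prime e₁ e₂ hc₁ hc₂ (Q.2.zero _ h12) with h | h
    · exact Or.inr ⟨fun h2 => not_both r₁ r₂ hsum Q.2.toIsThickIdeal Q.2.ne_top h h2, h⟩
    · exact Or.inl ⟨fun h2 => not_both r₁ r₂ hsum Q.2.toIsThickIdeal Q.2.ne_top h2 h, h⟩
  have hWN : WeaklyNoetherian S := by
    intro P
    rcases hcase P with ⟨h1, _⟩ | ⟨h1, _⟩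
    · exact ⟨supp e₁, ∅, isThomason_supp hc₁, thomason_empty, by
        rw [supp_eq r₁ r₂ hsum h12 hf₁ P h1, Set.compl_empty, Set.inter_univ]⟩
    · exact ⟨supp e₂, ∅, isThomason_supp hc₂, thomason_empty, by
        rw [supp_eq r₂ r₁ hsum' h21 hf₂ P h1, Set.compl_empty, Set.inter_univ]⟩
  refine ⟨hWN, ⟨?_, ?_⟩, ?_⟩
  · refine localToGlobal_of_isolated hWN fun W hW hW1 => ?_
    by_cases h1 : W e₁
    · have h2 : ¬ W e₂ := fun h2 => not_both r₁ r₂ hsum hW hW1 h1 h2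
      exact isolated r₂ r₁ hsum' h21 hn₂ hf₂ hW h2
    · exact isolated r₁ r₂ hsum h12 hn₁ hf₁ hW h1
  · intro P g hg
    rcases hcase P with ⟨_, h2⟩ | ⟨_, h2⟩
    · exact minimal r₁ r₂ hsum hf₁ P h2 g hg
    · exact minimal r₂ r₁ hsum' hf₂ P h2 g hg
  · intro Q
    rcases hcase Q with ⟨h1, h2⟩ | ⟨h1, h2⟩
    · exact Or.inl (prime_eq r₁ r₂ hsum hf₁ Q h1 h2)
    · exact Or.inr (prime_eq r₂ r₁ hsum' hf₂ Q h1 h2)

end Pool.Agent.H939.TT
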