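import Pool.Agent.H939.TT.AbsDefs

/-!
# Retracts of the unit; the cone of the complementary idempotent
-/

namespace Pool.Agent.H939.TT

open CategoryTheory CategoryTheory.Limits CategoryTheory.Pretriangulated
open CategoryTheory.MonoidalCategory Pool.Agent.Helper609_TT

universe v u u'

section Unit

variable {S : Type u} [Category.{v} S] [Preadditive S] [MonoidalCategory S]
  [MonoidalPreadditive S]

theorem isZero_tensor_iff {e : S} (r : Retract e (𝟙_ S)) (X : S) :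
    IsZero (e ⊗ X) ↔ (r.r ≫ r.i) ▷ X = 0 := by
  constructor
  · intro h
    rw [comp_whiskerRight, h.eq_zero_of_tgt (r.r ▷ X), zero_comp]
  · intro h
    rw [IsZero.iff_id_eq_zero]
    have h1 : 𝟙 (e ⊗ X) = r.i ▷ X ≫ (r.r ≫ r.i) ▷ X ≫ r.r ▷ X := by
      rw [← comp_whiskerRight, ← comp_whiskerRight, Category.assoc, r.retract,
        Category.comp_id, r.retract, id_whiskerRight]
    rw [h1, h, zero_comp, comp_zero]

theorem whiskerLeft_eq_zero {e : S} (r : Retract e (𝟙_ S)) {X Y : S} (u : X ⟶ Y)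
    (h : (r.r ≫ r.i) ▷ X ≫ 𝟙_ S ◁ u = 0) : e ◁ u = 0 := by
  have h1 : r.r ▷ X ≫ e ◁ u ≫ r.i ▷ Y = 0 := by
    rw [comp_whiskerRight, Category.assoc, ← whisker_exchange] at h
    exact h
  have hX : r.i ▷ X ≫ r.r ▷ X = 𝟙 (e ⊗ X) := by
    rw [← comp_whiskerRight, r.retract, id_whiskerRight]
  have hY : r.i ▷ Y ≫ r.r ▷ Y = 𝟙 (e ⊗ Y) := by
    rw [← comp_whiskerRight, r.retract, id_whiskerRight]
  calc e ◁ u = (r.i ▷ X ≫ r.r ▷ X) ≫ e ◁ u ≫ (r.i ▷ Y ≫ r.r ▷ Y) := by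
        rw [hX, hY, Category.id_comp, Category.comp_id]
    _ = r.i ▷ X ≫ (r.r ▷ X ≫ e ◁ u ≫ r.i ▷ Y) ≫ r.r ▷ Y := by
        simp only [Category.assoc]
    _ = 0 := by rw [h1, zero_comp, comp_zero]

/-- orthogonal idempotents have orthogonal images -/
theorem isZero_tensor_of_comp_eq_zero {e₁ e₂ : S} (r₁ : Retract e₁ (𝟙_ S))
    (r₂ : Retract e₂ (𝟙_ S)) (h : (r₁.r ≫ r₁.i) ≫ (r₂.r ≫ r₂.i) = 0) :
    IsZero (e₁ ⊗ e₂) := by
  rw [isZero_tensor_iff r₁]
  set p : 𝟙_ S ⟶ 𝟙_ S := r₁.r ≫ r₁.i with hp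
  have h0 : r₂.i ≫ p ≫ r₂.r = 0 := by
    calc r₂.i ≫ p ≫ r₂.r = r₂.i ≫ p ≫ r₂.r ≫ (r₂.i ≫ r₂.r) := by
          rw [r₂.retract, Category.comp_id]
      _ = r₂.i ≫ (p ≫ (r₂.r ≫ r₂.i)) ≫ r₂.r := by simp only [Category.assoc]
      _ = 0 := by rw [h, zero_comp, comp_zero]
  have h1 : p ▷ e₂ = 𝟙_ S ◁ r₂.i ≫ p ▷ 𝟙_ S ≫ 𝟙_ S ◁ r₂.r := by
    rw [← whisker_exchange, ← Category.assoc, ← MonoidalCategory.whiskerLeft_comp, r₂.retract,
      MonoidalCategory.whiskerLeft_id, Category.id_comp]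
  have h2 : p ▷ 𝟙_ S = (λ_ (𝟙_ S)).hom ≫ p ≫ (λ_ (𝟙_ S)).inv := by
    rw [unitors_equal, unitors_inv_equal, whiskerRight_id]
  rw [h1, h2, id_whiskerLeft, id_whiskerLeft]
  simp only [Category.assoc, Iso.inv_hom_id_assoc]
  rw [reassoc_of% h0, zero_comp, comp_zero]

end Unit

section Cone

variable {T : Type u} [Category.{v} T] [Preadditive T] [HasZeroObject T]
    [HasShift T ℤ] [∀ n : ℤ, (shiftFunctor T n).Additive] [Pretriangulated T]
    {S : Type u'} [Category.{v} S] [Preadditive S] [HasZeroObject S]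
    [HasShift S ℤ] [∀ n : ℤ, (shiftFunctor S n).Additive] [Pretriangulated S]

/-- A retract `x` of an object of `R` is a retract of an object `w` of `R` on which all the exact
functors which kill `x` vanish (`w` is the cone of the complementary idempotent). -/
theorem exists_retract_cone (R : ObjectProperty T)
    (hshift : ∀ (X : T) (n : ℤ), R X → R (X⟦n⟧))
    (hext : ∀ D : Triangle T, D ∈ distTriang T → R D.obj₁ → R D.obj₃ → R D.obj₂)
    {x Y : T} (hY : R Y) (r : Retract x Y) :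
    ∃ w : T, R w ∧ Nonempty (Retract x w) ∧
      ∀ (G : T ⥤ S) (_ : G.Additive) (_ : G.CommShift ℤ) (_ : G.IsTriangulated),
        IsZero (G.obj x) → IsZero (G.obj w) := by
  obtain ⟨w, g, k, hT⟩ := distinguished_cocone_triangle (𝟙 Y - r.r ≫ r.i)
  refine ⟨w, ?_, ?_, ?_⟩
  · exact hext _ (rot_of_distTriang _ hT) hY (hshift Y 1 hY)
  · have h0 : (𝟙 Y - r.r ≫ r.i) ≫ r.r = 0 := by
      rw [Preadditive.sub_comp, Category.id_comp, Category.assoc, r.retract, Category.comp_id,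
        sub_self]
    obtain ⟨s, hs⟩ : ∃ s : w ⟶ x, r.r = g ≫ s := Triangle.yoneda_exact₂ _ hT r.r h0
    refine ⟨⟨r.i ≫ g, s, ?_⟩⟩
    rw [Category.assoc, ← hs, r.retract]
  · intro G _ _ _ hG
    have h1 : G.map (𝟙 Y - r.r ≫ r.i) = 𝟙 (G.obj Y) := by
      rw [G.map_sub, G.map_id, G.map_comp, hG.eq_zero_of_tgt (G.map r.r), zero_comp, sub_zero]
    have h2 := G.map_distinguished _ hT
    have h3 : IsIso (G.mapTriangle.obj (Triangle.mk (𝟙 Y - r.r ≫ r.i) g k)).mor₁ := by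
      show IsIso (G.map (𝟙 Y - r.r ≫ r.i))
      rw [h1]
      infer_instance
    exact (Triangle.isZero₃_iff_isIso₁ _ h2).2 h3

end Cone

end Pool.Agent.H939.TT
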