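import Pool.Agent.H939.TT.FC

/-!
# Functoriality of the formal coproduct completion
-/

namespace Pool.Agent.H939.TT

open CategoryTheory CategoryTheory.Limits CategoryTheory.MonoidalCategory DirectSum

universe v u u'

attribute [local instance] Classical.decEq

namespace FC

variable {A : Type u} [Category.{0} A] [Preadditive A]
  {B : Type u'} [Category.{0} B] [Preadditive B] (F : A ⥤ B)

/-- the functor on objects -/
abbrev mapObj (X : FC A) : FC B := ⟨X.ι, fun i => F.obj (X.obj i)⟩

variable [F.Additive]

/-- the functor on elements -/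
noncomputable def mapEl {a : A} {Y : FC A} : El a Y →+ El (F.obj a) (mapObj F Y) :=
  El.lift (fun j => (of (mapObj F Y) j).comp (F.mapAddHom))

@[simp] lemma mapEl_of {a : A} {Y : FC A} (j : Y.ι) (u : a ⟶ Y.obj j) :
    mapEl F (of Y j u) = of (mapObj F Y) j (F.map u) := by
  simp [mapEl]

lemma fcm_mapEl_act {a b : A} {Y : FC A} (u : a ⟶ b) (x : El b Y) :
    mapEl F (act Y u x) = act (mapObj F Y) (F.map u) (mapEl F x) := by
  induction x using El.induction with
  | h0 => simp
  | h1 j w =>
    rw [act_of, mapEl_of, mapEl_of, F.map_comp]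
    exact (act_of (Y := mapObj F Y) (F.map u) j (F.map w)).symm
  | h2 x y hx hy => simp only [map_add, hx, hy]

/-- the functor on matrices -/
noncomputable def fcm_mapHom {Y Z : FC A} (g : Hom Y Z) : Hom (mapObj F Y) (mapObj F Z) :=
  ⟨fun i => mapEl F (g.app i)⟩

lemma fcm_mapEl_push {a : A} {Y Z : FC A} (g : Hom Y Z) (x : El a Y) :
    mapEl F (push g x) = push (fcm_mapHom F g) (mapEl F x) := by
  induction x using El.induction with
  | h0 => simp
  | h1 j w =>
    rw [push_of, mapEl_of, fcm_mapEl_act]
    exact (push_of (Y := mapObj F Y) (fcm_mapHom F g) j (F.map w)).symm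
  | h2 x y hx hy => simp only [map_add, hx, hy]

/-- the functor on formal coproducts -/
noncomputable def mapF : FC A ⥤ FC B where
  obj X := mapObj F X
  map f := ⟨fun i => mapEl F (f.app i)⟩
  map_id X := hom_ext fun i => by
    refine (mapEl_of F (Y := X) i (𝟙 (X.obj i))).trans ?_
    rw [F.map_id]
    rfl
  map_comp f g := hom_ext fun i => fcm_mapEl_push F g (f.app i)

@[simp] lemma mapF_map_app {X Y : FC A} (f : X ⟶ Y) (i : X.ι) :
    ((mapF F).map f).app i = mapEl F (f.app i) := rfl

instance : (mapF F).Additive where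
  map_add {X Y f g} := hom_ext fun i => map_add (mapEl F) (f.app i) (g.app i)

instance preserves_mapF (J : Type) : PreservesColimitsOfShape (Discrete J) (mapF F) := by
  have key : ∀ X : J → FC A, PreservesColimit (Discrete.functor X) (mapF F) := by
    intro X
    refine preservesColimit_of_preserves_colimit_cocone (isColimitSigma X) ?_
    refine (isColimitMapCoconeCofanMkEquiv (mapF F) X (fun j => sigmaι X j)).symm ?_
    have e : (fun j => (mapF F).map (sigmaι X j)) =
        fun j => sigmaι (fun j => mapObj F (X j)) j := by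
      funext j
      refine hom_ext fun i => ?_
      refine (mapEl_of F (Y := sigma X) ⟨j, i⟩ (𝟙 ((X j).obj i))).trans ?_
      rw [F.map_id]
      rfl
    exact Eq.mpr (congrArg (fun t : (∀ j, mapObj F (X j) ⟶ sigma (fun j => mapObj F (X j))) =>
      IsColimit (Cofan.mk (sigma (fun j => mapObj F (X j))) t)) e)
      (isColimitSigma (fun j => mapObj F (X j)))
  exact preservesColimitsOfShape_of_discrete _

section Monoidal

open Functor.LaxMonoidal Functor.OplaxMonoidal Functor.Monoidal

variable [MonoidalCategory A] [MonoidalPreadditive A] [MonoidalCategory B]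
  [MonoidalPreadditive B] [F.Monoidal]

/-- the tensorator -/
noncomputable def fcm_mu (X Y : FC A) :
    Hom (tensor (mapObj F X) (mapObj F Y)) (mapObj F (tensor X Y)) :=
  ⟨fun p => of (mapObj F (tensor X Y)) p (μ F (X.obj p.1) (Y.obj p.2))⟩

lemma fcm_push_mu {a b : A} {X Y : FC A} (x : El a X) (y : El b Y) :
    push (fcm_mu F X Y) (tens (mapEl F x) (mapEl F y)) =
      act (mapObj F (tensor X Y)) (μ F a b) (mapEl F (tens x y)) := by
  induction x using El.induction with
  | h0 => simp
  | h1 i u =>
    induction y using El.induction with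
    | h0 => simp
    | h1 j v =>
      rw [mapEl_of, mapEl_of, tens_of, tens_of]
      refine (push_of (Y := tensor (mapObj F X) (mapObj F Y)) _ (i, j) _).trans ?_
      refine (act_of _ _ _).trans ?_
      refine Eq.trans ?_ (congrArg _ (mapEl_of F (Y := tensor X Y) (i, j) (u ⊗ₘ v)).symm)
      refine Eq.trans ?_ (act_of (Y := mapObj F (tensor X Y)) _ (i, j) _).symm
      exact congrArg _ (Functor.LaxMonoidal.μ_natural F u v)
    | h2 x y hx hy => simp only [map_add, hx, hy]
  | h2 x y hx hy => simp only [map_add, AddMonoidHom.add_apply, hx, hy]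

omit [MonoidalCategory A] [MonoidalPreadditive A] [MonoidalCategory B]
  [MonoidalPreadditive B] [F.Monoidal] in
lemma fcm_of_id (X : FC A) (i : X.ι) :
    (of (mapObj F X) i (𝟙 (F.obj (X.obj i))) : El (F.obj (X.obj i)) (mapObj F X)) =
      mapEl F (of X i (𝟙 (X.obj i))) := by
  rw [mapEl_of, F.map_id]

/-- the monoidal structure of the functor on formal coproducts -/
noncomputable def mapFCore : (mapF F).CoreMonoidal where
  εIso :=
    { hom := ⟨fun _ => of (mapObj F (single (𝟙_ A))) () (ε F)⟩
      inv := ⟨fun _ => of (single (𝟙_ B)) () (η F)⟩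
      hom_inv_id := hom_ext fun i => by
        refine (comp_app_of rfl rfl).trans ?_
        exact congrArg _ (ε_η F)
      inv_hom_id := hom_ext fun i => by
        refine (comp_app_of rfl rfl).trans ?_
        exact congrArg _ (η_ε F) }
  μIso X Y :=
    { hom := ⟨fun p => of (mapObj F (tensor X Y)) p (μ F (X.obj p.1) (Y.obj p.2))⟩
      inv := ⟨fun p => of (tensor (mapObj F X) (mapObj F Y)) p (δ F (X.obj p.1) (Y.obj p.2))⟩
      hom_inv_id := hom_ext fun p => by
        refine (comp_app_of rfl rfl).trans ?_
        exact congrArg _ (μ_δ F _ _)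
      inv_hom_id := hom_ext fun p => by
        refine (comp_app_of rfl rfl).trans ?_
        exact congrArg _ (δ_μ F _ _) }
  μIso_hom_natural_left {X Y} f X' := hom_ext fun p => by
    refine Eq.trans (congrArg (fun t => push (fcm_mu F Y X')
      (tens (mapEl F (f.app p.1)) t)) (fcm_of_id F X' p.2)) ?_
    refine (fcm_push_mu F (f.app p.1) (of X' p.2 (𝟙 _))).trans ?_
    exact (push_of (Y := mapObj F (tensor X X')) (fcm_mapHom F (f ▷ X')) p _).symm
  μIso_hom_natural_right {X Y} X' f := hom_ext fun p => by
    refine Eq.trans (congrArg (fun t => push (fcm_mu F X' Y)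
      (tens t (mapEl F (f.app p.2)))) (fcm_of_id F X' p.1)) ?_
    refine (fcm_push_mu F (of X' p.1 (𝟙 _)) (f.app p.2)).trans ?_
    exact (push_of (Y := mapObj F (tensor X' X)) (fcm_mapHom F (X' ◁ f)) p _).symm
  associativity X Y Z := hom_ext fun p => by
    refine (comp_app_of (tens_of (X := mapObj F (tensor X Y)) (Y := mapObj F Z) p.1 p.2 _ _)
      (comp_app_of rfl (mapEl_of F (Y := tensor X (tensor Y Z)) (p.1.1, (p.1.2, p.2)) _))).trans ?_
    refine Eq.trans ?_ (comp_app_of rfl (comp_app_of
      (tens_of (X := mapObj F X) (Y := mapObj F (tensor Y Z)) p.1.1 (p.1.2, p.2) _ _) rfl)).symm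
    refine congrArg _ ?_
    have h := Functor.LaxMonoidal.associativity F (X.obj p.1.1) (Y.obj p.1.2) (Z.obj p.2)
    rw [← tensorHom_id, ← id_tensorHom] at h
    exact h
  left_unitality X := hom_ext fun p => by
    refine Eq.trans ?_ (comp_app_of (tens_of (X := mapObj F (single (𝟙_ A))) (Y := mapObj F X)
      () p.2 _ _) (comp_app_of rfl (mapEl_of F (Y := X) p.2 _))).symm
    have h := Functor.LaxMonoidal.left_unitality F (X.obj p.2)
    rw [← tensorHom_id] at h
    exact congrArg (fun t => of (mapObj F X) p.2 t) h
  right_unitality X := hom_ext fun p => by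
    refine Eq.trans ?_ (comp_app_of (tens_of (X := mapObj F X) (Y := mapObj F (single (𝟙_ A)))
      p.1 () _ _) (comp_app_of rfl (mapEl_of F (Y := X) p.1 _))).symm
    have h := Functor.LaxMonoidal.right_unitality F (X.obj p.1)
    rw [← id_tensorHom] at h
    exact congrArg (fun t => of (mapObj F X) p.1 t) h

noncomputable instance : (mapF F).Monoidal := (mapFCore F).toMonoidal

end Monoidal

section Braided

variable [MonoidalCategory A] [MonoidalPreadditive A] [SymmetricCategory A] [MonoidalCategory B]
  [MonoidalPreadditive B] [SymmetricCategory B] [F.Braided]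

noncomputable instance : (mapF F).Braided where
  braided X Y := hom_ext fun p => by
    refine (comp_app_of rfl (mapEl_of F (Y := tensor Y X) (p.2, p.1) _)).trans ?_
    refine Eq.trans ?_ (comp_app_of rfl rfl).symm
    refine congrArg _ ?_
    exact Functor.LaxBraided.braided (F := F) (X.obj p.1) (Y.obj p.2)

end Braided

end FC

end Pool.Agent.H939.TT
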