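import Pool.Agent.H939.TT.DTTensor
import Pool.Agent.H939.TT.FCMap

/-!
# Functoriality of `DT A`
-/

namespace Pool.Agent.H939.TT

open CategoryTheory CategoryTheory.Limits CategoryTheory.MonoidalCategory
open CategoryTheory.Pretriangulated Pool.Agent.Helper609_TT

section Abstract

universe v₁ u₁ v₂ u₂

open Functor.LaxMonoidal Functor.OplaxMonoidal Functor.Monoidal

variable {C : Type u₁} [Category.{v₁} C] {C' : Type u₂} [Category.{v₂} C']

/-- `D.mapF` commutes with `D.inc` -/
noncomputable def dtfun_incIso [Preadditive C] [Preadditive C'] (G : C ⥤ C') [G.Additive] (X : C) :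
    (D.mapF G).obj ((D.inc C).obj X) ≅ (D.inc C').obj (G.obj X) :=
  D.mkIso (Iso.refl _) (by
    change 𝟙 (G.obj X) ≫ (0 : G.obj X ⟶ G.obj X) = G.map 0 ≫ 𝟙 (G.obj X)
    rw [G.map_zero, comp_zero, zero_comp])

variable [MonoidalCategory C] [MonoidalCategory C'] (G : C ⥤ C') [G.Monoidal]
  (P : ObjectProperty C) (P' : ObjectProperty C') [P.IsMonoidal] [P'.IsMonoidal]
  (h : ∀ X : P.FullSubcategory, P' ((P.ι ⋙ G).obj X))

/-- the monoidal structure of a restricted functor -/
noncomputable def dtfun_core : (P'.lift (P.ι ⋙ G) h).CoreMonoidal where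
  εIso := P'.isoMk (εIso G)
  μIso X Y := P'.isoMk (μIso G X.obj Y.obj)
  μIso_hom_natural_left f X' := ObjectProperty.hom_ext _
    (μ_natural_left (F := G) f.hom X'.obj)
  μIso_hom_natural_right X' f := ObjectProperty.hom_ext _
    (μ_natural_right (F := G) X'.obj f.hom)
  associativity X Y Z := ObjectProperty.hom_ext _
    (Functor.LaxMonoidal.associativity (F := G) X.obj Y.obj Z.obj)
  left_unitality X := ObjectProperty.hom_ext _
    (Functor.LaxMonoidal.left_unitality (F := G) X.obj)
  right_unitality X := ObjectProperty.hom_ext _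
    (Functor.LaxMonoidal.right_unitality (F := G) X.obj)

end Abstract

section AbstractBraided

universe v₁ u₁ v₂ u₂

open Functor.LaxMonoidal Functor.OplaxMonoidal Functor.Monoidal

variable {C : Type u₁} [Category.{v₁} C] {C' : Type u₂} [Category.{v₂} C']
  [MonoidalCategory C] [SymmetricCategory C] [MonoidalCategory C'] [SymmetricCategory C']
  (G : C ⥤ C') [G.Braided]
  (P : ObjectProperty C) (P' : ObjectProperty C') [P.IsMonoidal] [P'.IsMonoidal]
  (h : ∀ X : P.FullSubcategory, P' ((P.ι ⋙ G).obj X))

theorem dtfun_braided (X Y : P.FullSubcategory) :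
    ((dtfun_core G P P' h).μIso X Y).hom ≫ (P'.lift (P.ι ⋙ G) h).map (β_ X Y).hom =
      (β_ ((P'.lift (P.ι ⋙ G) h).obj X) ((P'.lift (P.ι ⋙ G) h).obj Y)).hom ≫
        ((dtfun_core G P P' h).μIso Y X).hom :=
  ObjectProperty.hom_ext _ (Functor.LaxBraided.braided (F := G) X.obj Y.obj)

end AbstractBraided

variable {A : Type} [Category.{0} A] [Preadditive A] [CharTwo A]
  {B : Type} [Category.{0} B] [Preadditive B] [CharTwo B] (F : A ⥤ B) [F.Additive]

omit [CharTwo A] [CharTwo B] in
lemma dtfun_obj (a : A) : (FC.mapF F).obj ((FC.inc A).obj a) = (FC.inc B).obj (F.obj a) := rfl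

/-- the image of a generator is a generator -/
noncomputable def dtfun_embIso (a : A) :
    (K.mapF (FC.mapF F)).obj ((emb A).obj a) ≅ (emb B).obj (F.obj a) :=
  (Q (FC B)).mapIso (dtfun_incIso (FC.mapF F) ((FC.inc A).obj a)) ≪≫
    (Q (FC B)).mapIso ((D.inc (FC B)).mapIso (eqToIso (dtfun_obj F a)))

instance dtfun_preserves (J : Type) :
    PreservesColimitsOfShape (Discrete J) (K.mapF (FC.mapF F)) :=
  K.preserves_mapF (FC.mapF F) J

lemma dtfun_isLocS : IsLocS (fun X : K (FC A) => locP B ((K.mapF (FC.mapF F)).obj X)) where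
  iso e h := (isLocS_locP B).iso ((K.mapF (FC.mapF F)).mapIso e) h
  shift X n h := (isLocS_locP B).iso
    (((K.mapF (FC.mapF F)).commShiftIso n).app X).symm ((isLocS_locP B).shift _ n h)
  ext₂ T hT h₁ h₃ := (isLocS_locP B).ext₂ _
    ((K.mapF (FC.mapF F)).map_distinguished T hT) h₁ h₃
  coprod J X h := (isLocS_locP B).iso (PreservesCoproduct.iso (K.mapF (FC.mapF F)) X).symm
    ((isLocS_locP B).coprod J _ h)

lemma locP_map (X : K (FC A)) (h : locP A X) : locP B ((K.mapF (FC.mapF F)).obj X) :=
  h _ (dtfun_isLocS F) fun a =>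
    (isLocS_locP B).iso (dtfun_embIso F a).symm (locP_emb B (F.obj a))

/-- The functor `DT A ⥤ DT B` induced by a functor `A ⥤ B`. -/
noncomputable abbrev DT.map : DT A ⥤ DT B :=
  (locP B).lift ((locP A).ι ⋙ K.mapF (FC.mapF F)) (fun X => locP_map F X.obj X.property)

noncomputable example : (DT.map F).CommShift ℤ := inferInstance

example : (DT.map F).IsTriangulated := inferInstance

instance (J : Type) : PreservesColimitsOfShape (Discrete J) (DT.map F) := by
  have h : PreservesColimitsOfShape (Discrete J) (DT.map F ⋙ (locP B).ι) :=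
    inferInstanceAs (PreservesColimitsOfShape (Discrete J) ((locP A).ι ⋙ K.mapF (FC.mapF F)))
  exact preservesColimitsOfShape_of_reflects_of_preserves (DT.map F) (locP B).ι

section Braided

open Functor.LaxMonoidal Functor.OplaxMonoidal Functor.Monoidal

variable [MonoidalCategory A] [MonoidalPreadditive A] [SymmetricCategory A] [MonoidalCategory B]
  [MonoidalPreadditive B] [SymmetricCategory B] [F.Braided]

/-- the monoidal structure, abstractly -/
noncomputable abbrev dtfun_core' : (DT.map F).CoreMonoidal :=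
  dtfun_core (K.mapF (FC.mapF F)) (locP A) (locP B) (fun X => locP_map F X.obj X.property)

/-- the monoidal structure -/
noncomputable def DT.mapCore : (DT.map F).CoreMonoidal where
  εIso := (locP B).isoMk (εIso (K.mapF (FC.mapF F)))
  μIso X Y := (locP B).isoMk (μIso (K.mapF (FC.mapF F)) X.obj Y.obj)
  μIso_hom_natural_left := (dtfun_core' F).μIso_hom_natural_left
  μIso_hom_natural_right {X Y} X' f := (dtfun_core' F).μIso_hom_natural_right (X := X) (Y := Y) X' f
  associativity X Y Z := (dtfun_core' F).associativity X Y Z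
  left_unitality X := (dtfun_core' F).left_unitality X
  right_unitality X := (dtfun_core' F).right_unitality X

noncomputable instance : (DT.map F).Monoidal := (DT.mapCore F).toMonoidal

noncomputable instance : (DT.map F).Braided where
  braided X Y := dtfun_braided (K.mapF (FC.mapF F)) (locP A) (locP B)
    (fun X => locP_map F X.obj X.property) X Y

end Braided

end Pool.Agent.H939.TT
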