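import Pool.Agent.H939.TT.DCat

/-!
# The dual of a cone
-/

namespace Pool.Agent.H939.TT

open CategoryTheory CategoryTheory.Limits CategoryTheory.MonoidalCategory

universe v u

section dconeAux

variable {E : Type u} [Category.{v} E] [MonoidalCategory E]

lemma dcone_zig {A B X Y : E} [ExactPairing A B] (ι : A ⟶ X) (π : Y ⟶ B)
    (c : 𝟙_ E ⟶ X ⊗ Y) (e : Y ⊗ X ⟶ 𝟙_ E)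
    (h1 : c ≫ X ◁ π = η_ A B ≫ ι ▷ B) (h2 : Y ◁ ι ≫ e = π ▷ A ≫ ε_ A B) :
    𝟙_ E ◁ ι ≫ c ▷ X ≫ (α_ X Y X).hom ≫ X ◁ e = 𝟙_ E ◁ ι ≫ (λ_ X).hom ≫ (ρ_ X).inv := by
  calc 𝟙_ E ◁ ι ≫ c ▷ X ≫ (α_ X Y X).hom ≫ X ◁ e
      = c ▷ A ≫ (α_ X Y A).hom ≫ X ◁ (Y ◁ ι ≫ e) := by
        rw [whisker_exchange_assoc]; simp
    _ = (c ≫ X ◁ π) ▷ A ≫ (α_ X B A).hom ≫ X ◁ ε_ A B := by rw [h2]; simp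
    _ = η_ A B ▷ A ≫ (α_ A B A).hom ≫ (ι ▷ (B ⊗ A) ≫ X ◁ ε_ A B) := by rw [h1]; simp
    _ = (η_ A B ▷ A ≫ (α_ A B A).hom ≫ A ◁ ε_ A B) ≫ ι ▷ 𝟙_ E := by
        rw [← whisker_exchange]; simp only [Category.assoc]
    _ = 𝟙_ E ◁ ι ≫ (λ_ X).hom ≫ (ρ_ X).inv := by
        rw [ExactPairing.evaluation_coevaluation]; simp

lemma dcone_zag {A B X Y : E} [ExactPairing A B] (ι : B ⟶ Y) (π : X ⟶ A)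
    (c : 𝟙_ E ⟶ X ⊗ Y) (e : Y ⊗ X ⟶ 𝟙_ E)
    (h1 : c ≫ π ▷ Y = η_ A B ≫ A ◁ ι) (h2 : ι ▷ X ≫ e = B ◁ π ≫ ε_ A B) :
    ι ▷ 𝟙_ E ≫ Y ◁ c ≫ (α_ Y X Y).inv ≫ e ▷ Y = ι ▷ 𝟙_ E ≫ (ρ_ Y).hom ≫ (λ_ Y).inv := by
  calc ι ▷ 𝟙_ E ≫ Y ◁ c ≫ (α_ Y X Y).inv ≫ e ▷ Y
      = B ◁ c ≫ (α_ B X Y).inv ≫ (ι ▷ X ≫ e) ▷ Y := by
        rw [← whisker_exchange_assoc]; simp
    _ = B ◁ (c ≫ π ▷ Y) ≫ (α_ B A Y).inv ≫ ε_ A B ▷ Y := by rw [h2]; simp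
    _ = B ◁ η_ A B ≫ (α_ B A B).inv ≫ ((B ⊗ A) ◁ ι ≫ ε_ A B ▷ Y) := by rw [h1]; simp
    _ = (B ◁ η_ A B ≫ (α_ B A B).inv ≫ ε_ A B ▷ B) ≫ 𝟙_ E ◁ ι := by
        rw [whisker_exchange]; simp only [Category.assoc]
    _ = ι ▷ 𝟙_ E ≫ (ρ_ Y).hom ≫ (λ_ Y).inv := by
        rw [ExactPairing.coevaluation_evaluation]; simp

lemma dcone_r1 {P Q X X' Y : E} (a : P ⟶ X) (b : Q ⟶ Y) (h : X ⟶ X') :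
    (a ⊗ₘ b) ≫ h ▷ Y = (a ≫ h) ⊗ₘ b := by
  rw [← tensorHom_id, tensorHom_comp_tensorHom, Category.comp_id]

lemma dcone_r2 {P Q X Y Y' : E} (a : P ⟶ X) (b : Q ⟶ Y) (h : Y ⟶ Y') :
    (a ⊗ₘ b) ≫ X ◁ h = a ⊗ₘ (b ≫ h) := by
  rw [← id_tensorHom, tensorHom_comp_tensorHom, Category.comp_id]

lemma dcone_l1 {P P' Q X Y : E} (a : P ⟶ X) (b : Q ⟶ Y) (h : P' ⟶ P) :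
    h ▷ Q ≫ (a ⊗ₘ b) = (h ≫ a) ⊗ₘ b := by
  rw [← tensorHom_id, tensorHom_comp_tensorHom, Category.id_comp]

lemma dcone_l2 {P Q Q' X Y : E} (a : P ⟶ X) (b : Q ⟶ Y) (h : Q' ⟶ Q) :
    P ◁ h ≫ (a ⊗ₘ b) = a ⊗ₘ (h ≫ b) := by
  rw [← id_tensorHom, tensorHom_comp_tensorHom, Category.id_comp]

variable [Preadditive E] [MonoidalPreadditive E]

lemma dcone_zL {P Q X Y : E} (b : Q ⟶ Y) : (0 : P ⟶ X) ⊗ₘ b = 0 := by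
  rw [MonoidalCategory.tensorHom_def, MonoidalPreadditive.zero_whiskerRight, zero_comp]

lemma dcone_zR {P Q X Y : E} (a : P ⟶ X) : a ⊗ₘ (0 : Q ⟶ Y) = 0 := by
  rw [MonoidalCategory.tensorHom_def, MonoidalPreadditive.whiskerLeft_zero, comp_zero]

lemma dcone_addL {P Q X Y : E} (a a' : P ⟶ X) (b : Q ⟶ Y) :
    (a + a') ⊗ₘ b = (a ⊗ₘ b) + (a' ⊗ₘ b) := by
  simp only [MonoidalCategory.tensorHom_def, MonoidalPreadditive.add_whiskerRight,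
    Preadditive.add_comp]

lemma dcone_addR {P Q X Y : E} (a : P ⟶ X) (b b' : Q ⟶ Y) :
    a ⊗ₘ (b + b') = (a ⊗ₘ b) + (a ⊗ₘ b') := by
  simp only [MonoidalCategory.tensorHom_def, MonoidalPreadditive.whiskerLeft_add,
    Preadditive.comp_add]

variable [HasBinaryBiproducts E]

lemma dcone_extL {A₁ A₂ U Z : E} {f g : U ⊗ (A₁ ⊞ A₂) ⟶ Z}
    (h1 : U ◁ (biprod.inl : A₁ ⟶ A₁ ⊞ A₂) ≫ f = U ◁ (biprod.inl : A₁ ⟶ A₁ ⊞ A₂) ≫ g)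
    (h2 : U ◁ (biprod.inr : A₂ ⟶ A₁ ⊞ A₂) ≫ f = U ◁ (biprod.inr : A₂ ⟶ A₁ ⊞ A₂) ≫ g) :
    f = g := by
  have h : 𝟙 (U ⊗ (A₁ ⊞ A₂)) = U ◁ (biprod.fst : A₁ ⊞ A₂ ⟶ A₁) ≫ U ◁ biprod.inl +
      U ◁ (biprod.snd : A₁ ⊞ A₂ ⟶ A₂) ≫ U ◁ biprod.inr := by
    rw [← whiskerLeft_comp, ← whiskerLeft_comp, ← MonoidalPreadditive.whiskerLeft_add, biprod.total, whiskerLeft_id]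
  rw [← Category.id_comp f, ← Category.id_comp g, h, Preadditive.add_comp, Preadditive.add_comp]
  simp only [Category.assoc, h1, h2]

lemma dcone_extR {A₁ A₂ U Z : E} {f g : (A₁ ⊞ A₂) ⊗ U ⟶ Z}
    (h1 : (biprod.inl : A₁ ⟶ A₁ ⊞ A₂) ▷ U ≫ f = (biprod.inl : A₁ ⟶ A₁ ⊞ A₂) ▷ U ≫ g)
    (h2 : (biprod.inr : A₂ ⟶ A₁ ⊞ A₂) ▷ U ≫ f = (biprod.inr : A₂ ⟶ A₁ ⊞ A₂) ▷ U ≫ g) :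
    f = g := by
  have h : 𝟙 ((A₁ ⊞ A₂) ⊗ U) = (biprod.fst : A₁ ⊞ A₂ ⟶ A₁) ▷ U ≫ biprod.inl ▷ U +
      (biprod.snd : A₁ ⊞ A₂ ⟶ A₂) ▷ U ≫ biprod.inr ▷ U := by
    rw [← comp_whiskerRight, ← comp_whiskerRight, ← MonoidalPreadditive.add_whiskerRight, biprod.total,
      id_whiskerRight]
  rw [← Category.id_comp f, ← Category.id_comp g, h, Preadditive.add_comp, Preadditive.add_comp]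
  simp only [Category.assoc, h1, h2]

lemma dcone_coev [CharTwo E] {A₁ A₂ B₁ B₂ : E} {a₁ : A₁ ⟶ A₁} {a₂ : A₂ ⟶ A₂} {b₁ : B₁ ⟶ B₁}
    {b₂ : B₂ ⟶ B₂} {η₁ : 𝟙_ E ⟶ A₁ ⊗ B₁} {η₂ : 𝟙_ E ⟶ A₂ ⊗ B₂} {f : A₁ ⟶ A₂} {g : B₂ ⟶ B₁}
    (u1 : η₁ ≫ (a₁ ▷ B₁ + A₁ ◁ b₁) = 0) (u2 : η₂ ≫ (a₂ ▷ B₂ + A₂ ◁ b₂) = 0)
    (n1 : η₂ ≫ A₂ ◁ g = η₁ ≫ f ▷ B₁) :
    (η₁ ≫ ((biprod.inl : A₁ ⟶ A₁ ⊞ A₂) ⊗ₘ (biprod.inr : B₁ ⟶ B₂ ⊞ B₁)) +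
      η₂ ≫ ((biprod.inr : A₂ ⟶ A₁ ⊞ A₂) ⊗ₘ (biprod.inl : B₂ ⟶ B₂ ⊞ B₁))) ≫
      (biprod.desc (biprod.lift a₁ f) (biprod.lift 0 a₂) ▷ (B₂ ⊞ B₁) +
        (A₁ ⊞ A₂) ◁ biprod.desc (biprod.lift b₂ g) (biprod.lift 0 b₁)) = 0 := by
  have w1 : η₁ ≫ (a₁ ▷ B₁) ≫ ((biprod.inl : A₁ ⟶ A₁ ⊞ A₂) ⊗ₘ
      (biprod.inr : B₁ ⟶ B₂ ⊞ B₁)) + η₁ ≫ (A₁ ◁ b₁) ≫
      ((biprod.inl : A₁ ⟶ A₁ ⊞ A₂) ⊗ₘ (biprod.inr : B₁ ⟶ B₂ ⊞ B₁)) = 0 := by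
    rw [← Preadditive.comp_add, ← Preadditive.add_comp, ← Category.assoc, u1, zero_comp]
  have w2 : η₂ ≫ (a₂ ▷ B₂) ≫ ((biprod.inr : A₂ ⟶ A₁ ⊞ A₂) ⊗ₘ
      (biprod.inl : B₂ ⟶ B₂ ⊞ B₁)) + η₂ ≫ (A₂ ◁ b₂) ≫
      ((biprod.inr : A₂ ⟶ A₁ ⊞ A₂) ⊗ₘ (biprod.inl : B₂ ⟶ B₂ ⊞ B₁)) = 0 := by
    rw [← Preadditive.comp_add, ← Preadditive.add_comp, ← Category.assoc, u2, zero_comp]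
  have w3 : η₁ ≫ (f ▷ B₁) ≫ ((biprod.inr : A₂ ⟶ A₁ ⊞ A₂) ⊗ₘ
      (biprod.inr : B₁ ⟶ B₂ ⊞ B₁)) = η₂ ≫ (A₂ ◁ g) ≫
      ((biprod.inr : A₂ ⟶ A₁ ⊞ A₂) ⊗ₘ (biprod.inr : B₁ ⟶ B₂ ⊞ B₁)) := by
    rw [← Category.assoc, ← n1, Category.assoc]
  simp only [dcone_l1, dcone_l2] at w1 w2 w3
  simp only [Preadditive.add_comp, Preadditive.comp_add, Category.assoc, dcone_r1, dcone_r2,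
    biprod.inl_desc, biprod.inr_desc, biprod.lift_eq, zero_comp, zero_add, dcone_addL, dcone_addR]
  rw [w3, eq_of_add_eq_zero' w1, eq_of_add_eq_zero' w2]
  try simp only [sub_eq', neg_eq']
  rw [← sub_eq_zero, sub_eq']
  abel_nf
  try simp only [two_zsmul', two_nsmul', four_zsmul', four_nsmul', add_zero, zero_add]

lemma dcone_ev [CharTwo E] {A₁ A₂ B₁ B₂ : E} {a₁ : A₁ ⟶ A₁} {a₂ : A₂ ⟶ A₂} {b₁ : B₁ ⟶ B₁}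
    {b₂ : B₂ ⟶ B₂} {ε₁ : B₁ ⊗ A₁ ⟶ 𝟙_ E} {ε₂ : B₂ ⊗ A₂ ⟶ 𝟙_ E} {f : A₁ ⟶ A₂} {g : B₂ ⟶ B₁}
    (u1 : (b₁ ▷ A₁ + B₁ ◁ a₁) ≫ ε₁ = 0) (u2 : (b₂ ▷ A₂ + B₂ ◁ a₂) ≫ ε₂ = 0)
    (n1 : g ▷ A₁ ≫ ε₁ = B₂ ◁ f ≫ ε₂) :
    (biprod.desc (biprod.lift b₂ g) (biprod.lift 0 b₁) ▷ (A₁ ⊞ A₂) +
        (B₂ ⊞ B₁) ◁ biprod.desc (biprod.lift a₁ f) (biprod.lift 0 a₂)) ≫
    (((biprod.snd : B₂ ⊞ B₁ ⟶ B₁) ⊗ₘ (biprod.fst : A₁ ⊞ A₂ ⟶ A₁)) ≫ ε₁ +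
      ((biprod.fst : B₂ ⊞ B₁ ⟶ B₂) ⊗ₘ (biprod.snd : A₁ ⊞ A₂ ⟶ A₂)) ≫ ε₂) = 0 := by
  have w1 : ((biprod.snd : B₂ ⊞ B₁ ⟶ B₁) ⊗ₘ (biprod.fst : A₁ ⊞ A₂ ⟶ A₁)) ≫ (b₁ ▷ A₁) ≫ ε₁ +
      ((biprod.snd : B₂ ⊞ B₁ ⟶ B₁) ⊗ₘ (biprod.fst : A₁ ⊞ A₂ ⟶ A₁)) ≫ (B₁ ◁ a₁) ≫ ε₁ = 0 := by
    rw [← Preadditive.comp_add, ← Preadditive.add_comp, u1, comp_zero]
  have w2 : ((biprod.fst : B₂ ⊞ B₁ ⟶ B₂) ⊗ₘ (biprod.snd : A₁ ⊞ A₂ ⟶ A₂)) ≫ (b₂ ▷ A₂) ≫ ε₂ +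
      ((biprod.fst : B₂ ⊞ B₁ ⟶ B₂) ⊗ₘ (biprod.snd : A₁ ⊞ A₂ ⟶ A₂)) ≫ (B₂ ◁ a₂) ≫ ε₂ = 0 := by
    rw [← Preadditive.comp_add, ← Preadditive.add_comp, u2, comp_zero]
  have w3 : ((biprod.fst : B₂ ⊞ B₁ ⟶ B₂) ⊗ₘ (biprod.fst : A₁ ⊞ A₂ ⟶ A₁)) ≫ (g ▷ A₁) ≫ ε₁ =
      ((biprod.fst : B₂ ⊞ B₁ ⟶ B₂) ⊗ₘ (biprod.fst : A₁ ⊞ A₂ ⟶ A₁)) ≫ (B₂ ◁ f) ≫ ε₂ := by
    rw [n1]
  have p1 : biprod.desc (biprod.lift b₂ g) (biprod.lift 0 b₁) ≫ (biprod.snd : B₂ ⊞ B₁ ⟶ B₁) =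
      biprod.fst ≫ g + biprod.snd ≫ b₁ := by
    ext <;> simp
  have p2 : biprod.desc (biprod.lift b₂ g) (biprod.lift 0 b₁) ≫ (biprod.fst : B₂ ⊞ B₁ ⟶ B₂) =
      biprod.fst ≫ b₂ := by
    ext <;> simp
  have p3 : biprod.desc (biprod.lift a₁ f) (biprod.lift 0 a₂) ≫ (biprod.snd : A₁ ⊞ A₂ ⟶ A₂) =
      biprod.fst ≫ f + biprod.snd ≫ a₂ := by
    ext <;> simp
  have p4 : biprod.desc (biprod.lift a₁ f) (biprod.lift 0 a₂) ≫ (biprod.fst : A₁ ⊞ A₂ ⟶ A₁) =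
      biprod.fst ≫ a₁ := by
    ext <;> simp
  simp only [← Category.assoc, dcone_r1, dcone_r2] at w1 w2 w3
  simp only [Preadditive.add_comp, Preadditive.comp_add, ← Category.assoc, dcone_l1, dcone_l2,
    p1, p2, p3, p4, dcone_addL, dcone_addR]
  rw [w3, eq_of_add_eq_zero' w1, eq_of_add_eq_zero' w2]
  try simp only [sub_eq', neg_eq']
  rw [← sub_eq_zero, sub_eq']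
  abel_nf
  try simp only [two_zsmul', two_nsmul', four_zsmul', four_nsmul', add_zero, zero_add]

/-- the coevaluation and the evaluation of a biproduct -/
lemma dcone_c1 {A₁ A₂ B₁ B₂ : E} (η₁ : 𝟙_ E ⟶ A₁ ⊗ B₁) (η₂ : 𝟙_ E ⟶ A₂ ⊗ B₂) :
    (η₁ ≫ ((biprod.inl : A₁ ⟶ A₁ ⊞ A₂) ⊗ₘ (biprod.inr : B₁ ⟶ B₂ ⊞ B₁)) +
      η₂ ≫ ((biprod.inr : A₂ ⟶ A₁ ⊞ A₂) ⊗ₘ (biprod.inl : B₂ ⟶ B₂ ⊞ B₁))) ≫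
      (A₁ ⊞ A₂) ◁ biprod.snd = η₁ ≫ biprod.inl ▷ B₁ := by
  simp only [Preadditive.add_comp, Category.assoc, dcone_r2, biprod.inr_snd, biprod.inl_snd, dcone_zR, tensorHom_id,
    comp_zero, add_zero, zero_add]

lemma dcone_c2 {A₁ A₂ B₁ B₂ : E} (η₁ : 𝟙_ E ⟶ A₁ ⊗ B₁) (η₂ : 𝟙_ E ⟶ A₂ ⊗ B₂) :
    (η₁ ≫ ((biprod.inl : A₁ ⟶ A₁ ⊞ A₂) ⊗ₘ (biprod.inr : B₁ ⟶ B₂ ⊞ B₁)) +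
      η₂ ≫ ((biprod.inr : A₂ ⟶ A₁ ⊞ A₂) ⊗ₘ (biprod.inl : B₂ ⟶ B₂ ⊞ B₁))) ≫
      (A₁ ⊞ A₂) ◁ biprod.fst = η₂ ≫ biprod.inr ▷ B₂ := by
  simp only [Preadditive.add_comp, Category.assoc, dcone_r2, biprod.inr_fst, biprod.inl_fst, dcone_zR, tensorHom_id,
    comp_zero, add_zero, zero_add]

lemma dcone_c3 {A₁ A₂ B₁ B₂ : E} (η₁ : 𝟙_ E ⟶ A₁ ⊗ B₁) (η₂ : 𝟙_ E ⟶ A₂ ⊗ B₂) :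
    (η₁ ≫ ((biprod.inl : A₁ ⟶ A₁ ⊞ A₂) ⊗ₘ (biprod.inr : B₁ ⟶ B₂ ⊞ B₁)) +
      η₂ ≫ ((biprod.inr : A₂ ⟶ A₁ ⊞ A₂) ⊗ₘ (biprod.inl : B₂ ⟶ B₂ ⊞ B₁))) ≫
      biprod.fst ▷ (B₂ ⊞ B₁) = η₁ ≫ A₁ ◁ biprod.inr := by
  simp only [Preadditive.add_comp, Category.assoc, dcone_r1, biprod.inr_fst, biprod.inl_fst, dcone_zL, id_tensorHom,
    comp_zero, add_zero, zero_add]

lemma dcone_c4 {A₁ A₂ B₁ B₂ : E} (η₁ : 𝟙_ E ⟶ A₁ ⊗ B₁) (η₂ : 𝟙_ E ⟶ A₂ ⊗ B₂) :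
    (η₁ ≫ ((biprod.inl : A₁ ⟶ A₁ ⊞ A₂) ⊗ₘ (biprod.inr : B₁ ⟶ B₂ ⊞ B₁)) +
      η₂ ≫ ((biprod.inr : A₂ ⟶ A₁ ⊞ A₂) ⊗ₘ (biprod.inl : B₂ ⟶ B₂ ⊞ B₁))) ≫
      biprod.snd ▷ (B₂ ⊞ B₁) = η₂ ≫ A₂ ◁ biprod.inl := by
  simp only [Preadditive.add_comp, Category.assoc, dcone_r1, biprod.inr_snd, biprod.inl_snd, dcone_zL, id_tensorHom,
    comp_zero, add_zero, zero_add]

lemma dcone_e1 {A₁ A₂ B₁ B₂ : E} (ε₁ : B₁ ⊗ A₁ ⟶ 𝟙_ E) (ε₂ : B₂ ⊗ A₂ ⟶ 𝟙_ E) :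
    (B₂ ⊞ B₁) ◁ biprod.inl ≫
    (((biprod.snd : B₂ ⊞ B₁ ⟶ B₁) ⊗ₘ (biprod.fst : A₁ ⊞ A₂ ⟶ A₁)) ≫ ε₁ +
      ((biprod.fst : B₂ ⊞ B₁ ⟶ B₂) ⊗ₘ (biprod.snd : A₁ ⊞ A₂ ⟶ A₂)) ≫ ε₂) =
      biprod.snd ▷ A₁ ≫ ε₁ := by
  simp only [Preadditive.comp_add, ← Category.assoc, dcone_l2, biprod.inl_fst, biprod.inl_snd, dcone_zR, tensorHom_id,
    zero_comp, add_zero, zero_add]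

lemma dcone_e2 {A₁ A₂ B₁ B₂ : E} (ε₁ : B₁ ⊗ A₁ ⟶ 𝟙_ E) (ε₂ : B₂ ⊗ A₂ ⟶ 𝟙_ E) :
    (B₂ ⊞ B₁) ◁ biprod.inr ≫
    (((biprod.snd : B₂ ⊞ B₁ ⟶ B₁) ⊗ₘ (biprod.fst : A₁ ⊞ A₂ ⟶ A₁)) ≫ ε₁ +
      ((biprod.fst : B₂ ⊞ B₁ ⟶ B₂) ⊗ₘ (biprod.snd : A₁ ⊞ A₂ ⟶ A₂)) ≫ ε₂) =
      biprod.fst ▷ A₂ ≫ ε₂ := by
  simp only [Preadditive.comp_add, ← Category.assoc, dcone_l2, biprod.inr_fst, biprod.inr_snd, dcone_zR, tensorHom_id,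
    zero_comp, add_zero, zero_add]

lemma dcone_e3 {A₁ A₂ B₁ B₂ : E} (ε₁ : B₁ ⊗ A₁ ⟶ 𝟙_ E) (ε₂ : B₂ ⊗ A₂ ⟶ 𝟙_ E) :
    (biprod.inr : B₁ ⟶ B₂ ⊞ B₁) ▷ (A₁ ⊞ A₂) ≫
    (((biprod.snd : B₂ ⊞ B₁ ⟶ B₁) ⊗ₘ (biprod.fst : A₁ ⊞ A₂ ⟶ A₁)) ≫ ε₁ +
      ((biprod.fst : B₂ ⊞ B₁ ⟶ B₂) ⊗ₘ (biprod.snd : A₁ ⊞ A₂ ⟶ A₂)) ≫ ε₂) =
      B₁ ◁ biprod.fst ≫ ε₁ := by
  simp only [Preadditive.comp_add, ← Category.assoc, dcone_l1, biprod.inr_fst, biprod.inr_snd, dcone_zL, id_tensorHom,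
    zero_comp, add_zero, zero_add]

lemma dcone_e4 {A₁ A₂ B₁ B₂ : E} (ε₁ : B₁ ⊗ A₁ ⟶ 𝟙_ E) (ε₂ : B₂ ⊗ A₂ ⟶ 𝟙_ E) :
    (biprod.inl : B₂ ⟶ B₂ ⊞ B₁) ▷ (A₁ ⊞ A₂) ≫
    (((biprod.snd : B₂ ⊞ B₁ ⟶ B₁) ⊗ₘ (biprod.fst : A₁ ⊞ A₂ ⟶ A₁)) ≫ ε₁ +
      ((biprod.fst : B₂ ⊞ B₁ ⟶ B₂) ⊗ₘ (biprod.snd : A₁ ⊞ A₂ ⟶ A₂)) ≫ ε₂) =
      B₂ ◁ biprod.snd ≫ ε₂ := by
  simp only [Preadditive.comp_add, ← Category.assoc, dcone_l1, biprod.inl_fst, biprod.inl_snd, dcone_zL, id_tensorHom,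
    zero_comp, add_zero, zero_add]

lemma dcone_tri1 {A₁ A₂ B₁ B₂ : E} [ExactPairing A₁ B₁] [ExactPairing A₂ B₂]
    {c : 𝟙_ E ⟶ (A₁ ⊞ A₂) ⊗ (B₂ ⊞ B₁)} {e : (B₂ ⊞ B₁) ⊗ (A₁ ⊞ A₂) ⟶ 𝟙_ E}
    (hc : c = η_ A₁ B₁ ≫ ((biprod.inl : A₁ ⟶ A₁ ⊞ A₂) ⊗ₘ (biprod.inr : B₁ ⟶ B₂ ⊞ B₁)) +
      η_ A₂ B₂ ≫ ((biprod.inr : A₂ ⟶ A₁ ⊞ A₂) ⊗ₘ (biprod.inl : B₂ ⟶ B₂ ⊞ B₁)))
    (he : e = ((biprod.snd : B₂ ⊞ B₁ ⟶ B₁) ⊗ₘ (biprod.fst : A₁ ⊞ A₂ ⟶ A₁)) ≫ ε_ A₁ B₁ +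
      ((biprod.fst : B₂ ⊞ B₁ ⟶ B₂) ⊗ₘ (biprod.snd : A₁ ⊞ A₂ ⟶ A₂)) ≫ ε_ A₂ B₂) :
    c ▷ (A₁ ⊞ A₂) ≫ (α_ _ _ _).hom ≫ (A₁ ⊞ A₂) ◁ e = (λ_ (A₁ ⊞ A₂)).hom ≫ (ρ_ _).inv := by
  apply dcone_extL
  · exact dcone_zig _ biprod.snd c e (by rw [hc, dcone_c1]) (by rw [he, dcone_e1])
  · exact dcone_zig _ biprod.fst c e (by rw [hc, dcone_c2]) (by rw [he, dcone_e2])

lemma dcone_tri2 {A₁ A₂ B₁ B₂ : E} [ExactPairing A₁ B₁] [ExactPairing A₂ B₂]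
    {c : 𝟙_ E ⟶ (A₁ ⊞ A₂) ⊗ (B₂ ⊞ B₁)} {e : (B₂ ⊞ B₁) ⊗ (A₁ ⊞ A₂) ⟶ 𝟙_ E}
    (hc : c = η_ A₁ B₁ ≫ ((biprod.inl : A₁ ⟶ A₁ ⊞ A₂) ⊗ₘ (biprod.inr : B₁ ⟶ B₂ ⊞ B₁)) +
      η_ A₂ B₂ ≫ ((biprod.inr : A₂ ⟶ A₁ ⊞ A₂) ⊗ₘ (biprod.inl : B₂ ⟶ B₂ ⊞ B₁)))
    (he : e = ((biprod.snd : B₂ ⊞ B₁ ⟶ B₁) ⊗ₘ (biprod.fst : A₁ ⊞ A₂ ⟶ A₁)) ≫ ε_ A₁ B₁ +
      ((biprod.fst : B₂ ⊞ B₁ ⟶ B₂) ⊗ₘ (biprod.snd : A₁ ⊞ A₂ ⟶ A₂)) ≫ ε_ A₂ B₂) :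
    (B₂ ⊞ B₁) ◁ c ≫ (α_ _ _ _).inv ≫ e ▷ (B₂ ⊞ B₁) = (ρ_ (B₂ ⊞ B₁)).hom ≫ (λ_ _).inv := by
  apply dcone_extR
  · exact dcone_zag _ biprod.snd c e (by rw [hc, dcone_c4]) (by rw [he, dcone_e4])
  · exact dcone_zag _ biprod.fst c e (by rw [hc, dcone_c3]) (by rw [he, dcone_e3])

end dconeAux

variable {C : Type u} [Category.{v} C] [Preadditive C] [HasBinaryBiproducts C] [CharTwo C]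
  [MonoidalCategory C] [MonoidalPreadditive C]

/-- The cone of a morphism of rigid objects is rigid. -/
theorem D.exactPairing_cone {A₁ B₁ A₂ B₂ : D C} [ExactPairing A₁ B₁] [ExactPairing A₂ B₂]
    (f : A₁ ⟶ A₂) : ∃ g : B₂ ⟶ B₁, Nonempty (ExactPairing (D.cone f) (D.cone g)) := by
  let _ : HasRightDual A₁ := ⟨B₁⟩
  let _ : HasRightDual A₂ := ⟨B₂⟩
  obtain ⟨g, hg⟩ : ∃ g : B₂ ⟶ B₁, g = rightAdjointMate f := ⟨_, rfl⟩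
  have m1 : η_ A₂ B₂ ≫ A₂ ◁ g = η_ A₁ B₁ ≫ f ▷ B₁ := by
    rw [hg]; exact coevaluation_comp_rightAdjointMate f
  have m2 : g ▷ A₁ ≫ ε_ A₁ B₁ = B₂ ◁ f ≫ ε_ A₂ B₂ := by
    rw [hg]; exact rightAdjointMate_comp_evaluation f
  have u1 : (η_ A₁ B₁).f ≫ (A₁.d ▷ B₁.X + A₁.X ◁ B₁.d) = 0 := by
    have := D.comm' (η_ A₁ B₁)
    simpa using this
  have u2 : (η_ A₂ B₂).f ≫ (A₂.d ▷ B₂.X + A₂.X ◁ B₂.d) = 0 := by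
    have := D.comm' (η_ A₂ B₂)
    simpa using this
  have v1 : (B₁.d ▷ A₁.X + B₁.X ◁ A₁.d) ≫ (ε_ A₁ B₁).f = 0 := by
    have := D.comm' (ε_ A₁ B₁)
    simpa using this.symm
  have v2 : (B₂.d ▷ A₂.X + B₂.X ◁ A₂.d) ≫ (ε_ A₂ B₂).f = 0 := by
    have := D.comm' (ε_ A₂ B₂)
    simpa using this.symm
  have n1 : (η_ A₂ B₂).f ≫ A₂.X ◁ g.f = (η_ A₁ B₁).f ≫ f.f ▷ B₁.X := congrArg D.Hom.f m1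
  have n2 : g.f ▷ A₁.X ≫ (ε_ A₁ B₁).f = B₂.X ◁ f.f ≫ (ε_ A₂ B₂).f := congrArg D.Hom.f m2
  refine ⟨g, ⟨?_⟩⟩
  let _ : ExactPairing A₁.X B₁.X :=
    { coevaluation' := (η_ A₁ B₁).f
      evaluation' := (ε_ A₁ B₁).f
      coevaluation_evaluation' := congrArg D.Hom.f (ExactPairing.coevaluation_evaluation A₁ B₁)
      evaluation_coevaluation' := congrArg D.Hom.f (ExactPairing.evaluation_coevaluation A₁ B₁) }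
  let _ : ExactPairing A₂.X B₂.X :=
    { coevaluation' := (η_ A₂ B₂).f
      evaluation' := (ε_ A₂ B₂).f
      coevaluation_evaluation' := congrArg D.Hom.f (ExactPairing.coevaluation_evaluation A₂ B₂)
      evaluation_coevaluation' := congrArg D.Hom.f (ExactPairing.evaluation_coevaluation A₂ B₂) }
  refine
    { coevaluation' :=
        { f := (η_ A₁ B₁).f ≫ (biprod.inl ⊗ₘ biprod.inr) + (η_ A₂ B₂).f ≫ (biprod.inr ⊗ₘ biprod.inl)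
          comm := ?_ }
      evaluation' :=
        { f := (biprod.snd ⊗ₘ biprod.fst) ≫ (ε_ A₁ B₁).f + (biprod.fst ⊗ₘ biprod.snd) ≫ (ε_ A₂ B₂).f
          comm := ?_ }
      coevaluation_evaluation' := ?_
      evaluation_coevaluation' := ?_ }
  · exact (dcone_coev u1 u2 n1).trans zero_comp.symm
  · exact comp_zero.trans (dcone_ev v1 v2 n2).symm
  · exact D.hom_ext _ _ (dcone_tri2 rfl rfl)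
  · exact D.hom_ext _ _ (dcone_tri1 rfl rfl)

end Pool.Agent.H939.TT
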