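import Pool.Agent.H939.TT.KFun

/-!
# Coproducts in the homotopy category
-/

namespace Pool.Agent.H939.TT

open CategoryTheory CategoryTheory.Limits CategoryTheory.MonoidalCategory
open CategoryTheory.Pretriangulated

universe w v u v' u'

variable {C : Type u} [Category.{v} C] [Preadditive C]

/-- A cofan of differential objects which is colimit in `C` is colimit up to homotopy. -/
theorem KCo_isColimit {J : Type w} (A : J → D C) (S : D C) (ι : ∀ j, A j ⟶ S)
    (h : IsColimit (Cofan.mk S.X (fun j => (ι j).f))) :
    Nonempty (IsColimit (Cofan.mk ((Q C).obj S) (fun j => (Q C).map (ι j)))) := by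
  have hfac : ∀ {Z : C} (g : ∀ j, (A j).X ⟶ Z) (j : J),
      (ι j).f ≫ Cofan.IsColimit.desc h g = g j := fun g j => Cofan.IsColimit.fac h g j
  have hext : ∀ {Z : C} {f g : S.X ⟶ Z}, (∀ j, (ι j).f ≫ f = (ι j).f ≫ g) → f = g :=
    fun H => Cofan.IsColimit.hom_ext h _ _ H
  have hrep : ∀ (t : Cofan (fun j => (Q C).obj (A j))) (j : J),
      ∃ g : A j ⟶ t.pt.as, t.inj j = (Q C).map g := fun t j =>
    Q_map_surjective (A := A j) (B := t.pt.as) (t.inj j)
  choose g hg using hrep
  have hcomm : ∀ (t : Cofan (fun j => (Q C).obj (A j))),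
      Cofan.IsColimit.desc h (fun j => (g t j).f) ≫ t.pt.as.d =
        S.d ≫ Cofan.IsColimit.desc h (fun j => (g t j).f) := by
    intro t
    refine hext fun j => ?_
    rw [← Category.assoc, hfac, D.comm', ← Category.assoc, D.comm', Category.assoc, hfac]
  let m : ∀ t : Cofan (fun j => (Q C).obj (A j)), S ⟶ t.pt.as := fun t =>
    { f := Cofan.IsColimit.desc h (fun j => (g t j).f), comm := hcomm t }
  have hm : ∀ (t : Cofan (fun j => (Q C).obj (A j))) (j : J), ι j ≫ m t = g t j := fun t j =>
    D.hom_ext _ _ (hfac _ j)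
  have hfac' : ∀ (t : Cofan (fun j => (Q C).obj (A j))) (j : J),
      (Q C).map (ι j) ≫ (Q C).map (m t) = t.inj j := by
    intro t j
    rw [← (Q C).map_comp, hm, hg]
  refine ⟨Cofan.IsColimit.mk _ (fun t => (Q C).map (m t)) (fun t j => hfac' t j) ?_⟩
  intro t m' hm'
  obtain ⟨n, hn⟩ := Q_map_surjective (A := S) (B := t.pt.as) m'
  rw [hn]
  have hq : ∀ j, (Q C).map (ι j ≫ n) = (Q C).map (ι j ≫ m t) := by
    intro j
    have h1 : (Q C).map (ι j) ≫ m' = t.inj j := hm' j
    rw [(Q C).map_comp, (Q C).map_comp, ← hn]
    exact h1.trans (hfac' t j).symm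
  have hq' := fun j => Q_map_eq.1 (hq j)
  choose k hk using hq'
  refine Q_map_eq.2 ⟨Cofan.IsColimit.desc h k, hext fun j => ?_⟩
  have h2 := hk j
  rw [D.comp_f, D.comp_f] at h2
  rw [Preadditive.comp_sub, h2, Preadditive.comp_add, ← Category.assoc, hfac, ← Category.assoc,
    D.comm', Category.assoc, hfac]

section

variable {J : Type w} (A : J → D C) [HasCoproduct (fun j => (A j).X)]

/-- the coproduct of differential objects -/
@[simps] noncomputable def D.sigma : D C where
  X := ∐ fun j => (A j).X
  d := Limits.Sigma.map fun j => (A j).d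
  d2 := by
    ext j
    simp

/-- the inclusions in the coproduct of differential objects -/
@[simps] noncomputable def D.sigmaι (j : J) : A j ⟶ D.sigma A where
  f := Limits.Sigma.ι (fun j => (A j).X) j
  comm := by
    dsimp only [D.sigma]
    simp

/-- `D.sigma` is a coproduct in the homotopy category. -/
theorem K.nonempty_isColimit_sigma :
    Nonempty (IsColimit (Cofan.mk ((Q C).obj (D.sigma A)) (fun j => (Q C).map (D.sigmaι A j)))) := by
  exact KCo_isColimit A (D.sigma A) (D.sigmaι A) (coproductIsCoproduct (fun j => (A j).X))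

end

instance [HasCoproducts.{w} C] : HasCoproducts.{w} (K C) := by
  exact hasCoproducts_of_colimit_cofans
    (fun {J} f => Cofan.mk ((Q C).obj (D.sigma (fun j : J => (f j).as)))
      (fun j => (Q C).map (D.sigmaι (fun j : J => (f j).as) j)))
    (fun {J} f => (K.nonempty_isColimit_sigma (fun j : J => (f j).as)).some)

/-- A functor which preserves the coproducts induces a functor on homotopy categories which
preserves the coproducts. -/
theorem K.preserves_mapF {C' : Type u'} [Category.{v'} C'] [Preadditive C'] [HasCoproducts.{w} C]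
    [HasCoproducts.{w} C'] (F : C ⥤ C') [F.Additive] (J : Type w)
    [PreservesColimitsOfShape (Discrete J) F] :
    PreservesColimitsOfShape (Discrete J) (K.mapF F) := by
  have key : ∀ f : J → K C, PreservesColimit (Discrete.functor f) (K.mapF F) := by
    intro f
    obtain ⟨h1⟩ := K.nonempty_isColimit_sigma (fun j : J => (f j).as)
    refine preservesColimit_of_preserves_colimit_cocone h1 ?_
    refine (isColimitMapCoconeCofanMkEquiv (K.mapF F) f _).symm ?_
    have h2 : IsColimit (Cofan.mk (F.obj (∐ fun j => (f j).as.X))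
        (fun j => F.map (Limits.Sigma.ι (fun j => (f j).as.X) j))) :=
      isColimitOfHasCoproductOfPreservesColimit F (fun j => (f j).as.X)
    exact (KCo_isColimit (fun j => (D.mapF F).obj (f j).as)
      ((D.mapF F).obj (D.sigma (fun j : J => (f j).as)))
      (fun j => (D.mapF F).map (D.sigmaι (fun j : J => (f j).as) j)) h2).some
  exact preservesColimitsOfShape_of_discrete _

instance K.preserves_tensorLeft [HasCoproducts.{w} C] [CharTwo C] [MonoidalCategory C]
    [MonoidalPreadditive C] (J : Type w)
    [∀ X : C, PreservesColimitsOfShape (Discrete J) (tensorLeft X)]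
    [∀ X : C, PreservesColimitsOfShape (Discrete J) (tensorRight X)] (A : K C) :
    PreservesColimitsOfShape (Discrete J) (tensorLeft A) := by
  have key : ∀ f : J → K C, PreservesColimit (Discrete.functor f) (tensorLeft A) := by
    intro f
    obtain ⟨h1⟩ := K.nonempty_isColimit_sigma (fun j : J => (f j).as)
    refine preservesColimit_of_preserves_colimit_cocone h1 ?_
    refine (isColimitMapCoconeCofanMkEquiv (tensorLeft A) f _).symm ?_
    have h2 : IsColimit (Cofan.mk ((tensorLeft A.as.X).obj (∐ fun j => (f j).as.X))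
        (fun j => (tensorLeft A.as.X).map (Limits.Sigma.ι (fun j => (f j).as.X) j))) :=
      isColimitOfHasCoproductOfPreservesColimit (tensorLeft A.as.X) (fun j => (f j).as.X)
    exact (KCo_isColimit (fun j => A.as ⊗ (f j).as)
      (A.as ⊗ (D.sigma (fun j : J => (f j).as)))
      (fun j => A.as ◁ (D.sigmaι (fun j : J => (f j).as) j)) h2).some
  exact preservesColimitsOfShape_of_discrete _

end Pool.Agent.H939.TT
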