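import Pool.Agent.H939.TT.FC
import Pool.Agent.H939.TT.KCo
import Pool.Graph.R_pool_sql_team_seeded_620a6dc7.Helper609_TT.Cpt

/-!
# Compact objects of `K (FC A)`
-/

namespace Pool.Agent.H939.TT

open CategoryTheory CategoryTheory.Limits CategoryTheory.MonoidalCategory DirectSum
open Pool.Agent.Helper609_TT

universe v u u'

attribute [local instance] Classical.decEq

namespace FC

variable {A : Type u} [Category.{0} A] [Preadditive A]

/-! ### projections of the formal coproduct -/

lemma cptPush_zero {Y Z : FC A} {a : A} (x : El a Y) : push (0 : Y ⟶ Z) x = 0 := by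
  induction x using El.induction with
  | h0 => simp
  | h1 j w => rw [push_of, zero_app, map_zero]
  | h2 x y hx hy => rw [map_add, hx, hy, add_zero]

/-- the projection to a summand -/
noncomputable def cptπ {J : Type} (Y : J → FC A) (j : J) : sigma Y ⟶ Y j :=
  sigmaDesc (fun j' => if h : j' = j then eqToHom (by rw [h]) else 0)

lemma cptι_π {J : Type} (Y : J → FC A) (j : J) : sigmaι Y j ≫ cptπ Y j = 𝟙 _ := by
  unfold cptπ
  rw [sigmaι_desc, dif_pos rfl, eqToHom_refl]

lemma cptι_π_ne {J : Type} (Y : J → FC A) {j j' : J} (h : j' ≠ j) :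
    sigmaι Y j' ≫ cptπ Y j = 0 := by
  unfold cptπ
  rw [sigmaι_desc, dif_neg h]

lemma cpt_of {J : Type} (Y : J → FC A) {a : A} (j : J) (i : (Y j).ι) (u : a ⟶ (Y j).obj i) :
    of (sigma Y) ⟨j, i⟩ u = push (sigmaι Y j) (of (Y j) i u) := by
  rw [push_of, sigmaι_app]
  refine Eq.trans ?_ (act_of (Y := sigma Y) u ⟨j, i⟩ (𝟙 _)).symm
  exact congrArg _ (Category.comp_id u).symm

lemma cpt_push {J : Type} (Y : J → FC A) {a : A} (j j' : J) (x : El a (Y j')) :
    push (cptπ Y j ≫ sigmaι Y j) (push (sigmaι Y j') x) =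
      if j = j' then push (sigmaι Y j') x else 0 := by
  rw [← push_comp, ← Category.assoc]
  by_cases h : j = j'
  · subst h
    rw [if_pos rfl, cptι_π, Category.id_comp]
  · rw [if_neg h, cptι_π_ne Y (fun h' => h h'.symm), zero_comp, cptPush_zero]

/-- an element of the coproduct is a finite sum of its components -/
lemma cpt_fin {J : Type} (Y : J → FC A) {a : A} (x : El a (sigma Y)) :
    ∃ s : Finset J, ∀ s' : Finset J, s ⊆ s' →
      x = ∑ j ∈ s', push (cptπ Y j ≫ sigmaι Y j) x := by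
  induction x using El.induction with
  | h0 => exact ⟨∅, fun s' _ => by simp⟩
  | h1 p u =>
    obtain ⟨j', i⟩ := p
    refine ⟨{j'}, fun s' hs => ?_⟩
    have hj : j' ∈ s' := hs (Finset.mem_singleton_self j')
    rw [cpt_of, Finset.sum_congr rfl (fun j _ => cpt_push Y j j' _), Finset.sum_ite_eq_of_mem']
    exact hj
  | h2 x y hx hy =>
    obtain ⟨s, hs⟩ := hx
    obtain ⟨t, ht⟩ := hy
    refine ⟨s ∪ t, fun s' hs' => ?_⟩
    have h1 := hs s' (Finset.union_subset_left hs')
    have h2 := ht s' (Finset.union_subset_right hs')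
    rw [Finset.sum_congr rfl (fun j _ => map_add (push (cptπ Y j ≫ sigmaι Y j)) x y),
      Finset.sum_add_distrib, ← h1, ← h2]

/-! ### the coproduct of differential objects -/

/-- the coproduct of differential objects -/
noncomputable def cptS {J : Type} (Y : J → D (FC A)) : D (FC A) where
  X := sigma (fun j => (Y j).X)
  d := sigmaDesc (fun j => (Y j).d ≫ sigmaι (fun j => (Y j).X) j)
  d2 := by
    refine sigma_hom_ext fun j => ?_
    rw [← Category.assoc, sigmaι_desc, Category.assoc, sigmaι_desc, ← Category.assoc, D.d2,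
      zero_comp, comp_zero]

lemma cptS_d {J : Type} (Y : J → D (FC A)) (j : J) :
    sigmaι (fun j => (Y j).X) j ≫ sigmaDesc (fun j => (Y j).d ≫ sigmaι (fun j => (Y j).X) j) =
      (Y j).d ≫ sigmaι (fun j => (Y j).X) j :=
  sigmaι_desc (fun j => (Y j).d ≫ sigmaι (fun j => (Y j).X) j) j

lemma cptπ_comm {J : Type} (Y : J → D (FC A)) (j : J) :
    cptπ (fun j => (Y j).X) j ≫ (Y j).d =
      sigmaDesc (fun j => (Y j).d ≫ sigmaι (fun j => (Y j).X) j) ≫ cptπ (fun j => (Y j).X) j := by
  refine sigma_hom_ext fun j' => ?_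
  rw [← Category.assoc, ← Category.assoc, cptS_d]
  by_cases h : j' = j
  · subst h
    rw [cptι_π (fun j => (Y j).X), Category.id_comp, Category.assoc, cptι_π (fun j => (Y j).X),
      Category.comp_id]
  · rw [cptι_π_ne (fun j => (Y j).X) h, zero_comp, Category.assoc,
      cptι_π_ne (fun j => (Y j).X) h, comp_zero]

/-- the inclusions -/
noncomputable def cptι' {J : Type} (Y : J → D (FC A)) (j : J) : Y j ⟶ cptS Y where
  f := sigmaι (fun j => (Y j).X) j
  comm := cptS_d Y j

/-- the projections -/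
noncomputable def cptπ' {J : Type} (Y : J → D (FC A)) (j : J) : cptS Y ⟶ Y j where
  f := cptπ (fun j => (Y j).X) j
  comm := cptπ_comm Y j

lemma cpt_sum_f {X Y : D (FC A)} {J : Type} (s : Finset J) (g : J → (X ⟶ Y)) :
    (∑ j ∈ s, g j).f = ∑ j ∈ s, (g j).f := by
  classical
  induction s using Finset.induction_on with
  | empty => rfl
  | insert j s hj ih => rw [Finset.sum_insert hj, Finset.sum_insert hj, D.add_f, ih]

lemma cpt_sum_app {X Y : FC A} {J : Type} (s : Finset J) (g : J → (X ⟶ Y)) (i : X.ι) :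
    (∑ j ∈ s, g j).app i = ∑ j ∈ s, (g j).app i := by
  classical
  induction s using Finset.induction_on with
  | empty => rfl
  | insert j s hj ih => rw [Finset.sum_insert hj, Finset.sum_insert hj, add_app, ih]

lemma cpt_hom {J : Type} (Y : J → D (FC A)) {a : A} (m : D.ofObj (single a) ⟶ cptS Y) :
    ∃ s : Finset J, m = ∑ j ∈ s, (m ≫ cptπ' Y j) ≫ cptι' Y j := by
  obtain ⟨s, hs⟩ := cpt_fin (fun j => (Y j).X) (Hom.app m.f ())
  refine ⟨s, D.hom_ext _ _ ?_⟩
  rw [cpt_sum_f]
  refine hom_ext fun i => ?_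
  rw [cpt_sum_app]
  refine (hs s (Finset.Subset.refl _)).trans (Finset.sum_congr rfl fun j _ => ?_)
  exact push_comp (cptπ (fun j => (Y j).X) j) (sigmaι (fun j => (Y j).X) j) (Hom.app m.f ())

/-- The objects of `A` (with the zero differential) are compact in `K (FC A)`. -/
theorem isCpt_single (a : A) (J : Type) (X : J → K (FC A)) [HasCoproduct X]
    (f : (Q (FC A)).obj (D.ofObj (single a)) ⟶ ∐ X) :
    ∃ (s : Finset J) (g : ∀ j, (Q (FC A)).obj (D.ofObj (single a)) ⟶ X j),
      f = ∑ j ∈ s, g j ≫ Sigma.ι X j := by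
  let Y : J → D (FC A) := fun j => (X j).as
  obtain ⟨h⟩ := KCo_isColimit Y (cptS Y) (cptι' Y) (isColimitSigma (fun j => (Y j).X))
  let u : ∐ X ⟶ (Q (FC A)).obj (cptS Y) := Sigma.desc (fun j => (Q (FC A)).map (cptι' Y j))
  let v : (Q (FC A)).obj (cptS Y) ⟶ ∐ X := Cofan.IsColimit.desc h (fun j => Sigma.ι X j)
  have hv : ∀ j, (Q (FC A)).map (cptι' Y j) ≫ v = Sigma.ι X j := fun j =>
    Cofan.IsColimit.fac h (fun j => Sigma.ι X j) j
  have hu : ∀ j, Sigma.ι X j ≫ u = (Q (FC A)).map (cptι' Y j) := fun j => Limits.Sigma.ι_desc _ _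
  have huv : u ≫ v = 𝟙 _ := by
    refine Sigma.hom_ext _ _ fun j => ?_
    rw [← Category.assoc, hu, Category.comp_id]
    exact hv j
  obtain ⟨m, hm⟩ := Q_map_surjective (A := D.ofObj (single a)) (B := cptS Y) (f ≫ u)
  obtain ⟨s, hs⟩ := cpt_hom Y m
  refine ⟨s, fun j => (Q (FC A)).map (m ≫ cptπ' Y j), ?_⟩
  have h1 : f = (Q (FC A)).map m ≫ v := by
    rw [← hm, Category.assoc, huv, Category.comp_id]
  have h2 : (Q (FC A)).map m =
      ∑ j ∈ s, (Q (FC A)).map (m ≫ cptπ' Y j) ≫ (Q (FC A)).map (cptι' Y j) := by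
    conv_lhs => rw [hs]
    rw [Functor.map_sum]
    exact Finset.sum_congr rfl fun j _ => (Q (FC A)).map_comp _ _
  rw [h1, h2, Preadditive.sum_comp]
  refine Finset.sum_congr rfl fun j _ => ?_
  rw [Category.assoc, hv]
  rfl

end FC

end Pool.Agent.H939.TT

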