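import Pool.Agent.H939.TT.DTTensor
import Pool.Agent.H939.TT.DCone
import Pool.Agent.H939.TT.FCCpt
import Pool.Agent.H939.TT.AbsGen
import Pool.Graph.R_pool_sql_team_seeded_620a6dc7.Helper609_TT.Func

/-!
# `DT A` is rigidly-compactly generated
-/

set_option linter.unusedSectionVars false

namespace Pool.Agent.H939.TT

open CategoryTheory CategoryTheory.Limits CategoryTheory.MonoidalCategory
open CategoryTheory.Pretriangulated Pool.Agent.Helper609_TT

universe v u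

section DTGsum

attribute [local instance] Classical.decEq

variable {A : Type u} [Category.{0} A] [Preadditive A]

/-- the sum of two formal coproducts -/
abbrev DTG_sum (X Y : FC A) : FC A := ⟨X.ι ⊕ Y.ι, Sum.elim X.obj Y.obj⟩

/-- the first inclusion -/
noncomputable def DTG_inl (X Y : FC A) : X ⟶ DTG_sum X Y :=
  ⟨fun i => FC.of (DTG_sum X Y) (Sum.inl i) (𝟙 (X.obj i))⟩

/-- the second inclusion -/
noncomputable def DTG_inr (X Y : FC A) : Y ⟶ DTG_sum X Y :=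
  ⟨fun j => FC.of (DTG_sum X Y) (Sum.inr j) (𝟙 (Y.obj j))⟩

/-- morphisms out of the sum -/
noncomputable def DTG_desc {X Y Z : FC A} (f : X ⟶ Z) (g : Y ⟶ Z) : DTG_sum X Y ⟶ Z :=
  ⟨fun p => Sum.rec (motive := fun p => FC.El ((DTG_sum X Y).obj p) Z) f.app g.app p⟩

lemma DTG_inl_comp {X Y Z : FC A} (f : DTG_sum X Y ⟶ Z) (i : X.ι) :
    (DTG_inl X Y ≫ f).app i = f.app (Sum.inl i) := by
  refine (FC.push_of (Y := DTG_sum X Y) f (Sum.inl i) (𝟙 (X.obj i))).trans ?_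
  exact FC.act_id _

lemma DTG_inr_comp {X Y Z : FC A} (f : DTG_sum X Y ⟶ Z) (j : Y.ι) :
    (DTG_inr X Y ≫ f).app j = f.app (Sum.inr j) := by
  refine (FC.push_of (Y := DTG_sum X Y) f (Sum.inr j) (𝟙 (Y.obj j))).trans ?_
  exact FC.act_id _

lemma DTG_inl_desc {X Y Z : FC A} (f : X ⟶ Z) (g : Y ⟶ Z) :
    DTG_inl X Y ≫ DTG_desc f g = f := FC.hom_ext fun i => DTG_inl_comp _ i

lemma DTG_inr_desc {X Y Z : FC A} (f : X ⟶ Z) (g : Y ⟶ Z) :
    DTG_inr X Y ≫ DTG_desc f g = g := FC.hom_ext fun j => DTG_inr_comp _ j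

lemma DTG_hom_ext {X Y Z : FC A} {f g : DTG_sum X Y ⟶ Z}
    (h1 : DTG_inl X Y ≫ f = DTG_inl X Y ≫ g) (h2 : DTG_inr X Y ≫ f = DTG_inr X Y ≫ g) :
    f = g := by
  refine FC.hom_ext fun p => ?_
  rcases p with i | j
  · rw [← DTG_inl_comp, h1, DTG_inl_comp]
  · rw [← DTG_inr_comp, h2, DTG_inr_comp]

/-- the biproduct is the sum -/
noncomputable def DTG_biprodIso (X Y : FC A) : X ⊞ Y ≅ DTG_sum X Y where
  hom := biprod.desc (DTG_inl X Y) (DTG_inr X Y)
  inv := DTG_desc biprod.inl biprod.inr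
  hom_inv_id := by
    refine biprod.hom_ext' _ _ ?_ ?_
    · rw [biprod.inl_desc_assoc, DTG_inl_desc, Category.comp_id]
    · rw [biprod.inr_desc_assoc, DTG_inr_desc, Category.comp_id]
  inv_hom_id := by
    refine DTG_hom_ext ?_ ?_
    · rw [← Category.assoc, DTG_inl_desc, biprod.inl_desc, Category.comp_id]
    · rw [← Category.assoc, DTG_inr_desc, biprod.inr_desc, Category.comp_id]

lemma DTG_of_eq {Y : FC A} {i j : Y.ι} (h : j = i) (p : Y.obj i = Y.obj j) :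
    FC.of Y j (eqToHom p) = FC.of Y i (𝟙 _) := by
  subst h
  rfl

/-- change of the index type -/
noncomputable def DTG_reindex (X : FC A) {I : Type} (e : X.ι ≃ I) :
    X ≅ ⟨I, fun i => X.obj (e.symm i)⟩ where
  hom := ⟨fun i => FC.of (⟨I, fun i => X.obj (e.symm i)⟩ : FC A) (e i)
    (eqToHom (congrArg X.obj (e.symm_apply_apply i)).symm)⟩
  inv := ⟨fun i => FC.of X (e.symm i) (𝟙 _)⟩
  hom_inv_id := FC.hom_ext fun i => by
    refine (FC.push_of (Y := (⟨I, fun i => X.obj (e.symm i)⟩ : FC A)) _ (e i) _).trans ?_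
    refine (FC.act_of _ _ _).trans ?_
    rw [Category.comp_id]
    exact DTG_of_eq (e.symm_apply_apply i) _
  inv_hom_id := FC.hom_ext fun i => by
    refine (FC.push_of _ _ _).trans ?_
    refine (FC.act_id _).trans ?_
    exact DTG_of_eq (Y := (⟨I, fun i => X.obj (e.symm i)⟩ : FC A)) (e.apply_symm_apply i) _

end DTGsum

section DTGtransport

variable {C : Type u} [Category.{v} C] [Preadditive C]

/-- transport of a differential object along an isomorphism -/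
abbrev DTG_tr (M : D C) {Z : C} (e : M.X ≅ Z) : D C where
  X := Z
  d := e.inv ≫ M.d ≫ e.hom
  d2 := by simp

/-- the transported object is isomorphic -/
def DTG_trIso (M : D C) {Z : C} (e : M.X ≅ Z) : M ≅ DTG_tr M e :=
  D.mkIso e (by simp)

end DTGtransport

section DTGzero

variable {C : Type u} [Category.{v} C] [Preadditive C] [MonoidalCategory C]

/-- zero objects are rigid -/
lemma DTG_zero {M N : C} (hM : IsZero M) (hN : IsZero N) : Nonempty (ExactPairing M N) := by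
  refine ⟨{ coevaluation' := 0, evaluation' := 0, coevaluation_evaluation' := ?_,
            evaluation_coevaluation' := ?_ }⟩
  · exact (hN.of_iso (ρ_ N)).eq_of_src _ _
  · exact (hM.of_iso (λ_ M)).eq_of_src _ _

end DTGzero

section

variable {A : Type} [Category.{0} A] [Preadditive A] [CharTwo A]
  [MonoidalCategory A] [MonoidalPreadditive A] [SymmetricCategory A]

/-- The finite rigid objects of `DT A`. -/
def dtR : ObjectProperty (DT A) := fun X => ∃ M N : D (FC A), locP A ((Q (FC A)).obj M) ∧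
  locP A ((Q (FC A)).obj N) ∧ Finite M.X.ι ∧ Finite N.X.ι ∧ Nonempty (ExactPairing M N) ∧
  Nonempty (X.obj ≅ (Q (FC A)).obj M)

lemma DTG_iso {X Y : DT A} (e : X ≅ Y) (h : dtR X) : dtR Y := by
  obtain ⟨M, N, hM, hN, fM, fN, p, ⟨i⟩⟩ := h
  exact ⟨M, N, hM, hN, fM, fN, p, ⟨((locP A).ι.mapIso e).symm ≪≫ i⟩⟩

lemma DTG_hzero (X : DT A) (hX : IsZero X) : dtR X := by
  have h0 : IsZero (D.ofObj (⟨Empty, isEmptyElim⟩ : FC A)) := by
    rw [IsZero.iff_id_eq_zero]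
    refine D.hom_ext _ _ ?_
    exact (FC.isZero_of_isEmpty (⟨Empty, isEmptyElim⟩ : FC A)).eq_of_src _ _
  have h1 : IsZero ((Q (FC A)).obj (D.ofObj (⟨Empty, isEmptyElim⟩ : FC A))) :=
    (Q (FC A)).map_isZero h0
  have h2 : IsZero X.obj := (locP A).ι.map_isZero hX
  have e : X.obj ≅ (Q (FC A)).obj (D.ofObj (⟨Empty, isEmptyElim⟩ : FC A)) := h2.iso h1
  have h3 : locP A ((Q (FC A)).obj (D.ofObj (⟨Empty, isEmptyElim⟩ : FC A))) :=
    (isLocS_locP A).iso e X.property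
  exact ⟨_, _, h3, h3, inferInstanceAs (Finite Empty), inferInstanceAs (Finite Empty),
    DTG_zero h0 h0, ⟨e⟩⟩

lemma DTG_hshift (X : DT A) (n : ℤ) (h : dtR X) : dtR (X⟦n⟧) := by
  obtain ⟨M, N, hM, hN, fM, fN, p, ⟨i⟩⟩ := h
  have e : (X⟦n⟧).obj ≅ X.obj := ((locP A).ι.commShiftIso n).app X
  exact ⟨M, N, hM, hN, fM, fN, p, ⟨e ≪≫ i⟩⟩

/-- finite rigid differential objects -/
lemma DTG_hrig (X : DT A) (h : dtR X) : ∃ Y : DT A, Nonempty (ExactPairing X Y) := by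
  obtain ⟨M, N, hM, hN, fM, fN, ⟨p⟩, ⟨i⟩⟩ := h
  let M' : DT A := ⟨(Q (FC A)).obj M, hM⟩
  let N' : DT A := ⟨(Q (FC A)).obj N, hN⟩
  let p1 : ExactPairing ((Q (FC A)).obj M) ((Q (FC A)).obj N) := mapExactPairing (Q (FC A)) M N
  let p2 : ExactPairing ((locP A).ι.obj M') ((locP A).ι.obj N') := p1
  let p3 : ExactPairing M' N' := ExactPairing.ofFullyFaithful (locP A).ι M' N'
  have e : X ≅ M' := (locP A).isoMk i
  exact ⟨N', ⟨exactPairingCongrLeft e⟩⟩

/-- cones -/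
lemma DTG_hext (T : Triangle (DT A)) (hT : T ∈ distTriang (DT A)) (h1 : dtR T.obj₁)
    (h3 : dtR T.obj₃) : dtR T.obj₂ := by
  obtain ⟨M1, N1, hM1, hN1, fM1, fN1, ⟨p1⟩, ⟨i1⟩⟩ := h1
  obtain ⟨M3, N3, hM3, hN3, fM3, fN3, ⟨p3⟩, ⟨i3⟩⟩ := h3
  have hT1 : (locP A).ι.mapTriangle.obj T ∈ distTriang (K (FC A)) :=
    (locP A).ι.map_distinguished T hT
  have hT2 := inv_rot_of_distTriang _ hT1
  let e1 : ((locP A).ι.mapTriangle.obj T).invRotate.obj₁ ≅ (Q (FC A)).obj M3 := i3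
  let e2 : ((locP A).ι.mapTriangle.obj T).invRotate.obj₂ ≅ (Q (FC A)).obj M1 := i1
  obtain ⟨f, hf⟩ := Q_map_surjective
    (e1.inv ≫ ((locP A).ι.mapTriangle.obj T).invRotate.mor₁ ≫ e2.hom)
  have e := isoTriangleOfIso₁₂ ((locP A).ι.mapTriangle.obj T).invRotate (coneTri f) hT2
    (coneTri_mem f) e1 e2 (by
      show _ = e1.hom ≫ (Q (FC A)).map f
      rw [← hf]
      exact (Iso.hom_inv_id_assoc e1 _).symm)
  have e3 : T.obj₂.obj ≅ (Q (FC A)).obj (D.cone f) := Triangle.π₃.mapIso e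
  obtain ⟨g, ⟨pc⟩⟩ := D.exactPairing_cone (A₁ := M3) (B₁ := N3) (A₂ := M1) (B₂ := N1) f
  let iM : (D.cone f).X ≅ DTG_sum M3.X M1.X := DTG_biprodIso M3.X M1.X
  let iN : (D.cone g).X ≅ DTG_sum N1.X N3.X := DTG_biprodIso N1.X N3.X
  have e4 : T.obj₂.obj ≅ (Q (FC A)).obj (DTG_tr (D.cone f) iM) :=
    e3 ≪≫ (Q (FC A)).mapIso (DTG_trIso (D.cone f) iM)
  have h5 : locP A ((Q (FC A)).obj (D.cone g)) :=
    (isLocS_locP A).ext₂ (coneTri g).rotate (rot_of_distTriang _ (coneTri_mem g)) hN3 hN1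
  refine ⟨DTG_tr (D.cone f) iM, DTG_tr (D.cone g) iN, (isLocS_locP A).iso e4 T.obj₂.property,
    (isLocS_locP A).iso ((Q (FC A)).mapIso (DTG_trIso (D.cone g) iN)) h5, ?_, ?_, ?_, ⟨e4⟩⟩
  · exact inferInstanceAs (Finite (M3.X.ι ⊕ M1.X.ι))
  · exact inferInstanceAs (Finite (N1.X.ι ⊕ N3.X.ι))
  · exact ⟨exactPairingCongr (DTG_trIso (D.cone f) iM).symm (DTG_trIso (D.cone g) iN).symm⟩

/-- the unit is compact -/
lemma DTG_hunit : IsCpt (𝟙_ (DT A)) := by
  intro J X _ f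
  obtain ⟨s, g, hg⟩ := FC.isCpt_single (A := A) (𝟙_ A) J (fun j => (locP A).ι.obj (X j))
    ((locP A).ι.map f ≫ (PreservesCoproduct.iso (locP A).ι X).hom)
  refine ⟨s, fun j => ObjectProperty.homMk (g j), ?_⟩
  apply (locP A).ι.map_injective
  have h0 : (locP A).ι.map f = ((locP A).ι.map f ≫ (PreservesCoproduct.iso (locP A).ι X).hom) ≫
      (PreservesCoproduct.iso (locP A).ι X).inv := by
    rw [Category.assoc, Iso.hom_inv_id, Category.comp_id]
  have h1 : (locP A).ι.map f = (∑ j ∈ s, g j ≫ Sigma.ι (fun j => (locP A).ι.obj (X j)) j) ≫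
      (PreservesCoproduct.iso (locP A).ι X).inv :=
    h0.trans (congrArg (· ≫ (PreservesCoproduct.iso (locP A).ι X).inv) hg)
  rw [h1, Functor.map_sum, Preadditive.sum_comp]
  refine Finset.sum_congr rfl fun j _ => ?_
  rw [Category.assoc, PreservesCoproduct.inv_hom, ι_comp_sigmaComparison, Functor.map_comp]
  rfl

lemma DTG_emb (hrig : ∀ a : A, ∃ b : A, Nonempty (ExactPairing a b)) (a : A) :
    dtR (⟨(emb A).obj a, locP_emb A a⟩ : DT A) := by
  obtain ⟨b, ⟨p⟩⟩ := hrig a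
  exact ⟨(FC.inc A ⋙ D.inc (FC A)).obj a, (FC.inc A ⋙ D.inc (FC A)).obj b, locP_emb A a,
    locP_emb A b, inferInstanceAs (Finite Unit), inferInstanceAs (Finite Unit),
    ⟨mapExactPairing (FC.inc A ⋙ D.inc (FC A)) a b⟩, ⟨Iso.refl _⟩⟩

/-- localizing subcategories of `DT A` give localizing subcategories of `K (FC A)` -/
lemma DTG_locS (L : ObjectProperty (DT A)) (hL : IsLocS L) :
    IsLocS (fun Y : K (FC A) => ∃ hY : locP A Y, L ⟨Y, hY⟩) where
  iso {X Y} e := by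
    rintro ⟨h1, h2⟩
    have h3 : locP A Y := (isLocS_locP A).iso e h1
    exact ⟨h3, hL.iso ((locP A).isoMk e : (⟨X, h1⟩ : DT A) ≅ ⟨Y, h3⟩) h2⟩
  shift X n h := h
  ext₂ T hT := by
    rintro ⟨h1, l1⟩ ⟨h3, l3⟩
    have h2 : locP A T.obj₂ := (isLocS_locP A).ext₂ T hT h1 h3
    refine ⟨h2, ?_⟩
    let T' : Triangle (DT A) := Triangle.mk
      (ObjectProperty.homMk T.mor₁ : (⟨T.obj₁, h1⟩ : DT A) ⟶ ⟨T.obj₂, h2⟩)
      (ObjectProperty.homMk T.mor₂ : (⟨T.obj₂, h2⟩ : DT A) ⟶ ⟨T.obj₃, h3⟩)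
      ((locP A).fullyFaithfulι.preimage
        (T.mor₃ ≫ ((locP A).ι.commShiftIso (1 : ℤ)).inv.app ⟨T.obj₁, h1⟩))
    have hT' : T' ∈ distTriang (DT A) := by
      refine isomorphic_distinguished _ hT _
        (Triangle.isoMk _ _ (Iso.refl _) (Iso.refl _) (Iso.refl _) ?_ ?_ ?_)
      · exact (Category.comp_id _).trans (Category.id_comp _).symm
      · exact (Category.comp_id _).trans (Category.id_comp _).symm
      · have h5 : (T.mor₃ ≫ ((locP A).ι.commShiftIso (1 : ℤ)).inv.app ⟨T.obj₁, h1⟩) ≫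
            ((locP A).ι.commShiftIso (1 : ℤ)).hom.app ⟨T.obj₁, h1⟩ = T.mor₃ := by
          rw [Category.assoc, Iso.inv_hom_id_app]
          exact Category.comp_id _
        refine (congrArg (_ ≫ ·) ((shiftFunctor (K (FC A)) (1 : ℤ)).map_id _)).trans ?_
        exact (Category.comp_id _).trans (h5.trans (Category.id_comp _).symm)
    exact hL.ext₂ T' hT' l1 l3
  coprod J Y hY := by
    choose h l using hY
    refine ⟨(isLocS_locP A).coprod J Y h, ?_⟩
    exact hL.iso ((locP A).isoMk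
      (PreservesCoproduct.iso (locP A).ι (fun j => (⟨Y j, h j⟩ : DT A)))) (hL.coprod J _ l)

lemma DTG_hgen (hrig : ∀ a : A, ∃ b : A, Nonempty (ExactPairing a b))
    (L : ObjectProperty (DT A)) (hL : IsLocS L) (h : ∀ X, dtR X → L X) (X : DT A) : L X := by
  obtain ⟨h1, h2⟩ := X.property _ (DTG_locS L hL)
    (fun a => ⟨locP_emb A a, h _ (DTG_emb hrig a)⟩)
  exact h2

variable (A) in
/-- a set of representatives -/
structure DTG_Idx : Type where
  /-- the number of summands -/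
  n : ℕ
  /-- the summands -/
  o : Fin n → A
  /-- the differential -/
  d : (⟨Fin n, o⟩ : FC A) ⟶ ⟨Fin n, o⟩
  /-- it squares to zero -/
  d2 : d ≫ d = 0
  /-- it is in the localizing subcategory -/
  h : locP A ((Q (FC A)).obj ⟨⟨Fin n, o⟩, d, d2⟩)

lemma DTG_hsmall : ∃ (I : Type) (G : I → DT A), ∀ X, dtR X → ∃ i, Nonempty (X ≅ G i) := by
  refine ⟨DTG_Idx A, fun i => ⟨(Q (FC A)).obj ⟨⟨Fin i.n, i.o⟩, i.d, i.d2⟩, i.h⟩, ?_⟩
  rintro X ⟨M, N, hM, hN, fM, fN, p, ⟨i⟩⟩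
  obtain ⟨n, ⟨e⟩⟩ := Finite.exists_equiv_fin M.X.ι
  have e1 : (Q (FC A)).obj M ≅ (Q (FC A)).obj (DTG_tr M (DTG_reindex M.X e)) :=
    (Q (FC A)).mapIso (DTG_trIso M _)
  exact ⟨⟨n, fun k => M.X.obj (e.symm k), (DTG_tr M (DTG_reindex M.X e)).d,
    (DTG_tr M (DTG_reindex M.X e)).d2, (isLocS_locP A).iso e1 hM⟩, ⟨(locP A).isoMk (i ≪≫ e1)⟩⟩

/-- If the objects of `A` are rigid then the hypotheses of `compact_of_generated` are
satisfied. -/
theorem dt_compact (hrig : ∀ a : A, ∃ b : A, Nonempty (ExactPairing a b)) :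
    (∀ X : DT A, IsCpt X ↔ ∃ Y : DT A, Nonempty (ExactPairing X Y)) ∧
    (∀ X : DT A, (∀ c : DT A, IsCpt c → ∀ f : c ⟶ X, f = 0) → IsZero X) ∧
    (∃ (I : Type) (G : I → DT A), (∀ i, IsCpt (G i)) ∧
      ∀ c : DT A, IsCpt c → ∃ i, Nonempty (c ≅ G i)) ∧
    (∀ X : DT A, IsCpt X → ∃ Y : DT A, dtR Y ∧ Nonempty (Retract X Y)) := by
  exact compact_of_generated dtR DTG_iso DTG_hzero DTG_hshift DTG_hext DTG_hrig DTG_hunit
    (DTG_hgen hrig) DTG_hsmall

/-- `DT A` is rigidly-compactly generated. -/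
@[implicit_reducible]
noncomputable def dtRCG (hrig : ∀ a : A, ∃ b : A, Nonempty (ExactPairing a b)) :
    RigidlyCompactlyGenerated (DT A) where
  hasCoproducts := inferInstance
  commShift := inferInstance
  exact := inferInstance
  preserves := inferInstance
  compact_iff_rigid := (dt_compact hrig).1
  generated := (dt_compact hrig).2.1
  small := (dt_compact hrig).2.2.1

end

end Pool.Agent.H939.TT
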