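import Pool.Agent.H939.TT.CohDefs
import Pool.Agent.H939.TT.DTGen
import Pool.Agent.H939.TT.DTFun

/-!
# `DT A` satisfies the compatibility conditions between the tensor product and the shift
-/

namespace Pool.Agent.H939.TT

open CategoryTheory CategoryTheory.Limits CategoryTheory.Pretriangulated
open CategoryTheory.MonoidalCategory Pool.Agent.Helper609_TT

set_option linter.unusedSectionVars false
set_option linter.style.haveILetI false

section CohAbs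

universe v u v' u'

lemma coh_two_ids {A : Type u} [Category.{v} A] {X₀ X₁ X₂ : A} (f₁ : X₀ ⟶ X₁) (f₂ : X₁ ⟶ X₂)
    (h₁ : X₀ = X₁) (h₂ : X₁ = X₂) (e₁ : f₁ = eqToHom h₁) (e₂ : f₂ = eqToHom h₂) :
    f₁ ≫ f₂ = eqToHom (h₁.trans h₂) := by
  subst h₁ h₂ e₁ e₂
  simp

lemma coh_aux {A : Type u} [Category.{v} A] {X Y Z : A} (f : X ⟶ Y) (e : Z ≅ Y) :
    (𝟙 X ≫ f ≫ 𝟙 Y ≫ e.inv) ≫ e.hom = f := by
  simp

lemma coh_add_K (C : Type u) [Category.{v} C] [Preadditive C] (X : K C) (a b c : ℤ)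
    (h : a + b = c) : (shiftFunctorAdd' (K C) a b c h).hom.app X = 𝟙 X := by
  subst h
  rw [shiftFunctorAdd'_eq_shiftFunctorAdd]
  rfl

lemma coh_comm_K (C : Type u) [Category.{v} C] [Preadditive C] (X : K C) (a b : ℤ) :
    (shiftFunctorComm (K C) a b).hom.app X = 𝟙 X := by
  have h1 : (shiftFunctorAdd (K C) a b).inv.app X = 𝟙 X := rfl
  have h2 := coh_add_K C X b a (a + b) (add_comm b a)
  exact (coh_two_ids (A := K C) ((shiftFunctorAdd (K C) a b).inv.app X)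
    ((shiftFunctorAdd' (K C) b a (a + b) (add_comm b a)).hom.app X) rfl rfl h1 h2)

lemma coh_comm_abs {T : Type u} [Category.{v} T] [HasShift T ℤ] {T' : Type u'} [Category.{v'} T']
    [HasShift T' ℤ] (F : T ⥤ T') [F.CommShift ℤ] (X : T) (a b : ℤ) :
    F.map ((shiftFunctorComm T a b).hom.app X) ≫ (F.commShiftIso a).hom.app (X⟦b⟧) ≫
      ((F.commShiftIso b).hom.app X)⟦a⟧' = (F.commShiftIso b).hom.app (X⟦a⟧) ≫
        ((F.commShiftIso a).hom.app X)⟦b⟧' ≫ (shiftFunctorComm T' a b).hom.app (F.obj X) := by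
  rw [Functor.map_shiftFunctorComm]
  simp only [Category.assoc, Functor.comp_obj, Iso.inv_hom_id_app_assoc]
  rw [← Functor.map_comp, Iso.inv_hom_id_app]
  simp only [Functor.comp_obj, CategoryTheory.Functor.map_id, Category.comp_id]

variable {C : Type u} [Category.{v} C] [Preadditive C]

section

variable {T : Type u'} [Category.{v'} T] [HasShift T ℤ] (F : T ⥤ K C) [F.CommShift ℤ]

/-- the shift is trivial after the functor -/
noncomputable def coh_c (n : ℤ) (Y : T) : F.obj (Y⟦n⟧) ≅ F.obj Y :=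
  (F.commShiftIso n).app Y

lemma coh_c_nat (n : ℤ) {Y Z : T} (f : Y ⟶ Z) :
    F.map (f⟦n⟧') ≫ (coh_c F n Z).hom = (coh_c F n Y).hom ≫ F.map f :=
  (F.commShiftIso n).hom.naturality f

lemma coh_c_comm (X : T) (a b : ℤ) :
    F.map ((shiftFunctorComm T a b).hom.app X) ≫ (coh_c F a (X⟦b⟧)).hom ≫
      (coh_c F b X).hom = (coh_c F b (X⟦a⟧)).hom ≫ (coh_c F a X).hom := by
  refine (coh_comm_abs F X a b).trans ?_
  have h2 := coh_comm_K C (F.obj X) a b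
  rw [h2]
  exact congrArg ((coh_c F b (X⟦a⟧)).hom ≫ ·) (Category.comp_id (coh_c F a X).hom)

end

variable [HasBinaryBiproducts C] [CharTwo C] [HasZeroObject C] [MonoidalCategory C]
  [MonoidalPreadditive C] (P : ObjectProperty (K C)) [P.IsMonoidal] [P.IsStableUnderShift ℤ]

/-- the tensor product of the subcategory -/
noncomputable def coh_iso (X : P.FullSubcategory) :
    tensorLeft X ⋙ P.ι ≅ P.ι ⋙ tensorLeft X.obj :=
  NatIso.ofComponents (fun Y => Iso.refl (X.obj ⊗ Y.obj)) (by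
    intro Y Z f
    exact (Category.comp_id _).trans (Category.id_comp _).symm)

/-- the commutation of the tensor product with the shift -/
noncomputable def coh_s (X Y : P.FullSubcategory) (n : ℤ) : X ⊗ Y⟦n⟧ ≅ (X ⊗ Y)⟦n⟧ :=
  (Functor.CommShift.OfComp.iso (coh_iso P X) n).app Y

lemma coh_key (X Y : P.FullSubcategory) (n : ℤ) :
    P.ι.map (coh_s P X Y n).hom ≫ (coh_c P.ι n (X ⊗ Y)).hom =
      P.ι.obj X ◁ (coh_c P.ι n Y).hom := by
  have h1 : P.ι.map (coh_s P X Y n).hom =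
    𝟙 _ ≫ ((P.ι ⋙ tensorLeft X.obj).commShiftIso n).hom.app Y ≫
      𝟙 _ ≫ (coh_c P.ι n (X ⊗ Y)).inv :=
    Functor.CommShift.OfComp.map_iso_hom_app (coh_iso P X) n Y
  have h2 : ((P.ι ⋙ tensorLeft X.obj).commShiftIso n).hom.app Y =
      P.ι.obj X ◁ (coh_c P.ι n Y).hom :=
    (Functor.commShiftIso_comp_hom_app _ _ n Y).trans (Category.comp_id _)
  rw [h1, h2]
  exact coh_aux (P.ι.obj X ◁ (coh_c P.ι n Y).hom) (coh_c P.ι n (X ⊗ Y))

variable {P} in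
/-- equality of morphisms can be tested after the inclusion and the trivialisation of the shift -/
lemma coh_ext {W Z : P.FullSubcategory} (n : ℤ) (f g : W ⟶ Z⟦n⟧)
    (h : P.ι.map f ≫ (coh_c P.ι n Z).hom = P.ι.map g ≫ (coh_c P.ι n Z).hom) : f = g :=
  P.ι.map_injective ((cancel_mono (coh_c P.ι n Z).hom).1 h)

lemma coh_natural (X X' : P.FullSubcategory) (f : X ⟶ X') (Y : P.FullSubcategory) (n : ℤ) :
    f ▷ (Y⟦n⟧) ≫ (coh_s P X' Y n).hom = (coh_s P X Y n).hom ≫ (f ▷ Y)⟦n⟧' := by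
  refine coh_ext n _ _ ?_
  rw [Functor.map_comp, Functor.map_comp, Category.assoc, Category.assoc, coh_key, coh_c_nat,
    ← Category.assoc, coh_key]
  exact (whisker_exchange (P.ι.map f) (coh_c P.ι n Y).hom).symm

lemma coh_unit (Y : P.FullSubcategory) (n : ℤ) :
    (coh_s P (𝟙_ P.FullSubcategory) Y n).hom ≫ (λ_ Y).hom⟦n⟧' = (λ_ (Y⟦n⟧)).hom := by
  refine coh_ext n _ _ ?_
  rw [Functor.map_comp, Category.assoc, coh_c_nat, ← Category.assoc, coh_key]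
  exact leftUnitor_naturality (coh_c P.ι n Y).hom

lemma coh_assoc (X Y Z : P.FullSubcategory) (n : ℤ) :
    (coh_s P (X ⊗ Y) Z n).hom ≫ (α_ X Y Z).hom⟦n⟧' =
      (α_ X Y (Z⟦n⟧)).hom ≫ X ◁ (coh_s P Y Z n).hom ≫ (coh_s P X (Y ⊗ Z) n).hom := by
  refine coh_ext n _ _ ?_
  rw [Functor.map_comp, Functor.map_comp, Functor.map_comp, Category.assoc, Category.assoc,
    Category.assoc, coh_c_nat, coh_key, ← Category.assoc, coh_key]
  have h1 : P.ι.map (X ◁ (coh_s P Y Z n).hom) ≫ P.ι.obj X ◁ (coh_c P.ι n (Y ⊗ Z)).hom =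
      P.ι.obj X ◁ (P.ι.obj Y ◁ (coh_c P.ι n Z).hom) :=
    (MonoidalCategory.whiskerLeft_comp (P.ι.obj X) (P.ι.map (coh_s P Y Z n).hom)
      (coh_c P.ι n (Y ⊗ Z)).hom).symm.trans (congrArg (P.ι.obj X ◁ ·) (coh_key P Y Z n))
  refine Eq.trans ?_ (congrArg (P.ι.map (α_ X Y (Z⟦n⟧)).hom ≫ ·) h1).symm
  exact associator_naturality_right (P.ι.obj X) (P.ι.obj Y) (coh_c P.ι n Z).hom

lemma coh_units (u : ℤˣ) {X Y : P.FullSubcategory} (f : X ⟶ Y) : u • f = f := by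
  rcases Int.units_eq_one_or u with h | h
  · rw [h, one_smul]
  · rw [h, Units.neg_smul, one_smul, neg_eq_iff_add_eq_zero]
    exact P.ι.map_injective ((P.ι.map_add).trans ((CharTwo.add_self (P.ι.map f)).trans
      (P.ι.map_zero X Y).symm))

variable [SymmetricCategory C]

/-- the commutation of the tensor product with the shift on the left -/
noncomputable def coh_l (X Y : P.FullSubcategory) (n : ℤ) : X⟦n⟧ ⊗ Y ≅ (X ⊗ Y)⟦n⟧ :=
  β_ (X⟦n⟧) Y ≪≫ coh_s P Y X n ≪≫ (shiftFunctor P.FullSubcategory n).mapIso (β_ Y X)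

lemma coh_keyl (X Y : P.FullSubcategory) (n : ℤ) :
    P.ι.map (coh_l P X Y n).hom ≫ (coh_c P.ι n (X ⊗ Y)).hom =
      (coh_c P.ι n X).hom ▷ P.ι.obj Y := by
  have h0 : (coh_l P X Y n).hom = (β_ (X⟦n⟧) Y).hom ≫ (coh_s P Y X n).hom ≫
    (β_ Y X).hom⟦n⟧' := rfl
  rw [h0, Functor.map_comp, Functor.map_comp, Category.assoc, Category.assoc, coh_c_nat,
    reassoc_of% (coh_key P Y X n)]
  have h1 : P.ι.map (β_ (X⟦n⟧) Y).hom ≫ P.ι.obj Y ◁ (coh_c P.ι n X).hom =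
      (coh_c P.ι n X).hom ▷ P.ι.obj Y ≫ P.ι.map (β_ X Y).hom :=
    (BraidedCategory.braiding_naturality_left (coh_c P.ι n X).hom (P.ι.obj Y)).symm
  have h2 : P.ι.map (β_ X Y).hom ≫ P.ι.map (β_ Y X).hom = 𝟙 (P.ι.obj X ⊗ P.ι.obj Y) :=
    SymmetricCategory.symmetry (P.ι.obj X) (P.ι.obj Y)
  rw [reassoc_of% h1, h2]
  exact Category.comp_id _

lemma coh_sign (X Y : P.FullSubcategory) (m n : ℤ) :
    (coh_l P X (Y⟦n⟧) m).hom ≫ ((coh_s P X Y n).hom)⟦m⟧' ≫ (shiftComm (X ⊗ Y) n m).hom =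
      (m * n).negOnePow • ((coh_s P (X⟦m⟧) Y n).hom ≫ ((coh_l P X Y m).hom)⟦n⟧') := by
  rw [coh_units]
  refine coh_ext n _ _ ((cancel_mono (coh_c P.ι m (X ⊗ Y)).hom).1 ?_)
  have h1 : P.ι.map (shiftComm (X ⊗ Y) n m).hom ≫ (coh_c P.ι n ((X ⊗ Y)⟦m⟧)).hom ≫
      (coh_c P.ι m (X ⊗ Y)).hom = (coh_c P.ι m ((X ⊗ Y)⟦n⟧)).hom ≫ (coh_c P.ι n (X ⊗ Y)).hom :=
    coh_c_comm P.ι (X ⊗ Y) n m
  have h2 := coh_c_nat P.ι m (coh_s P X Y n).hom
  have h3 := coh_keyl P X (Y⟦n⟧) m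
  have h4 := coh_key P X Y n
  have h5 := coh_c_nat P.ι n (coh_l P X Y m).hom
  have h6 := coh_key P (X⟦m⟧) Y n
  have h7 := coh_keyl P X Y m
  rw [Functor.map_comp, Functor.map_comp, Functor.map_comp]
  simp only [Category.assoc]
  rw [h1, reassoc_of% h2, reassoc_of% h3, h4, reassoc_of% h5, reassoc_of% h6, h7]
  exact (whisker_exchange (coh_c P.ι m X).hom (coh_c P.ι n Y).hom).symm

end CohAbs

section CohFun

universe v u v' u'

variable {C : Type u} [Category.{v} C] [Preadditive C] [HasBinaryBiproducts C] [CharTwo C]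
  [HasZeroObject C] [MonoidalCategory C] [MonoidalPreadditive C] (P : ObjectProperty (K C))
  [P.IsMonoidal] [P.IsStableUnderShift ℤ]
  {C' : Type u'} [Category.{v'} C'] [Preadditive C'] [HasBinaryBiproducts C'] [CharTwo C']
  [HasZeroObject C'] [MonoidalCategory C'] [MonoidalPreadditive C'] (P' : ObjectProperty (K C'))
  [P'.IsMonoidal] [P'.IsStableUnderShift ℤ] (G : K C ⥤ K C')
  (h : ∀ X : P.FullSubcategory, P' ((P.ι ⋙ G).obj X))

/-- the commutation with the shift of a restricted functor -/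
@[implicit_reducible]
noncomputable def coh_cs : (P'.lift (P.ι ⋙ G) h).CommShift ℤ :=
  letI : G.CommShift ℤ := trivCommShift G
  inferInstance

lemma coh_keyF (Y : P.FullSubcategory) (n : ℤ) : letI := coh_cs P P' G h
    P'.ι.map (((P'.lift (P.ι ⋙ G) h).commShiftIso n).hom.app Y) ≫
      (coh_c P'.ι n ((P'.lift (P.ι ⋙ G) h).obj Y)).hom = G.map (coh_c P.ι n Y).hom := by
  letI : G.CommShift ℤ := trivCommShift G
  letI := coh_cs P P' G h
  have h1 : P'.ι.map (((P'.lift (P.ι ⋙ G) h).commShiftIso n).hom.app Y) =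
    𝟙 _ ≫ ((P.ι ⋙ G).commShiftIso n).hom.app Y ≫
      𝟙 _ ≫ (coh_c P'.ι n ((P'.lift (P.ι ⋙ G) h).obj Y)).inv :=
    Functor.CommShift.OfComp.map_iso_hom_app (P'.liftCompιIso (P.ι ⋙ G) h) n Y
  have h2 : ((P.ι ⋙ G).commShiftIso n).hom.app Y = G.map (coh_c P.ι n Y).hom :=
    (Functor.commShiftIso_comp_hom_app _ _ n Y).trans (Category.comp_id _)
  rw [h1, h2]
  exact coh_aux (G.map (coh_c P.ι n Y).hom) (coh_c P'.ι n ((P'.lift (P.ι ⋙ G) h).obj Y))

variable [G.Monoidal]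

lemma coh_fun (X Y : P.FullSubcategory) (n : ℤ) :
    letI := coh_cs P P' G h
    letI := (dtfun_core G P P' h).toMonoidal
    Functor.LaxMonoidal.μ (P'.lift (P.ι ⋙ G) h) X (Y⟦n⟧) ≫
      (P'.lift (P.ι ⋙ G) h).map (coh_s P X Y n).hom ≫
        ((P'.lift (P.ι ⋙ G) h).commShiftIso n).hom.app (X ⊗ Y) =
      (P'.lift (P.ι ⋙ G) h).obj X ◁ ((P'.lift (P.ι ⋙ G) h).commShiftIso n).hom.app Y ≫
        (coh_s P' ((P'.lift (P.ι ⋙ G) h).obj X) ((P'.lift (P.ι ⋙ G) h).obj Y) n).hom ≫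
        (Functor.LaxMonoidal.μ (P'.lift (P.ι ⋙ G) h) X Y)⟦n⟧' := by
  letI := coh_cs P P' G h
  letI := (dtfun_core G P P' h).toMonoidal
  have h1 := coh_keyF P P' G h Y n
  have h2 := coh_keyF P P' G h (X ⊗ Y) n
  have h3 := coh_key P X Y n
  have h4 := coh_key P' ((P'.lift (P.ι ⋙ G) h).obj X) ((P'.lift (P.ι ⋙ G) h).obj Y) n
  have h5 := coh_c_nat P'.ι n (Functor.LaxMonoidal.μ (P'.lift (P.ι ⋙ G) h) X Y)
  have h6 : P'.ι.map (Functor.LaxMonoidal.μ (P'.lift (P.ι ⋙ G) h) X Y) =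
    Functor.LaxMonoidal.μ G X.obj Y.obj := rfl
  have h7 : P'.ι.map (Functor.LaxMonoidal.μ (P'.lift (P.ι ⋙ G) h) X (Y⟦n⟧)) =
    Functor.LaxMonoidal.μ G X.obj (Y⟦n⟧).obj := rfl
  have h8 : P'.ι.map ((P'.lift (P.ι ⋙ G) h).map (coh_s P X Y n).hom) =
    G.map (P.ι.map (coh_s P X Y n).hom) := rfl
  have h9 : P'.ι.map ((P'.lift (P.ι ⋙ G) h).obj X ◁
    ((P'.lift (P.ι ⋙ G) h).commShiftIso n).hom.app Y) = G.obj X.obj ◁
      P'.ι.map (((P'.lift (P.ι ⋙ G) h).commShiftIso n).hom.app Y) := rfl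
  refine coh_ext n _ _ ?_
  rw [Functor.map_comp, Functor.map_comp, Functor.map_comp, Functor.map_comp]
  simp only [Category.assoc]
  rw [h2, h5, h6, h7, h8, h9, reassoc_of% h4, ← Functor.map_comp, h3]
  have h10 : G.obj X.obj ◁ P'.ι.map (((P'.lift (P.ι ⋙ G) h).commShiftIso n).hom.app Y) ≫
      G.obj X.obj ◁ (coh_c P'.ι n ((P'.lift (P.ι ⋙ G) h).obj Y)).hom =
      G.obj X.obj ◁ G.map (coh_c P.ι n Y).hom :=
    (MonoidalCategory.whiskerLeft_comp _ _ _).symm.trans (congrArg (G.obj X.obj ◁ ·) h1)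
  refine (Functor.LaxMonoidal.μ_natural_right (F := G) X.obj (coh_c P.ι n Y).hom).symm.trans ?_
  refine (congrArg (· ≫ Functor.LaxMonoidal.μ G X.obj Y.obj) h10).symm.trans ?_
  exact Category.assoc _ _ _

end CohFun

variable {A : Type} [Category.{0} A] [Preadditive A] [CharTwo A]
  [MonoidalCategory A] [MonoidalPreadditive A] [SymmetricCategory A]
  {B : Type} [Category.{0} B] [Preadditive B] [CharTwo B]
  [MonoidalCategory B] [MonoidalPreadditive B] [SymmetricCategory B]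

lemma coh_shiftRight (hA : ∀ a : A, ∃ b : A, Nonempty (ExactPairing a b))
    (X Y : DT A) (n : ℤ) :
    @shiftRight _ _ _ _ _ _ _ _ _ (dtRCG hA) X Y n = coh_s (locP A) X Y n := rfl

lemma coh_shiftLeft (hA : ∀ a : A, ∃ b : A, Nonempty (ExactPairing a b))
    (X Y : DT A) (n : ℤ) :
    @shiftLeft _ _ _ _ _ _ _ _ _ (dtRCG hA) X Y n = coh_l (locP A) X Y n := rfl

lemma coh_dt1 (hA : ∀ a : A, ∃ b : A, Nonempty (ExactPairing a b))
    (X X' : DT A) (f : X ⟶ X') (Y : DT A) (n : ℤ) : letI := dtRCG hA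
    f ▷ (Y⟦n⟧) ≫ (shiftRight X' Y n).hom = (shiftRight X Y n).hom ≫ (f ▷ Y)⟦n⟧' := by
  rw [coh_shiftRight hA, coh_shiftRight hA]
  exact coh_natural (locP A) X X' f Y n

lemma coh_dt2 (hA : ∀ a : A, ∃ b : A, Nonempty (ExactPairing a b))
    (Y : DT A) (n : ℤ) : letI := dtRCG hA
    (shiftRight (𝟙_ (DT A)) Y n).hom ≫ (λ_ Y).hom⟦n⟧' = (λ_ (Y⟦n⟧)).hom := by
  rw [coh_shiftRight hA]
  exact coh_unit (locP A) Y n

lemma coh_dt3 (hA : ∀ a : A, ∃ b : A, Nonempty (ExactPairing a b))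
    (X Y Z : DT A) (n : ℤ) : letI := dtRCG hA
    (shiftRight (X ⊗ Y) Z n).hom ≫ (α_ X Y Z).hom⟦n⟧' =
      (α_ X Y (Z⟦n⟧)).hom ≫ X ◁ (shiftRight Y Z n).hom ≫ (shiftRight X (Y ⊗ Z) n).hom := by
  rw [coh_shiftRight hA, coh_shiftRight hA, coh_shiftRight hA]
  exact coh_assoc (locP A) X Y Z n

lemma coh_dt4 (hA : ∀ a : A, ∃ b : A, Nonempty (ExactPairing a b))
    (X Y : DT A) (m n : ℤ) : letI := dtRCG hA
    (shiftLeft X (Y⟦n⟧) m).hom ≫ ((shiftRight X Y n).hom)⟦m⟧' ≫ (shiftComm (X ⊗ Y) n m).hom =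
      (m * n).negOnePow • ((shiftRight (X⟦m⟧) Y n).hom ≫ ((shiftLeft X Y m).hom)⟦n⟧') := by
  rw [coh_shiftRight hA, coh_shiftRight hA, coh_shiftLeft hA, coh_shiftLeft hA]
  exact coh_sign (locP A) X Y m n

theorem dt_compatible (hA : ∀ a : A, ∃ b : A, Nonempty (ExactPairing a b)) :
    letI := dtRCG hA
    TensorCompatible (DT A) :=
  letI := dtRCG hA
  { natural := coh_dt1 hA
    unit := coh_dt2 hA
    assoc := coh_dt3 hA
    sign := coh_dt4 hA }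

lemma coh_dt5 (hA : ∀ a : A, ∃ b : A, Nonempty (ExactPairing a b))
    (hB : ∀ a : B, ∃ b : B, Nonempty (ExactPairing a b)) (F : A ⥤ B) [F.Additive] [F.Braided]
    (X Y : DT A) (n : ℤ) :
    letI := dtRCG hA
    letI := dtRCG hB
    Functor.LaxMonoidal.μ (DT.map F) X (Y⟦n⟧) ≫ (DT.map F).map (shiftRight X Y n).hom ≫
        ((DT.map F).commShiftIso n).hom.app (X ⊗ Y) =
      (DT.map F).obj X ◁ ((DT.map F).commShiftIso n).hom.app Y ≫
        (shiftRight ((DT.map F).obj X) ((DT.map F).obj Y) n).hom ≫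
        (Functor.LaxMonoidal.μ (DT.map F) X Y)⟦n⟧' := by
  rw [coh_shiftRight hA, coh_shiftRight hB]
  exact coh_fun (locP A) (locP B) (K.mapF (FC.mapF F)) (fun X => locP_map F X.obj X.property) X Y n

theorem dtMap_compatible (hA : ∀ a : A, ∃ b : A, Nonempty (ExactPairing a b))
    (hB : ∀ a : B, ∃ b : B, Nonempty (ExactPairing a b)) (F : A ⥤ B) [F.Additive] [F.Braided] :
    letI := dtRCG hA
    letI := dtRCG hB
    FunctorCompatible (DT.map F) :=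
  coh_dt5 hA hB F

end Pool.Agent.H939.TT
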