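import Pool.Graph.R_pool_sql_team_seeded_620a6dc7.Helper609_TT.Defs

/-!
# Compatibility of the tensor product with the shift
-/

namespace Pool.Agent.H939.TT

open CategoryTheory CategoryTheory.Limits CategoryTheory.Pretriangulated
open CategoryTheory.MonoidalCategory Pool.Agent.Helper609_TT

universe v u u'

section Tensor

variable {C : Type u} [Category.{v} C] [Preadditive C] [HasZeroObject C]
    [HasShift C ℤ] [∀ n : ℤ, (shiftFunctor C n).Additive] [Pretriangulated C]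
    [MonoidalCategory C] [SymmetricCategory C] [RigidlyCompactlyGenerated C]

/-- the isomorphism `X ⊗ Y⟦n⟧ ≅ (X ⊗ Y)⟦n⟧` of the structure -/
noncomputable def shiftRight (X Y : C) (n : ℤ) : X ⊗ Y⟦n⟧ ≅ (X ⊗ Y)⟦n⟧ :=
  ((tensorLeft X).commShiftIso n).app Y

/-- the isomorphism `X⟦n⟧ ⊗ Y ≅ (X ⊗ Y)⟦n⟧` obtained by means of the symmetry -/
noncomputable def shiftLeft (X Y : C) (n : ℤ) : X⟦n⟧ ⊗ Y ≅ (X ⊗ Y)⟦n⟧ :=
  β_ (X⟦n⟧) Y ≪≫ shiftRight Y X n ≪≫ (shiftFunctor C n).mapIso (β_ Y X)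

variable (C) in
/-- The tensor product is compatible with the shift: the isomorphisms `X ⊗ Y⟦n⟧ ≅ (X ⊗ Y)⟦n⟧`
are natural in `X` (they are natural in `Y` by definition), compatible with the unit and with the
associativity, and satisfy the sign rule. -/
structure TensorCompatible : Prop where
  natural : ∀ (X X' : C) (f : X ⟶ X') (Y : C) (n : ℤ),
    f ▷ (Y⟦n⟧) ≫ (shiftRight X' Y n).hom = (shiftRight X Y n).hom ≫ (f ▷ Y)⟦n⟧'
  unit : ∀ (Y : C) (n : ℤ),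
    (shiftRight (𝟙_ C) Y n).hom ≫ (λ_ Y).hom⟦n⟧' = (λ_ (Y⟦n⟧)).hom
  assoc : ∀ (X Y Z : C) (n : ℤ),
    (shiftRight (X ⊗ Y) Z n).hom ≫ (α_ X Y Z).hom⟦n⟧' =
      (α_ X Y (Z⟦n⟧)).hom ≫ X ◁ (shiftRight Y Z n).hom ≫ (shiftRight X (Y ⊗ Z) n).hom
  sign : ∀ (X Y : C) (m n : ℤ),
    (shiftLeft X (Y⟦n⟧) m).hom ≫ ((shiftRight X Y n).hom)⟦m⟧' ≫ (shiftComm (X ⊗ Y) n m).hom =
      (m * n).negOnePow • ((shiftRight (X⟦m⟧) Y n).hom ≫ ((shiftLeft X Y m).hom)⟦n⟧')

end Tensor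

section Functor

variable {T : Type u} [Category.{v} T] [Preadditive T] [HasZeroObject T]
    [HasShift T ℤ] [∀ n : ℤ, (shiftFunctor T n).Additive] [Pretriangulated T]
    [MonoidalCategory T] [SymmetricCategory T] [RigidlyCompactlyGenerated T]
    {S : Type u'} [Category.{v} S] [Preadditive S] [HasZeroObject S]
    [HasShift S ℤ] [∀ n : ℤ, (shiftFunctor S n).Additive] [Pretriangulated S]
    [MonoidalCategory S] [SymmetricCategory S] [RigidlyCompactlyGenerated S]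

/-- The monoidal structure of `Φ` is compatible with the commutation with the shifts. -/
def FunctorCompatible (Φ : T ⥤ S) [Φ.Monoidal] [Φ.CommShift ℤ] : Prop :=
  ∀ (X Y : T) (n : ℤ),
    Functor.LaxMonoidal.μ Φ X (Y⟦n⟧) ≫ Φ.map (shiftRight X Y n).hom ≫
        (Φ.commShiftIso n).hom.app (X ⊗ Y) =
      Φ.obj X ◁ (Φ.commShiftIso n).hom.app Y ≫ (shiftRight (Φ.obj X) (Φ.obj Y) n).hom ≫
        (Functor.LaxMonoidal.μ Φ X Y)⟦n⟧'

end Functor

end Pool.Agent.H939.TT
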