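import Mathlib

/-!
# Differential objects in characteristic two

`C` is an additive category with `2 = 0`. `D C` is the category of the differential objects
`(X, d)`, `d ≫ d = 0`; if `C` is symmetric monoidal, so is `D C`.
-/

namespace Pool.Agent.H939.TT

open CategoryTheory CategoryTheory.Limits CategoryTheory.MonoidalCategory

universe v u v' u'

/-- `2 = 0` in the preadditive category `C`. -/
class CharTwo (C : Type u) [Category.{v} C] [Preadditive C] : Prop where
  add_self : ∀ {X Y : C} (f : X ⟶ Y), f + f = 0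

section CharTwo

variable {C : Type u} [Category.{v} C] [Preadditive C] [CharTwo C] {X Y : C}

@[simp] lemma add_self' (f : X ⟶ Y) : f + f = 0 := CharTwo.add_self f

lemma neg_eq' (f : X ⟶ Y) : -f = f := by
  rw [neg_eq_iff_add_eq_zero, add_self']

lemma sub_eq' (f g : X ⟶ Y) : f - g = f + g := by rw [sub_eq_add_neg, neg_eq']

lemma eq_of_add_eq_zero' {f g : X ⟶ Y} (h : f + g = 0) : f = g := by
  rw [← sub_eq_zero, sub_eq', h]

@[simp] lemma add_add_self' (f g : X ⟶ Y) : f + (f + g) = g := by
  rw [← add_assoc, add_self', zero_add]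

lemma two_zsmul' (f : X ⟶ Y) : (2 : ℤ) • f = 0 := by rw [two_zsmul, add_self']
lemma two_nsmul' (f : X ⟶ Y) : (2 : ℕ) • f = 0 := by rw [two_nsmul, add_self']
lemma four_zsmul' (f : X ⟶ Y) : (4 : ℤ) • f = 0 := by
  rw [show (4 : ℤ) = 2 * 2 by norm_num, mul_smul, two_zsmul']
lemma four_nsmul' (f : X ⟶ Y) : (4 : ℕ) • f = 0 := by
  rw [show (4 : ℕ) = 2 * 2 by norm_num, mul_smul, two_nsmul']

end CharTwo

/-- Differential objects of `C`. -/
structure D (C : Type u) [Category.{v} C] [Preadditive C] where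
  /-- the underlying object -/
  X : C
  /-- the differential -/
  d : X ⟶ X
  /-- it squares to zero -/
  d2 : d ≫ d = 0

attribute [reassoc (attr := simp)] D.d2

variable {C : Type u} [Category.{v} C] [Preadditive C]

/-- Morphisms of differential objects. -/
@[ext] structure D.Hom (A B : D C) where
  /-- the underlying morphism -/
  f : A.X ⟶ B.X
  /-- it commutes with the differentials -/
  comm : f ≫ B.d = A.d ≫ f

attribute [reassoc (attr := simp)] D.Hom.comm

instance : Category (D C) where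
  Hom A B := D.Hom A B
  id A := { f := 𝟙 A.X, comm := by simp }
  comp f g := { f := f.f ≫ g.f, comm := by rw [Category.assoc, g.comm, f.comm_assoc] }

@[simp] lemma D.id_f (A : D C) : D.Hom.f (𝟙 A) = 𝟙 A.X := rfl
@[simp, reassoc] lemma D.comp_f {A B E : D C} (f : A ⟶ B) (g : B ⟶ E) :
    (f ≫ g).f = f.f ≫ g.f := rfl

@[reassoc] lemma D.comm' {A B : D C} (f : A ⟶ B) : f.f ≫ B.d = A.d ≫ f.f := f.comm

@[ext] lemma D.hom_ext {A B : D C} (f g : A ⟶ B) (h : f.f = g.f) : f = g := D.Hom.ext h

instance (A B : D C) : Add (A ⟶ B) := ⟨fun f g =>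
  { f := f.f + g.f, comm := by simp }⟩
instance (A B : D C) : Zero (A ⟶ B) := ⟨{ f := 0, comm := by simp }⟩
instance (A B : D C) : Neg (A ⟶ B) := ⟨fun f => { f := -f.f, comm := by simp }⟩
instance (A B : D C) : Sub (A ⟶ B) := ⟨fun f g =>
  { f := f.f - g.f, comm := by simp }⟩

@[simp] lemma D.add_f {A B : D C} (f g : A ⟶ B) : (f + g).f = f.f + g.f := rfl
@[simp] lemma D.zero_f {A B : D C} : (0 : A ⟶ B).f = 0 := rfl
@[simp] lemma D.neg_f {A B : D C} (f : A ⟶ B) : (-f).f = -f.f := rfl
@[simp] lemma D.sub_f {A B : D C} (f g : A ⟶ B) : (f - g).f = f.f - g.f := rfl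

instance (A B : D C) : AddCommGroup (A ⟶ B) where
  add_assoc f g h := D.hom_ext _ _ (add_assoc _ _ _)
  zero_add f := D.hom_ext _ _ (zero_add _)
  add_zero f := D.hom_ext _ _ (add_zero _)
  neg_add_cancel f := D.hom_ext _ _ (neg_add_cancel _)
  add_comm f g := D.hom_ext _ _ (add_comm _ _)
  sub_eq_add_neg f g := D.hom_ext _ _ (sub_eq_add_neg _ _)
  nsmul := nsmulRec
  zsmul := zsmulRec

instance : Preadditive (D C) where
  add_comp _ _ _ f g h := D.hom_ext _ _ (Preadditive.add_comp _ _ _ _ _ _)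
  comp_add _ _ _ f g h := D.hom_ext _ _ (Preadditive.comp_add _ _ _ _ _ _)

/-- The forgetful functor. -/
@[simps] def D.forget (C : Type u) [Category.{v} C] [Preadditive C] : D C ⥤ C where
  obj A := A.X
  map f := f.f

instance : (D.forget C).Faithful where
  map_injective h := D.hom_ext _ _ h

instance : (D.forget C).Additive where

instance [CharTwo C] : CharTwo (D C) where
  add_self f := D.hom_ext _ _ (by simp)

/-- Isomorphisms of differential objects. -/
@[simps] def D.mkIso {A B : D C} (e : A.X ≅ B.X) (h : e.hom ≫ B.d = A.d ≫ e.hom) : A ≅ B where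
  hom := { f := e.hom, comm := h }
  inv := { f := e.inv, comm := by
            rw [← cancel_epi e.hom, e.hom_inv_id_assoc, ← Category.assoc, h]; simp }

section Monoidal

variable [CharTwo C] [MonoidalCategory C] [MonoidalPreadditive C]

/-- tensor product of differential objects -/
abbrev D.tensor (A B : D C) : D C where
  X := A.X ⊗ B.X
  d := A.d ▷ B.X + A.X ◁ B.d
  d2 := by
    simp only [Preadditive.add_comp, Preadditive.comp_add,
      ← comp_whiskerRight, ← whiskerLeft_comp, D.d2]
    simp [whisker_exchange]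

instance : MonoidalCategoryStruct (D C) where
  tensorObj A B := D.tensor A B
  whiskerLeft A _ _ f :=
    { f := A.X ◁ f.f
      comm := by
        simp only [Preadditive.add_comp, Preadditive.comp_add,
          ← MonoidalCategory.whiskerLeft_comp, D.comm', whisker_exchange] }
  whiskerRight f B :=
    { f := f.f ▷ B.X
      comm := by
        simp only [Preadditive.add_comp, Preadditive.comp_add,
          ← comp_whiskerRight, D.comm', whisker_exchange] }
  tensorHom {A A' B B'} f g :=
    { f := f.f ⊗ₘ g.f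
      comm := by
        have h1 : (f.f ⊗ₘ g.f) ≫ A'.d ▷ B'.X = A.d ▷ B.X ≫ (f.f ⊗ₘ g.f) := by
          rw [← tensorHom_id, ← tensorHom_id, tensorHom_comp_tensorHom,
            tensorHom_comp_tensorHom, D.comm']
          simp
        have h2 : (f.f ⊗ₘ g.f) ≫ A'.X ◁ B'.d = A.X ◁ B.d ≫ (f.f ⊗ₘ g.f) := by
          rw [← id_tensorHom, ← id_tensorHom, tensorHom_comp_tensorHom,
            tensorHom_comp_tensorHom, D.comm']
          simp
        simp only [Preadditive.add_comp, Preadditive.comp_add, h1, h2] }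
  tensorUnit := { X := 𝟙_ C, d := 0, d2 := by simp }
  associator A B E := D.mkIso (α_ A.X B.X E.X) (by
    simp [add_assoc])
  leftUnitor A := D.mkIso (λ_ A.X) (by simp)
  rightUnitor A := D.mkIso (ρ_ A.X) (by simp)

@[simp] lemma D.tensor_X (A B : D C) : (A ⊗ B).X = A.X ⊗ B.X := rfl
@[simp] lemma D.tensor_d (A B : D C) : (A ⊗ B).d = A.d ▷ B.X + A.X ◁ B.d := rfl
@[simp] lemma D.unit_X : (𝟙_ (D C)).X = 𝟙_ C := rfl
@[simp] lemma D.unit_d : (𝟙_ (D C)).d = 0 := rfl
@[simp] lemma D.whiskerLeft_f (A : D C) {B B' : D C} (f : B ⟶ B') : (A ◁ f).f = A.X ◁ f.f := rfl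
@[simp] lemma D.whiskerRight_f {A A' : D C} (f : A ⟶ A') (B : D C) : (f ▷ B).f = f.f ▷ B.X := rfl
@[simp] lemma D.tensorHom_f {A A' B B' : D C} (f : A ⟶ A') (g : B ⟶ B') :
    (f ⊗ₘ g).f = f.f ⊗ₘ g.f := rfl
@[simp] lemma D.associator_hom_f (A B E : D C) : (α_ A B E).hom.f = (α_ A.X B.X E.X).hom := rfl
@[simp] lemma D.associator_inv_f (A B E : D C) : (α_ A B E).inv.f = (α_ A.X B.X E.X).inv := rfl
@[simp] lemma D.leftUnitor_hom_f (A : D C) : (λ_ A).hom.f = (λ_ A.X).hom := rfl
@[simp] lemma D.rightUnitor_hom_f (A : D C) : (ρ_ A).hom.f = (ρ_ A.X).hom := rfl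
@[simp] lemma D.leftUnitor_inv_f (A : D C) : (λ_ A).inv.f = (λ_ A.X).inv := rfl
@[simp] lemma D.rightUnitor_inv_f (A : D C) : (ρ_ A).inv.f = (ρ_ A.X).inv := rfl

/-- data for the induced structure -/
def D.inducingData : Monoidal.InducingFunctorData (D.forget C) where
  μIso _ _ := Iso.refl _
  whiskerLeft_eq _ _ _ _ := by erw [Category.id_comp, Category.comp_id]; rfl
  whiskerRight_eq _ _ := by erw [Category.id_comp, Category.comp_id]; rfl
  tensorHom_eq _ _ := by erw [Category.id_comp, Category.comp_id]; rfl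
  εIso := Iso.refl _
  associator_eq A B E := by
    change (α_ A.X B.X E.X).hom = (𝟙 _ ≫ (𝟙 _ ⊗ₘ 𝟙 _)) ≫ (α_ A.X B.X E.X).hom ≫ ((𝟙 _ ⊗ₘ 𝟙 _) ≫ 𝟙 _)
    simp
  leftUnitor_eq A := by
    change (λ_ A.X).hom = (𝟙 _ ≫ (𝟙 _ ⊗ₘ 𝟙 _)) ≫ (λ_ A.X).hom
    simp
  rightUnitor_eq A := by
    change (ρ_ A.X).hom = (𝟙 _ ≫ (𝟙 _ ⊗ₘ 𝟙 _)) ≫ (ρ_ A.X).hom
    simp

instance : MonoidalCategory (D C) := Monoidal.induced (D.forget C) D.inducingData

instance : (D.forget C).Monoidal := Monoidal.fromInducedMonoidal (D.forget C) D.inducingData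

instance : MonoidalPreadditive (D C) where
  whiskerLeft_zero := D.hom_ext _ _ (MonoidalPreadditive.whiskerLeft_zero)
  zero_whiskerRight := D.hom_ext _ _ (MonoidalPreadditive.zero_whiskerRight)
  whiskerLeft_add _ _ := D.hom_ext _ _ (MonoidalPreadditive.whiskerLeft_add _ _)
  add_whiskerRight _ _ := D.hom_ext _ _ (MonoidalPreadditive.add_whiskerRight _ _)

end Monoidal

section Symmetric

variable [CharTwo C] [MonoidalCategory C] [MonoidalPreadditive C]

instance [BraidedCategory C] : BraidedCategory (D C) where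
  braiding A B := D.mkIso (β_ A.X B.X) (by
    simp [Preadditive.comp_add, Preadditive.add_comp, add_comm])
  braiding_naturality_right _ _ _ _ := D.hom_ext _ _ (by
    exact BraidedCategory.braiding_naturality_right _ _)
  braiding_naturality_left _ _ := D.hom_ext _ _ (by
    exact BraidedCategory.braiding_naturality_left _ _)
  hexagon_forward _ _ _ := D.hom_ext _ _ (BraidedCategory.hexagon_forward _ _ _)
  hexagon_reverse _ _ _ := D.hom_ext _ _ (BraidedCategory.hexagon_reverse _ _ _)

@[simp] lemma D.braiding_hom_f [BraidedCategory C] (A B : D C) :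
    (β_ A B).hom.f = (β_ A.X B.X).hom := rfl
@[simp] lemma D.braiding_inv_f [BraidedCategory C] (A B : D C) :
    (β_ A B).inv.f = (β_ A.X B.X).inv := rfl

instance [SymmetricCategory C] : SymmetricCategory (D C) where
  symmetry _ _ := D.hom_ext _ _ (SymmetricCategory.symmetry _ _)

end Symmetric

section ZeroBiprod

/-- an object of `C` with the zero differential -/
@[simps] def D.ofObj (X : C) : D C := { X := X, d := 0, d2 := by simp }

/-- the functor from `C` to `D C` given by the zero differential -/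
@[simps] def D.inc (C : Type u) [Category.{v} C] [Preadditive C] : C ⥤ D C where
  obj X := D.ofObj X
  map f := { f := f, comm := by simp [D.ofObj] }

open ZeroObject in
instance [HasZeroObject C] : HasZeroObject (D C) where
  zero := ⟨D.ofObj (0 : C), ⟨fun A => ⟨⟨⟨0⟩, fun f => D.hom_ext _ _
      ((isZero_zero C).eq_of_src _ _)⟩⟩, fun A => ⟨⟨⟨0⟩, fun f => D.hom_ext _ _
      ((isZero_zero C).eq_of_tgt _ _)⟩⟩⟩⟩

variable [HasBinaryBiproducts C] [CharTwo C]

/-- The mapping cone of a morphism of differential objects. -/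
@[simps] noncomputable def D.cone {A B : D C} (f : A ⟶ B) : D C where
  X := A.X ⊞ B.X
  d := biprod.desc (biprod.lift A.d f.f) (biprod.lift 0 B.d)
  d2 := by
    ext <;> simp

/-- inclusion of the target in the cone -/
@[simps] noncomputable def D.coneInr {A B : D C} (f : A ⟶ B) : B ⟶ D.cone f where
  f := biprod.inr
  comm := by
    dsimp only [D.cone]
    ext <;> simp

/-- projection from the cone to the source (the shift is the identity) -/
@[simps] noncomputable def D.coneFst {A B : D C} (f : A ⟶ B) : D.cone f ⟶ A where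
  f := biprod.fst
  comm := by
    dsimp only [D.cone]
    ext <;> simp

end ZeroBiprod

end Pool.Agent.H939.TT
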