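import Pool.Agent.H939.TT.FC

/-!
# The embeddings of a monoidal category `A` in `FC A` and in `D (FC A)`
-/

namespace Pool.Agent.H939.TT

open CategoryTheory CategoryTheory.Limits CategoryTheory.MonoidalCategory DirectSum

universe v u u'

attribute [local instance] Classical.decEq

namespace FC

variable {A : Type u} [Category.{0} A] [Preadditive A] [MonoidalCategory A]
  [MonoidalPreadditive A]

/-- the monoidal structure of the embedding -/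
noncomputable def incCore : (inc A).CoreMonoidal where
  εIso := Iso.refl _
  μIso a b :=
    { hom := ⟨fun _ => of (single (a ⊗ b)) () (𝟙 _)⟩
      inv := ⟨fun _ => of (tensor (single a) (single b)) ((), ()) (𝟙 _)⟩
      hom_inv_id := hom_ext fun p =>
        (comp_app_of rfl rfl).trans (congrArg _ (Category.comp_id _))
      inv_hom_id := hom_ext fun p =>
        (comp_app_of rfl rfl).trans (congrArg _ (Category.comp_id _)) }
  μIso_hom_natural_left {X Y} f X' := hom_ext fun p => by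
    refine (comp_app_of (tens_of (X := single Y) (Y := single X') () () f (𝟙 _)) rfl).trans ?_
    refine Eq.trans ?_ (comp_app_of rfl rfl).symm
    refine congrArg _ ?_
    exact (by simp : (f ⊗ₘ 𝟙 X') ≫ 𝟙 (Y ⊗ X') = 𝟙 (X ⊗ X') ≫ (f ▷ X'))
  μIso_hom_natural_right {X Y} X' f := hom_ext fun p => by
    refine (comp_app_of (tens_of (X := single X') (Y := single Y) () () (𝟙 _) f) rfl).trans ?_
    refine Eq.trans ?_ (comp_app_of rfl rfl).symm
    refine congrArg _ ?_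
    exact (by simp : (𝟙 X' ⊗ₘ f) ≫ 𝟙 (X' ⊗ Y) = 𝟙 (X' ⊗ X) ≫ (X' ◁ f))
  associativity X Y Z := hom_ext fun p => by
    refine (comp_app_of (tens_of (X := single (X ⊗ Y)) (Y := single Z) () () (𝟙 _) (𝟙 _))
      (comp_app_of rfl rfl)).trans ?_
    refine Eq.trans ?_ (comp_app_of rfl (comp_app_of (tens_of (X := single X)
      (Y := single (Y ⊗ Z)) () () (𝟙 _) (𝟙 _)) rfl)).symm
    refine congrArg _ ?_
    exact (by simp : (𝟙 (X ⊗ Y) ⊗ₘ 𝟙 Z) ≫ 𝟙 ((X ⊗ Y) ⊗ Z) ≫ (α_ X Y Z).hom =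
      (α_ X Y Z).hom ≫ (𝟙 X ⊗ₘ 𝟙 (Y ⊗ Z)) ≫ 𝟙 (X ⊗ (Y ⊗ Z)))
  left_unitality X := hom_ext fun p => by
    refine Eq.trans ?_ (comp_app_of (tens_of (X := single (𝟙_ A)) (Y := single X) () ()
      (𝟙 _) (𝟙 _)) (comp_app_of rfl rfl)).symm
    refine congrArg (of (single X) ()) ?_
    exact (by simp : (λ_ X).hom = (𝟙 (𝟙_ A) ⊗ₘ 𝟙 X) ≫ 𝟙 (𝟙_ A ⊗ X) ≫ (λ_ X).hom)
  right_unitality X := hom_ext fun p => by
    refine Eq.trans ?_ (comp_app_of (tens_of (X := single X) (Y := single (𝟙_ A)) () ()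
      (𝟙 _) (𝟙 _)) (comp_app_of rfl rfl)).symm
    refine congrArg (of (single X) ()) ?_
    exact (by simp : (ρ_ X).hom = (𝟙 X ⊗ₘ 𝟙 (𝟙_ A)) ≫ 𝟙 (X ⊗ 𝟙_ A) ≫ (ρ_ X).hom)

noncomputable instance : (inc A).Monoidal := incCore.toMonoidal

end FC

section

variable {C : Type u} [Category.{v} C] [Preadditive C] [MonoidalCategory C]
  [MonoidalPreadditive C] [CharTwo C]

/-- the monoidal structure of the embedding of `C` in `D C` (zero differentials) -/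
noncomputable def D.incCore : (D.inc C).CoreMonoidal where
  εIso := Iso.refl _
  μIso X Y := D.mkIso (Iso.refl _) (by
    change 𝟙 (X ⊗ Y) ≫ (0 : X ⊗ Y ⟶ X ⊗ Y) = ((0 : X ⟶ X) ▷ Y + X ◁ (0 : Y ⟶ Y)) ≫ 𝟙 (X ⊗ Y)
    simp)
  μIso_hom_natural_left {X Y} f X' := D.hom_ext _ _ (by
    change f ▷ X' ≫ 𝟙 _ = 𝟙 _ ≫ f ▷ X'
    simp)
  μIso_hom_natural_right {X Y} X' f := D.hom_ext _ _ (by
    change X' ◁ f ≫ 𝟙 _ = 𝟙 _ ≫ X' ◁ f
    simp)
  associativity X Y Z := D.hom_ext _ _ (by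
    change (𝟙 (X ⊗ Y)) ▷ Z ≫ 𝟙 _ ≫ (α_ X Y Z).hom = (α_ X Y Z).hom ≫ X ◁ (𝟙 (Y ⊗ Z)) ≫ 𝟙 _
    simp)
  left_unitality X := D.hom_ext _ _ (by
    change (λ_ X).hom = (𝟙 (𝟙_ C)) ▷ X ≫ 𝟙 _ ≫ (λ_ X).hom
    simp)
  right_unitality X := D.hom_ext _ _ (by
    change (ρ_ X).hom = X ◁ (𝟙 (𝟙_ C)) ≫ 𝟙 _ ≫ (ρ_ X).hom
    simp)

noncomputable instance : (D.inc C).Monoidal := D.incCore.toMonoidal

instance : (D.inc C).Additive where
  map_add := D.hom_ext _ _ rfl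

end

end Pool.Agent.H939.TT
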