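import Pool.Agent.H939.TT.TriInst

/-!
# The octahedron axiom in the homotopy category
-/

namespace Pool.Agent.H939.TT

open CategoryTheory CategoryTheory.Limits CategoryTheory.MonoidalCategory
open CategoryTheory.Pretriangulated

universe v u v' u'

variable {C : Type u} [Category.{v} C] [Preadditive C] [HasBinaryBiproducts C] [CharTwo C]

/-- the map `cone f ⟶ cone (f ≫ g)` -/
noncomputable def octM1 {A B E : D C} (f : A ⟶ B) (g : B ⟶ E) : D.cone f ⟶ D.cone (f ≫ g) where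
  f := biprod.map (𝟙 A.X) g.f
  comm := by
    dsimp only [D.cone]
    ext <;> simp

/-- the map `cone (f ≫ g) ⟶ cone g` -/
noncomputable def octM3 {A B E : D C} (f : A ⟶ B) (g : B ⟶ E) : D.cone (f ≫ g) ⟶ D.cone g where
  f := biprod.map f.f (𝟙 E.X)
  comm := by
    dsimp only [D.cone]
    ext <;> simp

/-- the map `cone g ⟶ cone m₁`, `(b, e) ↦ (0, b, 0, e)` -/
noncomputable def octPsi {A B E : D C} (f : A ⟶ B) (g : B ⟶ E) :
    D.cone g ⟶ D.cone (octM1 f g) where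
  f := biprod.map (Y := D.cone f |>.X) (Z := D.cone (f ≫ g) |>.X) biprod.inr biprod.inr
  comm := by
    dsimp only [D.cone, octM1]
    ext <;> simp

/-- the map `cone m₁ ⟶ cone g`, `(a, b, a', e) ↦ (b + f a', e)` -/
noncomputable def octPhi {A B E : D C} (f : A ⟶ B) (g : B ⟶ E) :
    D.cone (octM1 f g) ⟶ D.cone g where
  f := biprod.desc (biprod.snd ≫ biprod.inl) (biprod.map f.f (𝟙 E.X))
  comm := by
    dsimp only [D.cone, octM1]
    ext <;> simp

lemma octPsi_octPhi {A B E : D C} (f : A ⟶ B) (g : B ⟶ E) :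
    octPsi f g ≫ octPhi f g = 𝟙 (D.cone g) := by
  have key : biprod.map (biprod.inr : B.X ⟶ A.X ⊞ B.X) (biprod.inr : E.X ⟶ A.X ⊞ E.X) ≫
      biprod.desc (biprod.snd ≫ biprod.inl) (biprod.map f.f (𝟙 E.X)) = 𝟙 (B.X ⊞ E.X) := by
    ext <;> simp
  exact D.hom_ext _ _ key

lemma octPhi_octPsi {A B E : D C} (f : A ⟶ B) (g : B ⟶ E) :
    (Q C).map (octPhi f g ≫ octPsi f g) = (Q C).map (𝟙 _) := by
  rw [Q_map_eq]
  let h : (A.X ⊞ B.X) ⊞ (A.X ⊞ E.X) ⟶ (A.X ⊞ B.X) ⊞ (A.X ⊞ E.X) :=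
    biprod.desc 0 (biprod.fst ≫ biprod.inl ≫ biprod.inl)
  let d : (A.X ⊞ B.X) ⊞ (A.X ⊞ E.X) ⟶ (A.X ⊞ B.X) ⊞ (A.X ⊞ E.X) :=
    biprod.desc (biprod.lift (biprod.desc (biprod.lift A.d f.f) (biprod.lift 0 B.d))
      (biprod.map (𝟙 A.X) g.f))
      (biprod.lift 0 (biprod.desc (biprod.lift A.d (f.f ≫ g.f)) (biprod.lift 0 E.d)))
  have key : biprod.desc (biprod.snd ≫ biprod.inl) (biprod.map f.f (𝟙 E.X)) ≫
      biprod.map (biprod.inr : B.X ⟶ A.X ⊞ B.X) (biprod.inr : E.X ⟶ A.X ⊞ E.X) -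
      𝟙 ((A.X ⊞ B.X) ⊞ (A.X ⊞ E.X)) = h ≫ d + d ≫ h := by
    dsimp only [h, d]
    rw [sub_eq']
    ext <;> simp
  exact ⟨h, key⟩

/-- `cone g` and `cone m₁` are isomorphic in the homotopy category -/
noncomputable def octIso {A B E : D C} (f : A ⟶ B) (g : B ⟶ E) :
    (Q C).obj (D.cone g) ≅ (Q C).obj (D.cone (octM1 f g)) where
  hom := (Q C).map (octPsi f g)
  inv := (Q C).map (octPhi f g)
  hom_inv_id := by
    rw [← Functor.map_comp, octPsi_octPhi, CategoryTheory.Functor.map_id]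
  inv_hom_id := by
    rw [← Functor.map_comp, octPhi_octPsi, CategoryTheory.Functor.map_id]

lemma octM3_octPsi {A B E : D C} (f : A ⟶ B) (g : B ⟶ E) :
    (Q C).map (octM3 f g) ≫ (octIso f g).hom = (Q C).map (D.coneInr (octM1 f g)) := by
  rw [← Iso.eq_comp_inv]
  refine Eq.trans ?_ ((Q C).map_comp (D.coneInr (octM1 f g)) (octPhi f g))
  have key : biprod.map f.f (𝟙 E.X) = biprod.inr ≫
      biprod.desc (biprod.snd ≫ biprod.inl : A.X ⊞ B.X ⟶ B.X ⊞ E.X) (biprod.map f.f (𝟙 E.X)) := by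
    simp
  exact congrArg (Q C).map (D.hom_ext _ _ key)

lemma octPsi_coneFst {A B E : D C} (f : A ⟶ B) (g : B ⟶ E) :
    (octIso f g).hom ≫ (Q C).map (D.coneFst (octM1 f g)) =
      (Q C).map (D.coneFst g) ≫ (Q C).map (D.coneInr f) := by
  refine Eq.trans ((Q C).map_comp (octPsi f g) (D.coneFst (octM1 f g))).symm ?_
  refine Eq.trans ?_ ((Q C).map_comp (D.coneFst g) (D.coneInr f))
  have key : biprod.map (biprod.inr : B.X ⟶ A.X ⊞ B.X) (biprod.inr : E.X ⟶ A.X ⊞ E.X) ≫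
      biprod.fst = biprod.fst ≫ (biprod.inr : B.X ⟶ A.X ⊞ B.X) := by
    simp
  exact congrArg (Q C).map (D.hom_ext _ _ key)

variable [HasZeroObject C]

/-- the triangle of the octahedron is distinguished -/
lemma oct_mem {A B E : D C} (f : A ⟶ B) (g : B ⟶ E) :
    Triangle.mk ((Q C).map (octM1 f g)) ((Q C).map (octM3 f g))
      (((Q C).map (D.coneFst g) ≫ (Q C).map (D.coneInr f)) :
        (Q C).obj (D.cone g) ⟶ ((Q C).obj (D.cone f))⟦(1 : ℤ)⟧) ∈ distTriang (K C) := by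
  rw [mem_distTriang_K]
  refine ⟨_, _, octM1 f g, ⟨Triangle.isoMk _ _ (Iso.refl _) (Iso.refl _) (octIso f g) ?_ ?_ ?_⟩⟩
  · exact (Category.comp_id _).trans (Category.id_comp _).symm
  · exact (octM3_octPsi f g).trans (Category.id_comp _).symm
  · refine Eq.trans ?_ (octPsi_coneFst f g).symm
    exact Category.comp_id _

instance : IsTriangulated (K C) := by
  refine IsTriangulated.mk' ?_
  intro X₁ X₂ X₃ u v
  obtain ⟨A, rfl⟩ := X₁.exists_rep
  obtain ⟨B, rfl⟩ := X₂.exists_rep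
  obtain ⟨E, rfl⟩ := X₃.exists_rep
  obtain ⟨f, rfl⟩ := Q_map_surjective u
  obtain ⟨g, rfl⟩ := Q_map_surjective v
  refine ⟨_, _, _, (Q C).obj (D.cone f), (Q C).obj (D.cone g), (Q C).obj (D.cone (f ≫ g)),
    (Q C).map f, (Q C).map g, Iso.refl _, Iso.refl _, Iso.refl _,
    (Category.comp_id _).trans (Category.id_comp _).symm,
    (Category.comp_id _).trans (Category.id_comp _).symm,
    (Q C).map (D.coneInr f), (Q C).map (D.coneFst f), coneTri_mem f,
    (Q C).map (D.coneInr g), (Q C).map (D.coneFst g), coneTri_mem g,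
    (Q C).map (D.coneInr (f ≫ g)), (Q C).map (D.coneFst (f ≫ g)), ?_, ⟨?_⟩⟩
  · exact coneTri_mem (f ≫ g)
  · refine Triangulated.Octahedron.mk ((Q C).map (octM1 f g)) ((Q C).map (octM3 f g))
      ?_ ?_ ?_ ?_ (oct_mem f g)
    · have key : (biprod.inr : B.X ⟶ A.X ⊞ B.X) ≫ biprod.map (𝟙 A.X) g.f = g.f ≫ biprod.inr := by
        simp
      exact congrArg (Q C).map (D.hom_ext (D.coneInr f ≫ octM1 f g) (g ≫ D.coneInr (f ≫ g)) key)
    · have key : biprod.map (𝟙 A.X) g.f ≫ (biprod.fst : A.X ⊞ E.X ⟶ A.X) = biprod.fst := by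
        simp
      exact congrArg (Q C).map (D.hom_ext (octM1 f g ≫ D.coneFst (f ≫ g)) (D.coneFst f) key)
    · have key : (biprod.inr : E.X ⟶ A.X ⊞ E.X) ≫ biprod.map f.f (𝟙 E.X) = biprod.inr := by
        simp
      exact congrArg (Q C).map (D.hom_ext (D.coneInr (f ≫ g) ≫ octM3 f g) (D.coneInr g) key)
    · have key : (biprod.fst : A.X ⊞ E.X ⟶ A.X) ≫ f.f =
          biprod.map f.f (𝟙 E.X) ≫ (biprod.fst : B.X ⊞ E.X ⟶ B.X) := by
        simp
      exact congrArg (Q C).map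
        (D.hom_ext (D.coneFst (f ≫ g) ≫ f) (octM3 f g ≫ D.coneFst g) key)

end Pool.Agent.H939.TT
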