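import Pool.Agent.H939.TT.FCPres
import Pool.Agent.H939.TT.FCInc
import Pool.Agent.H939.TT.KCo
import Pool.Agent.H939.TT.TriOct
import Pool.Agent.H939.TT.AbsDefs

/-!
# The tt-category generated by a symmetric monoidal additive category in characteristic two
-/

namespace Pool.Agent.H939.TT

open CategoryTheory CategoryTheory.Limits CategoryTheory.MonoidalCategory
open CategoryTheory.Pretriangulated Pool.Agent.Helper609_TT

variable (A : Type) [Category.{0} A] [Preadditive A] [CharTwo A]

/-- the embedding of `A` in the homotopy category of differential formal coproducts -/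
noncomputable abbrev emb : A ⥤ K (FC A) := FC.inc A ⋙ D.inc (FC A) ⋙ Q (FC A)

/-- The localizing subcategory of `K (FC A)` generated by `A`. -/
def locP : ObjectProperty (K (FC A)) := fun X => ∀ L : ObjectProperty (K (FC A)), IsLocS L →
  (∀ a : A, L ((emb A).obj a)) → L X

lemma locP_emb (a : A) : locP A ((emb A).obj a) := fun _ _ h => h a

lemma isLocS_locP : IsLocS (locP A) where
  iso e h L hL hA := hL.iso e (h L hL hA)
  shift X n h L hL hA := hL.shift X n (h L hL hA)
  ext₂ T hT h₁ h₃ L hL hA := hL.ext₂ T hT (h₁ L hL hA) (h₃ L hL hA)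
  coprod J X h L hL hA := hL.coprod J X (fun j => h j L hL hA)

instance : (locP A).IsClosedUnderIsomorphisms where
  of_iso e h := (isLocS_locP A).iso e h

lemma locP_containsZero : (locP A).ContainsZero where
  exists_zero := by
    refine ⟨∐ (fun j : PEmpty.{1} => (j.elim : K (FC A))), ?_, ?_⟩
    · rw [IsZero.iff_id_eq_zero]
      exact Limits.Sigma.hom_ext _ _ fun j => j.elim
    · exact (isLocS_locP A).coprod _ _ fun j => j.elim

lemma locP_isStableUnderShift : (locP A).IsStableUnderShift ℤ where
  isStableUnderShiftBy n := { le_shift := fun X hX => (isLocS_locP A).shift X n hX }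

lemma locP_isTriangulatedClosed₂ : (locP A).IsTriangulatedClosed₂ :=
  ObjectProperty.IsTriangulatedClosed₂.mk' fun T hT h₁ h₃ => (isLocS_locP A).ext₂ T hT h₁ h₃

instance : (locP A).IsTriangulated := by
  have h1 := locP_containsZero A
  have h2 := locP_isStableUnderShift A
  have h3 := locP_isTriangulatedClosed₂ A
  exact { }

section Monoidal

variable [MonoidalCategory A] [MonoidalPreadditive A] [SymmetricCategory A]

omit [SymmetricCategory A] in
lemma isLocS_tensorLeft {L : ObjectProperty (K (FC A))} (hL : IsLocS L) (X : K (FC A)) :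
    IsLocS (T := K (FC A)) (fun Y => L (X ⊗ Y)) where
  iso e h := hL.iso (whiskerLeftIso X e) h
  shift Y n h := hL.iso (((tensorLeft X).commShiftIso n).app Y).symm (hL.shift _ n h)
  ext₂ T hT h₁ h₃ := hL.ext₂ _ ((tensorLeft X).map_distinguished T hT) h₁ h₃
  coprod J Y h := hL.iso (PreservesCoproduct.iso (tensorLeft X) Y).symm (hL.coprod J _ h)

omit [SymmetricCategory A] in
lemma locP_tensor_emb (a : A) {Y : K (FC A)} (hY : locP A Y) : locP A ((emb A).obj a ⊗ Y) :=
  hY (fun Y => locP A ((emb A).obj a ⊗ Y)) (isLocS_tensorLeft A (isLocS_locP A) _) fun b =>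
    (isLocS_locP A).iso (Functor.Monoidal.μIso (emb A) a b).symm (locP_emb A (a ⊗ b))

lemma locP_tensor {X Y : K (FC A)} (hX : locP A X) (hY : locP A Y) : locP A (X ⊗ Y) :=
  hY (fun Y => locP A (X ⊗ Y)) (isLocS_tensorLeft A (isLocS_locP A) _) fun b =>
    (isLocS_locP A).iso (β_ ((emb A).obj b) X) (locP_tensor_emb A b hX)

instance : (locP A).IsMonoidal where
  prop_unit := (isLocS_locP A).iso (Functor.Monoidal.εIso (emb A)).symm (locP_emb A (𝟙_ A))
  prop_tensor _ _ hX hY := locP_tensor A hX hY

end Monoidal

/-- The category generated by `A`: the localizing subcategory of `K (FC A)` generated by `A`. -/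
abbrev DT : Type 1 := (locP A).FullSubcategory

section Check

variable [MonoidalCategory A] [MonoidalPreadditive A] [SymmetricCategory A]

noncomputable example : Pretriangulated (DT A) := inferInstance
noncomputable example : IsTriangulated (DT A) := inferInstance
noncomputable example : SymmetricCategory (DT A) := inferInstance
noncomputable example : MonoidalPreadditive (DT A) := inferInstance
noncomputable example : HasZeroObject (DT A) := inferInstance
noncomputable example (n : ℤ) : (shiftFunctor (DT A) n).Additive := inferInstance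

end Check

end Pool.Agent.H939.TT
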