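import Pool.Agent.H939.TT.DCat

/-!
# The product of two additive symmetric monoidal categories
-/

namespace Pool.Agent.H939.TT

open CategoryTheory CategoryTheory.Limits CategoryTheory.MonoidalCategory

universe v u

section Preadditive

variable {A : Type u} [Category.{v} A] [Preadditive A] {B : Type u} [Category.{v} B] [Preadditive B]

instance (X Y : A × B) : AddCommGroup (X ⟶ Y) :=
  inferInstanceAs (AddCommGroup ((X.1 ⟶ Y.1) × (X.2 ⟶ Y.2)))

instance prodPreadditive : Preadditive (A × B) where
  add_comp X Y Z f g h := Prod.ext (Preadditive.add_comp _ _ _ _ _ _) (Preadditive.add_comp _ _ _ _ _ _)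
  comp_add X Y Z f g h := Prod.ext (Preadditive.comp_add _ _ _ _ _ _) (Preadditive.comp_add _ _ _ _ _ _)

@[simp] lemma prod_add_fst {X Y : A × B} (f g : X ⟶ Y) : (f + g).1 = f.1 + g.1 := rfl
@[simp] lemma prod_add_snd {X Y : A × B} (f g : X ⟶ Y) : (f + g).2 = f.2 + g.2 := rfl
@[simp] lemma prod_zero_fst {X Y : A × B} : (0 : X ⟶ Y).1 = 0 := rfl
@[simp] lemma prod_zero_snd {X Y : A × B} : (0 : X ⟶ Y).2 = 0 := rfl

instance [CharTwo A] [CharTwo B] : CharTwo (A × B) where
  add_self f := Prod.ext (add_self' f.1) (add_self' f.2)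

instance : (CategoryTheory.Prod.fst A B).Additive where
  map_add := rfl

instance : (CategoryTheory.Prod.snd A B).Additive where
  map_add := rfl

instance {T : Type u} [Category.{v} T] [Preadditive T] (F : T ⥤ A) (G : T ⥤ B) [F.Additive]
    [G.Additive] : (F.prod' G).Additive where
  map_add := Prod.ext F.map_add G.map_add

section Linear

variable {F : Type*} [Field F] [Linear F A] [Linear F B]

instance (X Y : A × B) : Module F (X ⟶ Y) :=
  inferInstanceAs (Module F ((X.1 ⟶ Y.1) × (X.2 ⟶ Y.2)))

instance : Linear F (A × B) where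
  smul_comp _ _ _ c f g := Prod.ext (Linear.smul_comp _ _ _ _ _ _) (Linear.smul_comp _ _ _ _ _ _)
  comp_smul _ _ _ f c g := Prod.ext (Linear.comp_smul _ _ _ _ _ _) (Linear.comp_smul _ _ _ _ _ _)

@[simp] lemma prod_smul_fst {X Y : A × B} (c : F) (f : X ⟶ Y) : (c • f).1 = c • f.1 := rfl
@[simp] lemma prod_smul_snd {X Y : A × B} (c : F) (f : X ⟶ Y) : (c • f).2 = c • f.2 := rfl

end Linear

section Monoidal

variable [MonoidalCategory A] [MonoidalPreadditive A] [MonoidalCategory B] [MonoidalPreadditive B]

instance : MonoidalPreadditive (A × B) where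
  whiskerLeft_zero := Prod.ext MonoidalPreadditive.whiskerLeft_zero MonoidalPreadditive.whiskerLeft_zero
  zero_whiskerRight := Prod.ext MonoidalPreadditive.zero_whiskerRight
    MonoidalPreadditive.zero_whiskerRight
  whiskerLeft_add _ _ := Prod.ext (MonoidalPreadditive.whiskerLeft_add _ _)
    (MonoidalPreadditive.whiskerLeft_add _ _)
  add_whiskerRight _ _ := Prod.ext (MonoidalPreadditive.add_whiskerRight _ _)
    (MonoidalPreadditive.add_whiskerRight _ _)

end Monoidal

end Preadditive

section Symmetric

variable {A : Type u} [Category.{v} A] [MonoidalCategory A]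
  {B : Type u} [Category.{v} B] [MonoidalCategory B]

/-- the first projection is monoidal -/
def prodFstCore : (CategoryTheory.Prod.fst A B).CoreMonoidal where
  εIso := Iso.refl _
  μIso _ _ := Iso.refl _

instance : (CategoryTheory.Prod.fst A B).Monoidal := prodFstCore.toMonoidal

/-- the second projection is monoidal -/
def prodSndCore : (CategoryTheory.Prod.snd A B).CoreMonoidal where
  εIso := Iso.refl _
  μIso _ _ := Iso.refl _

instance : (CategoryTheory.Prod.snd A B).Monoidal := prodSndCore.toMonoidal

instance [BraidedCategory A] [BraidedCategory B] : BraidedCategory (A × B) where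
  braiding X Y :=
    { hom := ((β_ X.1 Y.1).hom, (β_ X.2 Y.2).hom)
      inv := ((β_ X.1 Y.1).inv, (β_ X.2 Y.2).inv)
      hom_inv_id := Prod.ext (Iso.hom_inv_id _) (Iso.hom_inv_id _)
      inv_hom_id := Prod.ext (Iso.inv_hom_id _) (Iso.inv_hom_id _) }
  braiding_naturality_right X {Y Z} f := Prod.ext (BraidedCategory.braiding_naturality_right _ _)
    (BraidedCategory.braiding_naturality_right _ _)
  braiding_naturality_left {X Y} f Z := Prod.ext (BraidedCategory.braiding_naturality_left _ _)
    (BraidedCategory.braiding_naturality_left _ _)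
  hexagon_forward X Y Z := Prod.ext (BraidedCategory.hexagon_forward _ _ _)
    (BraidedCategory.hexagon_forward _ _ _)
  hexagon_reverse X Y Z := Prod.ext (BraidedCategory.hexagon_reverse _ _ _)
    (BraidedCategory.hexagon_reverse _ _ _)

instance [SymmetricCategory A] [SymmetricCategory B] : SymmetricCategory (A × B) where
  symmetry X Y := Prod.ext (SymmetricCategory.symmetry _ _) (SymmetricCategory.symmetry _ _)

instance [BraidedCategory A] [BraidedCategory B] : (CategoryTheory.Prod.fst A B).Braided where
  braided X Y := by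
    change 𝟙 _ ≫ (β_ X.1 Y.1).hom = (β_ X.1 Y.1).hom ≫ 𝟙 _
    rw [Category.id_comp, Category.comp_id]

instance [BraidedCategory A] [BraidedCategory B] : (CategoryTheory.Prod.snd A B).Braided where
  braided X Y := by
    change 𝟙 _ ≫ (β_ X.2 Y.2).hom = (β_ X.2 Y.2).hom ≫ 𝟙 _
    rw [Category.id_comp, Category.comp_id]

instance {T : Type u} [Category.{v} T] [MonoidalCategory T] [BraidedCategory T]
    [BraidedCategory A] [BraidedCategory B] (F : T ⥤ A) (G : T ⥤ B) [F.Braided] [G.Braided] :
    (F.prod' G).Braided where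
  braided X Y := Prod.ext
    (by
      change (Functor.LaxMonoidal.μ (F.prod' G) X Y).1 ≫ F.map (β_ X Y).hom =
        (β_ (F.obj X) (F.obj Y)).hom ≫ (Functor.LaxMonoidal.μ (F.prod' G) Y X).1
      rw [Functor.prod'_μ_fst, Functor.prod'_μ_fst]
      exact Functor.LaxBraided.braided (F := F) X Y)
    (by
      change (Functor.LaxMonoidal.μ (F.prod' G) X Y).2 ≫ G.map (β_ X Y).hom =
        (β_ (G.obj X) (G.obj Y)).hom ≫ (Functor.LaxMonoidal.μ (F.prod' G) Y X).2
      rw [Functor.prod'_μ_snd, Functor.prod'_μ_snd]
      exact Functor.LaxBraided.braided (F := G) X Y)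

/-- dual objects in the product -/
def prodExactPairing {X X' : A} {Y Y' : B} (p : ExactPairing X X') (q : ExactPairing Y Y') :
    ExactPairing ((X, Y) : A × B) ((X', Y') : A × B) where
  coevaluation' := (p.coevaluation', q.coevaluation')
  evaluation' := (p.evaluation', q.evaluation')
  coevaluation_evaluation' := Prod.ext p.coevaluation_evaluation' q.coevaluation_evaluation'
  evaluation_coevaluation' := Prod.ext p.evaluation_coevaluation' q.evaluation_coevaluation'

end Symmetric

end Pool.Agent.H939.TT
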