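import Pool.Agent.H939.TT.DTFun
import Pool.Agent.H939.TT.ProdCat

/-!
# Endomorphisms of the unit of `DT C`
-/

namespace Pool.Agent.H939.TT

open CategoryTheory CategoryTheory.Limits CategoryTheory.MonoidalCategory
open CategoryTheory.Pretriangulated Pool.Agent.Helper609_TT

section Emb

variable (C : Type) [Category.{0} C] [Preadditive C] [CharTwo C]

/-- the embedding of `C` in `DT C` -/
noncomputable def DT.emb : C ⥤ DT C := (locP C).lift (Pool.Agent.H939.TT.emb C) (locP_emb C)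

variable {C}

omit [CharTwo C] in
/-- the inclusion of a summand is injective -/
lemma dtpi_of_inj {a : C} {Y : FC C} {j : Y.ι} {u v : a ⟶ Y.obj j}
    (h : FC.of Y j u = FC.of Y j v) : u = v := by
  let _ : DecidableEq Y.ι := Classical.decEq _
  exact DirectSum.of_injective j h

omit [CharTwo C] in
/-- equal classes of morphisms between objects with zero differentials -/
lemma dtpi_Q_inj {A B : D (FC C)} (hA : A.d = 0) (hB : B.d = 0) {f g : A ⟶ B}
    (h : (Q (FC C)).map f = (Q (FC C)).map g) : f = g := by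
  obtain ⟨k, hk⟩ := Q_map_eq.1 h
  rw [hA, hB, comp_zero, zero_comp, add_zero] at hk
  exact D.hom_ext _ _ (sub_eq_zero.1 hk)

lemma dtpi_emb_inj {a b : C} {f g : a ⟶ b}
    (h : (Pool.Agent.H939.TT.emb C).map f = (Pool.Agent.H939.TT.emb C).map g) : f = g := by
  have h1 : (D.inc (FC C)).map ((FC.inc C).map f) = (D.inc (FC C)).map ((FC.inc C).map g) :=
    dtpi_Q_inj rfl rfl h
  have h2 : (FC.inc C).map f = (FC.inc C).map g := congrArg D.Hom.f h1
  have h3 : FC.of (FC.single b) () f = FC.of (FC.single b) () g :=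
    congrArg (fun u => FC.Hom.app u ()) h2
  exact dtpi_of_inj h3

instance : (DT.emb C).Faithful where
  map_injective {a b} f g h := by
    have h1 : ((DT.emb C).map f).hom = ((DT.emb C).map g).hom :=
      congrArg InducedCategory.Hom.hom h
    exact dtpi_emb_inj h1

instance : (DT.emb C).Additive where
  map_add := ObjectProperty.hom_ext _ ((Pool.Agent.H939.TT.emb C).map_add)

variable [MonoidalCategory C] [MonoidalPreadditive C] [SymmetricCategory C]

/-- the image of the unit is the unit -/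
theorem DT.emb_unit : (DT.emb C).obj (𝟙_ C) = 𝟙_ (DT C) := rfl

/-- an endomorphism of the unit of `C` as an endomorphism of the unit of `DT C` -/
noncomputable def DT.pi (π : 𝟙_ C ⟶ 𝟙_ C) : 𝟙_ (DT C) ⟶ 𝟙_ (DT C) := (DT.emb C).map π

lemma DT.pi_id : DT.pi (𝟙 (𝟙_ C)) = 𝟙 _ := (DT.emb C).map_id _

lemma DT.pi_comp (π π' : 𝟙_ C ⟶ 𝟙_ C) : DT.pi π ≫ DT.pi π' = DT.pi (π ≫ π') :=
  ((DT.emb C).map_comp _ _).symm

lemma DT.pi_add (π π' : 𝟙_ C ⟶ 𝟙_ C) : DT.pi (π + π') = DT.pi π + DT.pi π' :=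
  (DT.emb C).map_add

lemma DT.pi_zero : DT.pi (0 : 𝟙_ C ⟶ 𝟙_ C) = 0 := (DT.emb C).map_zero _ _

lemma DT.pi_inj {π π' : 𝟙_ C ⟶ 𝟙_ C} (h : DT.pi π = DT.pi π') : π = π' :=
  (DT.emb C).map_injective h

end Emb

section PP

variable {C : Type} [Category.{0} C] [Preadditive C] [CharTwo C]
  [MonoidalCategory C] [MonoidalPreadditive C] [SymmetricCategory C]
  (F : Type) [Field F] [Linear F C]

/-- the perfect pairing property, for the idempotent `π` -/
def HasPP (π : 𝟙_ C ⟶ 𝟙_ C) : Prop :=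
  ∀ (c : C) (l : (𝟙_ C ⟶ c) →ₗ[F] F), (∀ u, l (π ≫ u) = l u) →
    ∃ g : c ⟶ 𝟙_ C, ∀ u : 𝟙_ C ⟶ c, u ≫ g = l u • π

omit [CharTwo C] [MonoidalPreadditive C] [SymmetricCategory C] in
/-- nondegeneracy, for the idempotent `π` -/
def NonDeg (π : 𝟙_ C ⟶ 𝟙_ C) : Prop :=
  ∀ (c : C) (g : c ⟶ 𝟙_ C), (∀ u : 𝟙_ C ⟶ c, u ≫ g ≫ π = 0) → g ≫ π = 0

section Lin

open FC

variable {F}

omit [CharTwo C] [MonoidalCategory C] [MonoidalPreadditive C] [SymmetricCategory C] in
lemma dtpi_of_smul {a : C} {Y : FC C} (j : Y.ι) (r : F) (u : a ⟶ Y.obj j) :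
    of Y j (r • u) = r • of Y j u := by
  let _ : DecidableEq Y.ι := Classical.decEq _
  exact (DirectSum.lof F Y.ι (fun j => (a ⟶ Y.obj j)) j).map_smul r u

omit [CharTwo C] [MonoidalCategory C] [MonoidalPreadditive C] [SymmetricCategory C] in
lemma dtpi_act_smul_left {a b : C} {Y : FC C} (r : F) (u : a ⟶ b) (x : El b Y) :
    act Y (r • u) x = r • act Y u x := by
  induction x using El.induction with
  | h0 => simp
  | h1 j w => rw [act_of, act_of, Linear.smul_comp, dtpi_of_smul]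
  | h2 x y hx hy => rw [map_add, map_add, hx, hy, smul_add]

omit [CharTwo C] [MonoidalCategory C] [MonoidalPreadditive C] [SymmetricCategory C] in
lemma dtpi_act_smul {a b : C} {Y : FC C} (r : F) (u : a ⟶ b) (x : El b Y) :
    act Y u (r • x) = r • act Y u x := by
  induction x using El.induction with
  | h0 => simp
  | h1 j w => rw [← dtpi_of_smul, act_of, act_of, Linear.comp_smul, dtpi_of_smul]
  | h2 x y hx hy => rw [smul_add, map_add, map_add, hx, hy, smul_add]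

omit [CharTwo C] [MonoidalCategory C] [MonoidalPreadditive C] [SymmetricCategory C] in
lemma dtpi_push_smul {a : C} {Y Z : FC C} (g : Y ⟶ Z) (r : F) (x : El a Y) :
    push g (r • x) = r • push g x := by
  induction x using El.induction with
  | h0 => simp
  | h1 j w => rw [← dtpi_of_smul, push_of, push_of, dtpi_act_smul_left]
  | h2 x y hx hy => rw [smul_add, map_add, map_add, hx, hy, smul_add]

variable (F)

/-- the matrix as a linear map on the elements -/
noncomputable def dtpiPush (a : C) {Y Z : FC C} (g : Y ⟶ Z) : El a Y →ₗ[F] El a Z where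
  toFun := push g
  map_add' := map_add _
  map_smul' r x := dtpi_push_smul g r x

/-- precomposition as a linear map on the elements -/
noncomputable def dtpiAct {a b : C} (Y : FC C) (u : a ⟶ b) : El b Y →ₗ[F] El a Y where
  toFun := act Y u
  map_add' := map_add _
  map_smul' r x := dtpi_act_smul r u x

/-- the inclusion of a summand as a linear map -/
noncomputable def dtpiOf (a : C) (Y : FC C) (j : Y.ι) : (a ⟶ Y.obj j) →ₗ[F] El a Y where
  toFun := of Y j
  map_add' := map_add _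
  map_smul' r u := dtpi_of_smul j r u

end Lin

section Key

open FC

omit [CharTwo C] [MonoidalPreadditive C] [SymmetricCategory C] [Linear F C] [Field F]
  [MonoidalCategory C] in
lemma dtpi_single {a b : C} (x : El a (single b)) : ∃ c : a ⟶ b, x = of (single b) () c := by
  induction x using El.induction with
  | h0 => exact ⟨0, (map_zero _).symm⟩
  | h1 j w => exact ⟨w, rfl⟩
  | h2 x y hx hy =>
    obtain ⟨c, rfl⟩ := hx
    obtain ⟨c', rfl⟩ := hy
    exact ⟨c + c', (map_add _ _ _).symm⟩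

omit [CharTwo C] [MonoidalPreadditive C] [SymmetricCategory C] in
/-- the matrix to the unit -/
lemma dtpi_key (π : 𝟙_ C ⟶ 𝟙_ C) (hπ : π ≫ π = π) (h₁ : HasPP F π) (h₂ : NonDeg π)
    (Y : FC C) (d : Y ⟶ Y) (x : El (𝟙_ C) Y)
    (hx : ∀ y : El (𝟙_ C) Y, act Y π x ≠ push d y) :
    ∃ G : Y ⟶ single (𝟙_ C), d ≫ G = 0 ∧ push G x = of (single (𝟙_ C)) () π := by
  have hmem : dtpiAct F Y π x ∉ LinearMap.range (dtpiPush F (𝟙_ C) d) := by
    rintro ⟨y, hy⟩
    exact hx y hy.symm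
  obtain ⟨l0, hl0, hW0⟩ := Submodule.exists_le_ker_of_notMem hmem
  obtain ⟨l, hl, hW⟩ : ∃ l : El (𝟙_ C) Y →ₗ[F] F, l (act Y π x) = 1 ∧ ∀ y, l (push d y) = 0 := by
    refine ⟨(l0 (dtpiAct F Y π x))⁻¹ • l0, ?_, fun y => ?_⟩
    · exact inv_mul_cancel₀ hl0
    · have h3 : l0 (push d y) = 0 := hW0 ⟨y, rfl⟩
      show (l0 (dtpiAct F Y π x))⁻¹ * l0 (push d y) = 0
      rw [h3, mul_zero]
  -- the functional fixed by `π`
  obtain ⟨l', hl'⟩ : ∃ l' : El (𝟙_ C) Y →ₗ[F] F, ∀ v, l' v = l (act Y π v) :=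
    ⟨l.comp (dtpiAct F Y π), fun v => rfl⟩
  have e1 : l' x = 1 := by rw [hl', hl]
  have e2 : ∀ y, l' (push d y) = 0 := fun y => by rw [hl', ← push_act, hW]
  have e3 : ∀ v, l' (act Y π v) = l' v := fun v => by rw [hl', hl', act_act, hπ]
  have key : ∀ j : Y.ι, ∃ g : Y.obj j ⟶ 𝟙_ C, g ≫ π = g ∧
      ∀ u : 𝟙_ C ⟶ Y.obj j, u ≫ g = l' (of Y j u) • π := by
    intro j
    obtain ⟨g, hg⟩ := h₁ (Y.obj j) (l'.comp (dtpiOf F (𝟙_ C) Y j)) (fun u => by
      show l' (of Y j (π ≫ u)) = l' (of Y j u)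
      rw [← act_of, e3])
    refine ⟨g ≫ π, by rw [Category.assoc, hπ], fun u => ?_⟩
    rw [← Category.assoc, hg, Linear.smul_comp, hπ]
    rfl
  choose g hgπ hg using key
  obtain ⟨G, hG⟩ : ∃ G : Y ⟶ single (𝟙_ C), ∀ j, G.app j = of (single (𝟙_ C)) () (g j) :=
    ⟨⟨fun j => of (single (𝟙_ C)) () (g j)⟩, fun j => rfl⟩
  have hpush : ∀ v : El (𝟙_ C) Y, push G v = of (single (𝟙_ C)) () (l' v • π) := by
    intro v
    induction v using El.induction with
    | h0 => rw [map_zero, map_zero, zero_smul, map_zero]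
    | h1 j u => rw [push_of, hG, act_of, hg]
    | h2 x y hx hy => rw [map_add, map_add, add_smul, map_add, hx, hy]
  refine ⟨G, ?_, by rw [hpush, e1, one_smul]⟩
  refine hom_ext fun j => ?_
  rw [comp_app, FC.zero_app]
  obtain ⟨c, hc⟩ := dtpi_single (push G (d.app j))
  -- the entry is fixed by `π`
  have hcπ : c ≫ π = c := by
    obtain ⟨P, hP⟩ : ∃ P : single (𝟙_ C) ⟶ single (𝟙_ C),
        ∀ i, P.app i = of (single (𝟙_ C)) () π := ⟨⟨fun _ => of (single (𝟙_ C)) () π⟩, fun _ => rfl⟩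
    have h3 : G ≫ P = G := by
      refine hom_ext fun i => ?_
      rw [comp_app, hG, push_of, hP, act_of, hgπ]
    have h4 := push_comp G P (d.app j)
    rw [h3, hc, push_of, hP, act_of] at h4
    exact (dtpi_of_inj h4).symm
  have hc0 : c ≫ π = 0 := by
    refine h₂ _ c fun u => ?_
    rw [hcπ]
    have h3 : act (single (𝟙_ C)) u (push G (d.app j)) = 0 := by
      rw [← push_act, ← push_of, hpush, e2, zero_smul, map_zero]
    rw [hc, act_of] at h3
    exact dtpi_of_inj (h3.trans (map_zero _).symm)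
  rw [hc, ← hcπ, hc0, map_zero]

end Key

open FC in
/-- an endomorphism of the unit as a morphism of differential objects -/
noncomputable def dtpiP (π : 𝟙_ C ⟶ 𝟙_ C) : 𝟙_ (D (FC C)) ⟶ 𝟙_ (D (FC C)) where
  f := (⟨fun _ => of (single (𝟙_ C)) () π⟩ : FC.Hom (single (𝟙_ C)) (single (𝟙_ C)))
  comm := by rw [D.unit_d, comp_zero, zero_comp]

lemma dtpi_pi_hom (π : 𝟙_ C ⟶ 𝟙_ C) : (DT.pi π).hom = (Q (FC C)).map (dtpiP π) := rfl

open FC in
/-- the entry of a morphism from the unit -/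
noncomputable def dtpiRow {Y : D (FC C)} (φ : 𝟙_ (D (FC C)) ⟶ Y) : El (𝟙_ C) Y.X :=
  Hom.app (X := single (𝟙_ C)) φ.f ()

open FC in
lemma dtpi_row_comp (π : 𝟙_ C ⟶ 𝟙_ C) {Y : D (FC C)} (φ : 𝟙_ (D (FC C)) ⟶ Y) :
    dtpiRow (dtpiP π ≫ φ) = act Y.X π (dtpiRow φ) :=
  push_of (Y := single (𝟙_ C)) φ.f () π

open FC in
lemma dtpi_null {Y : D (FC C)} {φ : 𝟙_ (D (FC C)) ⟶ Y} (y : El (𝟙_ C) Y.X)
    (hy : dtpiRow φ = push Y.d y) : (Q (FC C)).map φ = 0 := by
  refine Q_map_eq_zero.2 ⟨(⟨fun _ => y⟩ : FC.Hom (single (𝟙_ C)) Y.X), ?_⟩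
  rw [D.unit_d, zero_comp, add_zero]
  exact FC.hom_ext (X := single (𝟙_ C)) fun i => hy

/-- A nonzero morphism from the unit is detected by a morphism to the unit. -/
theorem dt_hPP (π : 𝟙_ C ⟶ 𝟙_ C) (hπ : π ≫ π = π) (h₁ : HasPP F π) (h₂ : NonDeg π)
    (X : DT C) (f : 𝟙_ (DT C) ⟶ X) (hf : DT.pi π ≫ f ≠ 0) :
    ∃ g : X ⟶ 𝟙_ (DT C), f ≫ g = DT.pi π := by
  obtain ⟨φ, hφ⟩ := Q_map_surjective (A := 𝟙_ (D (FC C))) (B := X.obj.as) f.hom
  obtain ⟨G, hG1, hG2⟩ := dtpi_key F π hπ h₁ h₂ X.obj.as.X X.obj.as.d (dtpiRow φ) (fun y hy => by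
    apply hf
    refine ObjectProperty.hom_ext _ ?_
    have h3 : (Q (FC C)).map (dtpiP π ≫ φ) = 0 := dtpi_null y ((dtpi_row_comp π φ).trans hy)
    rw [Functor.map_comp] at h3
    have h4 : (DT.pi π ≫ f).hom = (DT.pi π).hom ≫ f.hom := rfl
    rw [h4, hφ]
    exact h3)
  let γ : X.obj.as ⟶ 𝟙_ (D (FC C)) :=
    { f := G
      comm := by
        rw [D.unit_d, comp_zero]
        exact hG1.symm }
  refine ⟨ObjectProperty.homMk ((Q (FC C)).map γ), ?_⟩
  refine ObjectProperty.hom_ext _ ?_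
  have h4 : (f ≫ (ObjectProperty.homMk ((Q (FC C)).map γ) : X ⟶ 𝟙_ (DT C))).hom =
      f.hom ≫ (Q (FC C)).map γ := rfl
  rw [h4, hφ]
  refine ((Q (FC C)).map_comp φ γ).symm.trans ?_
  refine congrArg (Q (FC C)).map ?_
  refine D.hom_ext _ _ ?_
  exact FC.hom_ext (X := FC.single (𝟙_ C)) fun i => hG2

end PP

end Pool.Agent.H939.TT
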