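import Pool.Agent.H939.TT.DTPi

/-!
# The two idempotents of `DT (A × B)`
-/

namespace Pool.Agent.H939.TT

open CategoryTheory CategoryTheory.Limits CategoryTheory.MonoidalCategory
open CategoryTheory.Pretriangulated Pool.Agent.Helper609_TT

section DTProdAux

variable {T : Type} [Category.{0} T] [Preadditive T] {A : Type} [Category.{0} A] [Preadditive A]

/-- a splitting of the functor `G`: for the projections from a product category these are the
extensions by zero -/
structure DTProdSec (G : T ⥤ A) where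
  /-- the splitting -/
  s : ∀ x y : T, (G.obj x ⟶ G.obj y) →+ (x ⟶ y)
  map_s : ∀ {x y : T} (u : G.obj x ⟶ G.obj y), G.map (s x y u) = u
  s_comp : ∀ {x y z : T} (u : G.obj x ⟶ G.obj y) (v : y ⟶ z), s x y u ≫ v = s x z (u ≫ G.map v)
  comp_s : ∀ {x y z : T} (v : x ⟶ y) (u : G.obj y ⟶ G.obj z), v ≫ s y z u = s x z (G.map v ≫ u)

namespace DTProdSec

open FC

attribute [local instance] Classical.decEq

variable {G : T ⥤ A} (S : DTProdSec G)

/-- the splitting on elements -/
noncomputable def el {a : T} {Y : FC T} : El (G.obj a) (mapObj G Y) →+ El a Y :=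
  El.lift (fun j => (of Y j).comp (S.s a (Y.obj j)))

lemma el_of {a : T} {Y : FC T} (j : Y.ι) (u : G.obj a ⟶ G.obj (Y.obj j)) :
    S.el (of (mapObj G Y) j u) = of Y j (S.s a (Y.obj j) u) :=
  El.lift_of (Y := mapObj G Y) _ j u

lemma act_el {a b : T} {Y : FC T} (v : a ⟶ b) (x : El (G.obj b) (mapObj G Y)) :
    act Y v (S.el x) = S.el (act (mapObj G Y) (G.map v) x) := by
  induction x using El.induction with
  | h0 => simp
  | h1 j u =>
    rw [el_of, act_of]
    refine Eq.trans ?_ (congrArg S.el (act_of (Y := mapObj G Y) (G.map v) j u)).symm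
    rw [el_of, S.comp_s]
  | h2 x y hx hy => simp only [map_add, hx, hy]

variable [G.Additive]

lemma el_act {a b : T} {Y : FC T} (u : G.obj a ⟶ G.obj b) (y : El b Y) :
    S.el (act (mapObj G Y) u (mapEl G y)) = act Y (S.s a b u) y := by
  induction y using El.induction with
  | h0 => simp
  | h1 j w =>
    rw [mapEl_of]
    refine (congrArg S.el (act_of (Y := mapObj G Y) u j (G.map w))).trans ?_
    refine (S.el_of j (u ≫ G.map w)).trans ?_
    rw [act_of, S.s_comp]
  | h2 x y hx hy => simp only [map_add, hx, hy]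

lemma push_el {a : T} {Y Z : FC T} (g : FC.Hom Y Z) (x : El (G.obj a) (mapObj G Y)) :
    push g (S.el x) = S.el (push (fcm_mapHom G g) x) := by
  induction x using El.induction with
  | h0 => simp
  | h1 j u =>
    rw [el_of, push_of]
    refine Eq.trans ?_ (congrArg S.el
      (push_of (Y := mapObj G Y) (fcm_mapHom G g) j u)).symm
    exact (S.el_act u (g.app j)).symm
  | h2 x y hx hy => simp only [map_add, hx, hy]

/-- the splitting on matrices -/
noncomputable def hom {Y Z : FC T} (h : FC.Hom (mapObj G Y) (mapObj G Z)) : FC.Hom Y Z :=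
  ⟨fun i => S.el (h.app i)⟩

omit [G.Additive] in
lemma hom_app {Y Z : FC T} (h : FC.Hom (mapObj G Y) (mapObj G Z)) (i : Y.ι) :
    (S.hom h).app i = S.el (h.app i) := rfl

lemma push_hom {a : T} {Y Z : FC T} (h : FC.Hom (mapObj G Y) (mapObj G Z)) (x : El a Y) :
    push (S.hom h) x = S.el (push h (mapEl G x)) := by
  induction x using El.induction with
  | h0 => simp
  | h1 j w =>
    rw [push_of, mapEl_of, hom_app, act_el]
    exact (congrArg S.el (push_of (Y := mapObj G Y) h j (G.map w))).symm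
  | h2 x y hx hy => simp only [map_add, hx, hy]

/-- The class of the diagonal morphism with entries `s (𝟙)` vanishes if and only if the image of the
object is contractible. -/
theorem map_eq_zero_iff (X : D (FC T)) (e : X ⟶ X)
    (he : ∀ i, e.f.app i = of X.X i (S.s (X.X.obj i) (X.X.obj i) (𝟙 _))) :
    (Q (FC T)).map e = 0 ↔ IsZero ((K.mapF (FC.mapF G)).obj ((Q (FC T)).obj X)) := by
  rw [Q_map_eq_zero, K.mapF_obj, K.isZero_iff]
  constructor
  · rintro ⟨h, hh⟩
    refine ⟨(FC.mapF G).map h, ?_⟩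
    have h1 : (FC.mapF G).map e.f = 𝟙 _ := by
      refine hom_ext fun i => ?_
      refine (congrArg (mapEl G) (he i)).trans ?_
      refine (mapEl_of G (Y := X.X) i _).trans ?_
      rw [S.map_s]
      rfl
    refine h1.symm.trans ?_
    rw [hh, Functor.map_add, Functor.map_comp, Functor.map_comp]
    rfl
  · rintro ⟨h, hh⟩
    refine ⟨S.hom h, ?_⟩
    refine hom_ext fun i => ?_
    rw [he i, add_app, comp_app, comp_app]
    have e1 : push X.d ((S.hom h).app i) = S.el (push ((FC.mapF G).map X.d) (h.app i)) :=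
      S.push_el X.d (h.app i)
    have e2 : push (S.hom h : X.X ⟶ X.X) (X.d.app i) =
        S.el (push h (((FC.mapF G).map X.d).app i)) := S.push_hom h (X.d.app i)
    have e3 := congrArg (fun t : (mapObj G X.X ⟶ mapObj G X.X) => S.el (Hom.app t i)) hh
    have e4 : S.el (Hom.app (𝟙 (mapObj G X.X)) i) =
        of X.X i (S.s (X.X.obj i) (X.X.obj i) (𝟙 _)) := S.el_of i (𝟙 _)
    refine e4.symm.trans (e3.trans ?_)
    refine Eq.trans ?_ (congrArg₂ (· + ·) e1 e2).symm
    exact map_add S.el _ _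

end DTProdSec

end DTProdAux

variable {A : Type} [Category.{0} A] [Preadditive A] [CharTwo A]
  [MonoidalCategory A] [MonoidalPreadditive A] [SymmetricCategory A]
  {B : Type} [Category.{0} B] [Preadditive B] [CharTwo B]
  [MonoidalCategory B] [MonoidalPreadditive B] [SymmetricCategory B]

variable (A B) in
/-- the first idempotent -/
def piFst : (𝟙_ (A × B)) ⟶ 𝟙_ (A × B) := (𝟙 _, 0)

variable (A B) in
/-- the second idempotent -/
def piSnd : (𝟙_ (A × B)) ⟶ 𝟙_ (A × B) := (0, 𝟙 _)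

section DTProdAux2

/-- whiskering with `DT.pi π`, conjugated with the left unitor -/
theorem dtprod_pi_iff {T : Type} [Category.{0} T] [Preadditive T] [CharTwo T]
    [MonoidalCategory T] [MonoidalPreadditive T] [SymmetricCategory T] (π : 𝟙_ T ⟶ 𝟙_ T)
    {E : Type} [Category.{0} E] [Preadditive E] [CharTwo E] {G : T ⥤ E} [G.Additive]
    (S : DTProdSec G)
    (hπ : ∀ x : T, (λ_ x).inv ≫ (π ⊗ₘ 𝟙 x) ≫ (λ_ x).hom = S.s x x (𝟙 _)) (X : DT T) :
    DT.pi π ▷ X = 0 ↔ IsZero ((K.mapF (FC.mapF G)).obj X.obj) := by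
  obtain ⟨⟨X'⟩, hX⟩ := X
  let g : 𝟙_ (D (FC T)) ⟶ 𝟙_ (D (FC T)) := (D.inc (FC T)).map ((FC.inc T).map π)
  have h1 : DT.pi π ▷ (⟨⟨X'⟩, hX⟩ : DT T) = 0 ↔ (Q (FC T)).map (g ▷ X') = 0 := by
    constructor
    · intro h
      have h' := congrArg (fun t => (locP T).ι.map t) h
      exact h'.trans ((locP T).ι.map_zero _ _)
    · intro h
      refine (locP T).ι.map_injective ?_
      rw [Functor.map_zero]
      exact h
  have h2 : (Q (FC T)).map (g ▷ X') = 0 ↔
      (Q (FC T)).map ((λ_ X').inv ≫ (g ▷ X') ≫ (λ_ X').hom) = 0 := by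
    constructor
    · intro h
      rw [Functor.map_comp, Functor.map_comp, h, zero_comp, comp_zero]
    · intro h
      have key : (Q (FC T)).map (g ▷ X') = (Q (FC T)).map ((λ_ X').hom ≫
          ((λ_ X').inv ≫ (g ▷ X') ≫ (λ_ X').hom) ≫ (λ_ X').inv) :=
        congrArg (Q (FC T)).map (by simp)
      rw [key, Functor.map_comp, Functor.map_comp, h, zero_comp, comp_zero]
  rw [h1, h2]
  refine S.map_eq_zero_iff X' _ fun i => ?_
  rw [← hπ]
  refine (FC.comp_app_of rfl (FC.comp_app_of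
    (FC.tens_of (X := FC.single (𝟙_ T)) (Y := X'.X) () i π (𝟙 _)) rfl)).trans ?_
  rfl

end DTProdAux2

theorem piFst_iff (X : DT (A × B)) : DT.pi (piFst A B) ▷ X = 0 ↔
    IsZero ((K.mapF (FC.mapF (CategoryTheory.Prod.fst A B))).obj X.obj) := by
  refine dtprod_pi_iff (piFst A B) (G := CategoryTheory.Prod.fst A B)
    { s := fun x y => AddMonoidHom.mk' (fun u => ((u, 0) : x ⟶ y))
        (fun u v => Prod.ext rfl (add_zero _).symm)
      map_s := fun u => rfl
      s_comp := fun u v => Prod.ext rfl zero_comp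
      comp_s := fun v u => Prod.ext rfl comp_zero } (fun x => ?_) X
  refine Prod.ext ?_ ?_
  · change (λ_ x.1).inv ≫ (𝟙 (𝟙_ A) ⊗ₘ 𝟙 x.1) ≫ (λ_ x.1).hom = 𝟙 x.1
    simp
  · change (λ_ x.2).inv ≫ ((0 : 𝟙_ B ⟶ 𝟙_ B) ⊗ₘ 𝟙 x.2) ≫ (λ_ x.2).hom = 0
    simp

theorem piSnd_iff (X : DT (A × B)) : DT.pi (piSnd A B) ▷ X = 0 ↔
    IsZero ((K.mapF (FC.mapF (CategoryTheory.Prod.snd A B))).obj X.obj) := by
  refine dtprod_pi_iff (piSnd A B) (G := CategoryTheory.Prod.snd A B)
    { s := fun x y => AddMonoidHom.mk' (fun u => ((0, u) : x ⟶ y))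
        (fun u v => Prod.ext (add_zero _).symm rfl)
      map_s := fun u => rfl
      s_comp := fun u v => Prod.ext zero_comp rfl
      comp_s := fun v u => Prod.ext comp_zero rfl } (fun x => ?_) X
  refine Prod.ext ?_ ?_
  · change (λ_ x.1).inv ≫ ((0 : 𝟙_ A ⟶ 𝟙_ A) ⊗ₘ 𝟙 x.1) ≫ (λ_ x.1).hom = 0
    simp
  · change (λ_ x.2).inv ≫ (𝟙 (𝟙_ B) ⊗ₘ 𝟙 x.2) ≫ (λ_ x.2).hom = 𝟙 x.2
    simp

section DTProdAux3

open FC

attribute [local instance] Classical.decEq

variable {T : Type} [Category.{0} T] [Preadditive T]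
    {A' : Type} [Category.{0} A'] [Preadditive A'] {B' : Type} [Category.{0} B'] [Preadditive B']
    {G : T ⥤ A'} [G.Additive] {H : A' ⥤ B'} [H.Additive] {GH : T ⥤ B'} [GH.Additive]
    (e : G ⋙ H ≅ GH)

/-- the comparison on formal coproducts -/
noncomputable def dtprodIso (X : FC T) :
    (FC.mapF H).obj ((FC.mapF G).obj X) ≅ (FC.mapF GH).obj X where
  hom := ⟨fun i => of (mapObj GH X) i (e.hom.app (X.obj i))⟩
  inv := ⟨fun i => of (mapObj H (mapObj G X)) i (e.inv.app (X.obj i))⟩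
  hom_inv_id := hom_ext fun i =>
    (comp_app_of rfl rfl).trans (congrArg (of (mapObj H (mapObj G X)) i)
      (e.hom_inv_id_app (X.obj i)))
  inv_hom_id := hom_ext fun i =>
    (comp_app_of rfl rfl).trans (congrArg (of (mapObj GH X) i) (e.inv_hom_id_app (X.obj i)))

lemma dtprodIso_el {a : T} {Y : FC T} (x : El a Y) :
    push (dtprodIso e Y).hom (mapEl H (mapEl G x)) =
      act (mapObj GH Y) (e.hom.app a) (mapEl GH x) := by
  induction x using El.induction with
  | h0 =>
    rw [map_zero, map_zero, map_zero]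
    exact (congrArg (push (dtprodIso e Y).hom) (map_zero (mapEl H))).trans (map_zero _)
  | h1 j w =>
    rw [mapEl_of, mapEl_of]
    refine (congrArg (push (dtprodIso e Y).hom)
      (mapEl_of H (Y := mapObj G Y) j (G.map w))).trans ?_
    refine (push_of (Y := mapObj H (mapObj G Y)) (dtprodIso e Y).hom j _).trans ?_
    refine (act_of (Y := mapObj GH Y) _ j _).trans ?_
    refine Eq.trans ?_ (act_of (Y := mapObj GH Y) _ j _).symm
    exact congrArg (of (mapObj GH Y) j) (e.hom.naturality w)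
  | h2 x y hx hy =>
    rw [map_add, map_add, map_add, ← hx, ← hy]
    exact (congrArg (push (dtprodIso e Y).hom) (map_add (mapEl H) _ _)).trans (map_add _ _ _)

lemma dtprodIso_nat {Y Z : FC T} (f : Y ⟶ Z) :
    (dtprodIso e Y).hom ≫ (FC.mapF GH).map f =
      (FC.mapF H).map ((FC.mapF G).map f) ≫ (dtprodIso e Z).hom := by
  refine hom_ext fun i => ?_
  refine Eq.trans ?_ (dtprodIso_el e (f.app i)).symm
  exact push_of (Y := mapObj GH Y) ((FC.mapF GH).map f) i (e.hom.app (Y.obj i))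

end DTProdAux3

/-- functoriality of the construction -/
theorem mapF_comp_isZero_iff {T : Type} [Category.{0} T] [Preadditive T] [CharTwo T]
    (G : T ⥤ A) [G.Additive] (H : A ⥤ B) [H.Additive] (GH : T ⥤ B) [GH.Additive]
    (e : G ⋙ H ≅ GH) (X : K (FC T)) :
    IsZero ((K.mapF (FC.mapF H)).obj ((K.mapF (FC.mapF G)).obj X)) ↔
      IsZero ((K.mapF (FC.mapF GH)).obj X) := by
  obtain ⟨X⟩ := X
  have i : (D.mapF (FC.mapF H)).obj ((D.mapF (FC.mapF G)).obj X) ≅
      (D.mapF (FC.mapF GH)).obj X :=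
    D.mkIso (dtprodIso e X.X) (dtprodIso_nat e X.d)
  exact ((Q (FC B)).mapIso i).isZero_iff

/-- the perfect pairing property of a product -/
theorem hasPP_fst (F : Type) [Field F] [Linear F A] [Linear F B] (h : HasPP F (𝟙 (𝟙_ A))) :
    HasPP F (piFst A B) := by
  intro c l hl
  let l₁ : (𝟙_ A ⟶ c.1) →ₗ[F] F :=
    { toFun := fun u => l ((u, 0) : 𝟙_ (A × B) ⟶ c)
      map_add' := fun u v => by
        rw [← map_add]
        exact congrArg l (Prod.ext rfl (add_zero _).symm)
      map_smul' := fun r u => by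
        rw [RingHom.id_apply, ← map_smul]
        exact congrArg l (Prod.ext rfl (smul_zero _).symm) }
  obtain ⟨g, hg⟩ := h c.1 l₁ (fun u => by rw [Category.id_comp])
  refine ⟨((g, 0) : c ⟶ 𝟙_ (A × B)), fun u => ?_⟩
  have hu : l u = l₁ u.1 := by
    rw [← hl u]
    exact congrArg l (Prod.ext (Category.id_comp _) zero_comp)
  rw [hu]
  refine Prod.ext (hg u.1) ?_
  change u.2 ≫ 0 = l₁ u.1 • 0
  rw [comp_zero, smul_zero]

theorem hasPP_snd (F : Type) [Field F] [Linear F A] [Linear F B] (h : HasPP F (𝟙 (𝟙_ B))) :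
    HasPP F (piSnd A B) := by
  intro c l hl
  let l₁ : (𝟙_ B ⟶ c.2) →ₗ[F] F :=
    { toFun := fun u => l ((0, u) : 𝟙_ (A × B) ⟶ c)
      map_add' := fun u v => by
        rw [← map_add]
        exact congrArg l (Prod.ext (add_zero _).symm rfl)
      map_smul' := fun r u => by
        rw [RingHom.id_apply, ← map_smul]
        exact congrArg l (Prod.ext (smul_zero _).symm rfl) }
  obtain ⟨g, hg⟩ := h c.2 l₁ (fun u => by rw [Category.id_comp])
  refine ⟨((0, g) : c ⟶ 𝟙_ (A × B)), fun u => ?_⟩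
  have hu : l u = l₁ u.2 := by
    rw [← hl u]
    exact congrArg l (Prod.ext zero_comp (Category.id_comp _))
  rw [hu]
  refine Prod.ext ?_ (hg u.2)
  change u.1 ≫ 0 = l₁ u.2 • 0
  rw [comp_zero, smul_zero]

theorem nonDeg_fst (h : NonDeg (𝟙 (𝟙_ A))) : NonDeg (piFst A B) := by
  intro c g hg
  refine Prod.ext (h c.1 g.1 fun u => ?_) comp_zero
  exact congrArg Prod.fst (hg ((u, 0) : 𝟙_ (A × B) ⟶ c))

theorem nonDeg_snd (h : NonDeg (𝟙 (𝟙_ B))) : NonDeg (piSnd A B) := by
  intro c g hg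
  refine Prod.ext comp_zero (h c.2 g.2 fun u => ?_)
  exact congrArg Prod.snd (hg ((0, u) : 𝟙_ (A × B) ⟶ c))

end Pool.Agent.H939.TT
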