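import Pool.Agent.H939.TT.DTProd

/-!
# Morphisms killed by the first idempotent of `DT (A × B)`
-/

namespace Pool.Agent.H939.TT

open CategoryTheory CategoryTheory.Limits CategoryTheory.MonoidalCategory
open CategoryTheory.Pretriangulated Pool.Agent.Helper609_TT

section Lift

open FC

variable {A : Type} [Category.{0} A] [Preadditive A]
  {B : Type} [Category.{0} B] [Preadditive B]

/-- an element of the first component as an element -/
noncomputable def dpmLift (c : A × B) (Y : FC (A × B)) :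
    El c.1 (mapObj (CategoryTheory.Prod.fst A B) Y) →+ El c Y :=
  El.lift (fun j => AddMonoidHom.mk' (fun u : c.1 ⟶ (Y.obj j).1 => of Y j ((u, 0) : c ⟶ Y.obj j))
    (fun u v => by
      rw [← map_add]
      refine congrArg (of Y j) ?_
      exact Prod.ext rfl (add_zero (0 : c.2 ⟶ (Y.obj j).2)).symm))

lemma dpmLift_of (c : A × B) (Y : FC (A × B)) (j : Y.ι) (u : c.1 ⟶ (Y.obj j).1) :
    dpmLift c Y (of (mapObj (CategoryTheory.Prod.fst A B) Y) j u) =
      of Y j ((u, 0) : c ⟶ Y.obj j) :=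
  El.lift_of _ _ _

lemma dpmLift_act {c c' : A × B} (Y : FC (A × B)) (f : c ⟶ c')
    (x : El c'.1 (mapObj (CategoryTheory.Prod.fst A B) Y)) :
    dpmLift c Y (act (mapObj (CategoryTheory.Prod.fst A B) Y) f.1 x) =
      act Y f (dpmLift c' Y x) := by
  induction x using El.induction with
  | h0 => simp only [map_zero]
  | h1 j w =>
    rw [act_of, dpmLift_of, dpmLift_of, act_of]
    refine congrArg (of Y j) ?_
    exact Prod.ext rfl (comp_zero (f := f.2)).symm
  | h2 x y hx hy => rw [map_add, map_add, map_add, map_add, hx, hy]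

lemma dpmLift_mapEl {c c' : A × B} (Y : FC (A × B)) (u : c.1 ⟶ c'.1) (x : El c' Y) :
    dpmLift c Y (act (mapObj (CategoryTheory.Prod.fst A B) Y) u
      (mapEl (CategoryTheory.Prod.fst A B) x)) = act Y ((u, 0) : c ⟶ c') x := by
  induction x using El.induction with
  | h0 => simp only [map_zero]
  | h1 j w =>
    rw [mapEl_of]
    refine (congrArg (dpmLift c Y) (act_of (Y := mapObj (CategoryTheory.Prod.fst A B) Y) u j
      ((CategoryTheory.Prod.fst A B).map w))).trans ?_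
    rw [act_of]
    refine (dpmLift_of c Y j (u ≫ w.1)).trans ?_
    refine congrArg (of Y j) ?_
    exact Prod.ext rfl (zero_comp (f := w.2)).symm
  | h2 x y hx hy => rw [map_add, map_add, map_add, map_add, hx, hy]

/-- a matrix of the first components as a matrix -/
noncomputable def dpmHom {X Y : FC (A × B)}
    (k : (mapF (CategoryTheory.Prod.fst A B)).obj X ⟶ (mapF (CategoryTheory.Prod.fst A B)).obj Y) :
    X ⟶ Y := ⟨fun i => dpmLift (X.obj i) Y (k.app i)⟩

lemma dpmHom_add {X Y : FC (A × B)}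
    (k l : (mapF (CategoryTheory.Prod.fst A B)).obj X ⟶
      (mapF (CategoryTheory.Prod.fst A B)).obj Y) :
    dpmHom (k + l) = dpmHom k + dpmHom l :=
  FC.hom_ext fun i => map_add (dpmLift (X.obj i) Y) (k.app i) (l.app i)

/-- the projection to the first components -/
noncomputable def dpmP (X : FC (A × B)) : X ⟶ X := ⟨fun i => of X i ((𝟙 (X.obj i).1, 0) : _ ⟶ _)⟩

lemma dpmP_comp {X Y : FC (A × B)} (g : X ⟶ Y) :
    dpmP X ≫ g = dpmHom ((mapF (CategoryTheory.Prod.fst A B)).map g) := by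
  refine FC.hom_ext fun i => ?_
  refine (push_of g i _).trans ?_
  refine (dpmLift_mapEl Y (𝟙 (X.obj i).1) (g.app i)).symm.trans ?_
  refine congrArg (dpmLift (X.obj i) Y) ?_
  exact act_id (Y := mapObj (CategoryTheory.Prod.fst A B) Y) _

lemma dpm_push (c : A × B) {Y Z : FC (A × B)} (g : Hom Y Z)
    (x : El c.1 (mapObj (CategoryTheory.Prod.fst A B) Y)) :
    dpmLift c Z (push (fcm_mapHom (CategoryTheory.Prod.fst A B) g) x) =
      push g (dpmLift c Y x) := by
  induction x using El.induction with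
  | h0 => simp only [map_zero]
  | h1 j u =>
    rw [dpmLift_of, push_of, push_of]
    exact dpmLift_mapEl Z u (g.app j)
  | h2 x y hx hy => rw [map_add, map_add, map_add, map_add, hx, hy]

lemma dpm_push' (c : A × B) {Y Z : FC (A × B)}
    (k : Hom (mapObj (CategoryTheory.Prod.fst A B) Y) (mapObj (CategoryTheory.Prod.fst A B) Z))
    (x : El c Y) :
    dpmLift c Z (push k (mapEl (CategoryTheory.Prod.fst A B) x)) = push (dpmHom k) x := by
  induction x using El.induction with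
  | h0 => simp only [map_zero]
  | h1 j u =>
    rw [mapEl_of, push_of, push_of]
    exact dpmLift_act Z u (k.app j)
  | h2 x y hx hy => rw [map_add, map_add, map_add, map_add, hx, hy]

lemma dpmHom_comp {X Y Z : FC (A × B)}
    (k : (mapF (CategoryTheory.Prod.fst A B)).obj X ⟶ (mapF (CategoryTheory.Prod.fst A B)).obj Y)
    (g : Y ⟶ Z) :
    dpmHom (k ≫ (mapF (CategoryTheory.Prod.fst A B)).map g) = dpmHom k ≫ g :=
  FC.hom_ext fun i => dpm_push (X.obj i) g (k.app i)

lemma dpmHom_comp' {X Y Z : FC (A × B)} (g : X ⟶ Y)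
    (k : (mapF (CategoryTheory.Prod.fst A B)).obj Y ⟶ (mapF (CategoryTheory.Prod.fst A B)).obj Z) :
    dpmHom ((mapF (CategoryTheory.Prod.fst A B)).map g ≫ k) = g ≫ dpmHom k :=
  FC.hom_ext fun i => dpm_push' (X.obj i) k (g.app i)

end Lift

variable {A : Type} [Category.{0} A] [Preadditive A] [CharTwo A]
  [MonoidalCategory A] [MonoidalPreadditive A] [SymmetricCategory A]
  {B : Type} [Category.{0} B] [Preadditive B] [CharTwo B]
  [MonoidalCategory B] [MonoidalPreadditive B] [SymmetricCategory B]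

/-- the idempotent of the unit of the formal coproducts -/
noncomputable def dpmI (A : Type) [Category.{0} A] [Preadditive A] [MonoidalCategory A]
    [MonoidalPreadditive A] (B : Type) [Category.{0} B] [Preadditive B] [MonoidalCategory B]
    [MonoidalPreadditive B] : 𝟙_ (FC (A × B)) ⟶ 𝟙_ (FC (A × B)) :=
  (FC.inc (A × B)).map ((𝟙 (𝟙_ A), 0) : 𝟙_ (A × B) ⟶ 𝟙_ (A × B))

omit [CharTwo A] [CharTwo B] [SymmetricCategory A] [SymmetricCategory B] in
lemma dpm_unit (X : FC (A × B)) :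
    dpmI A B ▷ X ≫ (λ_ X).hom = (λ_ X).hom ≫ dpmP X := by
  refine FC.hom_ext fun p => ?_
  refine (FC.comp_app_of (FC.tens_of (X := FC.single (𝟙_ (A × B))) (Y := X) () p.2
    ((𝟙 (𝟙_ A), 0) : 𝟙_ (A × B) ⟶ 𝟙_ (A × B)) _) rfl).trans ?_
  refine Eq.trans ?_ (FC.comp_app_of rfl rfl).symm
  refine congrArg (FC.of X p.2) ?_
  refine Prod.ext ?_ ?_
  · change (𝟙 (𝟙_ A) ⊗ₘ 𝟙 (X.obj p.2).1) ≫ (λ_ (X.obj p.2).1).hom =
      (λ_ (X.obj p.2).1).hom ≫ 𝟙 (X.obj p.2).1
    rw [id_tensorHom_id, Category.id_comp, Category.comp_id]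
  · change ((0 : 𝟙_ B ⟶ 𝟙_ B) ⊗ₘ 𝟙 (X.obj p.2).2) ≫ (λ_ (X.obj p.2).2).hom =
      (λ_ (X.obj p.2).2).hom ≫ 0
    rw [MonoidalPreadditive.zero_tensor, zero_comp, comp_zero]

lemma dpm_gen {C : Type*} [Category C] [Preadditive C] [MonoidalCategory C]
    [MonoidalPreadditive C] {X Y : C} (e : 𝟙_ C ⟶ 𝟙_ C) (p : X ⟶ X) (f h : X ⟶ Y) (dX : X ⟶ X)
    (dY : Y ⟶ Y) (h1 : e ▷ X ≫ (λ_ X).hom = (λ_ X).hom ≫ p)
    (h2 : p ≫ f = h ≫ dY + dX ≫ h) :
    e ▷ X ≫ 𝟙_ C ◁ f = ((λ_ X).hom ≫ h ≫ (λ_ Y).inv) ≫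
      ((0 : 𝟙_ C ⟶ 𝟙_ C) ▷ Y + 𝟙_ C ◁ dY) +
      ((0 : 𝟙_ C ⟶ 𝟙_ C) ▷ X + 𝟙_ C ◁ dX) ≫ ((λ_ X).hom ≫ h ≫ (λ_ Y).inv) := by
  rw [MonoidalPreadditive.zero_whiskerRight, MonoidalPreadditive.zero_whiskerRight, zero_add,
    zero_add, ← cancel_mono (λ_ Y).hom, Category.assoc, leftUnitor_naturality, ← Category.assoc,
    h1, Category.assoc, h2, Preadditive.add_comp, Preadditive.comp_add]
  simp only [Category.assoc, leftUnitor_naturality, Iso.inv_hom_id, Category.comp_id,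
    leftUnitor_naturality_assoc, Iso.inv_hom_id_assoc]

omit [SymmetricCategory A] [SymmetricCategory B] in
lemma dpm_null {X Y : D (FC (A × B))} (v : X ⟶ Y)
    (hv : (Q (FC A)).map ((D.mapF (FC.mapF (CategoryTheory.Prod.fst A B))).map v) = 0) :
    (Q (FC (A × B))).map (((D.inc (FC (A × B))).map (dpmI A B)) ▷ X ≫
      𝟙_ (D (FC (A × B))) ◁ v) = 0 := by
  rw [Q_map_eq_zero] at hv ⊢
  obtain ⟨h, hh⟩ := hv
  obtain ⟨k, hk⟩ : ∃ k : (FC.mapF (CategoryTheory.Prod.fst A B)).obj X.X ⟶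
      (FC.mapF (CategoryTheory.Prod.fst A B)).obj Y.X,
      (FC.mapF (CategoryTheory.Prod.fst A B)).map v.f =
        k ≫ (FC.mapF (CategoryTheory.Prod.fst A B)).map Y.d +
        (FC.mapF (CategoryTheory.Prod.fst A B)).map X.d ≫ k := ⟨h, hh⟩
  have h2 : dpmP X.X ≫ v.f = dpmHom k ≫ Y.d + X.d ≫ dpmHom k := by
    rw [dpmP_comp, hk, dpmHom_add, dpmHom_comp, dpmHom_comp']
  exact ⟨(λ_ X.X).hom ≫ dpmHom k ≫ (λ_ Y.X).inv,
    dpm_gen (dpmI A B) (dpmP X.X) v.f (dpmHom k) X.d Y.d (dpm_unit X.X) h2⟩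

/-- A morphism of `DT (A × B)` whose first component vanishes is killed by the first
idempotent. -/
theorem piFst_map {X Y : DT (A × B)} (u : X ⟶ Y)
    (hu : (K.mapF (FC.mapF (CategoryTheory.Prod.fst A B))).map u.hom = 0) :
    DT.pi (piFst A B) ▷ X ≫ 𝟙_ (DT (A × B)) ◁ u = 0 := by
  obtain ⟨X, hX⟩ := X
  obtain ⟨Y, hY⟩ := Y
  obtain ⟨X', rfl⟩ := X.exists_rep
  obtain ⟨Y', rfl⟩ := Y.exists_rep
  obtain ⟨v, hv⟩ := Q_map_surjective u.hom
  refine ObjectProperty.hom_ext _ ?_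
  rw [hv] at hu
  have h1 := dpm_null v hu
  refine Eq.trans ?_ h1
  refine Eq.trans ?_ ((Q (FC (A × B))).map_comp _ _).symm
  change (Q (FC (A × B))).map ((D.inc (FC (A × B))).map (dpmI A B)) ▷
    (Q (FC (A × B))).obj X' ≫ (Q (FC (A × B))).obj (𝟙_ (D (FC (A × B)))) ◁ u.hom = _
  rw [hv]
  rfl

/-- The functor on the homotopy categories induced by a functor `T ⥤ A × B` kills the images of
the morphisms of `T` which are killed by the first component. -/
theorem mapF_emb_eq_zero {T : Type} [Category.{0} T] [Preadditive T] [CharTwo T]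
    (G : T ⥤ A) [G.Additive] (H : T ⥤ B) [H.Additive] {P P' : T} (φ : P ⟶ P')
    (hφ : G.map φ = 0) :
    (K.mapF (FC.mapF (CategoryTheory.Prod.fst A B))).map
      ((DT.map (G.prod' H)).map ((DT.emb T).map φ)).hom = 0 := by
  have h1 : (D.mapF (FC.mapF (CategoryTheory.Prod.fst A B))).map
      ((D.mapF (FC.mapF (G.prod' H))).map ((D.inc (FC T)).map ((FC.inc T).map φ))) = 0 := by
    refine D.hom_ext _ _ (FC.hom_ext fun i => ?_)
    change FC.mapEl (CategoryTheory.Prod.fst A B) (FC.mapEl (G.prod' H)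
      (FC.of (FC.single P') () φ)) = 0
    rw [FC.mapEl_of]
    refine (FC.mapEl_of (CategoryTheory.Prod.fst A B)
      (Y := FC.mapObj (G.prod' H) (FC.single P')) () ((G.prod' H).map φ)).trans ?_
    have h2 : (CategoryTheory.Prod.fst A B).map ((G.prod' H).map φ) = 0 := hφ
    rw [h2, map_zero]
  change (Q (FC A)).map ((D.mapF (FC.mapF (CategoryTheory.Prod.fst A B))).map
      ((D.mapF (FC.mapF (G.prod' H))).map ((D.inc (FC T)).map ((FC.inc T).map φ)))) = 0
  rw [h1, Functor.map_zero]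

end Pool.Agent.H939.TT
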