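import Pool.Agent.H939.TT.DTDefs

/-!
# The tensor product of `DT A` is exact and preserves coproducts
-/

namespace Pool.Agent.H939.TT

open CategoryTheory CategoryTheory.Limits CategoryTheory.MonoidalCategory
open CategoryTheory.Pretriangulated Pool.Agent.Helper609_TT

variable {A : Type} [Category.{0} A] [Preadditive A] [CharTwo A]

instance dtTensor_closed (J : Type) : (locP A).IsClosedUnderColimitsOfShape (Discrete J) :=
  ObjectProperty.IsClosedUnderColimitsOfShape.mk' (by
    rintro _ ⟨F, hF⟩
    exact (isLocS_locP A).iso (HasColimit.isoOfNatIso Discrete.natIsoFunctor.symm)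
      ((isLocS_locP A).coprod J (fun j => F.obj ⟨j⟩) (fun j => hF ⟨j⟩)))

instance : HasCoproducts.{0} (DT A) := fun J =>
  hasColimitsOfShape_of_closedUnderColimits (Discrete J) (locP A)

instance dtι_preserves (J : Type) : PreservesColimitsOfShape (Discrete J) (locP A).ι := by
  infer_instance

section Monoidal

variable [MonoidalCategory A] [MonoidalPreadditive A] [SymmetricCategory A]

/-- the tensor product in `DT A` is the tensor product of `K (FC A)` -/
noncomputable def dtTensorLeftIso (X : DT A) :
    tensorLeft X ⋙ (locP A).ι ≅ (locP A).ι ⋙ tensorLeft X.obj :=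
  NatIso.ofComponents (fun Y => Iso.refl (X.obj ⊗ Y.obj)) (by
    intro Y Z f
    exact (Category.comp_id _).trans (Category.id_comp _).symm)

noncomputable instance (X : DT A) : (tensorLeft X).CommShift ℤ :=
  Functor.CommShift.ofComp (dtTensorLeftIso X) ℤ

instance (X : DT A) : (tensorLeft X).IsTriangulated := by
  have h : NatTrans.CommShift (dtTensorLeftIso X).hom ℤ :=
    Functor.CommShift.ofComp_compatibility (dtTensorLeftIso X) ℤ
  rw [Functor.isTriangulated_iff_comp_right (dtTensorLeftIso X)]
  infer_instance

instance (X : DT A) (J : Type) : PreservesColimitsOfShape (Discrete J) (tensorLeft X) := by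
  have h1 : PreservesColimitsOfShape (Discrete J) (tensorLeft X ⋙ (locP A).ι) :=
    preservesColimitsOfShape_of_natIso (dtTensorLeftIso X).symm
  exact preservesColimitsOfShape_of_reflects_of_preserves (tensorLeft X) (locP A).ι

end Monoidal

end Pool.Agent.H939.TT
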