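import Pool.Agent.H939.TT.DTTensor
import Pool.Graph.R_pool_sql_team_seeded_620a6dc7.Helper609_TT.Func

/-!
# A criterion for the vanishing of an object of `DT A`
-/

namespace Pool.Agent.H939.TT

open CategoryTheory CategoryTheory.Limits CategoryTheory.MonoidalCategory
open CategoryTheory.Pretriangulated Pool.Agent.Helper609_TT

variable {A : Type} [Category.{0} A] [Preadditive A] [CharTwo A]

/-- An object of the localizing subcategory generated by `A` which receives no nonzero morphism
from the objects of `A` is zero. -/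
theorem locP_isZero (X : K (FC A)) (hX : locP A X)
    (h : ∀ (a : A) (f : (emb A).obj a ⟶ X), f = 0) : IsZero X := by
  rw [IsZero.iff_id_eq_zero]
  refine hX (fun Z => ∀ f : Z ⟶ X, f = 0) ?_ h (𝟙 X)
  refine ⟨?_, ?_, ?_, ?_⟩
  · intro Y Z e hY f
    rw [← Category.id_comp f, ← e.inv_hom_id, Category.assoc, hY (e.hom ≫ f), comp_zero]
  · intro Y n hY f
    exact hY f
  · intro T hT h₁ h₃ f
    obtain ⟨g, hg⟩ := Triangle.yoneda_exact₂ T hT f (h₁ _)
    rw [hg, h₃ g, comp_zero]
  · intro J Y hY f
    refine Limits.Sigma.hom_ext _ _ fun j => ?_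
    rw [hY j (Sigma.ι Y j ≫ f), comp_zero]

/-- An object `X` of the localizing subcategory generated by `A` is zero if all the morphisms from
the unit to the objects `X ⊗ b`, for `b` in `A`, vanish. -/
theorem locP_isZero' [MonoidalCategory A] [MonoidalPreadditive A] [SymmetricCategory A]
    (hrig : ∀ a : A, ∃ b : A, Nonempty (ExactPairing a b)) (X : K (FC A)) (hX : locP A X)
    (h : ∀ (b : A) (f : 𝟙_ (K (FC A)) ⟶ X ⊗ (emb A).obj b), f = 0) : IsZero X := by
  refine locP_isZero X hX fun a f => ?_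
  obtain ⟨b, ⟨p⟩⟩ := hrig a
  letI := p
  letI := mapExactPairing (emb A) a b
  have h1 : (λ_ ((emb A).obj a)).hom ≫ f = 0 := by
    apply (tensorRightHomEquiv (𝟙_ (K (FC A))) ((emb A).obj a) ((emb A).obj b) X).injective
    rw [h b (tensorRightHomEquiv _ _ _ _ ((λ_ ((emb A).obj a)).hom ≫ f)),
      h b (tensorRightHomEquiv _ _ _ _ 0)]
  rw [← Category.id_comp f, ← (λ_ ((emb A).obj a)).inv_hom_id, Category.assoc, h1, comp_zero]

end Pool.Agent.H939.TT
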