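import Pool.Agent.H939.TT.DCat

/-!
# The formal coproduct completion of a preadditive category

Objects: families `(X i)` of objects of `A`, indexed by a type. Morphisms: matrices each row of
which has finitely many nonzero entries.
-/

namespace Pool.Agent.H939.TT

open CategoryTheory CategoryTheory.Limits CategoryTheory.MonoidalCategory DirectSum

universe u u'

attribute [local instance] Classical.decEq

/-- Formal coproducts of objects of `A`. -/
structure FC (A : Type u) where
  /-- the index type -/
  ι : Type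
  /-- the summands -/
  obj : ι → A

namespace FC

variable {A : Type u} [Category.{0} A] [Preadditive A]

/-- The morphisms from an object of `A` to a formal coproduct. -/
abbrev El (a : A) (Y : FC A) : Type := ⨁ j, (a ⟶ Y.obj j)

/-- The inclusion of a summand. -/
noncomputable def of {a : A} (Y : FC A) (j : Y.ι) : (a ⟶ Y.obj j) →+ El a Y :=
  DirectSum.of (fun j => (a ⟶ Y.obj j)) j

/-- induction on elements -/
lemma El.induction {a : A} {Y : FC A} {P : El a Y → Prop} (x : El a Y) (h0 : P 0)
    (h1 : ∀ j (u : a ⟶ Y.obj j), P (of Y j u)) (h2 : ∀ x y, P x → P y → P (x + y)) : P x :=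
  DirectSum.induction_on x h0 h1 h2

/-- homomorphisms out of the elements -/
noncomputable def El.lift {a : A} {Y : FC A} {G : Type*} [AddCommMonoid G]
    (φ : ∀ j, (a ⟶ Y.obj j) →+ G) : El a Y →+ G := DirectSum.toAddMonoid φ

@[simp] lemma El.lift_of {a : A} {Y : FC A} {G : Type*} [AddCommMonoid G]
    (φ : ∀ j, (a ⟶ Y.obj j) →+ G) (j : Y.ι) (u : a ⟶ Y.obj j) :
    El.lift φ (of Y j u) = φ j u := DirectSum.toAddMonoid_of _ _ _

lemma El.hom_ext {a : A} {Y : FC A} {G : Type*} [AddCommMonoid G] {φ ψ : El a Y →+ G}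
    (h : ∀ j (u : a ⟶ Y.obj j), φ (of Y j u) = ψ (of Y j u)) : φ = ψ :=
  DirectSum.addHom_ext h

/-- precomposition with a morphism of `A` -/
noncomputable def act {a b : A} (Y : FC A) : (a ⟶ b) →+ El b Y →+ El a Y :=
  AddMonoidHom.mk' (fun u => El.lift (fun j => (of Y j).comp
    (Preadditive.leftComp (Y.obj j) u))) (fun u v => by
      refine El.hom_ext fun j w => ?_
      simp [Preadditive.leftComp])

@[simp] lemma act_of {a b : A} {Y : FC A} (u : a ⟶ b) (j : Y.ι) (v : b ⟶ Y.obj j) :
    act Y u (of Y j v) = of Y j (u ≫ v) := by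
  simp [act, Preadditive.leftComp]

lemma act_act {a b c : A} {Y : FC A} (u : a ⟶ b) (v : b ⟶ c) (x : El c Y) :
    act Y u (act Y v x) = act Y (u ≫ v) x := by
  induction x using El.induction with
  | h0 => simp
  | h1 j w => simp
  | h2 x y hx hy => simp [hx, hy]

@[simp] lemma act_id {a : A} {Y : FC A} (x : El a Y) : act Y (𝟙 a) x = x := by
  induction x using El.induction with
  | h0 => simp
  | h1 j w => simp
  | h2 x y hx hy => simp [hx, hy]

/-- morphisms of formal coproducts -/
@[ext] structure Hom (X Y : FC A) where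
  /-- the rows of the matrix -/
  app : ∀ i, El (X.obj i) Y

noncomputable instance (X Y : FC A) : Add (Hom X Y) := ⟨fun f g => ⟨fun i => f.app i + g.app i⟩⟩
noncomputable instance (X Y : FC A) : Zero (Hom X Y) := ⟨⟨fun _ => 0⟩⟩
noncomputable instance (X Y : FC A) : Neg (Hom X Y) := ⟨fun f => ⟨fun i => -f.app i⟩⟩
noncomputable instance (X Y : FC A) : Sub (Hom X Y) := ⟨fun f g => ⟨fun i => f.app i - g.app i⟩⟩

noncomputable instance (X Y : FC A) : AddCommGroup (Hom X Y) where
  add_assoc f g h := Hom.ext (add_assoc f.app g.app h.app)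
  zero_add f := Hom.ext (zero_add f.app)
  add_zero f := Hom.ext (add_zero f.app)
  neg_add_cancel f := Hom.ext (neg_add_cancel f.app)
  add_comm f g := Hom.ext (add_comm f.app g.app)
  sub_eq_add_neg f g := Hom.ext (sub_eq_add_neg f.app g.app)
  nsmul := nsmulRec
  zsmul := zsmulRec

/-- composition of a row with a matrix -/
noncomputable def push {Y Z : FC A} {a : A} (g : Hom Y Z) : El a Y →+ El a Z :=
  El.lift (fun j => AddMonoidHom.mk' (fun u : a ⟶ Y.obj j => act Z u (g.app j))
    (fun u v => by simp))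

@[simp] lemma push_of {Y Z : FC A} {a : A} (g : Hom Y Z) (j : Y.ι) (u : a ⟶ Y.obj j) :
    push g (of Y j u) = act Z u (g.app j) := by
  simp [push]

lemma push_act {Y Z : FC A} {a b : A} (g : Hom Y Z) (u : a ⟶ b) (x : El b Y) :
    push g (act Y u x) = act Z u (push g x) := by
  induction x using El.induction with
  | h0 => simp
  | h1 j w => simp [act_act]
  | h2 x y hx hy => simp [hx, hy]

noncomputable instance : Category (FC A) where
  Hom X Y := Hom X Y
  id X := ⟨fun i => of X i (𝟙 _)⟩
  comp f g := ⟨fun i => push g (f.app i)⟩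
  id_comp {X Y} f := by
    refine Hom.ext (funext fun i => ?_)
    change push f (of X i (𝟙 _)) = f.app i
    rw [push_of, act_id]
  comp_id {X Y} f := by
    refine Hom.ext (funext fun i => ?_)
    change push (⟨fun i => of Y i (𝟙 _)⟩ : Hom Y Y) (f.app i) = f.app i
    generalize f.app i = x
    induction x using El.induction with
    | h0 => simp
    | h1 j w => simp
    | h2 x y hx hy => rw [map_add, hx, hy]
  assoc {X Y Z W} f g h := by
    refine Hom.ext (funext fun i => ?_)
    change push h (push g (f.app i)) = push (⟨fun j => push h (g.app j)⟩ : Hom Y W) (f.app i)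
    generalize f.app i = x
    induction x using El.induction with
    | h0 => simp
    | h1 j w => rw [push_of, push_act, push_of]
    | h2 x y hx hy => rw [map_add, map_add, hx, hy, map_add]

@[ext] lemma hom_ext {X Y : FC A} {f g : X ⟶ Y} (h : ∀ i, f.app i = g.app i) : f = g :=
  Hom.ext (funext h)

@[simp] lemma id_app (X : FC A) (i : X.ι) : Hom.app (𝟙 X) i = of X i (𝟙 _) := rfl

@[simp] lemma comp_app {X Y Z : FC A} (f : X ⟶ Y) (g : Y ⟶ Z) (i : X.ι) :
    (f ≫ g).app i = push g (f.app i) := rfl

lemma push_comp {X Y Z : FC A} (f : X ⟶ Y) (g : Y ⟶ Z) {a : A} (x : El a X) :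
    push (f ≫ g) x = push g (push f x) := by
  induction x using El.induction with
  | h0 => simp
  | h1 j w => rw [push_of, push_of, comp_app, push_act]
  | h2 x y hx hy => rw [map_add, map_add, hx, hy, map_add]

@[simp] lemma push_id {X : FC A} {a : A} (x : El a X) : push (𝟙 X) x = x := by
  induction x using El.induction with
  | h0 => simp
  | h1 j w => rw [push_of, id_app, act_of, Category.comp_id]
  | h2 x y hx hy => rw [map_add, hx, hy]

noncomputable instance (X Y : FC A) : AddCommGroup (X ⟶ Y) :=
  inferInstanceAs (AddCommGroup (Hom X Y))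

@[simp] lemma add_app {X Y : FC A} (f g : X ⟶ Y) (i : X.ι) :
    (f + g).app i = f.app i + g.app i := rfl
@[simp] lemma zero_app {X Y : FC A} (i : X.ι) : (0 : X ⟶ Y).app i = 0 := rfl

lemma push_add {Y Z : FC A} {a : A} (g h : Y ⟶ Z) (x : El a Y) :
    push (g + h) x = push g x + push h x := by
  induction x using El.induction with
  | h0 => simp
  | h1 j w => rw [push_of, push_of, push_of, add_app, map_add]
  | h2 x y hx hy => rw [map_add, map_add, map_add, hx, hy, add_add_add_comm]

noncomputable instance : Preadditive (FC A) where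
  add_comp X Y Z f g h := hom_ext fun i => by simp
  comp_add X Y Z f g h := hom_ext fun i => by simp [push_add]

lemma El.add_self [CharTwo A] {a : A} {Y : FC A} (x : El a Y) : x + x = 0 := by
  induction x using El.induction with
  | h0 => simp
  | h1 j w => rw [← map_add, add_self', map_zero]
  | h2 x y hx hy => rw [add_add_add_comm, hx, hy, add_zero]

instance [CharTwo A] : CharTwo (FC A) where
  add_self {X Y} f := hom_ext fun i => by simp [El.add_self]

/-- An object of `A` as a formal coproduct. -/
abbrev single (a : A) : FC A := ⟨Unit, fun _ => a⟩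

/-- The embedding of `A`. -/
@[simps] noncomputable def inc (A : Type u) [Category.{0} A] [Preadditive A] : A ⥤ FC A where
  obj a := single a
  map {a b} f := ⟨fun _ => of (single b) () f⟩
  map_id _ := rfl
  map_comp {a b c} f g := hom_ext fun i => by
    refine Eq.trans ?_ (push_of (⟨fun _ => of (single c) () g⟩ : Hom (single b) (single c)) () f).symm
    exact (act_of (Y := single c) f () g).symm

/-- morphisms from an object of `A` are elements -/
noncomputable def incHom (a : A) (Y : FC A) : ((inc A).obj a ⟶ Y) ≃+ El a Y where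
  toFun f := f.app ()
  invFun x := ⟨fun _ => x⟩
  left_inv _ := rfl
  right_inv _ := rfl
  map_add' _ _ := rfl

instance : (inc A).Additive where
  map_add {a b f g} := hom_ext fun i => map_add (of (single b) ()) f g

/-- the coproduct of a family -/
abbrev sigma {J : Type} (X : J → FC A) : FC A := ⟨Σ j, (X j).ι, fun p => (X p.1).obj p.2⟩

/-- the inclusions in the coproduct -/
@[simps] noncomputable def sigmaι {J : Type} (X : J → FC A) (j : J) : X j ⟶ sigma X where
  app i := of (sigma X) ⟨j, i⟩ (𝟙 _)

/-- morphisms out of the coproduct -/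
@[simps] noncomputable def sigmaDesc {J : Type} {X : J → FC A} {Y : FC A} (f : ∀ j, X j ⟶ Y) :
    sigma X ⟶ Y where
  app p := (f p.1).app p.2

lemma sigmaι_desc {J : Type} {X : J → FC A} {Y : FC A} (f : ∀ j, X j ⟶ Y) (j : J) :
    sigmaι X j ≫ sigmaDesc f = f j := hom_ext fun i => by simp

lemma sigma_hom_ext {J : Type} {X : J → FC A} {Y : FC A} {f g : sigma X ⟶ Y}
    (h : ∀ j, sigmaι X j ≫ f = sigmaι X j ≫ g) : f = g := hom_ext fun p => by
  have := congrArg (fun u => Hom.app u p.2) (h p.1)
  simpa using this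

/-- `sigma` is a coproduct -/
noncomputable def isColimitSigma {J : Type} (X : J → FC A) :
    IsColimit (Cofan.mk (sigma X) (fun j => sigmaι X j)) :=
  Cofan.IsColimit.mk _ (fun s => sigmaDesc s.inj) (fun s j => sigmaι_desc _ j)
    (fun s m hm => sigma_hom_ext fun j => (hm j).trans (sigmaι_desc _ j).symm)

instance : HasCoproducts.{0} (FC A) :=
  hasCoproducts_of_colimit_cofans _ (fun X => isColimitSigma X)

/-- the empty family -/
lemma isZero_of_isEmpty (X : FC A) [IsEmpty X.ι] : IsZero X := by
  rw [IsZero.iff_id_eq_zero]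
  exact hom_ext fun i => isEmptyElim i

instance : HasZeroObject (FC A) := ⟨⟨Empty, isEmptyElim⟩, isZero_of_isEmpty _⟩

instance : HasFiniteCoproducts (FC A) := inferInstance

instance : HasFiniteBiproducts (FC A) := HasFiniteBiproducts.of_hasFiniteCoproducts

instance : HasBinaryBiproducts (FC A) := hasBinaryBiproducts_of_finite_biproducts _

/-- composition of entries -/
lemma comp_app_of {X Y Z : FC A} {f : X ⟶ Y} {g : Y ⟶ Z} {i : X.ι} {j : Y.ι} {k : Z.ι}
    {u : X.obj i ⟶ Y.obj j} {v : Y.obj j ⟶ Z.obj k} (hf : f.app i = of Y j u)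
    (hg : g.app j = of Z k v) : (f ≫ g).app i = of Z k (u ≫ v) := by
  rw [comp_app, hf, push_of, hg, act_of]

section Monoidal

variable [MonoidalCategory A] [MonoidalPreadditive A]

/-- the tensor product of formal coproducts -/
abbrev tensor (X Y : FC A) : FC A := ⟨X.ι × Y.ι, fun p => X.obj p.1 ⊗ Y.obj p.2⟩

/-- the tensor product of elements -/
noncomputable def tens {a b : A} {X Y : FC A} : El a X →+ El b Y →+ El (a ⊗ b) (tensor X Y) :=
  El.lift (fun i => AddMonoidHom.mk' (fun u => El.lift (fun j => AddMonoidHom.mk'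
    (fun v => of (tensor X Y) (i, j) (u ⊗ₘ v)) (fun v w => by
      rw [← map_add, ← MonoidalPreadditive.tensor_add]))) (fun u v => by
      refine El.hom_ext fun j w => ?_
      simp only [El.lift_of, AddMonoidHom.mk'_apply, AddMonoidHom.add_apply]
      rw [← map_add, ← MonoidalPreadditive.add_tensor]))

@[simp] lemma tens_of {a b : A} {X Y : FC A} (i : X.ι) (j : Y.ι) (u : a ⟶ X.obj i)
    (v : b ⟶ Y.obj j) : tens (of X i u) (of Y j v) = of (tensor X Y) (i, j) (u ⊗ₘ v) := by
  simp [tens]

omit [MonoidalCategory A] [MonoidalPreadditive A] in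
/-- bilinear induction on two elements -/
lemma El.induction₂ {a b : A} {X Y : FC A} {G : Type*} [AddCommMonoid G]
    (φ ψ : El a X →+ El b Y →+ G)
    (h : ∀ i u j v, φ (of X i u) (of Y j v) = ψ (of X i u) (of Y j v)) (x : El a X) (y : El b Y) :
    φ x y = ψ x y := by
  induction x using El.induction with
  | h0 => simp
  | h1 i u =>
    induction y using El.induction with
    | h0 => simp
    | h1 j v => exact h i u j v
    | h2 x y hx hy => rw [map_add, map_add, hx, hy]
  | h2 x y hx hy => simp only [map_add, AddMonoidHom.add_apply, hx, hy]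

lemma act_tens {a a' b b' : A} {X Y : FC A} (u : a' ⟶ a) (v : b' ⟶ b) (x : El a X) (y : El b Y) :
    act _ (u ⊗ₘ v) (tens x y) = tens (act _ u x) (act _ v y) := by
  induction x using El.induction with
  | h0 => simp
  | h1 i w =>
    induction y using El.induction with
    | h0 => simp
    | h1 j z =>
      rw [tens_of]
      refine (act_of (Y := tensor X Y) (u ⊗ₘ v) (i, j) (w ⊗ₘ z)).trans ?_
      rw [act_of, act_of, tens_of, tensorHom_comp_tensorHom]
    | h2 x y hx hy => simp only [map_add, hx, hy]
  | h2 x y hx hy => simp only [map_add, AddMonoidHom.add_apply, hx, hy]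

noncomputable instance : MonoidalCategoryStruct (FC A) where
  tensorObj X Y := tensor X Y
  whiskerLeft X _ _ g := ⟨fun p => tens (of X p.1 (𝟙 _)) (g.app p.2)⟩
  whiskerRight f Y := ⟨fun p => tens (f.app p.1) (of Y p.2 (𝟙 _))⟩
  tensorHom f g := ⟨fun p => tens (f.app p.1) (g.app p.2)⟩
  tensorUnit := single (𝟙_ A)
  associator X Y Z :=
    { hom := ⟨fun p => of (tensor X (tensor Y Z)) (p.1.1, (p.1.2, p.2)) (α_ _ _ _).hom⟩
      inv := ⟨fun p => of (tensor (tensor X Y) Z) ((p.1, p.2.1), p.2.2) (α_ _ _ _).inv⟩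
      hom_inv_id := hom_ext fun p =>
        (push_of _ _ _).trans ((act_of _ _ _).trans (congrArg _ (Iso.hom_inv_id _)))
      inv_hom_id := hom_ext fun p =>
        (push_of _ _ _).trans ((act_of _ _ _).trans (congrArg _ (Iso.inv_hom_id _))) }
  leftUnitor X :=
    { hom := ⟨fun p => of X p.2 (λ_ _).hom⟩
      inv := ⟨fun i => of (tensor (single (𝟙_ A)) X) ((), i) (λ_ _).inv⟩
      hom_inv_id := hom_ext fun p =>
        (push_of _ _ _).trans ((act_of _ _ _).trans (congrArg _ (Iso.hom_inv_id _)))
      inv_hom_id := hom_ext fun p =>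
        (push_of _ _ _).trans ((act_of _ _ _).trans (congrArg _ (Iso.inv_hom_id _))) }
  rightUnitor X :=
    { hom := ⟨fun p => of X p.1 (ρ_ _).hom⟩
      inv := ⟨fun i => of (tensor X (single (𝟙_ A))) (i, ()) (ρ_ _).inv⟩
      hom_inv_id := hom_ext fun p =>
        (push_of _ _ _).trans ((act_of _ _ _).trans (congrArg _ (Iso.hom_inv_id _)))
      inv_hom_id := hom_ext fun p =>
        (push_of _ _ _).trans ((act_of _ _ _).trans (congrArg _ (Iso.inv_hom_id _))) }

@[simp] lemma tensorObj_ι (X Y : FC A) : (X ⊗ Y).ι = (X.ι × Y.ι) := rfl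

lemma tensorHom_app {X X' Y Y' : FC A} (f : X ⟶ X') (g : Y ⟶ Y') (p : X.ι × Y.ι) :
    Hom.app (f ⊗ₘ g) p = tens (f.app p.1) (g.app p.2) := rfl

lemma whiskerLeft_app (X : FC A) {Y Y' : FC A} (g : Y ⟶ Y') (p : X.ι × Y.ι) :
    Hom.app (X ◁ g) p = tens (of X p.1 (𝟙 _)) (g.app p.2) := rfl

lemma whiskerRight_app {X X' : FC A} (f : X ⟶ X') (Y : FC A) (p : X.ι × Y.ι) :
    Hom.app (f ▷ Y) p = tens (f.app p.1) (of Y p.2 (𝟙 _)) := rfl

lemma push_tensorHom {X X' Y Y' : FC A} (f : X ⟶ X') (g : Y ⟶ Y') {a b : A} (x : El a X)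
    (y : El b Y) : push (f ⊗ₘ g) (tens x y) = tens (push f x) (push g y) := by
  induction x using El.induction with
  | h0 => simp
  | h1 i w =>
    induction y using El.induction with
    | h0 => simp
    | h1 j z =>
      rw [tens_of, push_of, push_of]
      exact (push_of _ _ _).trans (act_tens _ _ _ _)
    | h2 x y hx hy => simp only [map_add, hx, hy]
  | h2 x y hx hy => simp only [map_add, AddMonoidHom.add_apply, hx, hy]

lemma push_associator {X Y Z : FC A} {a b c : A} (x : El a X) (y : El b Y) (z : El c Z) :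
    push (α_ X Y Z).hom (tens (tens x y) z) = act _ (α_ a b c).hom (tens x (tens y z)) := by
  induction x using El.induction with
  | h0 => simp
  | h1 i u =>
    induction y using El.induction with
    | h0 => simp
    | h1 j v =>
      induction z using El.induction with
      | h0 => simp
      | h1 k w =>
        rw [tens_of, tens_of]
        refine (push_of (Y := tensor (tensor X Y) Z) _ ((i, j), k) _).trans ?_
        refine (act_of _ _ _).trans ?_
        rw [tens_of]
        refine Eq.trans ?_ (congrArg _ (tens_of (Y := tensor Y Z) i (j, k) u _)).symm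
        refine Eq.trans ?_ (act_of (Y := tensor X (tensor Y Z)) _ (i, (j, k)) _).symm
        exact congrArg _ (associator_naturality u v w)
      | h2 x y hx hy => simp only [map_add, hx, hy]
    | h2 x y hx hy => simp only [map_add, AddMonoidHom.add_apply, hx, hy]
  | h2 x y hx hy => simp only [map_add, AddMonoidHom.add_apply, hx, hy]

noncomputable instance : MonoidalCategory (FC A) := MonoidalCategory.ofTensorHom
  (id_tensorHom_id := fun X Y => hom_ext fun p => by
    refine (tens_of p.1 p.2 _ _).trans ?_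
    exact congrArg _ (id_tensorHom_id _ _))
  (id_tensorHom := fun _ _ _ _ => rfl)
  (tensorHom_id := fun _ _ => rfl)
  (tensorHom_comp_tensorHom := fun f₁ f₂ g₁ g₂ => hom_ext fun p => by
    exact push_tensorHom g₁ g₂ (f₁.app p.1) (f₂.app p.2))
  (associator_naturality := fun {X₁ X₂ X₃ Y₁ Y₂ Y₃} f g h => hom_ext fun p => by
    refine (push_associator (f.app p.1.1) (g.app p.1.2) (h.app p.2)).trans ?_
    exact (push_of (Y := tensor X₁ (tensor X₂ X₃)) (f ⊗ₘ (g ⊗ₘ h)) (p.1.1, (p.1.2, p.2)) _).symm)
  (leftUnitor_naturality := fun {X Y} f => hom_ext fun p => by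
    change push (λ_ Y).hom (tens (of (single (𝟙_ A)) () (𝟙 (𝟙_ A))) (f.app p.2)) =
      push f (of X p.2 (λ_ _).hom)
    rw [push_of]
    generalize f.app p.2 = x
    induction x using El.induction with
    | h0 => simp
    | h1 i u =>
      refine (congrArg _ (tens_of (X := single (𝟙_ A)) () i (𝟙 _) u)).trans ?_
      refine (push_of (Y := tensor (single (𝟙_ A)) Y) _ ((), i) _).trans ?_
      refine (act_of _ _ _).trans ?_
      rw [act_of]
      refine congrArg _ ?_
      rw [id_tensorHom, leftUnitor_naturality]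
    | h2 x y hx hy => simp only [map_add, hx, hy])
  (rightUnitor_naturality := fun {X Y} f => hom_ext fun p => by
    change push (ρ_ Y).hom (tens (f.app p.1) (of (single (𝟙_ A)) () (𝟙 (𝟙_ A)))) =
      push f (of X p.1 (ρ_ _).hom)
    rw [push_of]
    generalize f.app p.1 = x
    induction x using El.induction with
    | h0 => simp
    | h1 i u =>
      refine (congrArg _ (tens_of (Y := single (𝟙_ A)) i () u (𝟙 _))).trans ?_
      refine (push_of (Y := tensor Y (single (𝟙_ A))) _ (i, ()) _).trans ?_
      refine (act_of _ _ _).trans ?_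
      rw [act_of]
      refine congrArg _ ?_
      rw [tensorHom_id, rightUnitor_naturality]
    | h2 x y hx hy => simp only [map_add, AddMonoidHom.add_apply, hx, hy])
  (pentagon := fun W X Y Z => hom_ext fun p => by
    refine (comp_app_of (tens_of (X := tensor W (tensor X Y)) (p.1.1.1, (p.1.1.2, p.1.2)) p.2 _ _)
      (comp_app_of rfl (tens_of (Y := tensor X (tensor Y Z)) p.1.1.1 (p.1.1.2, (p.1.2, p.2))
        _ _))).trans ?_
    refine Eq.trans ?_ (comp_app_of rfl rfl).symm
    refine congrArg _ ?_
    exact (by simp : ((α_ (W.obj p.1.1.1) (X.obj p.1.1.2) (Y.obj p.1.2)).hom ⊗ₘ 𝟙 (Z.obj p.2)) ≫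
      (α_ _ _ _).hom ≫ (𝟙 _ ⊗ₘ (α_ _ _ _).hom) = (α_ _ _ _).hom ≫ (α_ _ _ _).hom))
  (triangle := fun X Y => hom_ext fun p => by
    refine (comp_app_of rfl (tens_of p.1.1 p.2 (𝟙 _) _)).trans ?_
    refine Eq.trans ?_ (tens_of p.1.1 p.2 _ _).symm
    refine congrArg _ ?_
    exact (by simp : (α_ (X.obj p.1.1) (𝟙_ A) (Y.obj p.2)).hom ≫ (𝟙 _ ⊗ₘ (λ_ _).hom) =
      ((ρ_ _).hom ⊗ₘ 𝟙 _)))

instance : MonoidalPreadditive (FC A) where
  whiskerLeft_zero {X Y Z} := hom_ext fun p => map_zero _
  zero_whiskerRight {X Y Z} := hom_ext fun p => by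
    exact (congrArg (fun u => u (of X p.2 (𝟙 _))) (map_zero (tens (X := Z) (Y := X)))).trans rfl
  whiskerLeft_add {X Y Z} f g := hom_ext fun p => map_add _ _ _
  add_whiskerRight {X Y Z} f g := hom_ext fun p => by
    exact (congrArg (fun u => u (of X p.2 (𝟙 _)))
      (map_add (tens (X := Z) (Y := X)) (f.app p.1) (g.app p.1)))

section Symmetric

variable [SymmetricCategory A]

lemma push_braiding {X Y : FC A} {a b : A} (x : El a X) (y : El b Y) :
    push (⟨fun p => of (tensor Y X) (p.2, p.1) (β_ _ _).hom⟩ : Hom (tensor X Y) (tensor Y X))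
      (tens x y) = act _ (β_ a b).hom (tens y x) := by
  induction x using El.induction with
  | h0 => simp
  | h1 i u =>
    induction y using El.induction with
    | h0 => simp
    | h1 j v =>
      rw [tens_of, tens_of]
      refine (push_of (Y := tensor X Y) _ (i, j) _).trans ?_
      refine (act_of _ _ _).trans ?_
      refine Eq.trans ?_ (act_of (Y := tensor Y X) _ (j, i) _).symm
      exact congrArg _ (BraidedCategory.braiding_naturality u v)
    | h2 x y hx hy => simp only [map_add, AddMonoidHom.add_apply, hx, hy]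
  | h2 x y hx hy => simp only [map_add, AddMonoidHom.add_apply, hx, hy]

noncomputable instance : BraidedCategory (FC A) where
  braiding X Y :=
    { hom := ⟨fun p => of (tensor Y X) (p.2, p.1) (β_ _ _).hom⟩
      inv := ⟨fun p => of (tensor X Y) (p.2, p.1) (β_ _ _).inv⟩
      hom_inv_id := hom_ext fun p =>
        (comp_app_of rfl rfl).trans (congrArg _ (Iso.hom_inv_id _))
      inv_hom_id := hom_ext fun p =>
        (comp_app_of rfl rfl).trans (congrArg _ (Iso.inv_hom_id _)) }
  braiding_naturality_right X {Y Z} f := hom_ext fun p => by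
    refine (push_braiding (of X p.1 (𝟙 _)) (f.app p.2)).trans ?_
    exact (push_of (Y := tensor Y X) (f ▷ X) (p.2, p.1) _).symm
  braiding_naturality_left {X Y} f Z := hom_ext fun p => by
    refine (push_braiding (f.app p.1) (of Z p.2 (𝟙 _))).trans ?_
    exact (push_of (Y := tensor Z X) (Z ◁ f) (p.2, p.1) _).symm
  hexagon_forward X Y Z := hom_ext fun p => by
    refine (comp_app_of rfl (comp_app_of rfl rfl)).trans ?_
    refine Eq.trans ?_ (comp_app_of (tens_of (X := tensor Y X) (p.1.2, p.1.1) p.2 _ _)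
      (comp_app_of rfl (tens_of (Y := tensor Z X) p.1.2 (p.2, p.1.1) _ _))).symm
    refine congrArg _ ?_
    exact (by simp : (α_ (X.obj p.1.1) (Y.obj p.1.2) (Z.obj p.2)).hom ≫ (β_ _ _).hom ≫
      (α_ _ _ _).hom = ((β_ _ _).hom ⊗ₘ 𝟙 _) ≫ (α_ _ _ _).hom ≫ (𝟙 _ ⊗ₘ (β_ _ _).hom))
  hexagon_reverse X Y Z := hom_ext fun p => by
    refine (comp_app_of rfl (comp_app_of rfl rfl)).trans ?_
    refine Eq.trans ?_ (comp_app_of (tens_of (Y := tensor Z Y) p.1 (p.2.2, p.2.1) _ _)
      (comp_app_of rfl (tens_of (X := tensor Z X) (p.2.2, p.1) p.2.1 _ _))).symm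
    refine congrArg _ ?_
    exact (by simp : (α_ (X.obj p.1) (Y.obj p.2.1) (Z.obj p.2.2)).inv ≫ (β_ _ _).hom ≫
      (α_ _ _ _).inv = (𝟙 _ ⊗ₘ (β_ _ _).hom) ≫ (α_ _ _ _).inv ≫ ((β_ _ _).hom ⊗ₘ 𝟙 _))

noncomputable instance : SymmetricCategory (FC A) where
  symmetry X Y := hom_ext fun p =>
    (comp_app_of rfl rfl).trans (congrArg _ (SymmetricCategory.symmetry _ _))

end Symmetric

end Monoidal

end FC

end Pool.Agent.H939.TT
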