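import Pool.Agent.H939.TT.FC

/-!
# The tensor product of formal coproducts preserves coproducts
-/

namespace Pool.Agent.H939.TT

open CategoryTheory CategoryTheory.Limits CategoryTheory.MonoidalCategory DirectSum

universe u u'

attribute [local instance] Classical.decEq

namespace FC

variable {A : Type u} [Category.{0} A] [Preadditive A] [MonoidalCategory A]
  [MonoidalPreadditive A]

/-- the row of `X ◁ sigmaι Y j` -/
lemma FCPres_left_app {J : Type} (X : FC A) (Y : J → FC A) (j : J) (p : X.ι × (Y j).ι) :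
    Hom.app (X ◁ sigmaι Y j) p = of (tensor X (sigma Y)) (p.1, ⟨j, p.2⟩) (𝟙 _) := by
  refine (tens_of (X := X) (Y := sigma Y) p.1 ⟨j, p.2⟩ (𝟙 _) (𝟙 _)).trans ?_
  exact congrArg _ (id_tensorHom_id _ _)

/-- the row of `sigmaι Y j ▷ X` -/
lemma FCPres_right_app {J : Type} (X : FC A) (Y : J → FC A) (j : J) (p : (Y j).ι × X.ι) :
    Hom.app (sigmaι Y j ▷ X) p = of (tensor (sigma Y) X) (⟨j, p.1⟩, p.2) (𝟙 _) := by
  refine (tens_of (X := sigma Y) (Y := X) ⟨j, p.1⟩ p.2 (𝟙 _) (𝟙 _)).trans ?_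
  exact congrArg _ (id_tensorHom_id _ _)

/-- morphisms out of `X ⊗ sigma Y` -/
noncomputable def FCPres_descL {J : Type} (X : FC A) (Y : J → FC A) {Z : FC A}
    (f : ∀ j, X ⊗ Y j ⟶ Z) : X ⊗ sigma Y ⟶ Z :=
  (⟨fun p => Hom.app (f p.2.1) (p.1, p.2.2)⟩ : Hom (tensor X (sigma Y)) Z)

/-- morphisms out of `sigma Y ⊗ X` -/
noncomputable def FCPres_descR {J : Type} (X : FC A) (Y : J → FC A) {Z : FC A}
    (f : ∀ j, Y j ⊗ X ⟶ Z) : sigma Y ⊗ X ⟶ Z :=
  (⟨fun p => Hom.app (f p.1.1) (p.1.2, p.2)⟩ : Hom (tensor (sigma Y) X) Z)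

lemma FCPres_left_comp {J : Type} (X : FC A) (Y : J → FC A) {Z : FC A} (j : J)
    (g : X ⊗ sigma Y ⟶ Z) (p : X.ι × (Y j).ι) :
    Hom.app (X ◁ sigmaι Y j ≫ g) p = Hom.app g (p.1, ⟨j, p.2⟩) := by
  refine (congrArg (push g) (FCPres_left_app X Y j p)).trans ?_
  refine (push_of (Y := tensor X (sigma Y)) g (p.1, ⟨j, p.2⟩) (𝟙 _)).trans ?_
  exact act_id _

lemma FCPres_right_comp {J : Type} (X : FC A) (Y : J → FC A) {Z : FC A} (j : J)
    (g : sigma Y ⊗ X ⟶ Z) (p : (Y j).ι × X.ι) :
    Hom.app (sigmaι Y j ▷ X ≫ g) p = Hom.app g (⟨j, p.1⟩, p.2) := by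
  refine (congrArg (push g) (FCPres_right_app X Y j p)).trans ?_
  refine (push_of (Y := tensor (sigma Y) X) g (⟨j, p.1⟩, p.2) (𝟙 _)).trans ?_
  exact act_id _

noncomputable def FCPres_isColimitL {J : Type} (X : FC A) (Y : J → FC A) :
    IsColimit (Cofan.mk (X ⊗ sigma Y) (fun j => X ◁ sigmaι Y j)) :=
  Cofan.IsColimit.mk _ (fun s => FCPres_descL X Y s.inj)
    (fun s j => hom_ext fun p => FCPres_left_comp X Y j (FCPres_descL X Y s.inj) p)
    (fun s m hm => hom_ext fun p => by
      have h := congrArg (fun u => Hom.app u (p.1, p.2.2)) (hm p.2.1)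
      exact (FCPres_left_comp X Y p.2.1 m (p.1, p.2.2)).symm.trans h)

noncomputable def FCPres_isColimitR {J : Type} (X : FC A) (Y : J → FC A) :
    IsColimit (Cofan.mk (sigma Y ⊗ X) (fun j => sigmaι Y j ▷ X)) :=
  Cofan.IsColimit.mk _ (fun s => FCPres_descR X Y s.inj)
    (fun s j => hom_ext fun p => FCPres_right_comp X Y j (FCPres_descR X Y s.inj) p)
    (fun s m hm => hom_ext fun p => by
      have h := congrArg (fun u => Hom.app u (p.1.2, p.2)) (hm p.1.1)
      exact (FCPres_right_comp X Y p.1.1 m (p.1.2, p.2)).symm.trans h)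

instance preserves_tensorLeft (J : Type) (X : FC A) :
    PreservesColimitsOfShape (Discrete J) (tensorLeft X) := by
  have key : ∀ f : J → FC A, PreservesColimit (Discrete.functor f) (tensorLeft X) := by
    intro f
    refine preservesColimit_of_preserves_colimit_cocone (isColimitSigma f) ?_
    refine (isColimitMapCoconeCofanMkEquiv (tensorLeft X) f _).symm ?_
    exact FCPres_isColimitL X f
  exact preservesColimitsOfShape_of_discrete _

instance preserves_tensorRight (J : Type) (X : FC A) :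
    PreservesColimitsOfShape (Discrete J) (tensorRight X) := by
  have key : ∀ f : J → FC A, PreservesColimit (Discrete.functor f) (tensorRight X) := by
    intro f
    refine preservesColimit_of_preserves_colimit_cocone (isColimitSigma f) ?_
    refine (isColimitMapCoconeCofanMkEquiv (tensorRight X) f _).symm ?_
    exact FCPres_isColimitR X f
  exact preservesColimitsOfShape_of_discrete _

end FC

end Pool.Agent.H939.TT
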