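import Mathlib

/-!
# Integration of smooth functions on powers of an infinite set

`Ω = ℕ` is an infinite set of volume `t`. A function on `Ω ^ J` is smooth if it is invariant
under all permutations of `Ω` which fix the numbers `< N`, for some `N`.
-/

namespace Pool.Agent.H939.TT

/-- `f` is invariant under the permutations which fix the numbers `< N`. -/
def Sm {F : Type} (N : ℕ) {J : Type} (f : (J → ℕ) → F) : Prop :=
  ∀ σ : Equiv.Perm ℕ, (∀ n < N, σ n = n) → ∀ y : J → ℕ, f (σ ∘ y) = f y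

/-- An integral for smooth functions. -/
structure Integral (F : Type) [Field F] where
  /-- the integral over `Ω ^ J` -/
  int : ∀ (J : Type) [Finite J], ((J → ℕ) → F) → F
  add : ∀ (J : Type) [Finite J] (N : ℕ) (f g : (J → ℕ) → F), Sm N f → Sm N g →
    int J (fun y => f y + g y) = int J f + int J g
  smul : ∀ (J : Type) [Finite J] (N : ℕ) (c : F) (f : (J → ℕ) → F), Sm N f →
    int J (fun y => c * f y) = c * int J f
  empty : ∀ (J : Type) [Finite J] [IsEmpty J] (f : (J → ℕ) → F), int J f = f isEmptyElim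
  reindex : ∀ (J L : Type) [Finite J] [Finite L] (e : J ≃ L) (N : ℕ) (f : (L → ℕ) → F), Sm N f →
    int J (fun y => f (y ∘ e.symm)) = int L f
  fubini : ∀ (J L : Type) [Finite J] [Finite L] (N : ℕ) (f : (J ⊕ L → ℕ) → F), Sm N f →
    int J (fun y => int L (fun z => f (Sum.elim y z))) = int (J ⊕ L) f
  perm : ∀ (J : Type) [Finite J] (N : ℕ) (f : (J → ℕ) → F), Sm N f → ∀ σ : Equiv.Perm ℕ,
    int J (fun y => f (σ ∘ y)) = int J f
  delta : ∀ (J : Type) [Finite J] (N : ℕ) (f : (J → ℕ) → F), Sm N f → ∀ x : J → ℕ,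
    (∀ y, y ≠ x → f y = 0) → int J f = f x
  orbit_ne_zero : ∀ (J : Type) [Finite J] (N : ℕ) (x : J → ℕ) (f : (J → ℕ) → F), Sm N f →
    f x ≠ 0 → (∀ y : J → ℕ, f y ≠ 0 → ∃ σ : Equiv.Perm ℕ, (∀ n < N, σ n = n) ∧ y = σ ∘ x) →
    int J f ≠ 0

end Pool.Agent.H939.TT
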