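import Pool.Agent.H939.TT.IntDefs

/-!
# Existence of the integral of smooth functions on powers of an infinite set

The integral is the iterated one-variable integral; the order of the variables does not matter
by a two-variable Fubini theorem.
-/

namespace Pool.Agent.H939.TT

open Function

section IntExAux

variable {F : Type} [Field F]

open Classical in
/-- the integral of a function of one variable -/
noncomputable def ixI (t : F) (g : ℕ → F) : F :=
  if h : ∃ c, {x | g x ≠ c}.Finite then ∑ᶠ x, (g x - h.choose) + t * h.choose else 0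

omit [Field F] in
lemma ix_unique {g : ℕ → F} {c d : F} (hc : {x | g x ≠ c}.Finite) (hd : {x | g x ≠ d}.Finite) :
    c = d := by
  by_contra hcd
  have h : (Set.univ : Set ℕ) ⊆ {x | g x ≠ c} ∪ {x | g x ≠ d} := by
    intro x _
    by_cases hx : g x = c
    · right
      exact fun e => hcd (hx.symm.trans e)
    · left
      exact hx
  exact Set.infinite_univ ((hc.union hd).subset h)

lemma ixI_eq (t : F) {g : ℕ → F} (A : Finset ℕ) (c : F) (h : ∀ x, x ∉ A → g x = c) :
    ixI t g = ∑ x ∈ A, g x + (t - A.card) * c := by
  have hc : {x | g x ≠ c}.Finite := by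
    refine A.finite_toSet.subset ?_
    intro x hx
    by_contra hxA
    exact hx (h x (by simpa using hxA))
  have hex : ∃ c, {x | g x ≠ c}.Finite := ⟨c, hc⟩
  have hch : hex.choose = c := ix_unique hex.choose_spec hc
  unfold ixI
  rw [dif_pos hex, hch, finsum_eq_sum_of_support_subset (s := A), Finset.sum_sub_distrib]
  · simp
    ring
  · intro x hx
    by_contra hxA
    apply hx
    simp [h x (by simpa using hxA)]

/-- eventually constant functions -/
def IxEC (g : ℕ → F) : Prop := ∃ (A : Finset ℕ) (c : F), ∀ x, x ∉ A → g x = c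

lemma ixI_add (t : F) {f g : ℕ → F} (hf : IxEC f) (hg : IxEC g) :
    ixI t (fun x => f x + g x) = ixI t f + ixI t g := by
  obtain ⟨A, c, hA⟩ := hf
  obtain ⟨B, d, hB⟩ := hg
  rw [ixI_eq t (A ∪ B) (c + d), ixI_eq t (A ∪ B) c, ixI_eq t (A ∪ B) d, Finset.sum_add_distrib]
  · ring
  · intro x hx
    exact hB x (fun h => hx (Finset.mem_union_right _ h))
  · intro x hx
    exact hA x (fun h => hx (Finset.mem_union_left _ h))
  · intro x hx
    rw [hA x (fun h => hx (Finset.mem_union_left _ h)),
      hB x (fun h => hx (Finset.mem_union_right _ h))]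

lemma ixI_smul (t : F) (a : F) {f : ℕ → F} (hf : IxEC f) :
    ixI t (fun x => a * f x) = a * ixI t f := by
  obtain ⟨A, c, hA⟩ := hf
  rw [ixI_eq t A (a * c), ixI_eq t A c, ← Finset.mul_sum]
  · ring
  · exact hA
  · intro x hx
    rw [hA x hx]

lemma ixI_perm (t : F) (σ : Equiv.Perm ℕ) {f : ℕ → F} (hf : IxEC f) :
    ixI t (fun x => f (σ x)) = ixI t f := by
  obtain ⟨A, c, hA⟩ := hf
  rw [ixI_eq t (A.map σ.symm.toEmbedding) c, ixI_eq t A c hA]
  · simp
  · intro x hx
    apply hA
    intro h
    apply hx
    rw [Finset.mem_map]
    exact ⟨σ x, h, by simp⟩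

/-- two-variable Fubini theorem -/
lemma ixI_fubini (t : F) (A : Finset ℕ) (h : ℕ → ℕ → F)
    (hinv : ∀ σ : Equiv.Perm ℕ, (∀ x ∈ A, σ x = x) → ∀ a b, h (σ a) (σ b) = h a b) :
    ixI t (fun a => ixI t (fun b => h a b)) = ixI t (fun b => ixI t (fun a => h a b)) := by
  obtain ⟨u, hu⟩ := Infinite.exists_notMem_finset A
  obtain ⟨v, hv⟩ := Infinite.exists_notMem_finset (insert u A)
  have hvu : v ≠ u := fun e => hv (by simp [e])
  have hvA : v ∉ A := fun e => hv (by simp [e])
  -- swaps of two points outside A
  have hsw : ∀ a b, a ∉ A → b ∉ A → ∀ x ∈ A, Equiv.swap a b x = x := by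
    intro a b ha hb x hx
    exact Equiv.swap_apply_of_ne_of_ne (fun e => ha (e ▸ hx)) (fun e => hb (e ▸ hx))
  -- the key computation, applied to h and to its transpose
  have key : ∀ k : ℕ → ℕ → F,
      (∀ σ : Equiv.Perm ℕ, (∀ x ∈ A, σ x = x) → ∀ a b, k (σ a) (σ b) = k a b) →
      ixI t (fun a => ixI t (fun b => k a b)) =
        ∑ a ∈ A, (∑ b ∈ A, k a b + (t - A.card) * k a u) +
          (t - A.card) * (∑ b ∈ A, k u b + k u u + (t - A.card - 1) * k u v) := by
    intro k hk
    have h1 : ∀ a ∈ A, ixI t (fun b => k a b) = ∑ b ∈ A, k a b + (t - A.card) * k a u := by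
      intro a ha
      apply ixI_eq
      intro b hb
      have := hk (Equiv.swap u b) (hsw u b hu hb) a u
      rw [hsw u b hu hb a ha, Equiv.swap_apply_left] at this
      exact this
    have h2 : ixI t (fun b => k u b) =
        ∑ b ∈ A, k u b + k u u + (t - A.card - 1) * k u v := by
      rw [ixI_eq t (insert u A) (k u v)]
      · rw [Finset.sum_insert hu, Finset.card_insert_of_notMem hu]
        push_cast
        ring
      · intro b hb
        have hbu : b ≠ u := fun e => hb (by simp [e])
        have hbA : b ∉ A := fun e => hb (by simp [e])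
        have := hk (Equiv.swap v b) (hsw v b hvA hbA) u v
        rw [Equiv.swap_apply_of_ne_of_ne hvu.symm hbu.symm, Equiv.swap_apply_left] at this
        exact this
    have h3 : ∀ a, a ∉ A → ixI t (fun b => k a b) = ixI t (fun b => k u b) := by
      intro a ha
      have hec : IxEC (fun b => k a b) := by
        refine ⟨insert a A, k a (if a = u then v else u), ?_⟩
        intro b hb
        have hba : b ≠ a := fun e => hb (by simp [e])
        have hbA : b ∉ A := fun e => hb (by simp [e])
        by_cases hau : a = u
        · rw [if_pos hau]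
          have := hk (Equiv.swap v b) (hsw v b hvA hbA) a v
          rw [Equiv.swap_apply_of_ne_of_ne (by rw [hau]; exact hvu.symm) hba.symm,
            Equiv.swap_apply_left] at this
          exact this
        · rw [if_neg hau]
          have := hk (Equiv.swap u b) (hsw u b hu hbA) a u
          rw [Equiv.swap_apply_of_ne_of_ne hau hba.symm, Equiv.swap_apply_left] at this
          exact this
      rw [← ixI_perm t (Equiv.swap u a) hec]
      congr 1
      funext b
      have := hk (Equiv.swap u a) (hsw u a hu ha) u b
      rw [Equiv.swap_apply_left] at this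
      exact this
    rw [ixI_eq t A (ixI t (fun b => k u b)) h3, h2, Finset.sum_congr rfl h1]
  rw [key h hinv, key (fun b a => h a b) (fun σ hσ a b => hinv σ hσ b a)]
  have huv : h u v = h v u := by
    have := hinv (Equiv.swap u v) (hsw u v hu hvA) u v
    rw [Equiv.swap_apply_left, Equiv.swap_apply_right] at this
    exact this.symm
  rw [huv]
  simp only [Finset.sum_add_distrib, ← Finset.mul_sum]
  rw [Finset.sum_comm]
  ring

end IntExAux

section IntExMulti

variable {F : Type} [Field F] {J : Type} [DecidableEq J]

lemma ix_comp_update (σ : ℕ → ℕ) (y : J → ℕ) (j : J) (x : ℕ) :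
    σ ∘ update y j x = update (σ ∘ y) j (σ x) := by
  rw [comp_update]

/-- the integral over one of the variables -/
noncomputable def ixJ (t : F) (j : J) (g : (J → ℕ) → F) : (J → ℕ) → F :=
  fun y => ixI t (fun x => g (update y j x))

omit [Field F] in
lemma ix_ec [Finite J] {N : ℕ} {g : (J → ℕ) → F} (hg : Sm N g) (j : J) (y : J → ℕ) :
    IxEC (fun x => g (update y j x)) := by
  classical
  have := Fintype.ofFinite J
  set A : Finset ℕ := Finset.range N ∪ Finset.univ.image y with hA
  obtain ⟨u, hu⟩ := Infinite.exists_notMem_finset A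
  refine ⟨A, g (update y j u), ?_⟩
  intro x hx
  have h1 : ∀ n ∈ A, Equiv.swap u x n = n := fun n hn =>
    Equiv.swap_apply_of_ne_of_ne (fun e => hu (e ▸ hn)) (fun e => hx (e ▸ hn))
  have h2 : (Equiv.swap u x : ℕ → ℕ) ∘ y = y := by
    funext i
    exact h1 _ (by simp [hA])
  have := hg (Equiv.swap u x) (fun n hn => h1 n (by simp [hA, hn])) (update y j u)
  rw [ix_comp_update, h2, Equiv.swap_apply_left] at this
  exact this

lemma ixJ_sm [Finite J] (t : F) (j : J) {N : ℕ} {g : (J → ℕ) → F} (hg : Sm N g) :
    Sm N (ixJ t j g) := by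
  intro σ hσ y
  unfold ixJ
  rw [← ixI_perm t σ (ix_ec hg j (σ ∘ y))]
  congr 1
  funext x
  rw [← ix_comp_update, hg σ hσ]

lemma ixJ_comm [Finite J] (t : F) (i j : J) {N : ℕ} {g : (J → ℕ) → F} (hg : Sm N g) :
    ixJ t i (ixJ t j g) = ixJ t j (ixJ t i g) := by
  classical
  have := Fintype.ofFinite J
  by_cases hij : i = j
  · rw [hij]
  funext y
  unfold ixJ
  set A : Finset ℕ := Finset.range N ∪ Finset.univ.image y with hA
  have := ixI_fubini t A (fun a b => g (update (update y i a) j b)) ?_
  · rw [this]
    congr 1
    funext b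
    congr 1
    funext a
    rw [update_comm (Ne.symm hij)]
  · intro σ hσ a b
    have h2 : (σ : ℕ → ℕ) ∘ y = y := by
      funext i
      exact hσ _ (by simp [hA])
    have := hg σ (fun n hn => hσ n (by simp [hA, hn])) (update (update y i a) j b)
    rw [ix_comp_update, ix_comp_update, h2] at this
    exact this

/-- the iterated integral over the variables in a list -/
noncomputable def ixM (t : F) (l : List J) (g : (J → ℕ) → F) : (J → ℕ) → F :=
  l.foldr (fun j f => ixJ t j f) g

@[simp] lemma ixM_nil (t : F) (g : (J → ℕ) → F) : ixM t [] g = g := rfl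

@[simp] lemma ixM_cons (t : F) (j : J) (l : List J) (g : (J → ℕ) → F) :
    ixM t (j :: l) g = ixJ t j (ixM t l g) := rfl

lemma ixM_append (t : F) (l l' : List J) (g : (J → ℕ) → F) :
    ixM t (l ++ l') g = ixM t l (ixM t l' g) := by
  unfold ixM
  rw [List.foldr_append]

lemma ixM_sm [Finite J] (t : F) (l : List J) {N : ℕ} {g : (J → ℕ) → F} (hg : Sm N g) :
    Sm N (ixM t l g) := by
  induction l with
  | nil => exact hg
  | cons j l ih => exact ixJ_sm t j ih

lemma ixM_perm_list [Finite J] (t : F) {l l' : List J} (h : l.Perm l') {N : ℕ}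
    {g : (J → ℕ) → F} (hg : Sm N g) : ixM t l g = ixM t l' g := by
  induction h with
  | nil => rfl
  | cons x _ ih => rw [ixM_cons, ixM_cons, ih]
  | swap x y l =>
    simp only [ixM_cons]
    exact ixJ_comm t y x (ixM_sm t l hg)
  | trans _ _ ih1 ih2 => rw [ih1, ih2]

lemma ixM_add [Finite J] (t : F) (l : List J) {N : ℕ} {f g : (J → ℕ) → F} (hf : Sm N f)
    (hg : Sm N g) (y : J → ℕ) :
    ixM t l (fun y => f y + g y) y = ixM t l f y + ixM t l g y := by
  induction l generalizing y with
  | nil => rfl
  | cons j l ih =>
    simp only [ixM_cons]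
    unfold ixJ
    rw [← ixI_add t (ix_ec (ixM_sm t l hf) j y) (ix_ec (ixM_sm t l hg) j y)]
    congr 1
    funext x
    exact ih _

lemma ixM_smul [Finite J] (t : F) (l : List J) {N : ℕ} (c : F) {f : (J → ℕ) → F} (hf : Sm N f)
    (y : J → ℕ) :
    ixM t l (fun y => c * f y) y = c * ixM t l f y := by
  induction l generalizing y with
  | nil => rfl
  | cons j l ih =>
    simp only [ixM_cons]
    unfold ixJ
    rw [← ixI_smul t c (ix_ec (ixM_sm t l hf) j y)]
    congr 1
    funext x
    exact ih _

lemma ixM_perm [Finite J] (t : F) (l : List J) {N : ℕ} {f : (J → ℕ) → F} (hf : Sm N f)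
    (σ : Equiv.Perm ℕ) (y : J → ℕ) :
    ixM t l (fun y => f (σ ∘ y)) y = ixM t l f (σ ∘ y) := by
  induction l generalizing y with
  | nil => rfl
  | cons j l ih =>
    simp only [ixM_cons]
    unfold ixJ
    rw [← ixI_perm t σ (ix_ec (ixM_sm t l hf) j (σ ∘ y))]
    congr 1
    funext x
    rw [ih, ix_comp_update]

lemma ixM_update (t : F) (l : List J) (f : (J → ℕ) → F) (j : J) (hj : j ∈ l) (y : J → ℕ)
    (v : ℕ) : ixM t l f (update y j v) = ixM t l f y := by
  induction l generalizing y with
  | nil => simp at hj
  | cons i l ih =>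
    simp only [ixM_cons]
    unfold ixJ
    congr 1
    funext x
    by_cases hij : i = j
    · subst hij
      rw [update_idem]
    · have hj' : j ∈ l := by
        rcases List.mem_cons.1 hj with h | h
        · exact absurd h.symm hij
        · exact h
      rw [update_comm (fun e => hij e.symm), ih hj']

lemma ixM_congr [Finite J] (t : F) (l : List J) (f : (J → ℕ) → F) (y z : J → ℕ)
    (h : ∀ j, j ∉ l → y j = z j) : ixM t l f y = ixM t l f z := by
  classical
  have := Fintype.ofFinite J
  -- change the coordinates one by one
  have key : ∀ s : Finset J, (∀ j ∈ s, j ∈ l) →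
      ixM t l f (fun j => if j ∈ s then z j else y j) = ixM t l f y := by
    intro s
    induction s using Finset.induction_on with
    | empty => intro _; simp
    | insert a s ha ih =>
      intro hs
      rw [← ih (fun j hj => hs j (Finset.mem_insert_of_mem hj)),
        ← ixM_update t l f a (hs a (Finset.mem_insert_self a s))
          (fun j => if j ∈ s then z j else y j) (z a)]
      congr 1
      funext j
      by_cases hja : j = a
      · subst hja
        simp
      · rw [update_of_ne hja]
        simp [hja]
  rw [← key l.toFinset (fun j hj => by simpa using hj)]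
  congr 1
  funext j
  by_cases hj : j ∈ l
  · simp [hj]
  · simp [hj, h j hj]

end IntExMulti

section IntExFinal

variable {F : Type} [Field F]

open Classical in
/-- the integral over all variables -/
noncomputable def ixInt (t : F) (J : Type) [Finite J] (f : (J → ℕ) → F) : F :=
  letI := Fintype.ofFinite J
  ixM t (Finset.univ : Finset J).toList f (fun _ => 0)

open Classical in
lemma ixInt_eq (t : F) {J : Type} [Finite J] [inst : DecidableEq J] {N : ℕ}
    {f : (J → ℕ) → F} (hf : Sm N f)
    (l : List J) (hl : l.Nodup) (hl2 : ∀ j, j ∈ l) (y : J → ℕ) :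
    ixInt t J f = ixM t l f y := by
  have hinst : inst = fun a b => Classical.propDecidable (a = b) := Subsingleton.elim _ _
  subst hinst
  letI := Fintype.ofFinite J
  have h1 : (Finset.univ : Finset J).toList.Perm l := by
    rw [List.perm_ext_iff_of_nodup (Finset.nodup_toList _) hl]
    intro j
    simp [hl2 j]
  have h2 : ixInt t J f = ixM t (Finset.univ : Finset J).toList f (fun _ => 0) := rfl
  rw [h2, ixM_perm_list t h1 hf]
  exact ixM_congr t l f _ _ (fun j hj => absurd (hl2 j) hj)

open Classical in
lemma ixM_equiv (t : F) {J L : Type} (e : J ≃ L) (f : (L → ℕ) → F) (l : List J) (y : J → ℕ) :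
    ixM t l (fun y => f (y ∘ e.symm)) y = ixM t (l.map e) f (y ∘ e.symm) := by
  induction l generalizing y with
  | nil => rfl
  | cons j l ih =>
    simp only [ixM_cons, List.map_cons]
    unfold ixJ
    congr 1
    funext x
    rw [ih]
    congr 1
    funext i
    by_cases h : i = e j
    · subst h
      simp
    · have : e.symm i ≠ j := fun h' => h (by rw [← h']; simp)
      simp [update_of_ne h, update_of_ne this]

open Classical in
lemma ixM_inr (t : F) {J L : Type} (f : (J ⊕ L → ℕ) → F) (l : List L) (y : J → ℕ) (z : L → ℕ) :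
    ixM t l (fun z => f (Sum.elim y z)) z = ixM t (l.map Sum.inr) f (Sum.elim y z) := by
  induction l generalizing z with
  | nil => rfl
  | cons j l ih =>
    simp only [ixM_cons, List.map_cons]
    unfold ixJ
    congr 1
    funext x
    rw [ih, Sum.update_elim_inr]

open Classical in
lemma ixM_inl (t : F) {J L : Type} (f : (J ⊕ L → ℕ) → F) (l : List J) (y : J → ℕ) (z : L → ℕ) :
    ixM t l (fun y => f (Sum.elim y z)) y = ixM t (l.map Sum.inl) f (Sum.elim y z) := by
  induction l generalizing y with
  | nil => rfl
  | cons j l ih =>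
    simp only [ixM_cons, List.map_cons]
    unfold ixJ
    congr 1
    funext x
    rw [ih, Sum.update_elim_inl]

open Classical in
/-- the integral of the characteristic function of an orbit does not vanish -/
lemma ixM_orbit (t : F) (ht : ∀ n : ℕ, t ≠ n) {J : Type} [Finite J] {N : ℕ} (x : J → ℕ)
    {f : (J → ℕ) → F} (hf : Sm N f) (hx : f x ≠ 0)
    (ho : ∀ y : J → ℕ, f y ≠ 0 → ∃ σ : Equiv.Perm ℕ, (∀ n < N, σ n = n) ∧ y = σ ∘ x)
    (l : List J) (hl : l.Nodup) :
    (∀ y : J → ℕ, ixM t l f y ≠ 0 → ∃ σ : Equiv.Perm ℕ, (∀ n < N, σ n = n) ∧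
      ∀ j, j ∉ l → y j = σ (x j)) ∧ ixM t l f x ≠ 0 := by
  letI := Fintype.ofFinite J
  induction l with
  | nil =>
    refine ⟨?_, hx⟩
    intro y hy
    obtain ⟨σ, hσ, h⟩ := ho y hy
    exact ⟨σ, hσ, fun j _ => by rw [h]; rfl⟩
  | cons j l ih =>
    obtain ⟨hj, hl'⟩ := List.nodup_cons.1 hl
    obtain ⟨ih1, ih2⟩ := ih hl'
    have hsm := ixM_sm t l hf
    constructor
    · intro y hy
      by_contra hcon
      apply hy
      rw [ixM_cons]
      unfold ixJ
      have hz : (fun a => ixM t l f (update y j a)) = fun _ => (0 : F) := by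
        funext a
        by_contra hne
        obtain ⟨σ, hσ, h⟩ := ih1 _ hne
        apply hcon
        refine ⟨σ, hσ, fun i hi => ?_⟩
        rw [List.mem_cons, not_or] at hi
        have := h i hi.2
        rwa [update_of_ne hi.1] at this
      rw [hz, ixI_eq t ∅ 0 (fun _ _ => rfl)]
      simp
    · rw [ixM_cons]
      unfold ixJ
      set A : Finset ℕ := Finset.range N ∪
        (Finset.univ.filter (fun i => i ≠ j ∧ i ∉ l)).image x with hA
      have hA1 : ∀ n < N, n ∈ A := fun n hn => by simp [hA, hn]
      have hA2 : ∀ i, i ≠ j → i ∉ l → x i ∈ A := fun i h1 h2 => by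
        rw [hA]
        exact Finset.mem_union_right _ (Finset.mem_image.2 ⟨i, by simp [h1, h2], rfl⟩)
      by_cases hxj : x j ∈ A
      · -- only a = x j contributes
        have h0 : ∀ a, a ∉ ({x j} : Finset ℕ) → ixM t l f (update x j a) = 0 := by
          intro a ha
          by_contra hne
          obtain ⟨σ, hσ, h⟩ := ih1 _ hne
          have haj : a = σ (x j) := by
            have := h j hj
            rwa [update_self] at this
          have hfix : σ (x j) = x j := by
            rw [hA, Finset.mem_union] at hxj
            rcases hxj with h' | h'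
            · exact hσ _ (Finset.mem_range.1 h')
            · obtain ⟨i, hi, hi2⟩ := Finset.mem_image.1 h'
              simp only [Finset.mem_filter, Finset.mem_univ, true_and] at hi
              have := h i hi.2
              rw [update_of_ne hi.1] at this
              rw [← hi2, ← this]
          apply ha
          rw [Finset.mem_singleton, haj, hfix]
        rw [ixI_eq t {x j} 0 h0]
        simpa using ih2
      · have h1 : ∀ a, a ∉ A → ixM t l f (update x j a) = ixM t l f x := by
          intro a ha
          have hsw : ∀ n ∈ A, Equiv.swap a (x j) n = n := fun n hn =>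
            Equiv.swap_apply_of_ne_of_ne (fun e => ha (e ▸ hn)) (fun e => hxj (e ▸ hn))
          rw [← hsm (Equiv.swap a (x j)) (fun n hn => hsw n (hA1 n hn))]
          apply ixM_congr
          intro i hi
          by_cases hij : i = j
          · subst hij
            simp
          · simp only [comp_apply, update_of_ne hij]
            exact hsw _ (hA2 i hij hi)
        have h2 : ∀ a ∈ A, ixM t l f (update x j a) = 0 := by
          intro a ha
          by_contra hne
          obtain ⟨σ, hσ, h⟩ := ih1 _ hne
          have haj : a = σ (x j) := by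
            have := h j hj
            rwa [update_self] at this
          have hfix : σ a = a := by
            rw [hA, Finset.mem_union] at ha
            rcases ha with h' | h'
            · exact hσ _ (Finset.mem_range.1 h')
            · obtain ⟨i, hi, hi2⟩ := Finset.mem_image.1 h'
              simp only [Finset.mem_filter, Finset.mem_univ, true_and] at hi
              have := h i hi.2
              rw [update_of_ne hi.1] at this
              rw [← hi2, ← this]
          have : a = x j := by
            apply σ.injective
            rw [hfix, haj]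
          exact hxj (this ▸ ha)
        rw [ixI_eq t A _ h1, Finset.sum_eq_zero h2, zero_add]
        exact mul_ne_zero (sub_ne_zero.2 (ht _)) ih2

open Classical in
lemma ixM_delta (t : F) {J : Type} [Finite J] (x : J → ℕ) (f : (J → ℕ) → F)
    (h0 : ∀ y, y ≠ x → f y = 0) (l : List J) (hl : l.Nodup) (y : J → ℕ) :
    ixM t l f y = if (∀ j, j ∉ l → y j = x j) then f x else 0 := by
  induction l generalizing y with
  | nil =>
    by_cases h : y = x
    · subst h
      simp
    · have : ¬ ∀ j, y j = x j := fun h' => h (funext h')
      simp [this, h0 y h]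
  | cons j l ih =>
    obtain ⟨hj, hl'⟩ := List.nodup_cons.1 hl
    rw [ixM_cons]
    unfold ixJ
    rw [ixI_eq t {x j} 0]
    · simp only [Finset.sum_singleton, mul_zero, add_zero]
      rw [ih hl']
      congr 1
      apply propext
      constructor
      · intro h i hi
        rw [List.mem_cons, not_or] at hi
        have := h i hi.2
        rwa [update_of_ne hi.1] at this
      · intro h i hi
        by_cases hij : i = j
        · subst hij
          simp
        · rw [update_of_ne hij]
          exact h i (by rw [List.mem_cons, not_or]; exact ⟨hij, hi⟩)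
    · intro a ha
      rw [ih hl', if_neg]
      intro h
      apply ha
      have := h j hj
      rw [update_self] at this
      rw [Finset.mem_singleton, this]

/-- Integrals exist as soon as t is not a natural number. -/
theorem exists_integral' (F : Type) [Field F] (t : F) (ht : ∀ n : ℕ, t ≠ n) :
    Nonempty (Integral F) := by
  classical
  refine ⟨{
    int := fun J _ f => ixInt t J f
    add := ?_
    smul := ?_
    empty := ?_
    reindex := ?_
    fubini := ?_
    perm := ?_
    delta := ?_
    orbit_ne_zero := ?_ }⟩
  · intro J _ N f g hf hg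
    exact ixM_add t _ hf hg _
  · intro J _ N c f hf
    exact ixM_smul t _ c hf _
  · intro J _ _ f
    have h : Sm 0 f := fun σ _ y => by rw [Subsingleton.elim (σ ∘ y) y]
    rw [ixInt_eq t h [] List.nodup_nil (fun j => isEmptyElim j) isEmptyElim]
    rfl
  · intro J L _ _ e N f hf
    letI := Fintype.ofFinite J
    have h1 : Sm N (fun y : J → ℕ => f (y ∘ e.symm)) := fun σ hσ y => hf σ hσ (y ∘ e.symm)
    have hn : (Finset.univ : Finset J).toList.Nodup := Finset.nodup_toList _
    rw [ixInt_eq t h1 (Finset.univ : Finset J).toList hn (fun j => by simp) (fun _ => 0),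
      ixInt_eq t hf ((Finset.univ : Finset J).toList.map e)
        (hn.map e.injective) (fun j => ?_) ((fun _ => 0) ∘ e.symm)]
    · exact ixM_equiv t e f _ _
    · rw [List.mem_map]
      exact ⟨e.symm j, by simp, by simp⟩
  · intro J L _ _ N f hf
    letI := Fintype.ofFinite J
    letI := Fintype.ofFinite L
    have hnJ : (Finset.univ : Finset J).toList.Nodup := Finset.nodup_toList _
    have hnL : (Finset.univ : Finset L).toList.Nodup := Finset.nodup_toList _
    have h1 : ∀ y : J → ℕ, ixInt t L (fun z => f (Sum.elim y z)) =
        ixM t ((Finset.univ : Finset L).toList.map Sum.inr) f (Sum.elim y (fun _ => 0)) := by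
      intro y
      exact ixM_inr t f _ y _
    have h2 : (fun y : J → ℕ => ixInt t L (fun z => f (Sum.elim y z))) = fun y =>
        ixM t ((Finset.univ : Finset L).toList.map Sum.inr) f (Sum.elim y (fun _ => 0)) := by
      funext y
      exact h1 y
    rw [h2]
    have h3 : ixInt t J (fun y => ixM t ((Finset.univ : Finset L).toList.map Sum.inr) f
        (Sum.elim y (fun _ => 0))) = ixM t ((Finset.univ : Finset J).toList.map Sum.inl)
        (ixM t ((Finset.univ : Finset L).toList.map Sum.inr) f)
        (Sum.elim (fun _ => 0) (fun _ => 0)) :=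
      ixM_inl t (ixM t ((Finset.univ : Finset L).toList.map Sum.inr) f) _ _ _
    rw [h3, ← ixM_append]
    symm
    apply ixInt_eq t hf
    · rw [List.nodup_append]
      refine ⟨hnJ.map Sum.inl_injective, hnL.map Sum.inr_injective, ?_⟩
      intro a ha b hb hab
      obtain ⟨j, _, hj⟩ := List.mem_map.1 ha
      obtain ⟨k, _, hk⟩ := List.mem_map.1 hb
      rw [← hj, ← hk] at hab
      exact absurd hab (by simp)
    · rintro (j | k)
      · simp
      · simp
  · intro J _ N f hf σ
    letI := Fintype.ofFinite J
    have h1 : ixInt t J (fun y => f (σ ∘ y)) =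
        ixM t (Finset.univ : Finset J).toList f (σ ∘ (fun _ => 0)) := ixM_perm t _ hf σ _
    rw [h1, ixInt_eq t hf (Finset.univ : Finset J).toList (Finset.nodup_toList _)
      (fun j => by simp) (σ ∘ (fun _ => 0))]
  · intro J _ N f hf x h0
    letI := Fintype.ofFinite J
    rw [ixInt_eq t hf (Finset.univ : Finset J).toList (Finset.nodup_toList _)
      (fun j => by simp) x, ixM_delta t x f h0 _ (Finset.nodup_toList _) x]
    simp
  · intro J _ N x f hf hx ho
    letI := Fintype.ofFinite J
    rw [ixInt_eq t hf (Finset.univ : Finset J).toList (Finset.nodup_toList _)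
      (fun j => by simp) x]
    exact (ixM_orbit t ht x hf hx ho _ (Finset.nodup_toList _)).2

end IntExFinal

end Pool.Agent.H939.TT
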