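import Pool.Agent.H939.TT.DCat

/-!
# The homotopy category of differential objects in characteristic two
-/

namespace Pool.Agent.H939.TT

open CategoryTheory CategoryTheory.Limits CategoryTheory.MonoidalCategory

universe v u v' u'

variable {C : Type u} [Category.{v} C] [Preadditive C]

/-- The group of null-homotopic morphisms. -/
def nullSub (A B : D C) : AddSubgroup (A ⟶ B) where
  carrier := {f | ∃ h : A.X ⟶ B.X, f.f = h ≫ B.d + A.d ≫ h}
  add_mem' := by
    rintro f g ⟨h, hh⟩ ⟨k, hk⟩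
    exact ⟨h + k, by simp [hh, hk]; abel⟩
  zero_mem' := ⟨0, by simp⟩
  neg_mem' := by
    rintro f ⟨h, hh⟩
    exact ⟨-h, by simp [hh]; abel⟩

lemma mem_nullSub {A B : D C} {f : A ⟶ B} :
    f ∈ nullSub A B ↔ ∃ h : A.X ⟶ B.X, f.f = h ≫ B.d + A.d ≫ h := Iff.rfl

lemma nullSub_comp {A B E : D C} {f : A ⟶ B} (hf : f ∈ nullSub A B) (g : B ⟶ E) :
    f ≫ g ∈ nullSub A E := by
  obtain ⟨h, hh⟩ := hf
  exact ⟨h ≫ g.f, by simp [hh, D.comm']⟩

lemma comp_nullSub {A B E : D C} (f : A ⟶ B) {g : B ⟶ E} (hg : g ∈ nullSub B E) :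
    f ≫ g ∈ nullSub A E := by
  obtain ⟨h, hh⟩ := hg
  exact ⟨f.f ≫ h, by simp [hh, D.comm'_assoc]⟩

/-- The homotopy category. -/
structure K (C : Type u) [Category.{v} C] [Preadditive C] where
  /-- the underlying differential object -/
  as : D C

namespace K

/-- morphisms up to homotopy -/
def Hom (A B : K C) : Type v := (A.as ⟶ B.as) ⧸ nullSub A.as B.as

instance (A B : K C) : AddCommGroup (Hom A B) :=
  inferInstanceAs (AddCommGroup ((A.as ⟶ B.as) ⧸ nullSub A.as B.as))

/-- the class of a morphism -/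
def cls {A B : D C} : (A ⟶ B) →+ Hom (⟨A⟩ : K C) ⟨B⟩ := QuotientAddGroup.mk' _

lemma cls_surjective {A B : D C} : Function.Surjective (cls (A := A) (B := B)) :=
  QuotientAddGroup.mk'_surjective _

lemma cls_eq_zero {A B : D C} {f : A ⟶ B} : cls f = 0 ↔ f ∈ nullSub A B :=
  QuotientAddGroup.eq_zero_iff _

lemma cls_eq {A B : D C} {f g : A ⟶ B} : cls f = cls g ↔ f - g ∈ nullSub A B := by
  rw [← sub_eq_zero, ← map_sub, cls_eq_zero]

/-- composition -/
def comp {A B E : K C} : Hom A B →+ Hom B E →+ Hom A E :=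
  QuotientAddGroup.lift _
    (AddMonoidHom.mk' (fun f => QuotientAddGroup.lift _
      (AddMonoidHom.mk' (fun g => cls (f ≫ g)) (fun g g' => by rw [Preadditive.comp_add, map_add]))
      (fun g hg => cls_eq_zero.2 (comp_nullSub f hg)))
      (fun f f' => by
        refine AddMonoidHom.ext fun g => ?_
        obtain ⟨g, rfl⟩ := cls_surjective g
        exact (congrArg cls (Preadditive.add_comp _ _ _ f f' g)).trans (map_add _ _ _)))
    (fun f hf => by
      refine AddMonoidHom.ext fun g => ?_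
      obtain ⟨g, rfl⟩ := cls_surjective g
      exact cls_eq_zero.2 (nullSub_comp hf g))

lemma comp_cls {A B E : D C} (f : A ⟶ B) (g : B ⟶ E) :
    comp (cls f) (cls g) = cls (f ≫ g) := rfl

instance : Category (K C) where
  Hom A B := Hom A B
  id A := cls (𝟙 A.as)
  comp f g := comp f g
  id_comp := by
    rintro ⟨A⟩ ⟨B⟩ f
    obtain ⟨f, rfl⟩ := cls_surjective f
    rw [comp_cls, Category.id_comp]
  comp_id := by
    rintro ⟨A⟩ ⟨B⟩ f
    obtain ⟨f, rfl⟩ := cls_surjective f
    rw [comp_cls, Category.comp_id]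
  assoc := by
    rintro ⟨A⟩ ⟨B⟩ ⟨E⟩ ⟨G⟩ f g h
    obtain ⟨f, rfl⟩ := cls_surjective f
    obtain ⟨g, rfl⟩ := cls_surjective g
    obtain ⟨h, rfl⟩ := cls_surjective h
    simp only [comp_cls, Category.assoc]

instance (A B : K C) : AddCommGroup (A ⟶ B) := inferInstanceAs (AddCommGroup (Hom A B))

instance : Preadditive (K C) where
  add_comp A B E f g h := by
    exact (congrArg (fun u => u h) (map_add (comp (A := A) (B := B) (E := E)) f g))
  comp_add A B E f g h := by
    exact map_add (comp (A := A) (B := B) (E := E) f) g h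

end K

/-- The quotient functor. -/
def Q (C : Type u) [Category.{v} C] [Preadditive C] : D C ⥤ K C where
  obj A := ⟨A⟩
  map f := K.cls f
  map_id _ := rfl
  map_comp _ _ := rfl

@[simp] lemma Q_obj (A : D C) : (Q C).obj A = ⟨A⟩ := rfl

@[simp] lemma Q_obj_as (A : K C) : (Q C).obj A.as = A := rfl

instance : (Q C).Additive where
  map_add := rfl

instance : (Q C).Full where
  map_surjective f := K.cls_surjective f

instance : (Q C).EssSurj where
  mem_essImage A := ⟨A.as, ⟨Iso.refl _⟩⟩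

lemma K.exists_rep (A : K C) : ∃ A' : D C, A = (Q C).obj A' := ⟨A.as, rfl⟩

lemma Q_map_surjective {A B : D C} (f : (Q C).obj A ⟶ (Q C).obj B) :
    ∃ g : A ⟶ B, f = (Q C).map g := by
  obtain ⟨g, hg⟩ := K.cls_surjective (A := A) (B := B) f
  exact ⟨g, hg.symm⟩

lemma Q_map_eq_zero {A B : D C} {f : A ⟶ B} :
    (Q C).map f = 0 ↔ ∃ h : A.X ⟶ B.X, f.f = h ≫ B.d + A.d ≫ h := K.cls_eq_zero

lemma Q_map_eq {A B : D C} {f g : A ⟶ B} :
    (Q C).map f = (Q C).map g ↔ ∃ h : A.X ⟶ B.X, f.f - g.f = h ≫ B.d + A.d ≫ h := K.cls_eq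

instance [CharTwo C] : CharTwo (K C) where
  add_self {A B} f := by
    obtain ⟨A, rfl⟩ := A.exists_rep
    obtain ⟨B, rfl⟩ := B.exists_rep
    obtain ⟨g, rfl⟩ := Q_map_surjective f
    rw [← Functor.map_add, add_self', Functor.map_zero]

open ZeroObject in
instance [HasZeroObject C] : HasZeroObject (K C) where
  zero := ⟨(Q C).obj 0, by
    rw [IsZero.iff_id_eq_zero, ← CategoryTheory.Functor.map_id, (isZero_zero (D C)).eq_of_src (𝟙 0) 0,
      Functor.map_zero]⟩

/-- an object of `K C` is zero if and only if the identity is null-homotopic -/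
lemma K.isZero_iff {A : D C} : IsZero ((Q C).obj A) ↔ ∃ h : A.X ⟶ A.X, 𝟙 A.X = h ≫ A.d + A.d ≫ h := by
  rw [IsZero.iff_id_eq_zero, ← CategoryTheory.Functor.map_id, Q_map_eq_zero]; rfl

section Monoidal

variable [CharTwo C] [MonoidalCategory C] [MonoidalPreadditive C]

lemma nullSub_whiskerLeft (A : D C) {B B' : D C} {f : B ⟶ B'} (hf : f ∈ nullSub B B') :
    A ◁ f ∈ nullSub (A ⊗ B) (A ⊗ B') := by
  obtain ⟨h, hh⟩ := hf
  refine ⟨A.X ◁ h, ?_⟩
  simp only [D.whiskerLeft_f, hh, D.tensor_d, Preadditive.comp_add, Preadditive.add_comp,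
    MonoidalPreadditive.whiskerLeft_add, MonoidalCategory.whiskerLeft_comp, whisker_exchange]
  try simp only [sub_eq', neg_eq']
  rw [← sub_eq_zero, sub_eq']
  abel_nf
  try simp only [two_zsmul', two_nsmul', four_zsmul', four_nsmul', add_zero, zero_add]

lemma nullSub_whiskerRight {A A' : D C} {f : A ⟶ A'} (hf : f ∈ nullSub A A') (B : D C) :
    f ▷ B ∈ nullSub (A ⊗ B) (A' ⊗ B) := by
  obtain ⟨h, hh⟩ := hf
  refine ⟨h ▷ B.X, ?_⟩
  simp only [D.whiskerRight_f, hh, D.tensor_d, Preadditive.comp_add, Preadditive.add_comp,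
    MonoidalPreadditive.add_whiskerRight, comp_whiskerRight, whisker_exchange]
  try simp only [sub_eq', neg_eq']
  rw [← sub_eq_zero, sub_eq']
  abel_nf
  try simp only [two_zsmul', two_nsmul', four_zsmul', four_nsmul', add_zero, zero_add]

end Monoidal

end Pool.Agent.H939.TT
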