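import Pool.Agent.H939.TT.KTensor

/-!
# Functoriality of the homotopy category
-/

namespace Pool.Agent.H939.TT

open CategoryTheory CategoryTheory.Limits CategoryTheory.MonoidalCategory
open CategoryTheory.Pretriangulated

universe v u v' u'

variable {C : Type u} [Category.{v} C] [Preadditive C]
  {C' : Type u'} [Category.{v'} C'] [Preadditive C'] (F : C ⥤ C') [F.Additive]

/-- The functor on differential objects. -/
@[simps] def D.mapF : D C ⥤ D C' where
  obj A := { X := F.obj A.X, d := F.map A.d, d2 := by rw [← F.map_comp, A.d2, F.map_zero] }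
  map f := { f := F.map f.f, comm := by
              simp only [← F.map_comp, D.comm'] }

instance : (D.mapF F).Additive where
  map_add := D.hom_ext _ _ (F.map_add)

lemma mapF_nullSub {A B : D C} {f : A ⟶ B} (hf : f ∈ nullSub A B) :
    (D.mapF F).map f ∈ nullSub ((D.mapF F).obj A) ((D.mapF F).obj B) := by
  obtain ⟨h, hh⟩ := hf
  exact ⟨F.map h, by simp only [D.mapF_map_f, hh, F.map_add, F.map_comp]; rfl⟩

/-- The functor on homotopy categories. -/
def K.mapF : K C ⥤ K C' where
  obj A := ⟨(D.mapF F).obj A.as⟩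
  map {A B} := QuotientAddGroup.lift _
    (AddMonoidHom.mk' (fun f : A.as ⟶ B.as => (Q C').map ((D.mapF F).map f)) (fun f g => by
      exact (congrArg (Q C').map ((D.mapF F).map_add (f := f) (g := g))).trans ((Q C').map_add)))
    (fun f hf => K.cls_eq_zero.2 (mapF_nullSub F hf))
  map_id A := by
    obtain ⟨A, rfl⟩ := A.exists_rep
    exact (congrArg (Q C').map ((D.mapF F).map_id A)).trans ((Q C').map_id _)
  map_comp {A B E} f g := by
    obtain ⟨A, rfl⟩ := A.exists_rep
    obtain ⟨B, rfl⟩ := B.exists_rep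
    obtain ⟨E, rfl⟩ := E.exists_rep
    obtain ⟨f, rfl⟩ := Q_map_surjective f
    obtain ⟨g, rfl⟩ := Q_map_surjective g
    exact (congrArg (Q C').map ((D.mapF F).map_comp f g)).trans ((Q C').map_comp _ _)

@[simp] lemma K.mapF_obj (A : D C) : (K.mapF F).obj ((Q C).obj A) = (Q C').obj ((D.mapF F).obj A) :=
  rfl

@[simp] lemma K.mapF_map {A B : D C} (f : A ⟶ B) :
    (K.mapF F).map ((Q C).map f) = (Q C').map ((D.mapF F).map f) := rfl

instance : (K.mapF F).Additive where
  map_add {A B f g} := by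
    obtain ⟨A, rfl⟩ := A.exists_rep
    obtain ⟨B, rfl⟩ := B.exists_rep
    obtain ⟨f, rfl⟩ := Q_map_surjective f
    obtain ⟨g, rfl⟩ := Q_map_surjective g
    exact (congrArg (Q C').map ((D.mapF F).map_add (f := f) (g := g))).trans ((Q C').map_add)

section Triangulated

variable [HasBinaryBiproducts C] [CharTwo C] [HasZeroObject C]
  [HasBinaryBiproducts C'] [CharTwo C'] [HasZeroObject C']

noncomputable instance : (K.mapF F).CommShift ℤ := trivCommShift _

instance KFun_preservesBinaryBiproducts : PreservesBinaryBiproducts F :=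
  preservesBinaryBiproducts_of_preservesBiproducts F

lemma KFun_aux_inl (X Y : C) : F.map (biprod.inl : X ⟶ X ⊞ Y) ≫ (F.mapBiprod X Y).hom =
    biprod.inl := by
  rw [F.mapBiprod_hom]
  apply biprod.hom_ext
  · rw [Category.assoc, biprod.lift_fst, ← F.map_comp, biprod.inl_fst, F.map_id, biprod.inl_fst]
  · rw [Category.assoc, biprod.lift_snd, ← F.map_comp, biprod.inl_snd, F.map_zero,
      biprod.inl_snd]

lemma KFun_aux_inr (X Y : C) : F.map (biprod.inr : Y ⟶ X ⊞ Y) ≫ (F.mapBiprod X Y).hom =
    biprod.inr := by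
  rw [F.mapBiprod_hom]
  apply biprod.hom_ext
  · rw [Category.assoc, biprod.lift_fst, ← F.map_comp, biprod.inr_fst, F.map_zero,
      biprod.inr_fst]
  · rw [Category.assoc, biprod.lift_snd, ← F.map_comp, biprod.inr_snd, F.map_id, biprod.inr_snd]

lemma KFun_aux_fst (X Y : C) : (F.mapBiprod X Y).hom ≫ biprod.fst =
    F.map (biprod.fst : X ⊞ Y ⟶ X) := by
  rw [F.mapBiprod_hom, biprod.lift_fst]

lemma KFun_aux_snd (X Y : C) : (F.mapBiprod X Y).hom ≫ biprod.snd =
    F.map (biprod.snd : X ⊞ Y ⟶ Y) := by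
  rw [F.mapBiprod_hom, biprod.lift_snd]

lemma KFun_aux_lift {W X Y : C} (g : W ⟶ X) (h : W ⟶ Y) :
    F.map (biprod.lift g h) ≫ (F.mapBiprod X Y).hom = biprod.lift (F.map g) (F.map h) := by
  apply biprod.hom_ext
  · rw [Category.assoc, KFun_aux_fst, ← F.map_comp, biprod.lift_fst, biprod.lift_fst]
  · rw [Category.assoc, KFun_aux_snd, ← F.map_comp, biprod.lift_snd, biprod.lift_snd]

lemma KFun_aux_cone {X Y : C} (a : X ⟶ X) (g : X ⟶ Y) (b : Y ⟶ Y) :
    (F.mapBiprod X Y).hom ≫ biprod.desc (biprod.lift (F.map a) (F.map g))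
      (biprod.lift 0 (F.map b)) =
    F.map (biprod.desc (biprod.lift a g) (biprod.lift 0 b)) ≫ (F.mapBiprod X Y).hom := by
  have h1 : (F.mapBiprod X Y).inv ≫ F.map (biprod.desc (biprod.lift a g) (biprod.lift 0 b)) ≫
      (F.mapBiprod X Y).hom = biprod.desc (biprod.lift (F.map a) (F.map g))
      (biprod.lift 0 (F.map b)) := by
    apply biprod.hom_ext'
    · rw [biprod.inl_desc, ← KFun_aux_inl F X Y, Category.assoc, Iso.hom_inv_id_assoc,
        ← Category.assoc, ← F.map_comp, biprod.inl_desc, KFun_aux_lift]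
    · rw [biprod.inr_desc, ← KFun_aux_inr F X Y, Category.assoc, Iso.hom_inv_id_assoc,
        ← Category.assoc, ← F.map_comp, biprod.inr_desc, KFun_aux_lift, F.map_zero]
  rw [← h1, Iso.hom_inv_id_assoc]

/-- the functor commutes with the cones -/
noncomputable def D.mapConeIso {A B : D C} (f : A ⟶ B) :
    (D.mapF F).obj (D.cone f) ≅ D.cone ((D.mapF F).map f) :=
  D.mkIso (F.mapBiprod A.X B.X) (KFun_aux_cone F A.d f.f B.d)

lemma D.mapConeIso_inr {A B : D C} (f : A ⟶ B) :
    (D.mapF F).map (D.coneInr f) ≫ (D.mapConeIso F f).hom = D.coneInr ((D.mapF F).map f) :=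
  D.hom_ext _ _ (KFun_aux_inr F A.X B.X)

lemma D.mapConeIso_fst {A B : D C} (f : A ⟶ B) :
    (D.mapConeIso F f).hom ≫ D.coneFst ((D.mapF F).map f) = (D.mapF F).map (D.coneFst f) :=
  D.hom_ext _ _ (KFun_aux_fst F A.X B.X)

/-- the image of a cone triangle -/
noncomputable def K.mapConeTri {A B : D C} (f : A ⟶ B) :
    (K.mapF F).mapTriangle.obj (coneTri f) ≅ coneTri ((D.mapF F).map f) :=
  Triangle.isoMk _ _ (Iso.refl _) (Iso.refl _) ((Q C').mapIso (D.mapConeIso F f))
    (by
      show (Q C').map ((D.mapF F).map f) ≫ 𝟙 _ = 𝟙 _ ≫ (Q C').map ((D.mapF F).map f)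
      erw [Category.comp_id, Category.id_comp])
    (by
      show (Q C').map ((D.mapF F).map (D.coneInr f)) ≫ (Q C').map (D.mapConeIso F f).hom =
        𝟙 _ ≫ (Q C').map (D.coneInr ((D.mapF F).map f))
      rw [← (Q C').map_comp, D.mapConeIso_inr]
      erw [Category.id_comp])
    (by
      show ((Q C').map ((D.mapF F).map (D.coneFst f)) ≫ 𝟙 _) ≫ 𝟙 _ =
        (Q C').map (D.mapConeIso F f).hom ≫ (Q C').map (D.coneFst ((D.mapF F).map f))
      rw [← (Q C').map_comp, D.mapConeIso_fst]
      erw [Category.comp_id, Category.comp_id])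

instance : (K.mapF F).IsTriangulated where
  map_distinguished T hT := by
    rw [mem_distTriang_K] at hT ⊢
    obtain ⟨A, B, f, ⟨e⟩⟩ := hT
    exact ⟨_, _, (D.mapF F).map f, ⟨(K.mapF F).mapTriangle.mapIso e ≪≫ K.mapConeTri F f⟩⟩

end Triangulated

section Monoidal

open Functor.LaxMonoidal Functor.OplaxMonoidal Functor.Monoidal

variable [CharTwo C] [MonoidalCategory C] [MonoidalPreadditive C]
  [CharTwo C'] [MonoidalCategory C'] [MonoidalPreadditive C'] [F.Monoidal]

/-- the monoidal structure of the functor on differential objects -/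
noncomputable def D.mapFCore : (D.mapF F).CoreMonoidal where
  εIso := D.mkIso (εIso F) (by
    show (εIso F).hom ≫ F.map 0 = 0 ≫ (εIso F).hom
    rw [F.map_zero, comp_zero, zero_comp])
  μIso A B := D.mkIso (μIso F A.X B.X) (by
    show μ F A.X B.X ≫ F.map (A.d ▷ B.X + A.X ◁ B.d) =
      (F.map A.d ▷ F.obj B.X + F.obj A.X ◁ F.map B.d) ≫ μ F A.X B.X
    rw [F.map_add, Preadditive.comp_add, Preadditive.add_comp, μ_natural_left, μ_natural_right])
  μIso_hom_natural_left f X' := D.hom_ext _ _ (μ_natural_left (F := F) f.f X'.X)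
  μIso_hom_natural_right X' f := D.hom_ext _ _ (μ_natural_right (F := F) X'.X f.f)
  associativity A B E := D.hom_ext _ _ (Functor.LaxMonoidal.associativity (F := F) A.X B.X E.X)
  left_unitality A := D.hom_ext _ _ (Functor.LaxMonoidal.left_unitality (F := F) A.X)
  right_unitality A := D.hom_ext _ _ (Functor.LaxMonoidal.right_unitality (F := F) A.X)

noncomputable instance : (D.mapF F).Monoidal := (D.mapFCore F).toMonoidal

/-- the monoidal structure of the functor on homotopy categories -/
noncomputable def K.mapFCore : (K.mapF F).CoreMonoidal where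
  εIso := (Q C').mapIso (εIso (D.mapF F))
  μIso A B := (Q C').mapIso (μIso (D.mapF F) A.as B.as)
  μIso_hom_natural_left {A A'} f B := by
    obtain ⟨A, rfl⟩ := A.exists_rep
    obtain ⟨A', rfl⟩ := A'.exists_rep
    obtain ⟨B, rfl⟩ := B.exists_rep
    obtain ⟨f, rfl⟩ := Q_map_surjective f
    exact congrArg (Q C').map (μ_natural_left (F := D.mapF F) f B)
  μIso_hom_natural_right {A A'} B f := by
    obtain ⟨A, rfl⟩ := A.exists_rep
    obtain ⟨A', rfl⟩ := A'.exists_rep
    obtain ⟨B, rfl⟩ := B.exists_rep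
    obtain ⟨f, rfl⟩ := Q_map_surjective f
    exact congrArg (Q C').map (μ_natural_right (F := D.mapF F) B f)
  associativity A B E := by
    obtain ⟨A, rfl⟩ := A.exists_rep
    obtain ⟨B, rfl⟩ := B.exists_rep
    obtain ⟨E, rfl⟩ := E.exists_rep
    exact congrArg (Q C').map (Functor.LaxMonoidal.associativity (F := D.mapF F) A B E)
  left_unitality A := by
    obtain ⟨A, rfl⟩ := A.exists_rep
    exact congrArg (Q C').map (Functor.LaxMonoidal.left_unitality (F := D.mapF F) A)
  right_unitality A := by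
    obtain ⟨A, rfl⟩ := A.exists_rep
    exact congrArg (Q C').map (Functor.LaxMonoidal.right_unitality (F := D.mapF F) A)

noncomputable instance : (K.mapF F).Monoidal := (K.mapFCore F).toMonoidal

end Monoidal

section Braided

variable [CharTwo C] [MonoidalCategory C] [MonoidalPreadditive C] [SymmetricCategory C]
  [CharTwo C'] [MonoidalCategory C'] [MonoidalPreadditive C'] [SymmetricCategory C']
  [F.Braided]

noncomputable instance : (K.mapF F).Braided where
  braided A B := by
    obtain ⟨A, rfl⟩ := A.exists_rep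
    obtain ⟨B, rfl⟩ := B.exists_rep
    have h : Functor.LaxMonoidal.μ (D.mapF F) A B ≫ (D.mapF F).map (β_ A B).hom =
        (β_ ((D.mapF F).obj A) ((D.mapF F).obj B)).hom ≫ Functor.LaxMonoidal.μ (D.mapF F) B A :=
      D.hom_ext _ _ (Functor.LaxBraided.braided (F := F) A.X B.X)
    exact congrArg (Q C').map h

end Braided

end Pool.Agent.H939.TT
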