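import Pool.Agent.H939.TT.KCat

/-!
# The monoidal structure of the homotopy category; the trivial shift
-/

namespace Pool.Agent.H939.TT

open CategoryTheory CategoryTheory.Limits CategoryTheory.MonoidalCategory

universe v u v' u'

variable {C : Type u} [Category.{v} C] [Preadditive C]

section Monoidal

variable [CharTwo C] [MonoidalCategory C] [MonoidalPreadditive C]

namespace K

/-- whiskering on the left -/
def wl (A : K C) {B B' : K C} : (B ⟶ B') →+ ((⟨A.as ⊗ B.as⟩ : K C) ⟶ ⟨A.as ⊗ B'.as⟩) :=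
  QuotientAddGroup.lift _
    (AddMonoidHom.mk' (fun f : B.as ⟶ B'.as => (Q C).map (A.as ◁ f)) (fun f g => by
      exact (congrArg (Q C).map (MonoidalPreadditive.whiskerLeft_add f g)).trans
        ((Q C).map_add)))
    (fun f hf => K.cls_eq_zero.2 (nullSub_whiskerLeft A.as hf))

/-- whiskering on the right -/
def wr {A A' : K C} (B : K C) : (A ⟶ A') →+ ((⟨A.as ⊗ B.as⟩ : K C) ⟶ ⟨A'.as ⊗ B.as⟩) :=
  QuotientAddGroup.lift _
    (AddMonoidHom.mk' (fun f : A.as ⟶ A'.as => (Q C).map (f ▷ B.as)) (fun f g => by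
      exact (congrArg (Q C).map (MonoidalPreadditive.add_whiskerRight f g)).trans
        ((Q C).map_add)))
    (fun f hf => K.cls_eq_zero.2 (nullSub_whiskerRight hf B.as))

lemma wl_map (A : K C) {B B' : D C} (f : B ⟶ B') :
    wl A ((Q C).map f) = (Q C).map (A.as ◁ f) := rfl

lemma wr_map {A A' : D C} (f : A ⟶ A') (B : K C) :
    wr B ((Q C).map f) = (Q C).map (f ▷ B.as) := rfl

instance : MonoidalCategoryStruct (K C) where
  tensorObj A B := ⟨A.as ⊗ B.as⟩
  whiskerLeft A _ _ f := wl A f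
  whiskerRight f B := wr B f
  tensorUnit := ⟨𝟙_ (D C)⟩
  associator A B E := (Q C).mapIso (α_ A.as B.as E.as)
  leftUnitor A := (Q C).mapIso (λ_ A.as)
  rightUnitor A := (Q C).mapIso (ρ_ A.as)

end K

@[simp] lemma Q_whiskerLeft (A : D C) {B B' : D C} (f : B ⟶ B') :
    (Q C).obj A ◁ (Q C).map f = (Q C).map (A ◁ f) := rfl

@[simp] lemma Q_whiskerRight {A A' : D C} (f : A ⟶ A') (B : D C) :
    (Q C).map f ▷ (Q C).obj B = (Q C).map (f ▷ B) := rfl

lemma Q_tensorHom {A A' B B' : D C} (f : A ⟶ A') (g : B ⟶ B') :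
    ((Q C).map f ⊗ₘ (Q C).map g) = (Q C).map (f ⊗ₘ g) := by
  rw [MonoidalCategory.tensorHom_def]; rfl

lemma Q_associator (A B E : D C) :
    α_ ((Q C).obj A) ((Q C).obj B) ((Q C).obj E) = (Q C).mapIso (α_ A B E) := rfl

lemma Q_leftUnitor (A : D C) : λ_ ((Q C).obj A) = (Q C).mapIso (λ_ A) := rfl

lemma Q_rightUnitor (A : D C) : ρ_ ((Q C).obj A) = (Q C).mapIso (ρ_ A) := rfl

instance : MonoidalCategory (K C) where
  tensorHom_def f g := rfl
  id_tensorHom_id A B := by
    obtain ⟨A, rfl⟩ := A.exists_rep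
    obtain ⟨B, rfl⟩ := B.exists_rep
    exact (Q_tensorHom (𝟙 A) (𝟙 B)).trans (congrArg (Q C).map (id_tensorHom_id A B))
  tensorHom_comp_tensorHom {A B E A' B' E'} f f' g g' := by
    obtain ⟨A, rfl⟩ := A.exists_rep
    obtain ⟨B, rfl⟩ := B.exists_rep
    obtain ⟨E, rfl⟩ := E.exists_rep
    obtain ⟨A', rfl⟩ := A'.exists_rep
    obtain ⟨B', rfl⟩ := B'.exists_rep
    obtain ⟨E', rfl⟩ := E'.exists_rep
    obtain ⟨f, rfl⟩ := Q_map_surjective f
    obtain ⟨g, rfl⟩ := Q_map_surjective g
    obtain ⟨f', rfl⟩ := Q_map_surjective f'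
    obtain ⟨g', rfl⟩ := Q_map_surjective g'
    rw [Q_tensorHom, Q_tensorHom]
    refine ((Q C).map_comp _ _).symm.trans ?_
    rw [tensorHom_comp_tensorHom, ← Q_tensorHom, Functor.map_comp, Functor.map_comp]
  whiskerLeft_id A B := by
    obtain ⟨A, rfl⟩ := A.exists_rep
    obtain ⟨B, rfl⟩ := B.exists_rep
    exact congrArg (Q C).map (MonoidalCategory.whiskerLeft_id A B)
  id_whiskerRight A B := by
    obtain ⟨A, rfl⟩ := A.exists_rep
    obtain ⟨B, rfl⟩ := B.exists_rep
    exact congrArg (Q C).map (MonoidalCategory.id_whiskerRight A B)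
  associator_naturality {A B E A' B' E'} f g h := by
    obtain ⟨A, rfl⟩ := A.exists_rep
    obtain ⟨B, rfl⟩ := B.exists_rep
    obtain ⟨E, rfl⟩ := E.exists_rep
    obtain ⟨A', rfl⟩ := A'.exists_rep
    obtain ⟨B', rfl⟩ := B'.exists_rep
    obtain ⟨E', rfl⟩ := E'.exists_rep
    obtain ⟨f, rfl⟩ := Q_map_surjective f
    obtain ⟨g, rfl⟩ := Q_map_surjective g
    obtain ⟨h, rfl⟩ := Q_map_surjective h
    rw [Q_tensorHom, Q_tensorHom]
    refine (congrArg (· ≫ _) (Q_tensorHom (f ⊗ₘ g) h)).trans ?_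
    refine Eq.trans ?_ (congrArg (_ ≫ ·) (Q_tensorHom f (g ⊗ₘ h))).symm
    exact congrArg (Q C).map (MonoidalCategory.associator_naturality f g h)
  leftUnitor_naturality {A B} f := by
    obtain ⟨A, rfl⟩ := A.exists_rep
    obtain ⟨B, rfl⟩ := B.exists_rep
    obtain ⟨f, rfl⟩ := Q_map_surjective f
    exact congrArg (Q C).map (MonoidalCategory.leftUnitor_naturality f)
  rightUnitor_naturality {A B} f := by
    obtain ⟨A, rfl⟩ := A.exists_rep
    obtain ⟨B, rfl⟩ := B.exists_rep
    obtain ⟨f, rfl⟩ := Q_map_surjective f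
    exact congrArg (Q C).map (MonoidalCategory.rightUnitor_naturality f)
  pentagon A B E F := by
    obtain ⟨A, rfl⟩ := A.exists_rep
    obtain ⟨B, rfl⟩ := B.exists_rep
    obtain ⟨E, rfl⟩ := E.exists_rep
    obtain ⟨F, rfl⟩ := F.exists_rep
    exact congrArg (Q C).map (MonoidalCategory.pentagon A B E F)
  triangle A B := by
    obtain ⟨A, rfl⟩ := A.exists_rep
    obtain ⟨B, rfl⟩ := B.exists_rep
    exact congrArg (Q C).map (MonoidalCategory.triangle A B)

instance : MonoidalPreadditive (K C) where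
  whiskerLeft_zero {A B E} := map_zero (K.wl A (B := B) (B' := E))
  zero_whiskerRight {A B E} := map_zero (K.wr A (A := B) (A' := E))
  whiskerLeft_add {A B E} f g := map_add (K.wl A (B := B) (B' := E)) f g
  add_whiskerRight {A B E} f g := map_add (K.wr A (A := B) (A' := E)) f g

/-- the quotient functor is monoidal -/
def Q.coreMonoidal : (Q C).CoreMonoidal where
  εIso := Iso.refl _
  μIso A B := Iso.refl _
  μIso_hom_natural_left {A A'} f B := by
    erw [Category.comp_id, Category.id_comp]; rfl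
  μIso_hom_natural_right {B B'} A f := by
    erw [Category.comp_id, Category.id_comp]; rfl
  associativity A B E := by
    change (𝟙 ((Q C).obj (A ⊗ B))) ▷ (Q C).obj E ≫ 𝟙 _ ≫ (Q C).map (α_ A B E).hom =
      (Q C).map (α_ A B E).hom ≫ (Q C).obj A ◁ 𝟙 ((Q C).obj (B ⊗ E)) ≫ 𝟙 _
    erw [MonoidalCategory.id_whiskerRight, MonoidalCategory.whiskerLeft_id,
      Category.id_comp, Category.id_comp, Category.comp_id, Category.comp_id]
    rfl
  left_unitality A := by
    change (Q C).map (λ_ A).hom = (𝟙 (𝟙_ (K C))) ▷ (Q C).obj A ≫ 𝟙 _ ≫ (Q C).map (λ_ A).hom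
    rw [MonoidalCategory.id_whiskerRight]
    erw [Category.id_comp, Category.id_comp]
    rfl
  right_unitality A := by
    change (Q C).map (ρ_ A).hom = (Q C).obj A ◁ (𝟙 (𝟙_ (K C))) ≫ 𝟙 _ ≫ (Q C).map (ρ_ A).hom
    rw [MonoidalCategory.whiskerLeft_id]
    erw [Category.id_comp, Category.id_comp]
    rfl

instance : (Q C).Monoidal := Q.coreMonoidal.toMonoidal

section Symmetric

variable [SymmetricCategory C]

instance : BraidedCategory (K C) where
  braiding A B := (Q C).mapIso (β_ A.as B.as)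
  braiding_naturality_right A B B' f := by
    obtain ⟨A, rfl⟩ := A.exists_rep
    obtain ⟨B, rfl⟩ := B.exists_rep
    obtain ⟨B', rfl⟩ := B'.exists_rep
    obtain ⟨f, rfl⟩ := Q_map_surjective f
    exact congrArg (Q C).map (BraidedCategory.braiding_naturality_right A f)
  braiding_naturality_left {A A'} f B := by
    obtain ⟨A, rfl⟩ := A.exists_rep
    obtain ⟨B, rfl⟩ := B.exists_rep
    obtain ⟨A', rfl⟩ := A'.exists_rep
    obtain ⟨f, rfl⟩ := Q_map_surjective f
    exact congrArg (Q C).map (BraidedCategory.braiding_naturality_left f B)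
  hexagon_forward A B E := by
    obtain ⟨A, rfl⟩ := A.exists_rep
    obtain ⟨B, rfl⟩ := B.exists_rep
    obtain ⟨E, rfl⟩ := E.exists_rep
    exact congrArg (Q C).map (BraidedCategory.hexagon_forward A B E)
  hexagon_reverse A B E := by
    obtain ⟨A, rfl⟩ := A.exists_rep
    obtain ⟨B, rfl⟩ := B.exists_rep
    obtain ⟨E, rfl⟩ := E.exists_rep
    exact congrArg (Q C).map (BraidedCategory.hexagon_reverse A B E)

lemma Q_braiding (A B : D C) : β_ ((Q C).obj A) ((Q C).obj B) = (Q C).mapIso (β_ A B) := rfl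

instance : SymmetricCategory (K C) where
  symmetry A B := by
    obtain ⟨A, rfl⟩ := A.exists_rep
    obtain ⟨B, rfl⟩ := B.exists_rep
    exact congrArg (Q C).map (SymmetricCategory.symmetry A B)

end Symmetric

end Monoidal

section Shift

variable (C)

/-- the trivial shift on a category -/
def trivShift (A : Type u) [Category.{v} A] : ShiftMkCore A ℤ where
  F _ := 𝟭 A
  zero := Iso.refl _
  add _ _ := Iso.refl _

/-- The shift of `K C` is the identity functor. -/
noncomputable instance : HasShift (K C) ℤ := hasShiftMk _ _ (trivShift (K C))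

instance (n : ℤ) : (shiftFunctor (K C) n).Additive where
  map_add := rfl

example (A : K C) (n : ℤ) : A⟦n⟧ = A := rfl

end Shift

end Pool.Agent.H939.TT
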