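import Pool.Agent.H939.TT.TriInst

/-!
# The tensor product of the homotopy category is exact
-/

namespace Pool.Agent.H939.TT

open CategoryTheory CategoryTheory.Limits CategoryTheory.MonoidalCategory
open CategoryTheory.Pretriangulated

universe v u v' u'

section KTensorAux

variable {C : Type u} [Category.{v} C] [Preadditive C]

lemma ktensor_two_ids {A : Type u} [Category.{v} A] {X₀ X₁ X₂ : A} (f₁ : X₀ ⟶ X₁) (f₂ : X₁ ⟶ X₂)
    (h₁ : X₀ = X₁) (h₂ : X₁ = X₂) (e₁ : f₁ = eqToHom h₁) (e₂ : f₂ = eqToHom h₂) :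
    f₁ ≫ f₂ = eqToHom (h₁.trans h₂) := by
  subst h₁ h₂ e₁ e₂
  simp

lemma ktensor_four_ids {A : Type u} [Category.{v} A] {X₀ X₁ X₂ X₃ X₄ : A} (f₁ : X₀ ⟶ X₁)
    (f₂ : X₁ ⟶ X₂) (f₃ : X₂ ⟶ X₃) (f₄ : X₃ ⟶ X₄) (h₁ : X₀ = X₁) (h₂ : X₁ = X₂) (h₃ : X₂ = X₃)
    (h₄ : X₃ = X₄) (e₁ : f₁ = eqToHom h₁) (e₂ : f₂ = eqToHom h₂) (e₃ : f₃ = eqToHom h₃)
    (e₄ : f₄ = eqToHom h₄) :
    f₁ ≫ f₂ ≫ f₃ ≫ f₄ = eqToHom (h₁.trans (h₂.trans (h₃.trans h₄))) := by
  subst h₁ h₂ h₃ h₄ e₁ e₂ e₃ e₄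
  simp

lemma ktensor_isoZero {C' : Type u'} [Category.{v'} C'] [Preadditive C'] (F : K C ⥤ K C')
    (e : shiftFunctor (K C) (0 : ℤ) ⋙ F ≅ F ⋙ shiftFunctor (K C') (0 : ℤ))
    (h : ∀ X, e.hom.app X = 𝟙 (F.obj X)) : e = Functor.CommShift.isoZero F ℤ := by
  refine Iso.ext (NatTrans.ext (funext fun X => ?_))
  rw [h X, Functor.CommShift.isoZero_hom_app]
  have e1 : F.map ((shiftFunctorZero (K C) ℤ).hom.app X) = 𝟙 (F.obj X) := F.map_id X
  exact (ktensor_two_ids (A := K C') (F.map ((shiftFunctorZero (K C) ℤ).hom.app X)) _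
    rfl rfl e1 rfl).symm

lemma ktensor_isoAdd {C' : Type u'} [Category.{v'} C'] [Preadditive C'] (F : K C ⥤ K C')
    (a b : ℤ) (e₁ : shiftFunctor (K C) a ⋙ F ≅ F ⋙ shiftFunctor (K C') a)
    (e₂ : shiftFunctor (K C) b ⋙ F ≅ F ⋙ shiftFunctor (K C') b)
    (e : shiftFunctor (K C) (a + b) ⋙ F ≅ F ⋙ shiftFunctor (K C') (a + b))
    (h₁ : ∀ X, e₁.hom.app X = 𝟙 (F.obj X)) (h₂ : ∀ X, e₂.hom.app X = 𝟙 (F.obj X))
    (h : ∀ X, e.hom.app X = 𝟙 (F.obj X)) : e = Functor.CommShift.isoAdd e₁ e₂ := by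
  refine Iso.ext (NatTrans.ext (funext fun X => ?_))
  rw [h X, Functor.CommShift.isoAdd_hom_app, h₁]
  have e1 : F.map ((shiftFunctorAdd (K C) a b).hom.app X) = 𝟙 (F.obj X) := F.map_id X
  exact (ktensor_four_ids (A := K C') (F.map ((shiftFunctorAdd (K C) a b).hom.app X)) _ _ _
    rfl rfl rfl rfl e1 (h₂ X) rfl rfl).symm

end KTensorAux

variable {C : Type u} [Category.{v} C] [Preadditive C] [HasBinaryBiproducts C] [CharTwo C]
  [HasZeroObject C]

/-- Every functor between the homotopy categories commutes with the trivial shifts. -/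
@[implicit_reducible]
noncomputable def trivCommShift {C' : Type u'} [Category.{v'} C'] [Preadditive C']
    (F : K C ⥤ K C') : F.CommShift ℤ where
  commShiftIso _ := Iso.refl _
  commShiftIso_zero := ktensor_isoZero F _ fun _ => rfl
  commShiftIso_add a b := ktensor_isoAdd F a b _ _ _ (fun _ => rfl) (fun _ => rfl) (fun _ => rfl)

variable [MonoidalCategory C] [MonoidalPreadditive C]

noncomputable instance (A : K C) : (tensorLeft A).CommShift ℤ := trivCommShift _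

omit [CharTwo C] [HasZeroObject C] in
/-- The tensor product with a biproduct. -/
@[simps] noncomputable def ktensorDistrib (P X Y : C) : P ⊗ (X ⊞ Y) ≅ (P ⊗ X) ⊞ (P ⊗ Y) where
  hom := biprod.lift (P ◁ biprod.fst) (P ◁ biprod.snd)
  inv := biprod.desc (P ◁ biprod.inl) (P ◁ biprod.inr)
  hom_inv_id := by
    rw [biprod.lift_desc, ← MonoidalCategory.whiskerLeft_comp,
      ← MonoidalCategory.whiskerLeft_comp, ← MonoidalPreadditive.whiskerLeft_add,
      biprod.total, MonoidalCategory.whiskerLeft_id]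
  inv_hom_id := by
    apply biprod.hom_ext' <;> apply biprod.hom_ext <;>
      simp [← MonoidalCategory.whiskerLeft_comp]

omit [CharTwo C] [HasZeroObject C] in
lemma ktensor_comm (P X Y : C) (d : P ⟶ P) (dX : X ⟶ X) (dY : Y ⟶ Y) (f : X ⟶ Y) :
    biprod.lift (P ◁ biprod.fst) (P ◁ biprod.snd) ≫
      biprod.desc (biprod.lift (d ▷ X + P ◁ dX) (P ◁ f)) (biprod.lift 0 (d ▷ Y + P ◁ dY)) =
      (d ▷ (X ⊞ Y) + P ◁ (biprod.desc (biprod.lift dX f) (biprod.lift 0 dY))) ≫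
      biprod.lift (P ◁ biprod.fst) (P ◁ biprod.snd) := by
  have h1 : (biprod.desc (biprod.lift dX f) (biprod.lift 0 dY) : X ⊞ Y ⟶ X ⊞ Y) ≫ biprod.fst =
      biprod.fst ≫ dX := by
    apply biprod.hom_ext' <;> simp
  have h2 : (biprod.desc (biprod.lift dX f) (biprod.lift 0 dY) : X ⊞ Y ⟶ X ⊞ Y) ≫ biprod.snd =
      biprod.fst ≫ f + biprod.snd ≫ dY := by
    apply biprod.hom_ext' <;> simp
  rw [biprod.lift_desc]
  apply biprod.hom_ext
  · simp only [Preadditive.add_comp, Category.assoc, biprod.lift_fst, comp_zero, add_zero,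
      ← MonoidalCategory.whiskerLeft_comp, h1, Preadditive.comp_add, whisker_exchange]
  · simp only [Preadditive.add_comp, Category.assoc, biprod.lift_snd,
      ← MonoidalCategory.whiskerLeft_comp, h2, Preadditive.comp_add, whisker_exchange,
      MonoidalPreadditive.whiskerLeft_add]
    abel

/-- The tensor product with a cone. -/
noncomputable def ktensorConeIso (A : D C) {X Y : D C} (f : X ⟶ Y) :
    A ⊗ D.cone f ≅ D.cone (A ◁ f) :=
  D.mkIso (ktensorDistrib A.X X.X Y.X) (ktensor_comm A.X X.X Y.X A.d X.d Y.d f.f)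

omit [HasZeroObject C] in
lemma ktensorConeIso_inr (A : D C) {X Y : D C} (f : X ⟶ Y) :
    (A ◁ D.coneInr f) ≫ (ktensorConeIso A f).hom = D.coneInr (A ◁ f) := by
  refine D.hom_ext _ _ ?_
  change A.X ◁ biprod.inr ≫ biprod.lift (A.X ◁ biprod.fst) (A.X ◁ biprod.snd) = biprod.inr
  apply biprod.hom_ext <;> simp [← MonoidalCategory.whiskerLeft_comp]

omit [HasZeroObject C] in
lemma ktensorConeIso_fst (A : D C) {X Y : D C} (f : X ⟶ Y) :
    (ktensorConeIso A f).hom ≫ D.coneFst (A ◁ f) = A ◁ D.coneFst f := by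
  refine D.hom_ext _ _ ?_
  change biprod.lift (A.X ◁ biprod.fst) (A.X ◁ biprod.snd) ≫ biprod.fst = A.X ◁ biprod.fst
  simp

/-- The image of a cone triangle. -/
noncomputable def ktensorTriIso (A : D C) {X Y : D C} (f : X ⟶ Y) :
    (tensorLeft ((Q C).obj A)).mapTriangle.obj (coneTri f) ≅ coneTri (A ◁ f) :=
  Triangle.isoMk _ _ (Iso.refl ((Q C).obj (A ⊗ X))) (Iso.refl ((Q C).obj (A ⊗ Y)))
    ((Q C).mapIso (ktensorConeIso A f))
    (by
      change (Q C).map (A ◁ f) ≫ 𝟙 ((Q C).obj (A ⊗ Y)) = 𝟙 ((Q C).obj (A ⊗ X)) ≫ (Q C).map (A ◁ f)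
      rw [Category.comp_id, Category.id_comp])
    (by
      change (Q C).map (A ◁ D.coneInr f) ≫ (Q C).map (ktensorConeIso A f).hom =
        𝟙 ((Q C).obj (A ⊗ Y)) ≫ (Q C).map (D.coneInr (A ◁ f))
      rw [Category.id_comp, ← Functor.map_comp, ktensorConeIso_inr])
    (by
      change ((Q C).map (A ◁ D.coneFst f) ≫ 𝟙 ((Q C).obj (A ⊗ X))) ≫ 𝟙 ((Q C).obj (A ⊗ X)) =
        (Q C).map (ktensorConeIso A f).hom ≫ (Q C).map (D.coneFst (A ◁ f))
      rw [Category.comp_id, Category.comp_id, ← Functor.map_comp, ktensorConeIso_fst])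

instance (A : K C) : (tensorLeft A).IsTriangulated := by
  refine ⟨fun T hT => ?_⟩
  obtain ⟨X, Y, f, ⟨e⟩⟩ := hT
  obtain ⟨A, rfl⟩ := A.exists_rep
  exact ⟨_, _, A ◁ f, ⟨(tensorLeft ((Q C).obj A)).mapTriangle.mapIso e ≪≫ ktensorTriIso A f⟩⟩

end Pool.Agent.H939.TT
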