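import Pool.Agent.H939.TT.IntDefs
import Pool.Agent.H939.TT.DCat

/-!
# The category of kernels

Objects: finite sets of points with charges, and a degree. Morphisms: smooth kernels, composed by
means of the integral.
-/

namespace Pool.Agent.H939.TT

open CategoryTheory CategoryTheory.Limits CategoryTheory.MonoidalCategory

/-- codes for finite sets -/
inductive Code : Type
  | empty : Code
  | point : Code
  | sum (a b : Code) : Code

/-- the finite set of a code -/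
def Code.El : Code → Type
  | .empty => Empty
  | .point => Unit
  | .sum a b => a.El ⊕ b.El

instance Code.fintype : ∀ c : Code, Fintype c.El
  | .empty => inferInstanceAs (Fintype Empty)
  | .point => inferInstanceAs (Fintype Unit)
  | .sum a b => by
    haveI := Code.fintype a
    haveI := Code.fintype b
    exact inferInstanceAs (Fintype (a.El ⊕ b.El))

/-- finite sets with charges, and a degree -/
structure Ob : Type where
  /-- the finite set -/
  code : Code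
  /-- the charges -/
  w : code.El → ℤ
  /-- the degree -/
  deg : ℤ

/-- the set of points -/
abbrev Ob.ix (X : Ob) : Type := X.code.El

/-- the unit object -/
@[simps] def Ob.unit : Ob where
  code := .empty
  w := fun e => e.elim
  deg := 0

instance : IsEmpty Ob.unit.ix := inferInstanceAs (IsEmpty Empty)

/-- the tensor product of objects -/
@[simps] def Ob.tensor (X Y : Ob) : Ob where
  code := .sum X.code Y.code
  w := Sum.elim (α := X.ix) (β := Y.ix) X.w Y.w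
  deg := X.deg + Y.deg

/-- the dual object -/
@[simps] def Ob.dual (X : Ob) : Ob where
  code := X.code
  w := fun i => - X.w i
  deg := - X.deg

/-- the first component of a point of a tensor product -/
def Ob.fst {X Y : Ob} (x : (X.tensor Y).ix → ℕ) : X.ix → ℕ := fun i => x (Sum.inl i)

/-- the second component of a point of a tensor product -/
def Ob.snd {X Y : Ob} (x : (X.tensor Y).ix → ℕ) : Y.ix → ℕ := fun i => x (Sum.inr i)

/-- Invariance of kernels under the permutations which fix the numbers `< N`. -/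
def Inv {F : Type} (N : ℕ) {J L : Type} (K : (J → ℕ) → (L → ℕ) → F) : Prop :=
  ∀ σ : Equiv.Perm ℕ, (∀ n < N, σ n = n) → ∀ x y, K (σ ∘ x) (σ ∘ y) = K x y

variable {F : Type} [Field F]

/-- smooth kernels -/
@[ext] structure Ker (F : Type) [Field F] (X Y : Ob) where
  /-- the kernel -/
  f : (X.ix → ℕ) → (Y.ix → ℕ) → F
  /-- it is smooth -/
  sm : ∃ N, Inv N f

/-- The type of objects of the category of kernels. -/
def KC (_ : Integral F) : Type := Ob

variable {I : Integral F}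

/-- the underlying object -/
abbrev KC.ob (X : KC I) : Ob := X

/-! ### auxiliary facts on smooth functions -/

lemma kcat_mono {N N' : ℕ} {J : Type} {f : (J → ℕ) → F} (h : Sm N f) (hN : N ≤ N') : Sm N' f :=
  fun σ hσ => h σ fun n hn => hσ n (lt_of_lt_of_le hn hN)

lemma kcat_inv_mono {N N' : ℕ} {J L : Type} {K : (J → ℕ) → (L → ℕ) → F} (h : Inv N K)
    (hN : N ≤ N') : Inv N' K :=
  fun σ hσ => h σ fun n hn => hσ n (lt_of_lt_of_le hn hN)

lemma kcat_bound {J : Type} [Finite J] (x : J → ℕ) : ∃ B, ∀ i, x i < B := by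
  obtain ⟨B, hB⟩ := (Set.finite_range x).bddAbove
  exact ⟨B + 1, fun i => Nat.lt_succ_of_le (hB ⟨i, rfl⟩)⟩

lemma kcat_fix {J : Type} {N : ℕ} {x : J → ℕ} (hx : ∀ i, x i < N) {σ : Equiv.Perm ℕ}
    (hσ : ∀ n < N, σ n = n) : σ ∘ x = x := funext fun i => hσ _ (hx i)

/-- sections of kernels are smooth -/
lemma kcat_right {J L : Type} {N : ℕ} {K : (J → ℕ) → (L → ℕ) → F} (h : Inv N K) {x : J → ℕ}
    (hx : ∀ i, x i < N) : Sm N (fun y => K x y) := by
  intro σ hσ y
  have h1 := h σ hσ x y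
  rwa [kcat_fix hx hσ] at h1

lemma kcat_left {J L : Type} {N : ℕ} {K : (J → ℕ) → (L → ℕ) → F} (h : Inv N K) {y : L → ℕ}
    (hy : ∀ i, y i < N) : Sm N (fun x => K x y) := by
  intro σ hσ x
  have h1 := h σ hσ x y
  rwa [kcat_fix hy hσ] at h1

lemma kcat_mul {J : Type} {N : ℕ} {f g : (J → ℕ) → F} (hf : Sm N f) (hg : Sm N g) :
    Sm N (fun y => f y * g y) := by
  intro σ hσ y
  change f (σ ∘ y) * g (σ ∘ y) = f y * g y
  rw [hf σ hσ, hg σ hσ]

/-- the integrand of a composite is smooth -/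
lemma kcat_mid {J L M : Type} {N : ℕ} {K : (J → ℕ) → (L → ℕ) → F} {K' : (L → ℕ) → (M → ℕ) → F}
    (h : Inv N K) (h' : Inv N K') {x : J → ℕ} {z : M → ℕ} (hx : ∀ i, x i < N)
    (hz : ∀ i, z i < N) : Sm N (fun y => K x y * K' y z) :=
  kcat_mul (kcat_right h hx) (kcat_left h' hz)

/-- a common bound -/
lemma kcat_common {X Y Z : Ob} (K : Ker F X Y) (L : Ker F Y Z) (x : X.ix → ℕ) (z : Z.ix → ℕ) :
    ∃ N, Inv N K.f ∧ Inv N L.f ∧ (∀ i, x i < N) ∧ ∀ i, z i < N := by
  obtain ⟨a, ha⟩ := K.sm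
  obtain ⟨b, hb⟩ := L.sm
  obtain ⟨c, hc⟩ := kcat_bound x
  obtain ⟨e, he⟩ := kcat_bound z
  refine ⟨max (max a b) (max c e), kcat_inv_mono ha ?_, kcat_inv_mono hb ?_, fun i => ?_,
    fun i => ?_⟩
  · exact (le_max_left _ _).trans (le_max_left _ _)
  · exact (le_max_right _ _).trans (le_max_left _ _)
  · exact lt_of_lt_of_le (hc i) ((le_max_left _ _).trans (le_max_right _ _))
  · exact lt_of_lt_of_le (he i) ((le_max_right _ _).trans (le_max_right _ _))

lemma kcat_sm_mid {X Y Z : Ob} (K : Ker F X Y) (L : Ker F Y Z) (x : X.ix → ℕ) (z : Z.ix → ℕ) :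
    ∃ N, Sm N (fun y => K.f x y * L.f y z) := by
  obtain ⟨N, h1, h2, h3, h4⟩ := kcat_common K L x z
  exact ⟨N, kcat_mid h1 h2 h3 h4⟩

/-- change of variables -/
lemma kcat_inv_int (I : Integral F) {X Y Z : Ob} {K : Ker F X Y} {L : Ker F Y Z} {N : ℕ}
    (hK : Inv N K.f) (hL : Inv N L.f) :
    Inv N (fun (x : X.ix → ℕ) (z : Z.ix → ℕ) => I.int Y.ix (fun y => K.f x y * L.f y z)) := by
  intro σ hσ x z
  obtain ⟨N', h⟩ := kcat_sm_mid K L (σ ∘ x) (σ ∘ z)
  change I.int Y.ix (fun y => K.f (σ ∘ x) y * L.f y (σ ∘ z)) =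
    I.int Y.ix (fun y => K.f x y * L.f y z)
  rw [← I.perm Y.ix N' _ h σ]
  congr 1
  funext y
  rw [hK σ hσ, hL σ hσ]

lemma kcat_two (X Y X' Y' : Ob) (K : Ker F X Y) (L : Ker F X' Y') :
    ∃ N, Inv N K.f ∧ Inv N L.f := by
  obtain ⟨a, ha⟩ := K.sm
  obtain ⟨b, hb⟩ := L.sm
  exact ⟨max a b, kcat_inv_mono ha (le_max_left _ _), kcat_inv_mono hb (le_max_right _ _)⟩

open Classical in
/-- the kernel of a bijection of the points -/
noncomputable def permKer {X Y : Ob} (e : X.ix ≃ Y.ix) : Ker F X Y where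
  f x y := if y ∘ e = x then 1 else 0
  sm := by
    refine ⟨0, fun σ _ x y => ?_⟩
    have h : (σ ∘ y) ∘ e = σ ∘ x ↔ y ∘ e = x := by
      rw [Function.comp_assoc]
      exact (σ.injective.comp_left (α := X.ix)).eq_iff
    simp only [h]

variable (I) in
/-- composition of kernels -/
noncomputable def Ker.comp {X Y Z : Ob} (K : Ker F X Y) (L : Ker F Y Z) : Ker F X Z where
  f x z := I.int Y.ix (fun y => K.f x y * L.f y z)
  sm := by
    obtain ⟨N, h1, h2⟩ := kcat_two _ _ _ _ K L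
    exact ⟨N, kcat_inv_int I h1 h2⟩

/-- if both kernels are invariant then so is the composite -/
lemma Ker.inv_comp {X Y Z : Ob} {K : Ker F X Y} {L : Ker F Y Z} {N : ℕ} (hK : Inv N K.f)
    (hL : Inv N L.f) : Inv N (Ker.comp I K L).f := kcat_inv_int I hK hL

lemma Ker.permKer_comp {X Y Z : Ob} (e : X.ix ≃ Y.ix) (K : Ker F Y Z) :
    Ker.comp I (permKer e) K = ⟨fun x z => K.f (x ∘ e.symm) z, by
      obtain ⟨N, hN⟩ := K.sm
      exact ⟨N, fun σ hσ x z => hN σ hσ (x ∘ e.symm) z⟩⟩ := by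
  apply Ker.ext
  funext x z
  change I.int Y.ix (fun y => (permKer (F := F) e).f x y * K.f y z) = K.f (x ∘ e.symm) z
  obtain ⟨N, hN⟩ := kcat_sm_mid (permKer (F := F) e) K x z
  rw [I.delta Y.ix N _ hN (x ∘ e.symm)]
  · have h1 : (permKer (F := F) e).f x (x ∘ e.symm) = 1 := by
      unfold permKer
      exact if_pos (by rw [Function.comp_assoc, Equiv.symm_comp_self, Function.comp_id])
    rw [h1, one_mul]
  · intro y hy
    have h1 : (permKer (F := F) e).f x y = 0 := by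
      unfold permKer
      refine if_neg fun h => hy ?_
      rw [← h, Function.comp_assoc, Equiv.self_comp_symm, Function.comp_id]
    rw [h1, zero_mul]

lemma Ker.comp_permKer {X Y Z : Ob} (K : Ker F X Y) (e : Y.ix ≃ Z.ix) :
    Ker.comp I K (permKer e) = ⟨fun x z => K.f x (z ∘ e), by
      obtain ⟨N, hN⟩ := K.sm
      exact ⟨N, fun σ hσ x z => hN σ hσ x (z ∘ e)⟩⟩ := by
  apply Ker.ext
  funext x z
  change I.int Y.ix (fun y => K.f x y * (permKer (F := F) e).f y z) = K.f x (z ∘ e)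
  obtain ⟨N, hN⟩ := kcat_sm_mid K (permKer (F := F) e) x z
  rw [I.delta Y.ix N _ hN (z ∘ e)]
  · have h1 : (permKer (F := F) e).f (z ∘ e) z = 1 := by
      unfold permKer
      exact if_pos rfl
    rw [h1, mul_one]
  · intro y hy
    have h1 : (permKer (F := F) e).f y z = 0 := by
      unfold permKer
      exact if_neg fun h => hy h.symm
    rw [h1, mul_zero]

lemma Ker.comp_assoc {X Y Z W : Ob} (K : Ker F X Y) (L : Ker F Y Z) (M : Ker F Z W) :
    Ker.comp I (Ker.comp I K L) M = Ker.comp I K (Ker.comp I L M) := by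
  apply Ker.ext
  funext x w
  change I.int Z.ix (fun z => I.int Y.ix (fun y => K.f x y * L.f y z) * M.f z w) =
    I.int Y.ix (fun y => K.f x y * I.int Z.ix (fun z => L.f y z * M.f z w))
  -- the two integrands on the product
  obtain ⟨N, hK, hM, hx, hw⟩ : ∃ N, Inv N K.f ∧ Inv N M.f ∧ (∀ i, x i < N) ∧ ∀ i, w i < N := by
    obtain ⟨a, ha⟩ := K.sm
    obtain ⟨b, hb⟩ := M.sm
    obtain ⟨c, hc⟩ := kcat_bound x
    obtain ⟨e, he⟩ := kcat_bound w
    refine ⟨max (max a b) (max c e), kcat_inv_mono ha ?_, kcat_inv_mono hb ?_, fun i => ?_,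
      fun i => ?_⟩
    · exact (le_max_left _ _).trans (le_max_left _ _)
    · exact (le_max_right _ _).trans (le_max_left _ _)
    · exact lt_of_lt_of_le (hc i) ((le_max_left _ _).trans (le_max_right _ _))
    · exact lt_of_lt_of_le (he i) ((le_max_right _ _).trans (le_max_right _ _))
  obtain ⟨N₁, hL⟩ := L.sm
  have hsm : Sm (max N N₁) (fun v : Y.ix ⊕ Z.ix → ℕ =>
      K.f x (v ∘ Sum.inl) * (L.f (v ∘ Sum.inl) (v ∘ Sum.inr) * M.f (v ∘ Sum.inr) w)) := by
    intro σ hσ v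
    have e1 := kcat_right hK hx σ (fun n hn => hσ n (lt_of_lt_of_le hn (le_max_left _ _)))
      (v ∘ Sum.inl)
    have e2 := kcat_left hM hw σ (fun n hn => hσ n (lt_of_lt_of_le hn (le_max_left _ _)))
      (v ∘ Sum.inr)
    have e3 := hL σ (fun n hn => hσ n (lt_of_lt_of_le hn (le_max_right _ _)))
      (v ∘ Sum.inl) (v ∘ Sum.inr)
    change K.f x (σ ∘ v ∘ Sum.inl) * (L.f (σ ∘ v ∘ Sum.inl) (σ ∘ v ∘ Sum.inr) *
      M.f (σ ∘ v ∘ Sum.inr) w) = _
    rw [e3]
    change K.f x (σ ∘ v ∘ Sum.inl) = K.f x (v ∘ Sum.inl) at e1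
    change M.f (σ ∘ v ∘ Sum.inr) w = M.f (v ∘ Sum.inr) w at e2
    rw [e1, e2]
  have hsm' : Sm (max N N₁) (fun v : Z.ix ⊕ Y.ix → ℕ =>
      K.f x (v ∘ Sum.inr) * (L.f (v ∘ Sum.inr) (v ∘ Sum.inl) * M.f (v ∘ Sum.inl) w)) := by
    intro σ hσ v
    exact hsm σ hσ (v ∘ (Equiv.sumComm Y.ix Z.ix))
  have hR : I.int Y.ix (fun y => K.f x y * I.int Z.ix (fun z => L.f y z * M.f z w)) =
      I.int (Y.ix ⊕ Z.ix) (fun v : Y.ix ⊕ Z.ix → ℕ =>
      K.f x (v ∘ Sum.inl) * (L.f (v ∘ Sum.inl) (v ∘ Sum.inr) * M.f (v ∘ Sum.inr) w)) := by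
    rw [← I.fubini Y.ix Z.ix _ _ hsm]
    congr 1
    funext y
    obtain ⟨N₂, h2⟩ := kcat_sm_mid L M y w
    rw [← I.smul Z.ix N₂ (K.f x y) _ h2]
    rfl
  have hLft : I.int Z.ix (fun z => I.int Y.ix (fun y => K.f x y * L.f y z) * M.f z w) =
      I.int (Z.ix ⊕ Y.ix) (fun v : Z.ix ⊕ Y.ix → ℕ =>
      K.f x (v ∘ Sum.inr) * (L.f (v ∘ Sum.inr) (v ∘ Sum.inl) * M.f (v ∘ Sum.inl) w)) := by
    rw [← I.fubini Z.ix Y.ix _ _ hsm']
    congr 1
    funext z
    obtain ⟨N₂, h2⟩ := kcat_sm_mid K L x z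
    rw [mul_comm, ← I.smul Y.ix N₂ (M.f z w) _ h2]
    congr 1
    funext y
    change M.f z w * (K.f x y * L.f y z) = K.f x y * (L.f y z * M.f z w)
    ring
  rw [hLft, hR, ← I.reindex (Z.ix ⊕ Y.ix) (Y.ix ⊕ Z.ix) (Equiv.sumComm Z.ix Y.ix) _ _ hsm]
  rfl

noncomputable instance : Category (KC I) where
  Hom X Y := Ker F X.ob Y.ob
  id X := permKer (Equiv.refl _)
  comp K L := Ker.comp I K L
  id_comp K := by
    rw [Ker.permKer_comp]
    rfl
  comp_id K := by
    rw [Ker.comp_permKer]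
    rfl
  assoc K L M := Ker.comp_assoc K L M

/-- the kernel of a morphism -/
def KC.ker {X Y : KC I} (K : X ⟶ Y) : (X.ob.ix → ℕ) → (Y.ob.ix → ℕ) → F := Ker.f K

lemma KC.hom_ext {X Y : KC I} {K L : X ⟶ Y} (h : ∀ x y, KC.ker K x y = KC.ker L x y) : K = L :=
  Ker.ext (funext fun x => funext fun y => h x y)

lemma KC.comp_ker {X Y Z : KC I} (K : X ⟶ Y) (L : Y ⟶ Z) (x : X.ob.ix → ℕ) (z : Z.ob.ix → ℕ) :
    KC.ker (K ≫ L) x z = I.int Y.ob.ix (fun y => KC.ker K x y * KC.ker L y z) := rfl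

noncomputable instance (X Y : KC I) : Add (X ⟶ Y) :=
  ⟨fun K L => ⟨fun x y => KC.ker K x y + KC.ker L x y, by
    obtain ⟨N, h1, h2⟩ := kcat_two _ _ _ _ K L
    refine ⟨N, fun σ hσ x y => ?_⟩
    change Ker.f K (σ ∘ x) (σ ∘ y) + Ker.f L (σ ∘ x) (σ ∘ y) = Ker.f K x y + Ker.f L x y
    rw [h1 σ hσ, h2 σ hσ]⟩⟩
noncomputable instance (X Y : KC I) : Zero (X ⟶ Y) := ⟨⟨fun _ _ => 0, ⟨0, fun _ _ _ _ => rfl⟩⟩⟩
noncomputable instance (X Y : KC I) : Neg (X ⟶ Y) :=
  ⟨fun K => ⟨fun x y => - KC.ker K x y, by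
    obtain ⟨N, h1⟩ := Ker.sm K
    refine ⟨N, fun σ hσ x y => ?_⟩
    change - Ker.f K (σ ∘ x) (σ ∘ y) = - Ker.f K x y
    rw [h1 σ hσ]⟩⟩
noncomputable instance (X Y : KC I) : Sub (X ⟶ Y) :=
  ⟨fun K L => ⟨fun x y => KC.ker K x y - KC.ker L x y, by
    obtain ⟨N, h1, h2⟩ := kcat_two _ _ _ _ K L
    refine ⟨N, fun σ hσ x y => ?_⟩
    change Ker.f K (σ ∘ x) (σ ∘ y) - Ker.f L (σ ∘ x) (σ ∘ y) = Ker.f K x y - Ker.f L x y
    rw [h1 σ hσ, h2 σ hσ]⟩⟩

noncomputable instance (X Y : KC I) : AddCommGroup (X ⟶ Y) where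
  add_assoc f g h := KC.hom_ext fun x y => add_assoc (KC.ker f x y) (KC.ker g x y) (KC.ker h x y)
  zero_add f := KC.hom_ext fun x y => zero_add (KC.ker f x y)
  add_zero f := KC.hom_ext fun x y => add_zero (KC.ker f x y)
  neg_add_cancel f := KC.hom_ext fun x y => neg_add_cancel (KC.ker f x y)
  add_comm f g := KC.hom_ext fun x y => add_comm (KC.ker f x y) (KC.ker g x y)
  sub_eq_add_neg f g := KC.hom_ext fun x y => sub_eq_add_neg (KC.ker f x y) (KC.ker g x y)
  nsmul := nsmulRec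
  zsmul := zsmulRec

noncomputable instance : Preadditive (KC I) where
  add_comp X Y Z K K' L := KC.hom_ext fun x z => by
    obtain ⟨N, h1⟩ := kcat_sm_mid K L x z
    obtain ⟨N', h2⟩ := kcat_sm_mid K' L x z
    change I.int Y.ob.ix (fun y => (Ker.f K x y + Ker.f K' x y) * Ker.f L y z) =
      I.int Y.ob.ix (fun y => Ker.f K x y * Ker.f L y z) +
        I.int Y.ob.ix (fun y => Ker.f K' x y * Ker.f L y z)
    rw [← I.add Y.ob.ix (max N N') _ _ (kcat_mono h1 (le_max_left _ _))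
      (kcat_mono h2 (le_max_right _ _))]
    congr 1
    funext y
    exact add_mul _ _ _
  comp_add X Y Z K L L' := KC.hom_ext fun x z => by
    obtain ⟨N, h1⟩ := kcat_sm_mid K L x z
    obtain ⟨N', h2⟩ := kcat_sm_mid K L' x z
    change I.int Y.ob.ix (fun y => Ker.f K x y * (Ker.f L y z + Ker.f L' y z)) =
      I.int Y.ob.ix (fun y => Ker.f K x y * Ker.f L y z) +
        I.int Y.ob.ix (fun y => Ker.f K x y * Ker.f L' y z)
    rw [← I.add Y.ob.ix (max N N') _ _ (kcat_mono h1 (le_max_left _ _))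
      (kcat_mono h2 (le_max_right _ _))]
    congr 1
    funext y
    exact mul_add _ _ _

lemma KC.add_ker {X Y : KC I} (K L : X ⟶ Y) (x : X.ob.ix → ℕ) (y : Y.ob.ix → ℕ) :
    KC.ker (K + L) x y = KC.ker K x y + KC.ker L x y := rfl

lemma KC.zero_ker {X Y : KC I} (x : X.ob.ix → ℕ) (y : Y.ob.ix → ℕ) :
    KC.ker (0 : X ⟶ Y) x y = 0 := rfl

noncomputable instance (X Y : KC I) : Module F (X ⟶ Y) where
  smul c K := ⟨fun x y => c * KC.ker K x y, by
    obtain ⟨N, h1⟩ := Ker.sm K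
    refine ⟨N, fun σ hσ x y => ?_⟩
    change c * Ker.f K (σ ∘ x) (σ ∘ y) = c * Ker.f K x y
    rw [h1 σ hσ]⟩
  one_smul K := KC.hom_ext fun x y => one_mul (KC.ker K x y)
  mul_smul c c' K := KC.hom_ext fun x y => mul_assoc c c' (KC.ker K x y)
  smul_zero c := KC.hom_ext fun x y => mul_zero c
  smul_add c K L := KC.hom_ext fun x y => mul_add c (KC.ker K x y) (KC.ker L x y)
  add_smul c c' K := KC.hom_ext fun x y => add_mul c c' (KC.ker K x y)
  zero_smul K := KC.hom_ext fun x y => zero_mul (KC.ker K x y)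

lemma KC.smul_ker {X Y : KC I} (c : F) (K : X ⟶ Y) (x : X.ob.ix → ℕ) (y : Y.ob.ix → ℕ) :
    KC.ker (c • K) x y = c * KC.ker K x y := rfl

noncomputable instance : Linear F (KC I) where
  smul_comp X Y Z c K L := KC.hom_ext fun x z => by
    obtain ⟨N, h1⟩ := kcat_sm_mid K L x z
    change I.int Y.ob.ix (fun y => (c * Ker.f K x y) * Ker.f L y z) =
      c * I.int Y.ob.ix (fun y => Ker.f K x y * Ker.f L y z)
    rw [← I.smul Y.ob.ix N c _ h1]
    congr 1
    funext y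
    exact mul_assoc _ _ _
  comp_smul X Y Z K c L := KC.hom_ext fun x z => by
    obtain ⟨N, h1⟩ := kcat_sm_mid K L x z
    change I.int Y.ob.ix (fun y => Ker.f K x y * (c * Ker.f L y z)) =
      c * I.int Y.ob.ix (fun y => Ker.f K x y * Ker.f L y z)
    rw [← I.smul Y.ob.ix N c _ h1]
    congr 1
    funext y
    exact mul_left_comm _ _ _

instance [CharP F 2] : CharTwo (KC I) where
  add_self f := KC.hom_ext fun x y => _root_.CharTwo.add_self_eq_zero (KC.ker f x y)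

end Pool.Agent.H939.TT
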