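import Pool.Agent.H939.TT.KerMon

/-!
# The category of kernels is symmetric and rigid
-/

namespace Pool.Agent.H939.TT

open CategoryTheory CategoryTheory.Limits CategoryTheory.MonoidalCategory

variable {F : Type} [Field F] {I : Integral F}

open Classical in
lemma kd_perm_f {X Y : Ob} (e : X.ix ≃ Y.ix) (x : X.ix → ℕ) (y : Y.ix → ℕ) :
    (permKer (F := F) e).f x y = if y ∘ e = x then 1 else 0 := rfl

lemma kd_perm_one {X Y : Ob} (e : X.ix ≃ Y.ix) {x : X.ix → ℕ} {y : Y.ix → ℕ} (h : y ∘ e = x) :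
    (permKer (F := F) e).f x y = 1 := by
  classical
  rw [kd_perm_f, if_pos h]

lemma kd_perm_zero {X Y : Ob} (e : X.ix ≃ Y.ix) {x : X.ix → ℕ} {y : Y.ix → ℕ} (h : y ∘ e ≠ x) :
    (permKer (F := F) e).f x y = 0 := by
  classical
  rw [kd_perm_f, if_neg h]

/-- kernels with values `0`, `1` on the same set -/
lemma kd_perm_eq {X Y : Ob} (e : X.ix ≃ Y.ix) {x : X.ix → ℕ} {y : Y.ix → ℕ} {c : F}
    (h1 : y ∘ e = x → c = 1) (h0 : y ∘ e ≠ x → c = 0) : c = (permKer (F := F) e).f x y := by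
  by_cases h : y ∘ e = x
  · rw [kd_perm_one e h, h1 h]
  · rw [kd_perm_zero e h, h0 h]

lemma kd_comp_perm {X Y Z : Ob} (e : X.ix ≃ Y.ix) (e' : Y.ix ≃ Z.ix) :
    Ker.comp I (permKer e) (permKer e') = permKer (e.trans e') := by
  rw [Ker.permKer_comp]
  apply Ker.ext
  funext x z
  show (permKer e').f (x ∘ e.symm) z = (permKer (e.trans e')).f x z
  have key : (z ∘ e' = x ∘ e.symm) ↔ (z ∘ (e.trans e') = x) := by
    constructor
    · intro h
      funext i
      have := congrFun h (e i)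
      simpa using this
    · intro h
      funext i
      have := congrFun h (e.symm i)
      simpa using this
  exact kd_perm_eq _ (fun h => kd_perm_one _ (key.2 h)) (fun h => kd_perm_zero _ (fun h' => h (key.1 h')))

lemma kd_tensor_f {X X' Y Y' : Ob} (K : Ker F X Y) (L : Ker F X' Y')
    (x : (X.tensor X').ix → ℕ) (y : (Y.tensor Y').ix → ℕ) :
    (K.tensor L).f x y = K.f (Ob.fst x) (Ob.fst y) * L.f (Ob.snd x) (Ob.snd y) := rfl

/-- the sum of two bijections -/
def kdSum {X X' Y Y' : Ob} (e : X.ix ≃ Y.ix) (e' : X'.ix ≃ Y'.ix) :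
    (X.tensor X').ix ≃ (Y.tensor Y').ix := Equiv.sumCongr e e'

lemma kd_tensor_perm {X X' Y Y' : Ob} (e : X.ix ≃ Y.ix) (e' : X'.ix ≃ Y'.ix) :
    (permKer (F := F) e).tensor (permKer (F := F) e') = permKer (kdSum e e') := by
  apply Ker.ext
  funext x y
  rw [kd_tensor_f]
  have key : y ∘ kdSum e e' = x ↔ (Ob.fst y ∘ e = Ob.fst x ∧ Ob.snd y ∘ e' = Ob.snd x) := by
    constructor
    · intro h
      constructor
      · funext i
        exact congrFun h (Sum.inl i)
      · funext i
        exact congrFun h (Sum.inr i)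
    · rintro ⟨h1, h2⟩
      funext i
      rcases i with i | i
      · exact congrFun h1 i
      · exact congrFun h2 i
  refine kd_perm_eq _ (fun h => ?_) (fun h => ?_)
  · obtain ⟨h1, h2⟩ := key.1 h
    rw [kd_perm_one _ h1, kd_perm_one _ h2, one_mul]
  · by_cases h1 : Ob.fst y ∘ e = Ob.fst x
    · have h2 : Ob.snd y ∘ e' ≠ Ob.snd x := fun h2 => h (key.2 ⟨h1, h2⟩)
      rw [kd_perm_zero _ h2, mul_zero]
    · rw [kd_perm_zero _ h1, zero_mul]

lemma kd_braid_right (X Y Z : Ob) (f : Ker F Y Z) :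
    Ker.comp I (Ker.tensor (permKer (Equiv.refl X.ix)) f) (permKer (KC.braidEquiv X Z)) =
      Ker.comp I (permKer (KC.braidEquiv X Y)) (Ker.tensor f (permKer (Equiv.refl X.ix))) := by
  rw [Ker.comp_permKer, Ker.permKer_comp]
  apply Ker.ext
  funext x z
  exact mul_comm _ _

lemma kd_braid_left (X Y Z : Ob) (f : Ker F X Y) :
    Ker.comp I (Ker.tensor f (permKer (Equiv.refl Z.ix))) (permKer (KC.braidEquiv Y Z)) =
      Ker.comp I (permKer (KC.braidEquiv X Z)) (Ker.tensor (permKer (Equiv.refl Z.ix)) f) := by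
  rw [Ker.comp_permKer, Ker.permKer_comp]
  apply Ker.ext
  funext x z
  exact mul_comm _ _

noncomputable instance : BraidedCategory (KC I) where
  braiding X Y := KC.permIso (KC.braidEquiv X.ob Y.ob)
  braiding_naturality_right X {Y Z} f := kd_braid_right X.ob Y.ob Z.ob f
  braiding_naturality_left {X Y} f Z := kd_braid_left X.ob Y.ob Z.ob f
  hexagon_forward X Y Z := by
    show Ker.comp I (permKer (KC.assocEquiv X.ob Y.ob Z.ob))
        (Ker.comp I (permKer (KC.braidEquiv X.ob (Y.ob.tensor Z.ob)))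
          (permKer (KC.assocEquiv Y.ob Z.ob X.ob))) =
      Ker.comp I (Ker.tensor (permKer (KC.braidEquiv X.ob Y.ob)) (permKer (Equiv.refl _)))
        (Ker.comp I (permKer (KC.assocEquiv Y.ob X.ob Z.ob))
          (Ker.tensor (permKer (Equiv.refl _)) (permKer (KC.braidEquiv X.ob Z.ob))))
    rw [kd_tensor_perm, kd_tensor_perm, kd_comp_perm, kd_comp_perm, kd_comp_perm, kd_comp_perm]
    congr 1
    apply Equiv.ext
    rintro ((i | i) | i) <;> rfl
  hexagon_reverse X Y Z := by
    show Ker.comp I (permKer (KC.assocEquiv X.ob Y.ob Z.ob).symm)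
        (Ker.comp I (permKer (KC.braidEquiv (X.ob.tensor Y.ob) Z.ob))
          (permKer (KC.assocEquiv Z.ob X.ob Y.ob).symm)) =
      Ker.comp I (Ker.tensor (permKer (Equiv.refl _)) (permKer (KC.braidEquiv Y.ob Z.ob)))
        (Ker.comp I (permKer (KC.assocEquiv X.ob Z.ob Y.ob).symm)
          (Ker.tensor (permKer (KC.braidEquiv X.ob Z.ob)) (permKer (Equiv.refl _))))
    rw [kd_tensor_perm, kd_tensor_perm, kd_comp_perm, kd_comp_perm, kd_comp_perm, kd_comp_perm]
    congr 1
    apply Equiv.ext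
    rintro (i | (i | i)) <;> rfl

noncomputable instance : SymmetricCategory (KC I) where
  symmetry X Y := by
    show Ker.comp I (permKer (KC.braidEquiv X.ob Y.ob)) (permKer (KC.braidEquiv Y.ob X.ob)) =
      permKer (Equiv.refl _)
    rw [kd_comp_perm]
    congr 1
    apply Equiv.ext
    rintro (i | i) <;> rfl

/-- equality of the two components is invariant under permutations -/
lemma kd_fst_snd {X : Ob} (σ : Equiv.Perm ℕ) (y : (X.tensor X.dual).ix → ℕ) :
    (Ob.fst (σ ∘ y) = Ob.snd (σ ∘ y)) ↔ (Ob.fst y = Ob.snd y) := by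
  constructor
  · intro h
    funext i
    exact σ.injective (congrFun h i)
  · intro h
    funext i
    exact congrArg σ (congrFun h i)

lemma kd_fst_snd' {X : Ob} (σ : Equiv.Perm ℕ) (y : (X.dual.tensor X).ix → ℕ) :
    (Ob.fst (σ ∘ y) = Ob.snd (σ ∘ y)) ↔ (Ob.fst y = Ob.snd y) := by
  constructor
  · intro h
    funext i
    exact σ.injective (congrFun h i)
  · intro h
    funext i
    exact congrArg σ (congrFun h i)

open Classical in
/-- the coevaluation kernel -/
noncomputable def Ker.coev (X : Ob) : Ker F Ob.unit (X.tensor X.dual) where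
  f _ y := if Ob.fst y = Ob.snd y then 1 else 0
  sm := by
    refine ⟨0, fun σ _ x y => ?_⟩
    simp only [kd_fst_snd]

open Classical in
/-- the evaluation kernel -/
noncomputable def Ker.ev (X : Ob) : Ker F (X.dual.tensor X) Ob.unit where
  f y _ := if Ob.fst y = Ob.snd y then 1 else 0
  sm := by
    refine ⟨0, fun σ _ x y => ?_⟩
    simp only [kd_fst_snd']

lemma kd_coev_one {X : Ob} {x : Ob.unit.ix → ℕ} {y : (X.tensor X.dual).ix → ℕ}
    (h : Ob.fst y = Ob.snd y) : (Ker.coev (F := F) X).f x y = 1 := if_pos h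

lemma kd_coev_zero {X : Ob} {x : Ob.unit.ix → ℕ} {y : (X.tensor X.dual).ix → ℕ}
    (h : Ob.fst y ≠ Ob.snd y) : (Ker.coev (F := F) X).f x y = 0 := if_neg h

lemma kd_ev_one {X : Ob} {x : Ob.unit.ix → ℕ} {y : (X.dual.tensor X).ix → ℕ}
    (h : Ob.fst y = Ob.snd y) : (Ker.ev (F := F) X).f y x = 1 := if_pos h

lemma kd_ev_zero {X : Ob} {x : Ob.unit.ix → ℕ} {y : (X.dual.tensor X).ix → ℕ}
    (h : Ob.fst y ≠ Ob.snd y) : (Ker.ev (F := F) X).f y x = 0 := if_neg h

/-- a permutation which fixes small numbers fixes a point with small coordinates -/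
lemma kd_fix {J : Type} [Finite J] (x : J → ℕ) : ∃ N, ∀ N' : ℕ, N ≤ N' → ∀ σ : Equiv.Perm ℕ,
    (∀ n < N', σ n = n) → σ ∘ x = x := by
  classical
  have := Fintype.ofFinite J
  refine ⟨(Finset.univ.sup x) + 1, fun N' hN σ hσ => ?_⟩
  funext i
  apply hσ
  have : x i ≤ Finset.univ.sup x := Finset.le_sup (f := x) (Finset.mem_univ i)
  omega

/-- the integrand of a composition is smooth -/
lemma kd_sm {X Y Z : Ob} (K : Ker F X Y) (L : Ker F Y Z) (x : X.ix → ℕ) (z : Z.ix → ℕ) :
    ∃ N, Sm N (fun y => K.f x y * L.f y z) := by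
  obtain ⟨N1, h1⟩ := K.sm
  obtain ⟨N2, h2⟩ := L.sm
  obtain ⟨N3, h3⟩ := kd_fix x
  obtain ⟨N4, h4⟩ := kd_fix z
  refine ⟨max (max N1 N2) (max N3 N4), fun σ hσ y => ?_⟩
  have hx := h3 (max (max N1 N2) (max N3 N4)) (by omega) σ hσ
  have hz := h4 (max (max N1 N2) (max N3 N4)) (by omega) σ hσ
  have e1 := h1 σ (fun n hn => hσ n (by omega)) x y
  have e2 := h2 σ (fun n hn => hσ n (by omega)) y z
  rw [hx] at e1
  rw [hz] at e2
  simp only [e1, e2]

/-- a composition where only one intermediate point contributes -/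
lemma kd_comp_delta {X Y Z : Ob} (K : Ker F X Y) (L : Ker F Y Z) (x : X.ix → ℕ) (z : Z.ix → ℕ)
    (y0 : Y.ix → ℕ) (h : ∀ y, y ≠ y0 → K.f x y * L.f y z = 0) :
    (Ker.comp I K L).f x z = K.f x y0 * L.f y0 z := by
  obtain ⟨N, hN⟩ := kd_sm K L x z
  exact I.delta Y.ix N _ hN y0 h

/-- the point of a tensor product with given components -/
def kdPt {X Y : Ob} (a : X.ix → ℕ) (b : Y.ix → ℕ) : (X.tensor Y).ix → ℕ := Sum.elim a b

lemma kd_pt_ext {X Y : Ob} {y : (X.tensor Y).ix → ℕ} {a : X.ix → ℕ} {b : Y.ix → ℕ}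
    (h1 : Ob.fst y = a) (h2 : Ob.snd y = b) : y = kdPt a b := by
  funext i
  rcases i with i | i
  · exact congrFun h1 i
  · exact congrFun h2 i

lemma kd_triangle1 (X : Ob) :
    Ker.comp I (Ker.tensor (permKer (Equiv.refl X.dual.ix)) (Ker.coev X))
      (Ker.comp I (permKer (KC.assocEquiv X.dual X X.dual).symm)
        (Ker.tensor (Ker.ev X) (permKer (Equiv.refl X.dual.ix)))) =
      Ker.comp I (permKer (KC.rightEquiv X.dual)) (permKer (KC.leftEquiv X.dual).symm) := by
  rw [Ker.permKer_comp, kd_comp_perm]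
  apply Ker.ext
  funext x z
  have hK : ∀ y : (X.dual.tensor (X.tensor X.dual)).ix → ℕ,
      (Ker.tensor (permKer (F := F) (Equiv.refl X.dual.ix)) (Ker.coev X)).f x y =
      (permKer (Equiv.refl X.dual.ix)).f (Ob.fst x) (Ob.fst y) *
        (Ker.coev X).f (Ob.snd x) (Ob.snd y) := fun y => rfl
  have hL : ∀ y : (X.dual.tensor (X.tensor X.dual)).ix → ℕ,
      (Ker.tensor (Ker.ev (F := F) X) (permKer (Equiv.refl X.dual.ix))).f
        (y ∘ (KC.assocEquiv X.dual X X.dual).symm.symm) z =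
      (Ker.ev X).f (Ob.fst (y ∘ (KC.assocEquiv X.dual X X.dual).symm.symm)) (Ob.fst z) *
        (permKer (Equiv.refl X.dual.ix)).f
          (Ob.snd (y ∘ (KC.assocEquiv X.dual X X.dual).symm.symm)) (Ob.snd z) := fun y => rfl
  have hD : ∀ y : (X.dual.tensor (X.tensor X.dual)).ix → ℕ,
      Ob.fst (Ob.fst (y ∘ (KC.assocEquiv X.dual X X.dual).symm.symm)) = Ob.fst y ∧
      Ob.snd (Ob.fst (y ∘ (KC.assocEquiv X.dual X X.dual).symm.symm)) = Ob.fst (Ob.snd y) ∧
      Ob.snd (y ∘ (KC.assocEquiv X.dual X X.dual).symm.symm) = Ob.snd (Ob.snd y) :=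
    fun y => ⟨rfl, rfl, rfl⟩
  rw [kd_comp_delta _ _ x z (kdPt (Ob.fst x) (kdPt (X := X) (Y := X.dual) (Ob.fst x) (Ob.fst x)))]
  · have key : z ∘ ((KC.rightEquiv X.dual).trans (KC.leftEquiv X.dual).symm) = x ↔
        Ob.snd z = Ob.fst x := by
      constructor
      · intro h
        funext i
        exact congrFun h (Sum.inl i)
      · intro h
        funext i
        rcases i with i | i
        · exact congrFun h i
        · exact i.elim
    have e1 : (permKer (F := F) (Equiv.refl X.dual.ix)).f (Ob.fst x)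
        (Ob.fst (kdPt (X := X.dual) (Y := X.tensor X.dual) (Ob.fst x)
          (kdPt (X := X) (Y := X.dual) (Ob.fst x) (Ob.fst x)))) = 1 := kd_perm_one _ rfl
    have e2 : (Ker.coev (F := F) X).f (Ob.snd x)
        (Ob.snd (kdPt (X := X.dual) (Y := X.tensor X.dual) (Ob.fst x)
          (kdPt (X := X) (Y := X.dual) (Ob.fst x) (Ob.fst x)))) = 1 := kd_coev_one rfl
    have e3 : (Ker.ev (F := F) X).f (Ob.fst ((kdPt (X := X.dual) (Y := X.tensor X.dual) (Ob.fst x)
          (kdPt (X := X) (Y := X.dual) (Ob.fst x) (Ob.fst x))) ∘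
            (KC.assocEquiv X.dual X X.dual).symm.symm)) (Ob.fst z) = 1 := kd_ev_one rfl
    refine kd_perm_eq _ (fun h => ?_) (fun h => ?_)
    · have e4 : (permKer (F := F) (Equiv.refl X.dual.ix)).f
          (Ob.snd ((kdPt (X := X.dual) (Y := X.tensor X.dual) (Ob.fst x)
            (kdPt (X := X) (Y := X.dual) (Ob.fst x) (Ob.fst x))) ∘
            (KC.assocEquiv X.dual X X.dual).symm.symm)) (Ob.snd z) = 1 :=
        kd_perm_one _ (key.1 h)
      rw [hK, e1, e2]
      refine (congrArg _ (hL _)).trans ?_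
      rw [e3, e4]
      ring
    · have e4 : (permKer (F := F) (Equiv.refl X.dual.ix)).f
          (Ob.snd ((kdPt (X := X.dual) (Y := X.tensor X.dual) (Ob.fst x)
            (kdPt (X := X) (Y := X.dual) (Ob.fst x) (Ob.fst x))) ∘
            (KC.assocEquiv X.dual X X.dual).symm.symm)) (Ob.snd z) = 0 :=
        kd_perm_zero _ (fun h' => h (key.2 h'))
      rw [hK, e1, e2]
      refine (congrArg _ (hL _)).trans ?_
      rw [e3, e4]
      ring
  · intro y hy
    refine (congrArg₂ (· * ·) (hK y) (hL y)).trans ?_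
    by_cases c1 : Ob.fst y ∘ (Equiv.refl X.dual.ix) = Ob.fst x
    · by_cases c2 : Ob.fst (Ob.snd y) = Ob.snd (Ob.snd y)
      · by_cases c3 : Ob.fst (Ob.fst (y ∘ (KC.assocEquiv X.dual X X.dual).symm.symm)) =
            Ob.snd (Ob.fst (y ∘ (KC.assocEquiv X.dual X X.dual).symm.symm))
        · exfalso
          apply hy
          obtain ⟨d1, d2, d3⟩ := hD y
          have g1 : Ob.fst y = Ob.fst x := c1
          have g2 : Ob.fst (Ob.snd y) = Ob.fst x := by
            rw [← g1, ← d1, c3, d2]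
          have g3 : Ob.snd (Ob.snd y) = Ob.fst x := by
            rw [← g2]; exact c2.symm
          exact kd_pt_ext g1 (kd_pt_ext g2 g3)
        · simp only [kd_ev_zero c3, zero_mul, mul_zero]
      · simp only [kd_coev_zero c2, zero_mul, mul_zero]
    · simp only [kd_perm_zero _ c1, zero_mul]

lemma kd_triangle2 (X : Ob) :
    Ker.comp I (Ker.tensor (Ker.coev X) (permKer (Equiv.refl X.ix)))
      (Ker.comp I (permKer (KC.assocEquiv X X.dual X))
        (Ker.tensor (permKer (Equiv.refl X.ix)) (Ker.ev X))) =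
      Ker.comp I (permKer (KC.leftEquiv X)) (permKer (KC.rightEquiv X).symm) := by
  rw [Ker.permKer_comp, kd_comp_perm]
  apply Ker.ext
  funext x z
  have hK : ∀ y : ((X.tensor X.dual).tensor X).ix → ℕ,
      (Ker.tensor (Ker.coev (F := F) X) (permKer (Equiv.refl X.ix))).f x y =
      (Ker.coev X).f (Ob.fst x) (Ob.fst y) *
        (permKer (Equiv.refl X.ix)).f (Ob.snd x) (Ob.snd y) := fun y => rfl
  have hL : ∀ y : ((X.tensor X.dual).tensor X).ix → ℕ,
      (Ker.tensor (permKer (F := F) (Equiv.refl X.ix)) (Ker.ev X)).f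
        (y ∘ (KC.assocEquiv X X.dual X).symm) z =
      (permKer (Equiv.refl X.ix)).f
          (Ob.fst (y ∘ (KC.assocEquiv X X.dual X).symm)) (Ob.fst z) *
      (Ker.ev X).f (Ob.snd (y ∘ (KC.assocEquiv X X.dual X).symm)) (Ob.snd z) := fun y => rfl
  have hD : ∀ y : ((X.tensor X.dual).tensor X).ix → ℕ,
      Ob.fst (y ∘ (KC.assocEquiv X X.dual X).symm) = Ob.fst (Ob.fst y) ∧
      Ob.fst (Ob.snd (y ∘ (KC.assocEquiv X X.dual X).symm)) = Ob.snd (Ob.fst y) ∧
      Ob.snd (Ob.snd (y ∘ (KC.assocEquiv X X.dual X).symm)) = Ob.snd y :=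
    fun y => ⟨rfl, rfl, rfl⟩
  rw [kd_comp_delta _ _ x z (kdPt (kdPt (X := X) (Y := X.dual) (Ob.snd x) (Ob.snd x)) (Ob.snd x))]
  · have key : z ∘ ((KC.leftEquiv X).trans (KC.rightEquiv X).symm) = x ↔
        Ob.fst z = Ob.snd x := by
      constructor
      · intro h
        funext i
        exact congrFun h (Sum.inr i)
      · intro h
        funext i
        rcases i with i | i
        · exact i.elim
        · exact congrFun h i
    have e1 : (permKer (F := F) (Equiv.refl X.ix)).f (Ob.snd x)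
        (Ob.snd (kdPt (X := X.tensor X.dual) (Y := X)
          (kdPt (X := X) (Y := X.dual) (Ob.snd x) (Ob.snd x)) (Ob.snd x))) = 1 :=
      kd_perm_one _ rfl
    have e2 : (Ker.coev (F := F) X).f (Ob.fst x)
        (Ob.fst (kdPt (X := X.tensor X.dual) (Y := X)
          (kdPt (X := X) (Y := X.dual) (Ob.snd x) (Ob.snd x)) (Ob.snd x))) = 1 := kd_coev_one rfl
    have e3 : (Ker.ev (F := F) X).f (Ob.snd ((kdPt (X := X.tensor X.dual) (Y := X)
          (kdPt (X := X) (Y := X.dual) (Ob.snd x) (Ob.snd x)) (Ob.snd x)) ∘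
            (KC.assocEquiv X X.dual X).symm)) (Ob.snd z) = 1 := kd_ev_one rfl
    refine kd_perm_eq _ (fun h => ?_) (fun h => ?_)
    · have e4 : (permKer (F := F) (Equiv.refl X.ix)).f
          (Ob.fst ((kdPt (X := X.tensor X.dual) (Y := X)
          (kdPt (X := X) (Y := X.dual) (Ob.snd x) (Ob.snd x)) (Ob.snd x)) ∘
            (KC.assocEquiv X X.dual X).symm)) (Ob.fst z) = 1 :=
        kd_perm_one _ (key.1 h)
      rw [hK, e1, e2]
      refine (congrArg _ (hL _)).trans ?_
      rw [e3, e4]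
      ring
    · have e4 : (permKer (F := F) (Equiv.refl X.ix)).f
          (Ob.fst ((kdPt (X := X.tensor X.dual) (Y := X)
          (kdPt (X := X) (Y := X.dual) (Ob.snd x) (Ob.snd x)) (Ob.snd x)) ∘
            (KC.assocEquiv X X.dual X).symm)) (Ob.fst z) = 0 :=
        kd_perm_zero _ (fun h' => h (key.2 h'))
      rw [hK, e1, e2]
      refine (congrArg _ (hL _)).trans ?_
      rw [e3, e4]
      ring
  · intro y hy
    refine (congrArg₂ (· * ·) (hK y) (hL y)).trans ?_
    by_cases c1 : Ob.snd y ∘ (Equiv.refl X.ix) = Ob.snd x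
    · by_cases c2 : Ob.fst (Ob.fst y) = Ob.snd (Ob.fst y)
      · by_cases c3 : Ob.fst (Ob.snd (y ∘ (KC.assocEquiv X X.dual X).symm)) =
            Ob.snd (Ob.snd (y ∘ (KC.assocEquiv X X.dual X).symm))
        · exfalso
          apply hy
          obtain ⟨d1, d2, d3⟩ := hD y
          have g1 : Ob.snd y = Ob.snd x := c1
          have g2 : Ob.snd (Ob.fst y) = Ob.snd x := by
            rw [← g1, ← d3, ← c3, d2]
          have g3 : Ob.fst (Ob.fst y) = Ob.snd x := by
            rw [← g2]; exact c2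
          exact kd_pt_ext (kd_pt_ext g3 g2) g1
        · simp only [kd_ev_zero c3, mul_zero]
      · simp only [kd_coev_zero c2, zero_mul]
    · simp only [kd_perm_zero _ c1, zero_mul, mul_zero]

/-- the objects of the category of kernels are rigid -/
noncomputable def KC.exactPairing (X : KC I) : ExactPairing X (X.ob.dual : KC I) where
  coevaluation' := Ker.coev X.ob
  evaluation' := Ker.ev X.ob
  coevaluation_evaluation' := kd_triangle1 X.ob
  evaluation_coevaluation' := kd_triangle2 X.ob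

end Pool.Agent.H939.TT
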