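import Pool.Agent.H939.TT.KerCat

/-!
# The symmetric monoidal structure of the category of kernels
-/

namespace Pool.Agent.H939.TT

open CategoryTheory CategoryTheory.Limits CategoryTheory.MonoidalCategory

variable {F : Type} [Field F] {I : Integral F}

/-! ### Auxiliary lemmas -/

lemma kmon_perm_f {X Y : Ob} (e : X.ix ≃ Y.ix) (x : X.ix → ℕ) (y : Y.ix → ℕ) :
    (permKer e : Ker F X Y).f x y = open Classical in if y ∘ e = x then 1 else 0 := rfl

lemma kmon_perm_comp_perm {X Y Z : Ob} (e : X.ix ≃ Y.ix) (e' : Y.ix ≃ Z.ix) :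
    Ker.comp I (permKer e) (permKer e') = permKer (e.trans e') := by
  rw [Ker.permKer_comp]
  apply Ker.ext
  funext x z
  show (permKer e' : Ker F Y Z).f (x ∘ e.symm) z = (permKer (e.trans e') : Ker F X Z).f x z
  rw [kmon_perm_f, kmon_perm_f]
  have h : z ∘ e' = x ∘ e.symm ↔ z ∘ (e.trans e') = x := by
    constructor
    · intro h
      funext i
      have := congrFun h (e i)
      simpa using this
    · intro h
      rw [← h]
      funext i
      simp
  by_cases h1 : z ∘ e' = x ∘ e.symm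
  · rw [if_pos h1, if_pos (h.1 h1)]
  · rw [if_neg h1, if_neg (fun h2 => h1 (h.2 h2))]

/-- the values of a point are bounded -/
lemma kmon_bdd {X : Ob} (x : X.ix → ℕ) : ∃ N, ∀ i, x i < N := by
  obtain ⟨M, hM⟩ := (Set.finite_range x).bddAbove
  exact ⟨M + 1, fun i => Nat.lt_succ_of_le (hM ⟨i, rfl⟩)⟩

lemma kmon_fix {X : Ob} {x : X.ix → ℕ} {N : ℕ} (hx : ∀ i, x i < N) {σ : Equiv.Perm ℕ}
    (hσ : ∀ n < N, σ n = n) : σ ∘ x = x := funext fun i => hσ _ (hx i)

/-- the integrand of a composite is smooth -/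
lemma kmon_sm {X Y Z : Ob} (K : Ker F X Y) (L : Ker F Y Z) (x : X.ix → ℕ) (z : Z.ix → ℕ) :
    ∃ N, Sm N (fun y => K.f x y * L.f y z) := by
  obtain ⟨N₁, h₁⟩ := K.sm
  obtain ⟨N₂, h₂⟩ := L.sm
  obtain ⟨N₃, h₃⟩ := kmon_bdd x
  obtain ⟨N₄, h₄⟩ := kmon_bdd z
  refine ⟨max (max N₁ N₂) (max N₃ N₄), fun σ hσ y => ?_⟩
  have k₁ : K.f x (σ ∘ y) = K.f x y := by
    have := h₁ σ (fun n hn => hσ n (by omega)) x y
    rwa [kmon_fix h₃ (fun n hn => hσ n (by omega))] at this
  have k₂ : L.f (σ ∘ y) z = L.f y z := by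
    have := h₂ σ (fun n hn => hσ n (by omega)) y z
    rwa [kmon_fix h₄ (fun n hn => hσ n (by omega))] at this
  show K.f x (σ ∘ y) * L.f (σ ∘ y) z = K.f x y * L.f y z
  rw [k₁, k₂]

/-- the isomorphism of kernels given by a bijection of the points -/
@[simps] noncomputable def KC.permIso {X Y : KC I} (e : X.ob.ix ≃ Y.ob.ix) : X ≅ Y where
  hom := permKer e
  inv := permKer e.symm
  hom_inv_id := by
    show Ker.comp I (permKer e) (permKer e.symm) = permKer (Equiv.refl _)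
    rw [kmon_perm_comp_perm, Equiv.self_trans_symm]
  inv_hom_id := by
    show Ker.comp I (permKer e.symm) (permKer e) = permKer (Equiv.refl _)
    rw [kmon_perm_comp_perm, Equiv.symm_trans_self]

/-- tensor product of kernels -/
def Ker.tensor {X X' Y Y' : Ob} (K : Ker F X Y) (L : Ker F X' Y') :
    Ker F (X.tensor X') (Y.tensor Y') where
  f x y := K.f (Ob.fst x) (Ob.fst y) * L.f (Ob.snd x) (Ob.snd y)
  sm := by
    obtain ⟨N₁, h₁⟩ := K.sm
    obtain ⟨N₂, h₂⟩ := L.sm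
    refine ⟨max N₁ N₂, fun σ hσ x y => ?_⟩
    show K.f (σ ∘ Ob.fst x) (σ ∘ Ob.fst y) * L.f (σ ∘ Ob.snd x) (σ ∘ Ob.snd y) = _
    rw [h₁ σ (fun n hn => hσ n (by omega)), h₂ σ (fun n hn => hσ n (by omega))]

lemma Ker.tensor_comp {X X' Y Y' Z Z' : Ob} (K : Ker F X Y) (L : Ker F X' Y') (K' : Ker F Y Z)
    (L' : Ker F Y' Z') :
    Ker.comp I (K.tensor L) (K'.tensor L') = (Ker.comp I K K').tensor (Ker.comp I L L') := by
  apply Ker.ext
  funext x z
  obtain ⟨N₁, h₁⟩ := kmon_sm (K.tensor L) (K'.tensor L') x z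
  obtain ⟨N₂, h₂⟩ := kmon_sm K K' (Ob.fst x) (Ob.fst z)
  obtain ⟨N₃, h₃⟩ := kmon_sm L L' (Ob.snd x) (Ob.snd z)
  have e1 := I.fubini Y.ix Y'.ix N₁
    (fun y : (Y.tensor Y').ix → ℕ => (K.tensor L).f x y * (K'.tensor L').f y z) h₁
  show I.int (Y.ix ⊕ Y'.ix)
    (fun y : (Y.tensor Y').ix → ℕ => (K.tensor L).f x y * (K'.tensor L').f y z) =
    I.int Y.ix (fun y => K.f (Ob.fst x) y * K'.f y (Ob.fst z)) *
      I.int Y'.ix (fun y => L.f (Ob.snd x) y * L'.f y (Ob.snd z))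
  rw [← e1]
  have e2 : ∀ y : Y.ix → ℕ, I.int Y'.ix (fun y' : Y'.ix → ℕ =>
      (K.tensor L).f x (Sum.elim y y') * (K'.tensor L').f (Sum.elim y y') z) =
      I.int Y'.ix (fun y => L.f (Ob.snd x) y * L'.f y (Ob.snd z)) *
        (K.f (Ob.fst x) y * K'.f y (Ob.fst z)) := by
    intro y
    rw [mul_comm, ← I.smul Y'.ix N₃ _ _ h₃]
    congr 1
    funext y'
    show K.f (Ob.fst x) y * L.f (Ob.snd x) y' * (K'.f y (Ob.fst z) * L'.f y' (Ob.snd z)) = _
    ring
  have e3 : (fun y : Y.ix → ℕ => I.int Y'.ix (fun y' : Y'.ix → ℕ =>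
      (K.tensor L).f x (Sum.elim y y') * (K'.tensor L').f (Sum.elim y y') z)) =
      fun y : Y.ix → ℕ => I.int Y'.ix (fun y => L.f (Ob.snd x) y * L'.f y (Ob.snd z)) *
        (K.f (Ob.fst x) y * K'.f y (Ob.fst z)) := funext e2
  rw [e3, I.smul Y.ix N₂ _ _ h₂, mul_comm]

/-- the tensor product is additive in the first variable -/
lemma Ker.inv_tensor {X X' Y Y' : Ob} {K : Ker F X Y} {L : Ker F X' Y'} {N : ℕ}
    (hK : Inv N K.f) (hL : Inv N L.f) : Inv N (K.tensor L).f := by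
  intro σ hσ x y
  show K.f (σ ∘ Ob.fst x) (σ ∘ Ob.fst y) * L.f (σ ∘ Ob.snd x) (σ ∘ Ob.snd y) = _
  rw [hK σ hσ, hL σ hσ]
  rfl

/-- the bijection of a tensor product of permutation kernels -/
def kmon_sum {X X' Y Y' : Ob} (e : X.ix ≃ Y.ix) (e' : X'.ix ≃ Y'.ix) :
    (X.tensor X').ix ≃ (Y.tensor Y').ix := Equiv.sumCongr e e'

lemma kmon_tensor_perm {X X' Y Y' : Ob} (e : X.ix ≃ Y.ix) (e' : X'.ix ≃ Y'.ix) :
    Ker.tensor (permKer e : Ker F X Y) (permKer e') = permKer (kmon_sum e e') := by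
  apply Ker.ext
  funext x z
  show (permKer e : Ker F X Y).f (Ob.fst x) (Ob.fst z) *
    (permKer e' : Ker F X' Y').f (Ob.snd x) (Ob.snd z) =
      (permKer (kmon_sum e e') : Ker F (X.tensor X') (Y.tensor Y')).f x z
  rw [kmon_perm_f, kmon_perm_f, kmon_perm_f]
  have h : z ∘ (kmon_sum e e') = x ↔ Ob.fst z ∘ e = Ob.fst x ∧ Ob.snd z ∘ e' = Ob.snd x := by
    constructor
    · intro h
      rw [← h]
      exact ⟨rfl, rfl⟩
    · rintro ⟨h1, h2⟩
      funext i
      rcases i with i | i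
      · exact congrFun h1 i
      · exact congrFun h2 i
  by_cases h1 : Ob.fst z ∘ e = Ob.fst x
  · by_cases h2 : Ob.snd z ∘ e' = Ob.snd x
    · rw [if_pos h1, if_pos h2, if_pos (h.2 ⟨h1, h2⟩), mul_one]
    · rw [if_pos h1, if_neg h2, if_neg (fun h3 => h2 (h.1 h3).2), mul_zero]
  · rw [if_neg h1, if_neg (fun h3 => h1 (h.1 h3).1), zero_mul]

/-- the bijection of the associator -/
def KC.assocEquiv (X Y Z : Ob) : ((X.tensor Y).tensor Z).ix ≃ (X.tensor (Y.tensor Z)).ix :=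
  Equiv.sumAssoc X.ix Y.ix Z.ix

/-- the bijection of the left unitor -/
def KC.leftEquiv (X : Ob) : (Ob.unit.tensor X).ix ≃ X.ix := Equiv.emptySum Empty X.ix

/-- the bijection of the right unitor -/
def KC.rightEquiv (X : Ob) : (X.tensor Ob.unit).ix ≃ X.ix := Equiv.sumEmpty X.ix Empty

/-- the bijection of the braiding -/
def KC.braidEquiv (X Y : Ob) : (X.tensor Y).ix ≃ (Y.tensor X).ix := Equiv.sumComm X.ix Y.ix

noncomputable instance : MonoidalCategoryStruct (KC I) where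
  tensorObj X Y := X.ob.tensor Y.ob
  whiskerLeft X _ _ g := Ker.tensor (permKer (Equiv.refl _)) g
  whiskerRight f Y := Ker.tensor f (permKer (Equiv.refl _))
  tensorHom f g := Ker.tensor f g
  tensorUnit := Ob.unit
  associator X Y Z := KC.permIso (KC.assocEquiv X.ob Y.ob Z.ob)
  leftUnitor X := KC.permIso (KC.leftEquiv X.ob)
  rightUnitor X := KC.permIso (KC.rightEquiv X.ob)

noncomputable instance : MonoidalCategory (KC I) := MonoidalCategory.ofTensorHom
  (id_tensorHom_id := fun X Y => by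
    show Ker.tensor (permKer (Equiv.refl _) : Ker F X.ob X.ob) (permKer (Equiv.refl _)) =
      permKer (Equiv.refl (X.ob.tensor Y.ob).ix)
    rw [kmon_tensor_perm]
    congr 1
    exact Equiv.sumCongr_refl)
  (id_tensorHom := fun _ _ _ _ => rfl)
  (tensorHom_id := fun _ _ => rfl)
  (tensorHom_comp_tensorHom := fun f₁ f₂ g₁ g₂ => Ker.tensor_comp f₁ f₂ g₁ g₂)
  (associator_naturality := fun {X₁ X₂ X₃ Y₁ Y₂ Y₃} f g h => by
    show Ker.comp I (Ker.tensor (Ker.tensor f g) h) (permKer (KC.assocEquiv Y₁.ob Y₂.ob Y₃.ob)) =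
      Ker.comp I (permKer (KC.assocEquiv X₁.ob X₂.ob X₃.ob)) (Ker.tensor f (Ker.tensor g h))
    rw [Ker.comp_permKer, Ker.permKer_comp]
    apply Ker.ext
    funext x z
    exact mul_assoc _ _ _)
  (leftUnitor_naturality := fun {X Y} f => by
    show Ker.comp I (Ker.tensor (permKer (Equiv.refl _) : Ker F Ob.unit Ob.unit) f)
      (permKer (KC.leftEquiv Y.ob)) = Ker.comp I (permKer (KC.leftEquiv X.ob)) f
    rw [Ker.comp_permKer, Ker.permKer_comp]
    apply Ker.ext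
    funext x z
    show (permKer (Equiv.refl _) : Ker F Ob.unit Ob.unit).f (Ob.fst x) _ *
      Ker.f f (Ob.snd x) z = Ker.f f (Ob.snd x) z
    rw [kmon_perm_f, if_pos (funext fun i => isEmptyElim i), one_mul])
  (rightUnitor_naturality := fun {X Y} f => by
    show Ker.comp I (Ker.tensor f (permKer (Equiv.refl _) : Ker F Ob.unit Ob.unit))
      (permKer (KC.rightEquiv Y.ob)) = Ker.comp I (permKer (KC.rightEquiv X.ob)) f
    rw [Ker.comp_permKer, Ker.permKer_comp]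
    apply Ker.ext
    funext x z
    show Ker.f f (Ob.fst x) z * (permKer (Equiv.refl _) : Ker F Ob.unit Ob.unit).f (Ob.snd x) _ =
      Ker.f f (Ob.fst x) z
    rw [kmon_perm_f, if_pos (funext fun i => isEmptyElim i), mul_one])
  (pentagon := fun W X Y Z => by
    show Ker.comp I (Ker.tensor (permKer (KC.assocEquiv W.ob X.ob Y.ob)) (permKer (Equiv.refl _)))
      (Ker.comp I (permKer (KC.assocEquiv W.ob (X.ob.tensor Y.ob) Z.ob))
        (Ker.tensor (permKer (Equiv.refl _)) (permKer (KC.assocEquiv X.ob Y.ob Z.ob)))) =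
      Ker.comp I (permKer (KC.assocEquiv (W.ob.tensor X.ob) Y.ob Z.ob))
        (permKer (KC.assocEquiv W.ob X.ob (Y.ob.tensor Z.ob)))
    rw [kmon_tensor_perm, kmon_tensor_perm, kmon_perm_comp_perm, kmon_perm_comp_perm,
      kmon_perm_comp_perm]
    congr 1
    apply Equiv.ext
    rintro (((i | i) | i) | i) <;> rfl)
  (triangle := fun X Y => by
    show Ker.comp I (permKer (KC.assocEquiv X.ob Ob.unit Y.ob))
      (Ker.tensor (permKer (Equiv.refl _)) (permKer (KC.leftEquiv Y.ob))) =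
      Ker.tensor (permKer (KC.rightEquiv X.ob)) (permKer (Equiv.refl _))
    rw [kmon_tensor_perm, kmon_tensor_perm, kmon_perm_comp_perm]
    congr 1
    apply Equiv.ext
    rintro ((i | i) | i)
    · rfl
    · exact isEmptyElim i
    · rfl)

lemma KC.tensorHom_ker {X X' Y Y' : KC I} (K : X ⟶ Y) (L : X' ⟶ Y')
    (x : (X.ob.tensor X'.ob).ix → ℕ) (y : (Y.ob.tensor Y'.ob).ix → ℕ) :
    KC.ker (K ⊗ₘ L) x y = KC.ker K (Ob.fst x) (Ob.fst y) * KC.ker L (Ob.snd x) (Ob.snd y) := rfl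

instance : MonoidalPreadditive (KC I) where
  whiskerLeft_zero {X Y Z} := KC.hom_ext fun _ _ => mul_zero _
  zero_whiskerRight {X Y Z} := KC.hom_ext fun _ _ => zero_mul _
  whiskerLeft_add {X Y Z} f g := KC.hom_ext fun _ _ => mul_add _ _ _
  add_whiskerRight {X Y Z} f g := KC.hom_ext fun _ _ => add_mul _ _ _

end Pool.Agent.H939.TT
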