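import Pool.Agent.H939.TT.DCat

/-!
# Wide subcategories of preadditive categories
-/

namespace Pool.Agent.H939.TT

open CategoryTheory CategoryTheory.Limits CategoryTheory.MonoidalCategory

universe v u

variable {C : Type u} [Category.{v} C] [Preadditive C]

/-- Classes of morphisms closed under addition. -/
class AddClosed (P : MorphismProperty C) : Prop where
  zero_mem : ∀ X Y : C, P (0 : X ⟶ Y)
  add_mem : ∀ {X Y : C} (f g : X ⟶ Y), P f → P g → P (f + g)
  neg_mem : ∀ {X Y : C} (f : X ⟶ Y), P f → P (-f)

/-- Classes of morphisms closed under multiplication by scalars. -/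
class SmulClosed (F : Type*) [Field F] [Linear F C] (P : MorphismProperty C) : Prop where
  smul_mem : ∀ (c : F) {X Y : C} (f : X ⟶ Y), P f → P (c • f)

variable (P : MorphismProperty C) [P.IsMultiplicative] [AddClosed P]

instance (X Y : WideSubcategory P) : Add (X ⟶ Y) :=
  ⟨fun f g => ⟨f.hom + g.hom, AddClosed.add_mem _ _ f.property g.property⟩⟩
instance (X Y : WideSubcategory P) : Zero (X ⟶ Y) := ⟨⟨0, AddClosed.zero_mem _ _⟩⟩
instance (X Y : WideSubcategory P) : Neg (X ⟶ Y) :=
  ⟨fun f => ⟨-f.hom, AddClosed.neg_mem _ f.property⟩⟩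
instance (X Y : WideSubcategory P) : Sub (X ⟶ Y) :=
  ⟨fun f g => ⟨f.hom - g.hom, by
    rw [sub_eq_add_neg]
    exact AddClosed.add_mem _ _ f.property (AddClosed.neg_mem _ g.property)⟩⟩

instance (X Y : WideSubcategory P) : AddCommGroup (X ⟶ Y) where
  add_assoc f g h := WideSubcategory.hom_ext P (add_assoc _ _ _)
  zero_add f := WideSubcategory.hom_ext P (zero_add _)
  add_zero f := WideSubcategory.hom_ext P (add_zero _)
  neg_add_cancel f := WideSubcategory.hom_ext P (neg_add_cancel _)
  add_comm f g := WideSubcategory.hom_ext P (add_comm _ _)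
  sub_eq_add_neg f g := WideSubcategory.hom_ext P (sub_eq_add_neg _ _)
  nsmul := nsmulRec
  zsmul := zsmulRec

instance : Preadditive (WideSubcategory P) where
  add_comp X Y Z f g h := WideSubcategory.hom_ext P (Preadditive.add_comp _ _ _ _ _ _)
  comp_add X Y Z f g h := WideSubcategory.hom_ext P (Preadditive.comp_add _ _ _ _ _ _)

@[simp] lemma wide_add_hom {X Y : WideSubcategory P} (f g : X ⟶ Y) :
    (f + g).hom = f.hom + g.hom := rfl
@[simp] lemma wide_zero_hom {X Y : WideSubcategory P} : (0 : X ⟶ Y).hom = 0 := rfl

instance : (wideSubcategoryInclusion P).Additive where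
  map_add := rfl

instance [CharTwo C] : CharTwo (WideSubcategory P) where
  add_self f := WideSubcategory.hom_ext P (add_self' f.hom)

section Linear

variable {F : Type*} [Field F] [Linear F C] [SmulClosed F P]

instance (X Y : WideSubcategory P) : Module F (X ⟶ Y) where
  smul c f := ⟨c • f.hom, SmulClosed.smul_mem c _ f.property⟩
  one_smul f := WideSubcategory.hom_ext P (one_smul _ _)
  mul_smul c d f := WideSubcategory.hom_ext P (mul_smul _ _ _)
  smul_zero c := WideSubcategory.hom_ext P (smul_zero _)
  smul_add c f g := WideSubcategory.hom_ext P (smul_add _ _ _)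
  add_smul c d f := WideSubcategory.hom_ext P (add_smul _ _ _)
  zero_smul f := WideSubcategory.hom_ext P (zero_smul _ _)

@[simp] lemma wide_smul_hom {X Y : WideSubcategory P} (c : F) (f : X ⟶ Y) :
    (c • f).hom = c • f.hom := rfl

instance : Linear F (WideSubcategory P) where
  smul_comp _ _ _ c f g := WideSubcategory.hom_ext P (Linear.smul_comp _ _ _ _ _ _)
  comp_smul _ _ _ f c g := WideSubcategory.hom_ext P (Linear.comp_smul _ _ _ _ _ _)

end Linear

section Monoidal

variable [MonoidalCategory C] [MonoidalPreadditive C] [P.IsMonoidalStable]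

instance : MonoidalPreadditive (WideSubcategory P) where
  whiskerLeft_zero := WideSubcategory.hom_ext P MonoidalPreadditive.whiskerLeft_zero
  zero_whiskerRight := WideSubcategory.hom_ext P MonoidalPreadditive.zero_whiskerRight
  whiskerLeft_add _ _ := WideSubcategory.hom_ext P (MonoidalPreadditive.whiskerLeft_add _ _)
  add_whiskerRight _ _ := WideSubcategory.hom_ext P (MonoidalPreadditive.add_whiskerRight _ _)

end Monoidal

end Pool.Agent.H939.TT
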