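import Pool.Agent.H939.TT.KerDual
import Pool.Agent.H939.TT.Wide
import Pool.Agent.H939.TT.ProdCat

/-!
# The categories `Kap`, `Eta` and `Tee`

Three classes of kernels:
* `Kap`: invariant under all permutations, preserving the divisor and the degree;
* `Eta`: invariant under the permutations which fix `0`, preserving `div + deg • [0]`;
* `Tee`: kernels in `Eta` which do not decrease the degree, and whose degree preserving part is
  invariant under all permutations.
-/

namespace Pool.Agent.H939.TT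

open CategoryTheory CategoryTheory.Limits CategoryTheory.MonoidalCategory

variable {F : Type} [Field F] {I : Integral F}

/-- the divisor of a point of a power of `Ω` -/
def Ob.div (X : Ob) (x : X.ix → ℕ) : ℕ → ℤ := fun n => ∑ i, if x i = n then X.w i else 0

/-- the class of the kernels of `Kap` -/
def IsKap {X Y : Ob} (K : (X.ix → ℕ) → (Y.ix → ℕ) → F) : Prop :=
  Inv 0 K ∧ ∀ x y, K x y ≠ 0 → X.div x = Y.div y ∧ X.deg = Y.deg

/-- the class of the kernels of `Eta` -/
def IsEta {X Y : Ob} (K : (X.ix → ℕ) → (Y.ix → ℕ) → F) : Prop :=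
  Inv 1 K ∧ ∀ x y, K x y ≠ 0 → ∀ n : ℕ, X.div x n + (if n = 0 then X.deg else 0) =
    Y.div y n + (if n = 0 then Y.deg else 0)

/-- the class of the kernels of `Tee` -/
def IsTee {X Y : Ob} (K : (X.ix → ℕ) → (Y.ix → ℕ) → F) : Prop :=
  IsEta K ∧ (∀ x y, K x y ≠ 0 → X.deg ≤ Y.deg) ∧ (X.deg = Y.deg → Inv 0 K)

lemma IsKap.isTee {X Y : Ob} {K : (X.ix → ℕ) → (Y.ix → ℕ) → F} (h : IsKap K) : IsTee K := by
  refine ⟨⟨fun σ _ x y => h.1 σ (fun n hn => absurd hn (Nat.not_lt_zero n)) x y, fun x y h1 n => ?_⟩,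
    fun x y h1 => (h.2 x y h1).2.le, fun _ => h.1⟩
  rw [(h.2 x y h1).1, (h.2 x y h1).2]

/-! ### Auxiliary lemmas -/

lemma ks_inv_zero {N : ℕ} {J L : Type} {K : (J → ℕ) → (L → ℕ) → F} (h : ∀ x y, K x y = 0) :
    Inv N K := fun σ _ x y => by rw [h, h]

lemma ks_comp_ne {X Y Z : Ob} {K : Ker F X Y} {L : Ker F Y Z} {x : X.ix → ℕ} {z : Z.ix → ℕ}
    (h : (Ker.comp I K L).f x z ≠ 0) : ∃ y, K.f x y ≠ 0 ∧ L.f y z ≠ 0 := by
  by_contra hc
  push Not at hc
  apply h
  have h1 : ∀ y, K.f x y * L.f y z = 0 := by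
    intro y
    by_cases hy : K.f x y = 0
    · rw [hy, zero_mul]
    · rw [hc y hy, mul_zero]
  have h2 : (Ker.comp I K L).f x z = I.int Y.ix (fun y => (0 : F) * (fun _ => (0 : F)) y) := by
    show I.int Y.ix (fun y => K.f x y * L.f y z) = _
    congr 1
    funext y
    rw [h1 y, zero_mul]
  rw [h2, I.smul Y.ix 0 0 (fun _ => 0) (fun σ _ y => rfl), zero_mul]

lemma ks_tensor_ne {X X' Y Y' : Ob} {K : Ker F X Y} {L : Ker F X' Y'}
    {x : (X.tensor X').ix → ℕ} {y : (Y.tensor Y').ix → ℕ} (h : (K.tensor L).f x y ≠ 0) :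
    K.f (Ob.fst x) (Ob.fst y) ≠ 0 ∧ L.f (Ob.snd x) (Ob.snd y) ≠ 0 := by
  have h1 : K.f (Ob.fst x) (Ob.fst y) * L.f (Ob.snd x) (Ob.snd y) ≠ 0 := h
  exact ⟨left_ne_zero_of_mul h1, right_ne_zero_of_mul h1⟩

lemma ks_div_tensor (X Y : Ob) (x : (X.tensor Y).ix → ℕ) (n : ℕ) :
    (X.tensor Y).div x n = X.div (Ob.fst x) n + Y.div (Ob.snd x) n := by
  have h : ∀ f : X.ix ⊕ Y.ix → ℤ,
      (@Finset.sum (Code.sum X.code Y.code).El ℤ _ (@Finset.univ _ (Code.fintype (.sum X.code Y.code))) f) =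
      (∑ i, f (Sum.inl i)) + ∑ i, f (Sum.inr i) := by
    intro f
    exact Fintype.sum_sum_type f
  exact h _

lemma ks_div_dual (X : Ob) (x : X.ix → ℕ) (n : ℕ) : X.dual.div x n = - X.div x n := by
  unfold Ob.div
  rw [← Finset.sum_neg_distrib]
  apply Finset.sum_congr rfl
  intro i _
  by_cases h : x i = n
  · rw [if_pos h, if_pos h]
    rfl
  · rw [if_neg h, if_neg h, neg_zero]

lemma ks_div_unit (x : Ob.unit.ix → ℕ) (n : ℕ) : Ob.unit.div x n = 0 := by
  unfold Ob.div
  apply Finset.sum_eq_zero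
  intro i _
  exact isEmptyElim i

/-- the kernels of the structural isomorphisms are in `Kap` -/
lemma ks_perm {X Y : Ob} (e : X.ix ≃ Y.ix) (hw : ∀ i, Y.w (e i) = X.w i) (hd : X.deg = Y.deg) :
    IsKap (permKer (F := F) e).f := by
  classical
  constructor
  · intro σ _ x y
    have h : (σ ∘ y) ∘ e = σ ∘ x ↔ y ∘ e = x := by
      constructor
      · intro h
        funext i
        exact σ.injective (congrFun h i)
      · rintro rfl
        rfl
    show (if (σ ∘ y) ∘ e = σ ∘ x then (1 : F) else 0) = if y ∘ e = x then 1 else 0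
    by_cases h1 : y ∘ e = x
    · rw [if_pos h1, if_pos (h.mpr h1)]
    · rw [if_neg h1, if_neg (fun h2 => h1 (h.mp h2))]
  · intro x y h
    have h1 : y ∘ e = x := by
      by_contra hc
      exact h (if_neg hc)
    refine ⟨?_, hd⟩
    funext n
    unfold Ob.div
    rw [← Equiv.sum_comp e (fun j => if y j = n then Y.w j else 0)]
    apply Finset.sum_congr rfl
    intro i _
    rw [← h1, hw i]
    rfl

lemma ks_kap_comp {X Y Z : Ob} {K : Ker F X Y} {L : Ker F Y Z} (hK : IsKap K.f) (hL : IsKap L.f) :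
    IsKap (Ker.comp I K L).f := by
  refine ⟨Ker.inv_comp hK.1 hL.1, fun x z h => ?_⟩
  obtain ⟨y, h1, h2⟩ := ks_comp_ne h
  exact ⟨(hK.2 x y h1).1.trans (hL.2 y z h2).1, (hK.2 x y h1).2.trans (hL.2 y z h2).2⟩

lemma ks_eta_comp {X Y Z : Ob} {K : Ker F X Y} {L : Ker F Y Z} (hK : IsEta K.f) (hL : IsEta L.f) :
    IsEta (Ker.comp I K L).f := by
  refine ⟨Ker.inv_comp hK.1 hL.1, fun x z h n => ?_⟩
  obtain ⟨y, h1, h2⟩ := ks_comp_ne h
  exact (hK.2 x y h1 n).trans (hL.2 y z h2 n)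

lemma ks_tee_comp {X Y Z : Ob} {K : Ker F X Y} {L : Ker F Y Z} (hK : IsTee K.f) (hL : IsTee L.f) :
    IsTee (Ker.comp I K L).f := by
  refine ⟨ks_eta_comp hK.1 hL.1, fun x z h => ?_, fun h => ?_⟩
  · obtain ⟨y, h1, h2⟩ := ks_comp_ne h
    exact (hK.2.1 x y h1).trans (hL.2.1 y z h2)
  · by_cases h1 : X.deg = Y.deg
    · exact Ker.inv_comp (hK.2.2 h1) (hL.2.2 (h1.symm.trans h))
    · apply ks_inv_zero
      intro x z
      by_contra hc
      obtain ⟨y, h2, h3⟩ := ks_comp_ne hc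
      have h4 := hK.2.1 x y h2
      have h5 := hL.2.1 y z h3
      omega

lemma ks_kap_tensor {X X' Y Y' : Ob} {K : Ker F X Y} {L : Ker F X' Y'} (hK : IsKap K.f)
    (hL : IsKap L.f) : IsKap (K.tensor L).f := by
  refine ⟨Ker.inv_tensor hK.1 hL.1, fun x y h => ?_⟩
  obtain ⟨h1, h2⟩ := ks_tensor_ne h
  refine ⟨?_, ?_⟩
  · funext n
    rw [ks_div_tensor, ks_div_tensor, (hK.2 _ _ h1).1, (hL.2 _ _ h2).1]
  · show X.deg + X'.deg = Y.deg + Y'.deg
    rw [(hK.2 _ _ h1).2, (hL.2 _ _ h2).2]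

lemma ks_eta_tensor {X X' Y Y' : Ob} {K : Ker F X Y} {L : Ker F X' Y'} (hK : IsEta K.f)
    (hL : IsEta L.f) : IsEta (K.tensor L).f := by
  refine ⟨Ker.inv_tensor hK.1 hL.1, fun x y h n => ?_⟩
  obtain ⟨h1, h2⟩ := ks_tensor_ne h
  have h3 := hK.2 _ _ h1 n
  have h4 := hL.2 _ _ h2 n
  rw [ks_div_tensor, ks_div_tensor]
  show _ + (if n = 0 then X.deg + X'.deg else 0) = _ + (if n = 0 then Y.deg + Y'.deg else 0)
  by_cases hn : n = 0
  · rw [if_pos hn] at h3 h4 ⊢
    rw [if_pos hn] at h3 h4 ⊢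
    omega
  · rw [if_neg hn] at h3 h4 ⊢
    rw [if_neg hn] at h3 h4 ⊢
    omega

lemma ks_tee_tensor {X X' Y Y' : Ob} {K : Ker F X Y} {L : Ker F X' Y'} (hK : IsTee K.f)
    (hL : IsTee L.f) : IsTee (K.tensor L).f := by
  refine ⟨ks_eta_tensor hK.1 hL.1, fun x y h => ?_, fun h => ?_⟩
  · obtain ⟨h1, h2⟩ := ks_tensor_ne h
    exact add_le_add (hK.2.1 _ _ h1) (hL.2.1 _ _ h2)
  · have h' : X.deg + X'.deg = Y.deg + Y'.deg := h
    by_cases h1 : X.deg = Y.deg
    · exact Ker.inv_tensor (hK.2.2 h1) (hL.2.2 (by omega))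
    · apply ks_inv_zero
      intro x y
      by_contra hc
      obtain ⟨h2, h3⟩ := ks_tensor_ne hc
      have h4 := hK.2.1 _ _ h2
      have h5 := hL.2.1 _ _ h3
      omega

lemma ks_id (X : Ob) : IsKap (permKer (F := F) (Equiv.refl X.ix)).f :=
  ks_perm _ (fun _ => rfl) rfl

lemma ks_assoc (X Y Z : Ob) : IsKap (permKer (F := F) (KC.assocEquiv X Y Z)).f := by
  apply ks_perm
  · rintro ((i | i) | i) <;> rfl
  · show X.deg + Y.deg + Z.deg = X.deg + (Y.deg + Z.deg)
    omega

lemma ks_assoc' (X Y Z : Ob) : IsKap (permKer (F := F) (KC.assocEquiv X Y Z).symm).f := by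
  apply ks_perm
  · rintro (i | (i | i)) <;> rfl
  · show X.deg + (Y.deg + Z.deg) = X.deg + Y.deg + Z.deg
    omega

lemma ks_left (X : Ob) : IsKap (permKer (F := F) (KC.leftEquiv X)).f := by
  apply ks_perm
  · rintro (i | i)
    · exact i.elim
    · rfl
  · show 0 + X.deg = X.deg
    omega

lemma ks_left' (X : Ob) : IsKap (permKer (F := F) (KC.leftEquiv X).symm).f := by
  apply ks_perm
  · intro i
    rfl
  · show X.deg = 0 + X.deg
    omega

lemma ks_right (X : Ob) : IsKap (permKer (F := F) (KC.rightEquiv X)).f := by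
  apply ks_perm
  · rintro (i | i)
    · rfl
    · exact i.elim
  · show X.deg + 0 = X.deg
    omega

lemma ks_right' (X : Ob) : IsKap (permKer (F := F) (KC.rightEquiv X).symm).f := by
  apply ks_perm
  · intro i
    rfl
  · show X.deg = X.deg + 0
    omega

lemma ks_braid (X Y : Ob) : IsKap (permKer (F := F) (KC.braidEquiv X Y)).f := by
  apply ks_perm
  · rintro (i | i) <;> rfl
  · show X.deg + Y.deg = Y.deg + X.deg
    omega

lemma ks_braid' (X Y : Ob) : IsKap (permKer (F := F) (KC.braidEquiv X Y).symm).f := by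
  apply ks_perm
  · rintro (i | i) <;> rfl
  · show Y.deg + X.deg = X.deg + Y.deg
    omega

lemma ks_coev (X : Ob) : IsKap (Ker.coev (F := F) X).f := by
  classical
  constructor
  · intro σ _ x y
    have h : Ob.fst (X := X) (Y := X.dual) (σ ∘ y) = Ob.snd (X := X) (Y := X.dual) (σ ∘ y) ↔
        Ob.fst (X := X) (Y := X.dual) y = Ob.snd (X := X) (Y := X.dual) y := by
      constructor
      · intro h
        funext i
        exact σ.injective (congrFun h i)
      · intro h
        funext i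
        exact congrArg σ (congrFun h i)
    show (if Ob.fst (X := X) (Y := X.dual) (σ ∘ y) = Ob.snd (X := X) (Y := X.dual) (σ ∘ y) then
      (1 : F) else 0) = if Ob.fst (X := X) (Y := X.dual) y = Ob.snd (X := X) (Y := X.dual) y then 1
      else 0
    by_cases h1 : Ob.fst (X := X) (Y := X.dual) y = Ob.snd (X := X) (Y := X.dual) y
    · rw [if_pos h1, if_pos (h.mpr h1)]
    · rw [if_neg h1, if_neg (fun h2 => h1 (h.mp h2))]
  · intro x y h
    have h1 : Ob.fst (X := X) (Y := X.dual) y = Ob.snd (X := X) (Y := X.dual) y := by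
      by_contra hc
      exact h (if_neg hc)
    refine ⟨?_, ?_⟩
    · funext n
      rw [ks_div_unit, ks_div_tensor, ks_div_dual, h1]
      show 0 = X.div (Ob.snd (X := X) (Y := X.dual) y) n + -X.div (Ob.snd (X := X) (Y := X.dual) y) n
      rw [add_neg_cancel]
    · show 0 = X.deg + -X.deg
      omega

lemma ks_ev (X : Ob) : IsKap (Ker.ev (F := F) X).f := by
  classical
  constructor
  · intro σ _ y x
    have h : Ob.fst (X := X.dual) (Y := X) (σ ∘ y) = Ob.snd (X := X.dual) (Y := X) (σ ∘ y) ↔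
        Ob.fst (X := X.dual) (Y := X) y = Ob.snd (X := X.dual) (Y := X) y := by
      constructor
      · intro h
        funext i
        exact σ.injective (congrFun h i)
      · intro h
        funext i
        exact congrArg σ (congrFun h i)
    show (if Ob.fst (X := X.dual) (Y := X) (σ ∘ y) = Ob.snd (X := X.dual) (Y := X) (σ ∘ y) then
      (1 : F) else 0) = if Ob.fst (X := X.dual) (Y := X) y = Ob.snd (X := X.dual) (Y := X) y then 1
      else 0
    by_cases h1 : Ob.fst (X := X.dual) (Y := X) y = Ob.snd (X := X.dual) (Y := X) y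
    · rw [if_pos h1, if_pos (h.mpr h1)]
    · rw [if_neg h1, if_neg (fun h2 => h1 (h.mp h2))]
  · intro y x h
    have h1 : Ob.fst (X := X.dual) (Y := X) y = Ob.snd (X := X.dual) (Y := X) y := by
      by_contra hc
      exact h (if_neg hc)
    refine ⟨?_, ?_⟩
    · funext n
      rw [ks_div_unit, ks_div_tensor, ks_div_dual, h1]
      show -X.div (Ob.snd (X := X.dual) (Y := X) y) n + X.div (Ob.snd (X := X.dual) (Y := X) y) n = 0
      rw [neg_add_cancel]
    · show -X.deg + X.deg = 0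
      omega

lemma ks_kap_zero (X Y : Ob) : IsKap (X := X) (Y := Y) (fun _ _ => (0 : F)) :=
  ⟨ks_inv_zero (fun _ _ => rfl), fun _ _ h => absurd rfl h⟩

lemma ks_kap_add {X Y : Ob} {K L : (X.ix → ℕ) → (Y.ix → ℕ) → F} (hK : IsKap K) (hL : IsKap L) :
    IsKap (fun x y => K x y + L x y) := by
  refine ⟨fun σ hσ x y => ?_, fun x y h => ?_⟩
  · show K _ _ + L _ _ = _
    rw [hK.1 σ hσ, hL.1 σ hσ]
  · by_cases h1 : K x y = 0
    · apply hL.2
      intro h2
      apply h
      show K x y + L x y = 0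
      rw [h1, h2, add_zero]
    · exact hK.2 x y h1

lemma ks_eta_add {X Y : Ob} {K L : (X.ix → ℕ) → (Y.ix → ℕ) → F} (hK : IsEta K) (hL : IsEta L) :
    IsEta (fun x y => K x y + L x y) := by
  refine ⟨fun σ hσ x y => ?_, fun x y h => ?_⟩
  · show K _ _ + L _ _ = _
    rw [hK.1 σ hσ, hL.1 σ hσ]
  · by_cases h1 : K x y = 0
    · apply hL.2
      intro h2
      apply h
      show K x y + L x y = 0
      rw [h1, h2, add_zero]
    · exact hK.2 x y h1

lemma ks_tee_add {X Y : Ob} {K L : (X.ix → ℕ) → (Y.ix → ℕ) → F} (hK : IsTee K) (hL : IsTee L) :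
    IsTee (fun x y => K x y + L x y) := by
  refine ⟨ks_eta_add hK.1 hL.1, fun x y h => ?_, fun hd σ hσ x y => ?_⟩
  · by_cases h1 : K x y = 0
    · apply hL.2.1 x y
      intro h2
      apply h
      show K x y + L x y = 0
      rw [h1, h2, add_zero]
    · exact hK.2.1 x y h1
  · show K _ _ + L _ _ = _
    rw [hK.2.2 hd σ hσ, hL.2.2 hd σ hσ]

lemma ks_kap_smul {X Y : Ob} (c : F) {K : (X.ix → ℕ) → (Y.ix → ℕ) → F} (hK : IsKap K) :
    IsKap (fun x y => c * K x y) := by
  refine ⟨fun σ hσ x y => ?_, fun x y h => hK.2 x y (right_ne_zero_of_mul h)⟩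
  show c * K _ _ = _
  rw [hK.1 σ hσ]

lemma ks_eta_smul {X Y : Ob} (c : F) {K : (X.ix → ℕ) → (Y.ix → ℕ) → F} (hK : IsEta K) :
    IsEta (fun x y => c * K x y) := by
  refine ⟨fun σ hσ x y => ?_, fun x y h => hK.2 x y (right_ne_zero_of_mul h)⟩
  show c * K _ _ = _
  rw [hK.1 σ hσ]

lemma ks_tee_smul {X Y : Ob} (c : F) {K : (X.ix → ℕ) → (Y.ix → ℕ) → F} (hK : IsTee K) :
    IsTee (fun x y => c * K x y) := by
  refine ⟨ks_eta_smul c hK.1, fun x y h => hK.2.1 x y (right_ne_zero_of_mul h),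
    fun hd σ hσ x y => ?_⟩
  show c * K _ _ = _
  rw [hK.2.2 hd σ hσ]

lemma ks_kap_neg {X Y : Ob} {K : (X.ix → ℕ) → (Y.ix → ℕ) → F} (hK : IsKap K) :
    IsKap (fun x y => - K x y) := by
  have h := ks_kap_smul (-1 : F) hK
  simpa only [neg_one_mul] using h

lemma ks_eta_neg {X Y : Ob} {K : (X.ix → ℕ) → (Y.ix → ℕ) → F} (hK : IsEta K) :
    IsEta (fun x y => - K x y) := by
  have h := ks_eta_smul (-1 : F) hK
  simpa only [neg_one_mul] using h

lemma ks_tee_neg {X Y : Ob} {K : (X.ix → ℕ) → (Y.ix → ℕ) → F} (hK : IsTee K) :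
    IsTee (fun x y => - K x y) := by
  have h := ks_tee_smul (-1 : F) hK
  simpa only [neg_one_mul] using h

/-- the class of morphisms of `Kap` -/
def PKap (I : Integral F) : MorphismProperty (KC I) := fun _ _ K => IsKap (KC.ker K)

/-- the class of morphisms of `Eta` -/
def PEta (I : Integral F) : MorphismProperty (KC I) := fun _ _ K => IsEta (KC.ker K)

/-- the class of morphisms of `Tee` -/
def PTee (I : Integral F) : MorphismProperty (KC I) := fun _ _ K => IsTee (KC.ker K)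

instance : (PKap I).IsMultiplicative where
  id_mem := fun X => ks_id X.ob
  comp_mem := fun _ _ hf hg => ks_kap_comp hf hg
instance : (PEta I).IsMultiplicative where
  id_mem := fun X => (ks_id X.ob).isTee.1
  comp_mem := fun _ _ hf hg => ks_eta_comp hf hg
instance : (PTee I).IsMultiplicative where
  id_mem := fun X => (ks_id X.ob).isTee
  comp_mem := fun _ _ hf hg => ks_tee_comp hf hg

instance : AddClosed (PKap I) where
  zero_mem := fun X Y => ks_kap_zero X.ob Y.ob
  add_mem := fun _ _ hf hg => ks_kap_add hf hg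
  neg_mem := fun _ hf => ks_kap_neg hf
instance : AddClosed (PEta I) where
  zero_mem := fun X Y => (ks_kap_zero X.ob Y.ob).isTee.1
  add_mem := fun _ _ hf hg => ks_eta_add hf hg
  neg_mem := fun _ hf => ks_eta_neg hf
instance : AddClosed (PTee I) where
  zero_mem := fun X Y => (ks_kap_zero X.ob Y.ob).isTee
  add_mem := fun _ _ hf hg => ks_tee_add hf hg
  neg_mem := fun _ hf => ks_tee_neg hf

instance : SmulClosed F (PKap I) where
  smul_mem := fun c _ _ _ hf => ks_kap_smul c hf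
instance : SmulClosed F (PEta I) where
  smul_mem := fun c _ _ _ hf => ks_eta_smul c hf
instance : SmulClosed F (PTee I) where
  smul_mem := fun c _ _ _ hf => ks_tee_smul c hf

instance : (PKap I).IsStableUnderBraiding where
  whiskerLeft := fun X _ _ _ hg => ks_kap_tensor (ks_id X.ob) hg
  whiskerRight := fun _ hf Y => ks_kap_tensor hf (ks_id Y.ob)
  associator_hom_mem := fun X Y Z => (ks_assoc X.ob Y.ob Z.ob)
  associator_inv_mem := fun X Y Z => (ks_assoc' X.ob Y.ob Z.ob)
  leftUnitor_hom_mem := fun X => (ks_left X.ob)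
  leftUnitor_inv_mem := fun X => (ks_left' X.ob)
  rightUnitor_hom_mem := fun X => (ks_right X.ob)
  rightUnitor_inv_mem := fun X => (ks_right' X.ob)
  braiding_hom_mem := fun X Y => (ks_braid X.ob Y.ob)
  braiding_inv_mem := fun X Y => (ks_braid' X.ob Y.ob)
instance : (PEta I).IsStableUnderBraiding where
  whiskerLeft := fun X _ _ _ hg => ks_eta_tensor (ks_id X.ob).isTee.1 hg
  whiskerRight := fun _ hf Y => ks_eta_tensor hf (ks_id Y.ob).isTee.1
  associator_hom_mem := fun X Y Z => (ks_assoc X.ob Y.ob Z.ob).isTee.1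
  associator_inv_mem := fun X Y Z => (ks_assoc' X.ob Y.ob Z.ob).isTee.1
  leftUnitor_hom_mem := fun X => (ks_left X.ob).isTee.1
  leftUnitor_inv_mem := fun X => (ks_left' X.ob).isTee.1
  rightUnitor_hom_mem := fun X => (ks_right X.ob).isTee.1
  rightUnitor_inv_mem := fun X => (ks_right' X.ob).isTee.1
  braiding_hom_mem := fun X Y => (ks_braid X.ob Y.ob).isTee.1
  braiding_inv_mem := fun X Y => (ks_braid' X.ob Y.ob).isTee.1
instance : (PTee I).IsStableUnderBraiding where
  whiskerLeft := fun X _ _ _ hg => ks_tee_tensor (ks_id X.ob).isTee hg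
  whiskerRight := fun _ hf Y => ks_tee_tensor hf (ks_id Y.ob).isTee
  associator_hom_mem := fun X Y Z => (ks_assoc X.ob Y.ob Z.ob).isTee
  associator_inv_mem := fun X Y Z => (ks_assoc' X.ob Y.ob Z.ob).isTee
  leftUnitor_hom_mem := fun X => (ks_left X.ob).isTee
  leftUnitor_inv_mem := fun X => (ks_left' X.ob).isTee
  rightUnitor_hom_mem := fun X => (ks_right X.ob).isTee
  rightUnitor_inv_mem := fun X => (ks_right' X.ob).isTee
  braiding_hom_mem := fun X Y => (ks_braid X.ob Y.ob).isTee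
  braiding_inv_mem := fun X Y => (ks_braid' X.ob Y.ob).isTee

/-- the category `Kap` -/
abbrev Kap (I : Integral F) : Type := WideSubcategory (PKap I)

/-- the category `Eta` -/
abbrev Eta (I : Integral F) : Type := WideSubcategory (PEta I)

/-- the category `Tee` -/
abbrev Tee (I : Integral F) : Type := WideSubcategory (PTee I)

/-- the kernel of a morphism of `Kap` -/
abbrev kapKer {X Y : Kap I} (K : X ⟶ Y) := KC.ker K.hom
/-- the kernel of a morphism of `Eta` -/
abbrev etaKer {X Y : Eta I} (K : X ⟶ Y) := KC.ker K.hom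
/-- the kernel of a morphism of `Tee` -/
abbrev teeKer {X Y : Tee I} (K : X ⟶ Y) := KC.ker K.hom

theorem kap_rigid (X : Kap I) : ∃ Y : Kap I, Nonempty (ExactPairing X Y) :=
  ⟨⟨X.obj.ob.dual⟩, ⟨{
    coevaluation' := ⟨(KC.exactPairing X.obj).coevaluation', ks_coev X.obj.ob⟩
    evaluation' := ⟨(KC.exactPairing X.obj).evaluation', ks_ev X.obj.ob⟩
    coevaluation_evaluation' := WideSubcategory.hom_ext _
      (KC.exactPairing X.obj).coevaluation_evaluation'
    evaluation_coevaluation' := WideSubcategory.hom_ext _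
      (KC.exactPairing X.obj).evaluation_coevaluation' }⟩⟩

theorem eta_rigid (X : Eta I) : ∃ Y : Eta I, Nonempty (ExactPairing X Y) :=
  ⟨⟨X.obj.ob.dual⟩, ⟨{
    coevaluation' := ⟨(KC.exactPairing X.obj).coevaluation', (ks_coev X.obj.ob).isTee.1⟩
    evaluation' := ⟨(KC.exactPairing X.obj).evaluation', (ks_ev X.obj.ob).isTee.1⟩
    coevaluation_evaluation' := WideSubcategory.hom_ext _
      (KC.exactPairing X.obj).coevaluation_evaluation'
    evaluation_coevaluation' := WideSubcategory.hom_ext _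
      (KC.exactPairing X.obj).evaluation_coevaluation' }⟩⟩

theorem tee_rigid (X : Tee I) : ∃ Y : Tee I, Nonempty (ExactPairing X Y) :=
  ⟨⟨X.obj.ob.dual⟩, ⟨{
    coevaluation' := ⟨(KC.exactPairing X.obj).coevaluation', (ks_coev X.obj.ob).isTee⟩
    evaluation' := ⟨(KC.exactPairing X.obj).evaluation', (ks_ev X.obj.ob).isTee⟩
    coevaluation_evaluation' := WideSubcategory.hom_ext _
      (KC.exactPairing X.obj).coevaluation_evaluation'
    evaluation_coevaluation' := WideSubcategory.hom_ext _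
      (KC.exactPairing X.obj).evaluation_coevaluation' }⟩⟩

/-- the functor from `Tee` to `Eta` -/
def teeEta (I : Integral F) : Tee I ⥤ Eta I where
  obj X := ⟨X.obj⟩
  map K := ⟨K.hom, K.property.1⟩

instance : (teeEta I).Additive where
  map_add := rfl

/-- the functor from `Tee` to `Eta` is monoidal -/
noncomputable def teeEtaCore : (teeEta I).CoreMonoidal where
  εIso := Iso.refl _
  μIso _ _ := Iso.refl _
  μIso_hom_natural_left := fun {X Y} f X' => by
    apply WideSubcategory.hom_ext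
    change (f.hom ▷ X'.obj) ≫ 𝟙 (Y.obj ⊗ X'.obj) = 𝟙 (X.obj ⊗ X'.obj) ≫ (f.hom ▷ X'.obj)
    rw [Category.comp_id, Category.id_comp]
  μIso_hom_natural_right := fun {X Y} X' f => by
    apply WideSubcategory.hom_ext
    change (X'.obj ◁ f.hom) ≫ 𝟙 (X'.obj ⊗ Y.obj) = 𝟙 (X'.obj ⊗ X.obj) ≫ (X'.obj ◁ f.hom)
    rw [Category.comp_id, Category.id_comp]
  associativity := fun X Y Z => by
    apply WideSubcategory.hom_ext
    change (𝟙 (X.obj ⊗ Y.obj) ▷ Z.obj) ≫ 𝟙 ((X.obj ⊗ Y.obj) ⊗ Z.obj) ≫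
      (α_ X.obj Y.obj Z.obj).hom = (α_ X.obj Y.obj Z.obj).hom ≫ (X.obj ◁ 𝟙 (Y.obj ⊗ Z.obj)) ≫
      𝟙 (X.obj ⊗ (Y.obj ⊗ Z.obj))
    rw [id_whiskerRight, whiskerLeft_id, Category.id_comp, Category.id_comp, Category.comp_id,
      Category.comp_id]
  left_unitality := fun X => by
    apply WideSubcategory.hom_ext
    change (λ_ X.obj).hom = (𝟙 (𝟙_ (KC I)) ▷ X.obj) ≫ 𝟙 ((𝟙_ (KC I)) ⊗ X.obj) ≫ (λ_ X.obj).hom
    rw [id_whiskerRight, Category.id_comp, Category.id_comp]
  right_unitality := fun X => by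
    apply WideSubcategory.hom_ext
    change (ρ_ X.obj).hom = (X.obj ◁ 𝟙 (𝟙_ (KC I))) ≫ 𝟙 (X.obj ⊗ (𝟙_ (KC I))) ≫ (ρ_ X.obj).hom
    rw [whiskerLeft_id, Category.id_comp, Category.id_comp]

noncomputable instance : (teeEta I).Monoidal := teeEtaCore.toMonoidal

noncomputable instance : (teeEta I).Braided where
  braided := fun X Y => by
    apply WideSubcategory.hom_ext
    change 𝟙 (X.obj ⊗ Y.obj) ≫ (β_ X.obj Y.obj).hom = (β_ X.obj Y.obj).hom ≫ 𝟙 (Y.obj ⊗ X.obj)
    rw [Category.comp_id, Category.id_comp]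

lemma ks_kap_of_tee {X Y : Ob} {K : (X.ix → ℕ) → (Y.ix → ℕ) → F} (hK : IsTee K)
    (hd : X.deg = Y.deg) : IsKap K := by
  refine ⟨hK.2.2 hd, fun x y h => ⟨?_, hd⟩⟩
  funext n
  have h1 := hK.1.2 x y h n
  rw [hd] at h1
  exact add_right_cancel h1

/-- a degree decreasing kernel in `Tee` is zero -/
lemma ks_tee_zero {X Y : KC I} (K : X ⟶ Y) (hK : PTee I K) (hd : Y.ob.deg < X.ob.deg) :
    K = 0 := by
  apply KC.hom_ext
  intro x y
  rw [KC.zero_ker]
  by_contra hc
  have := hK.2.1 x y hc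
  omega

open Classical in
/-- the functor from `Tee` to `Kap`: the degree preserving part -/
noncomputable def teeKap (I : Integral F) : Tee I ⥤ Kap I where
  obj X := ⟨X.obj⟩
  map {X Y} K := ⟨if X.obj.ob.deg = Y.obj.ob.deg then K.hom else 0, by
    by_cases h : X.obj.ob.deg = Y.obj.ob.deg
    · rw [if_pos h]
      exact ks_kap_of_tee K.property h
    · rw [if_neg h]
      exact AddClosed.zero_mem _ _⟩
  map_id := fun X => by
    apply WideSubcategory.hom_ext
    exact if_pos rfl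
  map_comp := fun {X Y Z} K L => by
    apply WideSubcategory.hom_ext
    change (if X.obj.ob.deg = Z.obj.ob.deg then K.hom ≫ L.hom else 0) =
      (if X.obj.ob.deg = Y.obj.ob.deg then K.hom else 0) ≫
        (if Y.obj.ob.deg = Z.obj.ob.deg then L.hom else 0)
    by_cases h1 : X.obj.ob.deg = Y.obj.ob.deg
    · by_cases h2 : Y.obj.ob.deg = Z.obj.ob.deg
      · rw [if_pos h1, if_pos h2, if_pos (h1.trans h2)]
      · rw [if_pos h1, if_neg h2, if_neg (fun h => h2 (h1.symm.trans h)), comp_zero]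
    · rw [if_neg h1, zero_comp]
      by_cases h2 : X.obj.ob.deg = Z.obj.ob.deg
      · rw [if_pos h2]
        rcases lt_or_gt_of_ne h1 with h3 | h3
        · rw [ks_tee_zero L.hom L.property (by omega), comp_zero]
        · rw [ks_tee_zero K.hom K.property h3, zero_comp]
      · rw [if_neg h2]

lemma teeKap_map_of_eq {X Y : Tee I} (K : X ⟶ Y) (h : X.obj.ob.deg = Y.obj.ob.deg) :
    ((teeKap I).map K).hom = K.hom := if_pos h

lemma teeKap_map_of_ne {X Y : Tee I} (K : X ⟶ Y) (h : X.obj.ob.deg ≠ Y.obj.ob.deg) :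
    ((teeKap I).map K).hom = 0 := if_neg h

instance : (teeKap I).Additive where
  map_add := fun {X Y} K L => by
    apply WideSubcategory.hom_ext
    by_cases h : X.obj.ob.deg = Y.obj.ob.deg
    · refine (teeKap_map_of_eq _ h).trans ?_
      exact (congrArg₂ (fun a b => a + b) (teeKap_map_of_eq K h) (teeKap_map_of_eq L h)).symm
    · refine (teeKap_map_of_ne _ h).trans ?_
      refine Eq.symm ((congrArg₂ (fun a b => a + b) (teeKap_map_of_ne K h)
        (teeKap_map_of_ne L h)).trans ?_)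
      exact add_zero _

/-- the functor from `Tee` to `Kap` is monoidal -/
noncomputable def teeKapCore : (teeKap I).CoreMonoidal where
  εIso := Iso.refl _
  μIso _ _ := Iso.refl _
  μIso_hom_natural_left := fun {X Y} f X' => by
    apply WideSubcategory.hom_ext
    refine Eq.trans (Category.comp_id _) (Eq.trans ?_ (Category.id_comp _).symm)
    change ((teeKap I).map f).hom ▷ X'.obj = ((teeKap I).map (f ▷ X')).hom
    by_cases h : X.obj.ob.deg = Y.obj.ob.deg
    · have h' : (X ⊗ X').obj.ob.deg = (Y ⊗ X').obj.ob.deg :=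
        congrArg (fun a => a + X'.obj.ob.deg) h
      rw [teeKap_map_of_eq _ h, teeKap_map_of_eq _ h']
      rfl
    · have h' : (X ⊗ X').obj.ob.deg ≠ (Y ⊗ X').obj.ob.deg := fun hc =>
        h (add_right_cancel (show X.obj.ob.deg + X'.obj.ob.deg = Y.obj.ob.deg + X'.obj.ob.deg
          from hc))
      rw [teeKap_map_of_ne _ h, teeKap_map_of_ne _ h']
      exact MonoidalPreadditive.zero_whiskerRight
  μIso_hom_natural_right := fun {X Y} X' f => by
    apply WideSubcategory.hom_ext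
    refine Eq.trans (Category.comp_id _) (Eq.trans ?_ (Category.id_comp _).symm)
    change X'.obj ◁ ((teeKap I).map f).hom = ((teeKap I).map (X' ◁ f)).hom
    by_cases h : X.obj.ob.deg = Y.obj.ob.deg
    · have h' : (X' ⊗ X).obj.ob.deg = (X' ⊗ Y).obj.ob.deg :=
        congrArg (fun a => X'.obj.ob.deg + a) h
      rw [teeKap_map_of_eq _ h, teeKap_map_of_eq _ h']
      rfl
    · have h' : (X' ⊗ X).obj.ob.deg ≠ (X' ⊗ Y).obj.ob.deg := fun hc =>
        h (add_left_cancel (show X'.obj.ob.deg + X.obj.ob.deg = X'.obj.ob.deg + Y.obj.ob.deg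
          from hc))
      rw [teeKap_map_of_ne _ h, teeKap_map_of_ne _ h']
      exact MonoidalPreadditive.whiskerLeft_zero
  associativity := fun X Y Z => by
    apply WideSubcategory.hom_ext
    have h : ((X ⊗ Y) ⊗ Z).obj.ob.deg = (X ⊗ (Y ⊗ Z)).obj.ob.deg :=
      add_assoc X.obj.ob.deg Y.obj.ob.deg Z.obj.ob.deg
    have h1 : ((teeKap I).map (α_ X Y Z).hom).hom = (α_ X.obj Y.obj Z.obj).hom :=
      teeKap_map_of_eq _ h
    change (𝟙 (X.obj ⊗ Y.obj) ▷ Z.obj) ≫ 𝟙 ((X.obj ⊗ Y.obj) ⊗ Z.obj) ≫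
      ((teeKap I).map (α_ X Y Z).hom).hom = (α_ X.obj Y.obj Z.obj).hom ≫
      (X.obj ◁ 𝟙 (Y.obj ⊗ Z.obj)) ≫ 𝟙 (X.obj ⊗ (Y.obj ⊗ Z.obj))
    rw [h1, id_whiskerRight, whiskerLeft_id, Category.id_comp, Category.id_comp,
      Category.comp_id, Category.comp_id]
  left_unitality := fun X => by
    apply WideSubcategory.hom_ext
    have h : ((𝟙_ (Tee I)) ⊗ X).obj.ob.deg = X.obj.ob.deg := zero_add X.obj.ob.deg
    have h1 : ((teeKap I).map (λ_ X).hom).hom = (λ_ X.obj).hom := teeKap_map_of_eq _ h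
    change (λ_ X.obj).hom = (𝟙 (𝟙_ (KC I)) ▷ X.obj) ≫ 𝟙 ((𝟙_ (KC I)) ⊗ X.obj) ≫
      ((teeKap I).map (λ_ X).hom).hom
    rw [h1, id_whiskerRight, Category.id_comp, Category.id_comp]
  right_unitality := fun X => by
    apply WideSubcategory.hom_ext
    have h : (X ⊗ (𝟙_ (Tee I))).obj.ob.deg = X.obj.ob.deg := add_zero X.obj.ob.deg
    have h1 : ((teeKap I).map (ρ_ X).hom).hom = (ρ_ X.obj).hom := teeKap_map_of_eq _ h
    change (ρ_ X.obj).hom = (X.obj ◁ 𝟙 (𝟙_ (KC I))) ≫ 𝟙 (X.obj ⊗ (𝟙_ (KC I))) ≫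
      ((teeKap I).map (ρ_ X).hom).hom
    rw [h1, whiskerLeft_id, Category.id_comp, Category.id_comp]

noncomputable instance : (teeKap I).Monoidal := teeKapCore.toMonoidal

noncomputable instance : (teeKap I).Braided where
  braided := fun X Y => by
    apply WideSubcategory.hom_ext
    have h : (X ⊗ Y).obj.ob.deg = (Y ⊗ X).obj.ob.deg := add_comm X.obj.ob.deg Y.obj.ob.deg
    have h1 : ((teeKap I).map (β_ X Y).hom).hom = (β_ X.obj Y.obj).hom := teeKap_map_of_eq _ h
    change 𝟙 (X.obj ⊗ Y.obj) ≫ ((teeKap I).map (β_ X Y).hom).hom =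
      (β_ X.obj Y.obj).hom ≫ 𝟙 (Y.obj ⊗ X.obj)
    rw [h1, Category.comp_id, Category.id_comp]

/-- the inclusion of `Kap` in `Tee` -/
def kapTee (I : Integral F) : Kap I ⥤ Tee I where
  obj X := ⟨X.obj⟩
  map K := ⟨K.hom, IsKap.isTee K.property⟩

instance : (kapTee I).Additive where
  map_add := rfl

lemma teeKap_kapTee {X Y : Kap I} (K : X ⟶ Y) : (teeKap I).map ((kapTee I).map K) = K := by
  apply WideSubcategory.hom_ext
  by_cases h : X.obj.ob.deg = Y.obj.ob.deg
  · exact teeKap_map_of_eq ((kapTee I).map K) h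
  · have h1 : ((teeKap I).map ((kapTee I).map K)).hom = 0 :=
      teeKap_map_of_ne ((kapTee I).map K) h
    have h2 : K.hom = 0 := by
      apply KC.hom_ext
      intro x y
      rw [KC.zero_ker]
      by_contra hc
      exact h (K.property.2 x y hc).2
    rw [h2]
    exact h1

end Pool.Agent.H939.TT
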