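import Pool.Agent.H939.TT.KerSub
import Pool.Agent.H939.TT.DTFun

/-!
# Objects killed by both functors receive no morphism from the objects of `Tee`
-/

namespace Pool.Agent.H939.TT

open CategoryTheory CategoryTheory.Limits CategoryTheory.MonoidalCategory

universe u

/-! ### parts of elements -/

section Abs

open FC

variable {E : Type u} [Category.{0} E] [Preadditive E] {N : FC E} {a b : E}

open Classical in
/-- the part of an element which is supported on the indices with `p` -/
noncomputable def mel_prt (p : N.ι → Prop) : El a N →+ El a N :=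
  El.lift (fun j => if p j then of N j else 0)

lemma mel_prt_pos {p : N.ι → Prop} {j : N.ι} (h : p j) (u : a ⟶ N.obj j) :
    mel_prt p (of N j u) = of N j u := by
  unfold mel_prt
  rw [El.lift_of, if_pos h]

lemma mel_prt_neg {p : N.ι → Prop} {j : N.ι} (h : ¬ p j) (u : a ⟶ N.obj j) :
    mel_prt p (of N j u) = 0 := by
  unfold mel_prt
  rw [El.lift_of, if_neg h]
  rfl

lemma mel_prt_prt (p q : N.ι → Prop) (z : El a N) :
    mel_prt p (mel_prt q z) = mel_prt (fun j => p j ∧ q j) z := by
  induction z using El.induction with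
  | h0 => simp only [map_zero]
  | h1 j u =>
    by_cases hq : q j
    · rw [mel_prt_pos hq]
      by_cases hp : p j
      · rw [mel_prt_pos hp, mel_prt_pos (p := fun j => p j ∧ q j) ⟨hp, hq⟩]
      · rw [mel_prt_neg hp, mel_prt_neg (p := fun j => p j ∧ q j) (fun h => hp h.1)]
    · rw [mel_prt_neg hq, map_zero, mel_prt_neg (p := fun j => p j ∧ q j) (fun h => hq h.2)]
  | h2 x y hx hy => simp only [map_add, hx, hy]

lemma mel_prt_congr {p q : N.ι → Prop} (h : ∀ j, p j ↔ q j) (z : El a N) :
    mel_prt p z = mel_prt q z := by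
  have : p = q := funext fun j => propext (h j)
  rw [this]

lemma mel_prt_false {p : N.ι → Prop} (h : ∀ j, ¬ p j) (z : El a N) : mel_prt p z = 0 := by
  induction z using El.induction with
  | h0 => simp only [map_zero]
  | h1 j u => rw [mel_prt_neg (h j)]
  | h2 x y hx hy => rw [map_add, hx, hy, add_zero]

lemma mel_prt_add_not (p : N.ι → Prop) (z : El a N) :
    mel_prt p z + mel_prt (fun j => ¬ p j) z = z := by
  induction z using El.induction with
  | h0 => simp only [map_zero, add_zero]
  | h1 j u =>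
    by_cases hp : p j
    · rw [mel_prt_pos hp, mel_prt_neg (p := fun j => ¬ p j) (fun h => h hp), add_zero]
    · rw [mel_prt_neg hp, mel_prt_pos (p := fun j => ¬ p j) hp, zero_add]
  | h2 x y hx hy =>
    rw [map_add, map_add, add_add_add_comm, hx, hy]

lemma mel_prt_act (p : N.ι → Prop) (v : a ⟶ b) (z : El b N) :
    mel_prt p (act N v z) = act N v (mel_prt p z) := by
  induction z using El.induction with
  | h0 => simp only [map_zero]
  | h1 j u =>
    by_cases hp : p j
    · rw [act_of, mel_prt_pos hp, mel_prt_pos hp, act_of]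
    · rw [act_of, mel_prt_neg hp, mel_prt_neg hp, map_zero]
  | h2 x y hx hy => simp only [map_add, hx, hy]

/-- if the part with `q` is zero and `p` implies `q` then the part with `p` is zero -/
lemma mel_prt_zero_of {p q : N.ι → Prop} (h : ∀ j, p j → q j) {z : El a N}
    (hz : mel_prt q z = 0) : mel_prt p z = 0 := by
  have h1 : mel_prt p z = mel_prt p (mel_prt q z) := by
    rw [mel_prt_prt]
    exact mel_prt_congr (fun j => ⟨fun hj => ⟨hj, h j hj⟩, fun hj => hj.1⟩) z
  rw [h1, hz, map_zero]

/-- if the part with `¬ p` is zero then the element is its part with `p` -/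
lemma mel_prt_self {p : N.ι → Prop} {z : El a N} (hz : mel_prt (fun j => ¬ p j) z = 0) :
    mel_prt p z = z := by
  have h := mel_prt_add_not p z
  rwa [hz, add_zero] at h

variable (δ : N.ι → ℤ)

lemma mel_bdd (z : El a N) : ∃ b : ℤ, mel_prt (fun j => δ j < b) z = 0 := by
  induction z using El.induction with
  | h0 => exact ⟨0, map_zero _⟩
  | h1 j u => exact ⟨δ j, mel_prt_neg (p := fun i => δ i < δ j) (lt_irrefl _) u⟩
  | h2 x y hx hy =>
    obtain ⟨b, hb⟩ := hx
    obtain ⟨c, hc⟩ := hy
    refine ⟨min b c, ?_⟩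
    rw [map_add, mel_prt_zero_of (fun j hj => lt_of_lt_of_le hj (min_le_left b c)) hb,
      mel_prt_zero_of (fun j hj => lt_of_lt_of_le hj (min_le_right b c)) hc, add_zero]

/-- a matrix which preserves the degree commutes with the parts -/
lemma mel_prt_push {k : N ⟶ N} (hk : ∀ i, mel_prt (fun j => δ j = δ i) (k.app i) = k.app i)
    (c : ℤ) (z : El a N) :
    mel_prt (fun j => δ j = c) (push k z) = push k (mel_prt (fun j => δ j = c) z) := by
  induction z using El.induction with
  | h0 => simp only [map_zero]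
  | h1 i u =>
    rw [push_of, mel_prt_act]
    by_cases hc : δ i = c
    · rw [mel_prt_pos (p := fun j => δ j = c) hc, push_of]
      subst hc
      rw [hk i]
    · rw [mel_prt_neg (p := fun j => δ j = c) hc, map_zero]
      have h1 : mel_prt (fun j => δ j = c) (k.app i) = 0 := by
        rw [← hk i, mel_prt_prt]
        exact mel_prt_false (fun j hj => hc (hj.2.symm.trans hj.1)) _
      rw [h1, map_zero]
  | h2 x y hx hy => simp only [map_add, hx, hy]

/-- a matrix which preserves the degree preserves the filtration -/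
lemma mel_fil_push0 {k : N ⟶ N} (hk : ∀ i, mel_prt (fun j => δ j = δ i) (k.app i) = k.app i)
    {c : ℤ} {z : El a N} (hz : mel_prt (fun j => δ j < c) z = 0) :
    mel_prt (fun j => δ j < c) (push k z) = 0 := by
  have key : ∀ z : El a N, mel_prt (fun j => δ j < c) (push k (mel_prt (fun j => ¬ δ j < c) z)) = 0 := by
    intro z
    induction z using El.induction with
    | h0 => simp only [map_zero]
    | h1 i u =>
      by_cases hc : δ i < c
      · rw [mel_prt_neg (p := fun j => ¬ δ j < c) (fun h => h hc), map_zero, map_zero]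
      · rw [mel_prt_pos (p := fun j => ¬ δ j < c) hc, push_of, mel_prt_act]
        have h1 : mel_prt (fun j => δ j < c) (k.app i) = 0 := by
          rw [← hk i, mel_prt_prt]
          exact mel_prt_false (p := fun j => δ j < c ∧ δ j = δ i) (fun j hj => by
            have h1 := hj.1
            have h2 := hj.2
            omega) _
        rw [h1, map_zero]
    | h2 x y hx hy => simp only [map_add, hx, hy, add_zero]
  have h2 : mel_prt (fun j => ¬ δ j < c) z = z := by
    have h := mel_prt_add_not (fun j => δ j < c) z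
    rwa [hz, zero_add] at h
  rw [← h2]
  exact key z

/-- the filtration is preserved -/
lemma mel_fil_push {d : N ⟶ N} (h1 : ∀ i, mel_prt (fun j => δ j < δ i) (d.app i) = 0)
    {c : ℤ} {z : El a N} (hz : mel_prt (fun j => δ j < c) z = 0) :
    mel_prt (fun j => δ j < c) (push d z) = 0 := by
  have key : ∀ z : El a N, mel_prt (fun j => δ j < c) (push d (mel_prt (fun j => ¬ δ j < c) z)) = 0 := by
    intro z
    induction z using El.induction with
    | h0 => simp only [map_zero]
    | h1 i u =>
      by_cases hc : δ i < c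
      · rw [mel_prt_neg (p := fun j => ¬ δ j < c) (fun h => h hc), map_zero, map_zero]
      · rw [mel_prt_pos (p := fun j => ¬ δ j < c) hc, push_of, mel_prt_act,
          mel_prt_zero_of (fun j (hj : δ j < c) => lt_of_lt_of_le hj (not_lt.1 hc)) (h1 i), map_zero]
    | h2 x y hx hy => simp only [map_add, hx, hy, add_zero]
  have h2 : mel_prt (fun j => ¬ δ j < c) z = z := by
    have h := mel_prt_add_not (fun j => δ j < c) z
    rwa [hz, zero_add] at h
  rw [← h2]
  exact key z

/-- the lowest part of the image -/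
lemma mel_low_push {d d0 : N ⟶ N} (h1 : ∀ i, mel_prt (fun j => δ j < δ i) (d.app i) = 0)
    (h2 : ∀ i, mel_prt (fun j => δ j = δ i) (d.app i) = d0.app i)
    {c : ℤ} {z : El a N} (hz : mel_prt (fun j => δ j < c) z = 0) :
    mel_prt (fun j => δ j = c) (push d z) = push d0 (mel_prt (fun j => δ j = c) z) := by
  have key : ∀ z : El a N, mel_prt (fun j => δ j = c) (push d (mel_prt (fun j => ¬ δ j < c) z)) =
      push d0 (mel_prt (fun j => δ j = c) (mel_prt (fun j => ¬ δ j < c) z)) := by
    intro z
    induction z using El.induction with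
    | h0 => simp only [map_zero]
    | h1 i u =>
      by_cases hc : δ i < c
      · rw [mel_prt_neg (p := fun j => ¬ δ j < c) (fun h => h hc)]
        simp only [map_zero]
      · rw [mel_prt_pos (p := fun j => ¬ δ j < c) hc, push_of, mel_prt_act]
        by_cases he : δ i = c
        · rw [mel_prt_pos (p := fun j => δ j = c) he, push_of]
          subst he
          rw [h2 i]
        · rw [mel_prt_neg (p := fun j => δ j = c) he, map_zero]
          have hlt : c < δ i := lt_of_le_of_ne (not_lt.1 hc) (Ne.symm he)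
          rw [mel_prt_zero_of (fun j (hj : δ j = c) => lt_of_eq_of_lt hj hlt) (h1 i), map_zero]
    | h2 x y hx hy => simp only [map_add, hx, hy]
  have h3 : mel_prt (fun j => ¬ δ j < c) z = z := by
    have h := mel_prt_add_not (fun j => δ j < c) z
    rwa [hz, zero_add] at h
  have h4 := key z
  rwa [h3] at h4

/-- the next step of the filtration -/
lemma mel_fil_succ {c : ℤ} {z : El a N} (hz : mel_prt (fun j => δ j < c) z = 0)
    (hz' : mel_prt (fun j => δ j = c) z = 0) : mel_prt (fun j => δ j < c + 1) z = 0 := by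
  have h := mel_prt_add_not (fun j => δ j < c) (mel_prt (fun j => δ j < c + 1) z)
  rw [mel_prt_prt, mel_prt_prt] at h
  rw [← h, mel_prt_zero_of (fun j hj => hj.1) hz,
    mel_prt_zero_of (p := fun j => ¬ δ j < c ∧ δ j < c + 1) (fun j hj => by
      have h1 := hj.1
      have h2 := hj.2
      omega) hz', add_zero]

/-- splitting off the lowest degree -/
lemma mel_split {c : ℤ} {z : El a N} (hz : mel_prt (fun j => δ j < c) z = 0) :
    mel_prt (fun j => δ j = c) z + mel_prt (fun j => c < δ j) z = z := by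
  have e2 := mel_prt_add_not (fun j => δ j = c) z
  have e3 := mel_prt_add_not (fun j => δ j < c) (mel_prt (fun j => ¬ δ j = c) z)
  rw [mel_prt_prt, mel_prt_prt, mel_prt_zero_of (fun j hj => hj.1) hz, zero_add,
    mel_prt_congr (q := fun j => c < δ j) (fun j => by omega) z] at e3
  rwa [← e3] at e2

/-- correction of a bounding element in the lowest degree -/
lemma mel_step {d d0 k : N ⟶ N} (hdd : d ≫ d = 0)
    (h1 : ∀ i, mel_prt (fun j => δ j < δ i) (d.app i) = 0)
    (h2 : ∀ i, mel_prt (fun j => δ j = δ i) (d.app i) = d0.app i)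
    (h3 : ∀ i, mel_prt (fun j => δ j = δ i) (k.app i) = k.app i)
    (hk : 𝟙 N = k ≫ d0 + d0 ≫ k) {c : ℤ} {x g w : El a N} (hg : push d g = x)
    (hfg : mel_prt (fun j => δ j < c) g = 0) (hw : mel_prt (fun j => δ j = c) w = w)
    (hdw : push d0 (mel_prt (fun j => δ j = c) g - w) = 0) :
    ∃ g' : El a N, push d g' = x ∧ mel_prt (fun j => δ j < c) g' = 0 ∧
      mel_prt (fun j => δ j = c) g' = w := by
  set v := mel_prt (fun j => δ j = c) g - w with hv
  have hvc : mel_prt (fun j => δ j = c) v = v := by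
    rw [hv, map_sub, hw, mel_prt_prt]
    congr 1
    exact mel_prt_congr (fun j => ⟨fun h => h.1, fun h => ⟨h, h⟩⟩) g
  have hvl : mel_prt (fun j => δ j < c) v = 0 := by
    rw [← hvc, mel_prt_prt]
    exact mel_prt_false (fun j hj => (ne_of_lt hj.1) hj.2) _
  have hvk : push d0 (push k v) = v := by
    have h := congrArg (fun t => push t v) hk
    simp only [push_id] at h
    rw [push_add, push_comp, push_comp, hdw, map_zero, add_zero] at h
    exact h.symm
  have hkl : mel_prt (fun j => δ j < c) (push k v) = 0 := mel_fil_push0 δ h3 hvl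
  refine ⟨g - push d (push k v), ?_, ?_, ?_⟩
  · rw [map_sub, ← push_comp, hdd, hg]
    have h0 : push (0 : N ⟶ N) (push k v) = 0 := by
      have h := push_add (0 : N ⟶ N) 0 (push k v)
      rw [add_zero] at h
      exact (left_eq_add.1 h)
    rw [h0, sub_zero]
  · rw [map_sub, hfg, mel_fil_push δ h1 hkl, sub_zero]
  · rw [map_sub, mel_low_push δ h1 h2 hkl, mel_prt_push δ h3, hvc, hvk, hv, sub_sub_cancel]

/-- the main argument -/
theorem mel_main {d d0 k h : N ⟶ N} (hdd : d ≫ d = 0)
    (h1 : ∀ i, mel_prt (fun j => δ j < δ i) (d.app i) = 0)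
    (h2 : ∀ i, mel_prt (fun j => δ j = δ i) (d.app i) = d0.app i)
    (h3 : ∀ i, mel_prt (fun j => δ j = δ i) (k.app i) = k.app i)
    (hh : 𝟙 N = h ≫ d + d ≫ h) (hk : 𝟙 N = k ≫ d0 + d0 ≫ k) {α : ℤ} {x : El a N}
    (hx : push d x = 0) (hxα : mel_prt (fun j => δ j < α) x = 0) :
    ∃ g : El a N, push d g = x ∧ mel_prt (fun j => δ j < α) g = 0 ∧
      mel_prt (fun j => δ j = α) g = push k (mel_prt (fun j => δ j = α) x) := by
  -- some element
  have s1 : ∃ g : El a N, push d g = x := by
    refine ⟨push h x, ?_⟩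
    have h' := congrArg (fun t => push t x) hh
    simp only [push_id] at h'
    rw [push_add, push_comp, push_comp, hx, map_zero, add_zero] at h'
    exact h'.symm
  -- an element in degrees at least `α`
  have s2 : ∀ (n : ℕ) (g : El a N), push d g = x → mel_prt (fun j => δ j < α - n) g = 0 →
      ∃ g : El a N, push d g = x ∧ mel_prt (fun j => δ j < α) g = 0 := by
    intro n
    induction n with
    | zero =>
      intro g hg hg'
      refine ⟨g, hg, ?_⟩
      simpa using hg'
    | succ n ih =>
      intro g hg hg'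
      set c : ℤ := α - ((n + 1 : ℕ) : ℤ) with hc
      have hcα : c < α := by rw [hc]; push_cast; omega
      have hlow : push d0 (mel_prt (fun j => δ j = c) g - 0) = 0 := by
        rw [sub_zero, ← mel_low_push δ h1 h2 hg', hg]
        exact mel_prt_zero_of (fun j (hj : δ j = c) => lt_of_eq_of_lt hj hcα) hxα
      obtain ⟨g', e1, e2, e3⟩ := mel_step δ hdd h1 h2 h3 hk hg hg' (map_zero _) hlow
      refine ih g' e1 ?_
      have e4 := mel_fil_succ δ e2 e3
      have e5 : c + 1 = α - (n : ℤ) := by rw [hc]; push_cast; ring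
      rwa [e5] at e4
  obtain ⟨g0, hg0⟩ := s1
  obtain ⟨b0, hb0⟩ := mel_bdd δ g0
  obtain ⟨g, hg, hgα⟩ := s2 (α - b0).toNat g0 hg0
    (mel_prt_zero_of (fun j (hj : δ j < α - ((α - b0).toNat : ℤ)) => by omega) hb0)
  -- the degree `α`
  have e1 : mel_prt (fun j => δ j = α) x = push d0 (mel_prt (fun j => δ j = α) g) := by
    rw [← mel_low_push δ h1 h2 hgα, hg]
  have e2 : push d0 (mel_prt (fun j => δ j = α) x) = 0 := by
    rw [← mel_low_push δ h1 h2 hxα, hx, map_zero]
  set xα := mel_prt (fun j => δ j = α) x with hxa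
  have e3 : push d0 (push k xα) = xα := by
    have h' := congrArg (fun t => push t xα) hk
    simp only [push_id] at h'
    rw [push_add, push_comp, push_comp, e2, map_zero, add_zero] at h'
    exact h'.symm
  have e4 : mel_prt (fun j => δ j = α) (push k xα) = push k xα := by
    rw [mel_prt_push δ h3, hxa, mel_prt_prt]
    congr 1
    exact mel_prt_congr (fun j => ⟨fun h => h.1, fun h => ⟨h, h⟩⟩) x
  have e5 : push d0 (mel_prt (fun j => δ j = α) g - push k xα) = 0 := by
    rw [map_sub, ← e1, e3, sub_self]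
  exact mel_step δ hdd h1 h2 h3 hk hg hgα e4 e5

end Abs

/-! ### coordinates -/

section Coord

open FC

attribute [local instance] Classical.decEq

variable {A : Type u} [Category.{0} A] [Preadditive A] {B : Type u} [Category.{0} B]
  [Preadditive B] (G : A ⥤ B) [G.Additive]

lemma mel_mapEl_apply {a : A} {Y : FC A} (x : El a Y) (j : Y.ι) :
    (mapEl G x : El (G.obj a) (mapObj G Y)) j = G.map (x j) := by
  induction x using El.induction with
  | h0 => simp
  | h1 i u =>
    rw [mapEl_of]
    unfold FC.of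
    by_cases h : i = j
    · subst h
      exact (DirectSum.of_eq_same (β := fun j => (G.obj a ⟶ (mapObj G Y).obj j)) i (G.map u)).trans
        (congrArg G.map (DirectSum.of_eq_same (β := fun j => (a ⟶ Y.obj j)) i u).symm)
    · refine (DirectSum.of_eq_of_ne (β := fun j => (G.obj a ⟶ (mapObj G Y).obj j)) i j (G.map u)
        (Ne.symm h)).trans ?_
      rw [← G.map_zero]
      exact congrArg G.map (DirectSum.of_eq_of_ne (β := fun j => (a ⟶ Y.obj j)) i j u
        (Ne.symm h)).symm
  | h2 x y hx hy =>
    rw [map_add, DirectSum.add_apply, DirectSum.add_apply, hx, hy, G.map_add]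

lemma mel_mapEl_inj [G.Faithful] {a : A} {Y : FC A} {x y : El a Y}
    (h : mapEl G x = mapEl G y) : x = y := by
  refine DFinsupp.ext fun j => G.map_injective ?_
  have h1 := congrArg (fun t : El (G.obj a) (mapObj G Y) => t j) h
  change (mapEl G x : El (G.obj a) (mapObj G Y)) j = (mapEl G y : El (G.obj a) (mapObj G Y)) j at h1
  rwa [mel_mapEl_apply, mel_mapEl_apply] at h1

end Coord

/-! ### degrees of kernels -/

section Conc

open FC

variable {F : Type} [Field F] {I : Integral F}

/-- the degree of an object of `Tee` -/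
def mel_deg (X : Tee I) : ℤ := X.obj.ob.deg

instance mel_faithful : (teeEta I).Faithful where
  map_injective {X Y f g} h := WideSubcategory.hom_ext _ (congrArg (fun t => t.hom) h)

lemma mel_hom_zero {X Y : Tee I} (u : X ⟶ Y) (h : mel_deg Y < mel_deg X) : u.hom = 0 := by
  refine KC.hom_ext fun x y => ?_
  by_contra hne
  exact absurd (u.property.2.1 x y hne) (not_le.2 h)

lemma mel_kap_zero {X Y : Kap I} (u : X ⟶ Y) (h : X.obj.ob.deg ≠ Y.obj.ob.deg) : u.hom = 0 := by
  refine KC.hom_ext fun x y => ?_
  by_contra hne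
  exact h (u.property.2 x y hne).2

/-- entries of `Tee` do not decrease the degree -/
lemma mel_h1 {a : Tee I} {X : FC (Tee I)} (w : El a X) :
    mel_prt (N := mapObj (teeEta I) X) (fun j => mel_deg (X.obj j) < mel_deg a)
      (mapEl (teeEta I) w) = 0 := by
  induction w using El.induction with
  | h0 => simp only [map_zero]
  | h1 j u =>
    rw [mapEl_of]
    by_cases h : mel_deg (X.obj j) < mel_deg a
    · have h1 : (teeEta I).map u = 0 := WideSubcategory.hom_ext _ (mel_hom_zero u h)
      rw [h1, map_zero, map_zero]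
    · exact mel_prt_neg (N := mapObj (teeEta I) X) h _
  | h2 x y hx hy => rw [map_add, map_add, hx, hy, add_zero]

/-- the degree preserving part of a morphism -/
noncomputable def mel_ppm {X Y : Tee I} (u : X ⟶ Y) : X ⟶ Y := (kapTee I).map ((teeKap I).map u)

/-- the degree preserving part -/
noncomputable def mel_pp {a : Tee I} {X : FC (Tee I)} (w : El a X) : El a X :=
  mapEl (kapTee I) (mapEl (teeKap I) w)

lemma mel_pp_zero {a : Tee I} {X : FC (Tee I)} : mel_pp (0 : El a X) = 0 :=
  (congrArg (mapEl (kapTee I)) (map_zero (mapEl (teeKap I)))).trans (map_zero _)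

lemma mel_pp_add {a : Tee I} {X : FC (Tee I)} (x y : El a X) :
    mel_pp (x + y) = mel_pp x + mel_pp y :=
  (congrArg (mapEl (kapTee I)) (map_add (mapEl (teeKap I)) x y)).trans (map_add _ _ _)

lemma mel_pp_of {a : Tee I} {X : FC (Tee I)} (j : X.ι) (u : a ⟶ X.obj j) :
    mel_pp (of X j u) = of X j (mel_ppm u) :=
  (congrArg (mapEl (kapTee I)) (mapEl_of (teeKap I) j u)).trans
    (mapEl_of (kapTee I) (Y := mapObj (teeKap I) X) j ((teeKap I).map u))

lemma mel_h2 {a : Tee I} {X : FC (Tee I)} (w : El a X) :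
    mel_prt (N := mapObj (teeEta I) X) (fun j => mel_deg (X.obj j) = mel_deg a)
      (mapEl (teeEta I) w) = mapEl (teeEta I) (mel_pp w) := by
  induction w using El.induction with
  | h0 => rw [mel_pp_zero, map_zero, map_zero]
  | h1 j u =>
    rw [mel_pp_of, mapEl_of, mapEl_of]
    by_cases h : mel_deg (X.obj j) = mel_deg a
    · refine (mel_prt_pos (N := mapObj (teeEta I) X) h _).trans (congrArg _ ?_)
      exact WideSubcategory.hom_ext _ (teeKap_map_of_eq u h.symm).symm
    · refine (mel_prt_neg (N := mapObj (teeEta I) X) h _).trans ?_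
      have h1 : (teeEta I).map (mel_ppm u) = 0 :=
        WideSubcategory.hom_ext _ (teeKap_map_of_ne u (fun h' => h h'.symm))
      rw [h1, map_zero]
  | h2 x y hx hy => rw [mel_pp_add, map_add, map_add, map_add, hx, hy]

lemma mel_h3 {a : Kap I} {X : FC (Kap I)} (w : El a X) :
    mel_prt (N := mapObj (teeEta I) (mapObj (kapTee I) X))
      (fun j => mel_deg ((kapTee I).obj (X.obj j)) = mel_deg ((kapTee I).obj a))
      (mapEl (teeEta I) (mapEl (kapTee I) w)) = mapEl (teeEta I) (mapEl (kapTee I) w) := by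
  induction w using El.induction with
  | h0 => simp only [map_zero]
  | h1 j u =>
    rw [mapEl_of]
    by_cases h : mel_deg ((kapTee I).obj (X.obj j)) = mel_deg ((kapTee I).obj a)
    · have e := mapEl_of (teeEta I) (Y := mapObj (kapTee I) X) j ((kapTee I).map u)
      rw [e]
      exact mel_prt_pos (N := mapObj (teeEta I) (mapObj (kapTee I) X)) h _
    · have h1 : u = 0 := WideSubcategory.hom_ext _ (mel_kap_zero u (fun h' => h h'.symm))
      rw [h1, Functor.map_zero, map_zero, map_zero, map_zero]
  | h2 x y hx hy => simp only [map_add, hx, hy]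

/-- kernels of `Eta` which raise the degree are in `Tee` -/
lemma mel_raise {a : Tee I} {X : FC (Tee I)} (g : El ((teeEta I).obj a) (mapObj (teeEta I) X)) :
    ∃ y : El a X, mapEl (teeEta I) y =
      mel_prt (N := mapObj (teeEta I) X) (fun j => mel_deg a < mel_deg (X.obj j)) g := by
  induction g using El.induction with
  | h0 => exact ⟨0, by rw [map_zero, map_zero]⟩
  | h1 j u =>
    by_cases h : mel_deg a < mel_deg (X.obj j)
    · refine ⟨of X j ⟨u.hom, ⟨u.property, fun _ _ _ => le_of_lt h, fun h' =>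
        absurd h' (ne_of_lt h)⟩⟩, ?_⟩
      rw [mapEl_of]
      exact (mel_prt_pos (N := mapObj (teeEta I) X) h u).symm
    · exact ⟨0, by rw [map_zero]; exact (mel_prt_neg (N := mapObj (teeEta I) X) h u).symm⟩
  | h2 x y hx hy =>
    obtain ⟨x', hx'⟩ := hx
    obtain ⟨y', hy'⟩ := hy
    exact ⟨x' + y', by rw [map_add, map_add, hx', hy']⟩

/-- parts of elements of `Tee` -/
lemma mel_prt_mapEl {a : Tee I} {X : FC (Tee I)} (p : X.ι → Prop) (w : El a X) :
    mel_prt (N := mapObj (teeEta I) X) p (mapEl (teeEta I) w) =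
      mapEl (teeEta I) (mel_prt p w) := by
  induction w using El.induction with
  | h0 => simp only [map_zero]
  | h1 j u =>
    rw [mapEl_of]
    by_cases h : p j
    · rw [mel_prt_pos h, mapEl_of]
      exact mel_prt_pos (N := mapObj (teeEta I) X) h _
    · rw [mel_prt_neg h, map_zero]
      exact mel_prt_neg (N := mapObj (teeEta I) X) h _
  | h2 x y hx hy => simp only [map_add, hx, hy]

/-- the contraction over `Kap`, regarded over `Tee` -/
noncomputable def mel_kT {X : FC (Tee I)} (k : (FC.mapF (teeKap I)).obj X ⟶ (FC.mapF (teeKap I)).obj X) :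
    X ⟶ X := (FC.mapF (kapTee I)).map k

/-- the degree preserving part of an endomorphism -/
noncomputable def mel_d0 {X : FC (Tee I)} (d : X ⟶ X) : X ⟶ X :=
  (FC.mapF (kapTee I)).map ((FC.mapF (teeKap I)).map d)

lemma mel_hkT {X : FC (Tee I)} (d : X ⟶ X) (k : (FC.mapF (teeKap I)).obj X ⟶ (FC.mapF (teeKap I)).obj X)
    (hk : 𝟙 ((FC.mapF (teeKap I)).obj X) = k ≫ (FC.mapF (teeKap I)).map d +
      (FC.mapF (teeKap I)).map d ≫ k) :
    𝟙 X = mel_kT k ≫ mel_d0 d + mel_d0 d ≫ mel_kT k := by
  have h := congrArg (fun t => (FC.mapF (kapTee I)).map t) hk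
  simp only [Functor.map_add, Functor.map_comp, CategoryTheory.Functor.map_id] at h
  exact h

lemma mel_d0_app {X : FC (Tee I)} (d : X ⟶ X) (i : X.ι) : (mel_d0 d).app i = mel_pp (d.app i) :=
  rfl

lemma mel_kT_app {X : FC (Tee I)} (k : (FC.mapF (teeKap I)).obj X ⟶ (FC.mapF (teeKap I)).obj X) (i : X.ι) :
    (mel_kT k).app i = mapEl (kapTee I) (k.app i) := rfl

/-- the main argument for `Tee` -/
lemma mel_tee {X : FC (Tee I)} (d : X ⟶ X) (hdd : d ≫ d = 0)
    (h : (FC.mapF (teeEta I)).obj X ⟶ (FC.mapF (teeEta I)).obj X)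
    (hh : 𝟙 ((FC.mapF (teeEta I)).obj X) = h ≫ (FC.mapF (teeEta I)).map d +
      (FC.mapF (teeEta I)).map d ≫ h)
    (k : (FC.mapF (teeKap I)).obj X ⟶ (FC.mapF (teeKap I)).obj X)
    (hk : 𝟙 ((FC.mapF (teeKap I)).obj X) = k ≫ (FC.mapF (teeKap I)).map d +
      (FC.mapF (teeKap I)).map d ≫ k)
    {a : Tee I} (x : El a X) (hx : push d x = 0) : ∃ y : El a X, push d y = x := by
  have hk2 : 𝟙 ((FC.mapF (teeEta I)).obj X) =
      (FC.mapF (teeEta I)).map (mel_kT k) ≫ (FC.mapF (teeEta I)).map (mel_d0 d) +
      (FC.mapF (teeEta I)).map (mel_d0 d) ≫ (FC.mapF (teeEta I)).map (mel_kT k) := by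
    have h1 := congrArg (fun t => (FC.mapF (teeEta I)).map t) (mel_hkT d k hk)
    simp only [Functor.map_add, Functor.map_comp, CategoryTheory.Functor.map_id] at h1
    exact h1
  have hxe : push ((FC.mapF (teeEta I)).map d) (mapEl (teeEta I) x) = 0 := by
    have h1 := fcm_mapEl_push (teeEta I) d x
    rw [hx, map_zero] at h1
    exact h1.symm
  obtain ⟨g, hg1, hg2, hg3⟩ := mel_main (N := (FC.mapF (teeEta I)).obj X)
    (fun j : X.ι => mel_deg (X.obj j)) (d := (FC.mapF (teeEta I)).map d)
    (d0 := (FC.mapF (teeEta I)).map (mel_d0 d)) (k := (FC.mapF (teeEta I)).map (mel_kT k)) (h := h)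
    (by rw [← Functor.map_comp, hdd, Functor.map_zero])
    (fun i => mel_h1 (d.app i)) (fun i => mel_h2 (d.app i)) (fun i => mel_h3 (k.app i)) hh hk2
    (α := mel_deg a) hxe (mel_h1 x)
  -- the element over `Tee`
  obtain ⟨y1, hy1⟩ := mel_raise (X := X) (a := a) g
  have hg4 : g = mapEl (teeEta I) (push (mel_kT k) (mel_prt (fun j => mel_deg (X.obj j) =
      mel_deg a) x) + y1) := by
    have e1 : mapEl (teeEta I) (push (mel_kT k) (mel_prt (fun j => mel_deg (X.obj j) =
        mel_deg a) x)) = mel_prt (N := mapObj (teeEta I) X)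
          (fun j => mel_deg (X.obj j) = mel_deg a) g := by
      refine Eq.trans ?_ hg3.symm
      refine (fcm_mapEl_push (teeEta I) (mel_kT k) _).trans ?_
      refine congrArg _ ?_
      exact (mel_prt_mapEl (fun j => mel_deg (X.obj j) = mel_deg a) x).symm
    rw [map_add, e1, hy1]
    exact (mel_split (N := (FC.mapF (teeEta I)).obj X) (fun j : X.ι => mel_deg (X.obj j)) hg2).symm
  refine ⟨push (mel_kT k) (mel_prt (fun j => mel_deg (X.obj j) = mel_deg a) x) + y1, ?_⟩
  refine mel_mapEl_inj (teeEta I) ?_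
  refine (fcm_mapEl_push (teeEta I) d _).trans ?_
  rw [← hg4]
  exact hg1

end Conc

/-- morphisms from an object with zero differential which are boundaries -/
lemma mel_null {C : Type u} [Category.{0} C] [Preadditive C] {a : C} {M : D C}
    (g : (D.inc C).obj a ⟶ M) (y : a ⟶ M.X) (h : g.f = y ≫ M.d) : (Q C).map g = 0 := by
  refine Q_map_eq_zero.2 ⟨y, ?_⟩
  rw [h]
  change y ≫ M.d = y ≫ M.d + (0 : a ⟶ a) ≫ y
  rw [zero_comp, add_zero]

variable {F : Type} [Field F] [CharP F 2] {I : Integral F}

theorem m11 (M : D (FC (Tee I)))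
    (hη : IsZero ((K.mapF (FC.mapF (teeEta I))).obj ((Q (FC (Tee I))).obj M)))
    (hκ : IsZero ((K.mapF (FC.mapF (teeKap I))).obj ((Q (FC (Tee I))).obj M)))
    (Y : Tee I) (f : (emb (Tee I)).obj Y ⟶ (Q (FC (Tee I))).obj M) : f = 0 := by
  obtain ⟨h, hh⟩ := K.isZero_iff.1 hη
  obtain ⟨k, hk⟩ := K.isZero_iff.1 hκ
  obtain ⟨g, rfl⟩ := Q_map_surjective
    (A := (D.inc (FC (Tee I))).obj ((FC.inc (Tee I)).obj Y)) f
  have hx : FC.push M.d (g.f.app ()) = 0 := by
    have h1 : g.f ≫ M.d = (0 : (FC.inc (Tee I)).obj Y ⟶ M.X) := g.comm.trans zero_comp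
    exact congrArg (fun t => FC.Hom.app t ()) h1
  obtain ⟨y, hy⟩ := mel_tee M.d M.d2 h hh k hk (g.f.app ()) hx
  exact mel_null (a := (FC.inc (Tee I)).obj Y) g ((FC.incHom Y M.X).symm y)
    (FC.hom_ext fun i => hy.symm)

end Pool.Agent.H939.TT
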