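import Pool.Agent.H939.TT.Sector
import Pool.Agent.H939.TT.DTFun

/-!
# Finite objects killed by the functor to `Eta`
-/

namespace Pool.Agent.H939.TT

open CategoryTheory CategoryTheory.Limits CategoryTheory.MonoidalCategory

section Entries

universe u u'

attribute [local instance] Classical.decEq

variable {A : Type u} [Category.{0} A] [Preadditive A]
  {B : Type u'} [Category.{0} B] [Preadditive B]

lemma m12a_of_same {a : A} (Y : FC A) (j : Y.ι) (u : a ⟶ Y.obj j) :
    (FC.of Y j u : FC.El a Y) j = u := DirectSum.of_eq_same _ _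

lemma m12a_of_ne {a : A} (Y : FC A) {j k : Y.ι} (h : k ≠ j) (u : a ⟶ Y.obj j) :
    (FC.of Y j u : FC.El a Y) k = 0 := DirectSum.of_eq_of_ne _ _ _ h

/-- the entries of a row multiplied by a morphism -/
lemma m12a_act {a b : A} {Z : FC A} (u : a ⟶ b) (x : FC.El b Z) (k : Z.ι) :
    (FC.act Z u x) k = u ≫ x k := by
  induction x using FC.El.induction with
  | h0 => rw [map_zero, DirectSum.zero_apply, DirectSum.zero_apply, comp_zero]
  | h1 j v =>
    rw [FC.act_of]
    by_cases h : k = j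
    · subst h
      rw [m12a_of_same, m12a_of_same]
    · rw [m12a_of_ne _ h, m12a_of_ne _ h, comp_zero]
  | h2 x y hx hy =>
    rw [map_add, DirectSum.add_apply, DirectSum.add_apply, hx, hy, Preadditive.comp_add]

/-- the entries of the product of a row and a matrix -/
lemma m12a_push {Y Z : FC A} [Fintype Y.ι] {a : A} (g : FC.Hom Y Z) (x : FC.El a Y) (k : Z.ι) :
    (FC.push g x) k = ∑ j, x j ≫ (g.app j) k := by
  induction x using FC.El.induction with
  | h0 =>
    rw [map_zero, DirectSum.zero_apply]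
    refine (Finset.sum_eq_zero fun j _ => ?_).symm
    rw [DirectSum.zero_apply, zero_comp]
  | h1 j u =>
    rw [FC.push_of, m12a_act, Finset.sum_eq_single j]
    · rw [m12a_of_same]
    · intro b _ hb
      rw [m12a_of_ne _ hb, zero_comp]
    · intro h
      exact absurd (Finset.mem_univ j) h
  | h2 x y hx hy =>
    rw [map_add, DirectSum.add_apply, hx, hy, ← Finset.sum_add_distrib]
    refine Finset.sum_congr rfl fun j _ => ?_
    rw [DirectSum.add_apply, Preadditive.add_comp]

/-- the entries of the image of a row under a functor -/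
lemma m12a_mapEl (G : A ⥤ B) [G.Additive] {a : A} {Y : FC A} (x : FC.El a Y) (k : Y.ι) :
    (FC.mapEl G x) k = G.map (x k) := by
  induction x using FC.El.induction with
  | h0 =>
    rw [map_zero, DirectSum.zero_apply]
    exact (G.map_zero _ _).symm
  | h1 j v =>
    rw [FC.mapEl_of]
    by_cases h : k = j
    · subst h
      rw [m12a_of_same Y k v]
      exact m12a_of_same (FC.mapObj G Y) k (G.map v)
    · rw [m12a_of_ne _ h, G.map_zero]
      exact m12a_of_ne (FC.mapObj G Y) h (G.map v)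
  | h2 x y hx hy =>
    rw [map_add, DirectSum.add_apply, DirectSum.add_apply, G.map_add, ← hx, ← hy]

end Entries

section WideSum

universe v u

variable {C : Type u} [Category.{v} C] [Preadditive C] (P : MorphismProperty C)
  [P.IsMultiplicative] [AddClosed P]

lemma m12a_hom_sum {X Y : WideSubcategory P} {J : Type} [Fintype J] (f : J → (X ⟶ Y)) :
    (∑ j, f j).hom = ∑ j, (f j).hom := (wideSubcategoryInclusion P).map_sum f Finset.univ

end WideSum

variable {F : Type} [Field F] [CharP F 2] {I : Integral F}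

omit [CharP F 2] in
/-- the homotopy in terms of the entries -/
lemma m12a_eta (Y : FC (Tee I)) [Fintype Y.ι] (d : FC.Hom Y Y)
    (h : FC.Hom (FC.mapObj (teeEta I) Y) (FC.mapObj (teeEta I) Y))
    (hh : ∀ i, FC.of (FC.mapObj (teeEta I) Y) i (𝟙 _) =
      FC.push (FC.fcm_mapHom (teeEta I) d) (h.app i) +
      FC.push h (FC.mapEl (teeEta I) (d.app i)))
    (dm hm : ∀ i j, (Y.obj i).obj ⟶ (Y.obj j).obj) (hdm : ∀ i j, dm i j = ((d.app i) j).hom)
    (hhm : ∀ i j, hm i j = ((h.app i) j).hom) (i k : Y.ι) :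
    ∑ j, (dm i j ≫ hm j k + hm i j ≫ dm j k) =
      open Classical in if e : i = k then eqToHom (congrArg (fun j => (Y.obj j).obj) e) else 0 := by
  have h1 := congrArg (fun t => (t k).hom) (hh i)
  have h2 : ((FC.push (FC.fcm_mapHom (teeEta I) d) (h.app i)) k).hom =
      ∑ j, hm i j ≫ dm j k := by
    refine (congrArg (fun t => InducedWideCategory.Hom.hom t)
      (m12a_push (Y := FC.mapObj (teeEta I) Y) (FC.fcm_mapHom (teeEta I) d) (h.app i) k)).trans ?_
    refine (m12a_hom_sum (PEta I) _).trans (Finset.sum_congr rfl fun j _ => ?_)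
    have h3 := m12a_mapEl (teeEta I) (d.app j) k
    rw [hhm, hdm]
    exact congrArg (fun t => (((h.app i) j).hom : (Y.obj i).obj ⟶ (Y.obj j).obj) ≫
      InducedWideCategory.Hom.hom t) h3
  have h3 : ((FC.push h (FC.mapEl (teeEta I) (d.app i))) k).hom =
      ∑ j, dm i j ≫ hm j k := by
    refine (congrArg (fun t => InducedWideCategory.Hom.hom t)
      (m12a_push (Y := FC.mapObj (teeEta I) Y) h (FC.mapEl (teeEta I) (d.app i)) k)).trans ?_
    refine (m12a_hom_sum (PEta I) _).trans (Finset.sum_congr rfl fun j _ => ?_)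
    have h4 := m12a_mapEl (teeEta I) (d.app i) j
    rw [hhm, hdm]
    exact congrArg (fun t => InducedWideCategory.Hom.hom t ≫ ((h.app j) k).hom) h4
  rw [Finset.sum_add_distrib, ← h2, ← h3, add_comm]
  refine h1.symm.trans ?_
  by_cases e : i = k
  · subst e
    rw [dif_pos rfl]
    exact congrArg (fun t => InducedWideCategory.Hom.hom t)
      (m12a_of_same (FC.mapObj (teeEta I) Y) i (𝟙 _))
  · rw [dif_neg e]
    exact congrArg (fun t => InducedWideCategory.Hom.hom t)
      (m12a_of_ne (FC.mapObj (teeEta I) Y) (Ne.symm e) (𝟙 _))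

omit [CharP F 2] in
/-- the cycles in terms of the entries -/
lemma m12a_cyc (Y : FC (Tee I)) [Fintype Y.ι] (d : FC.Hom Y Y)
    (f : FC.El (𝟙_ (Kap I)) (FC.mapObj (teeKap I) Y))
    (h : FC.push (FC.fcm_mapHom (teeKap I) d) f = 0) (k : Y.ι) :
    ∑ j, ((f j).hom : 𝟙_ (KC I) ⟶ (Y.obj j).obj) ≫ degPart ((d.app j) k).hom = 0 := by
  have h1 := congrArg (fun t => (t k).hom) h
  refine Eq.trans ?_ h1
  refine Eq.symm ?_
  refine (congrArg (fun t => InducedWideCategory.Hom.hom t)
    (m12a_push (Y := FC.mapObj (teeKap I) Y) (FC.fcm_mapHom (teeKap I) d) f k)).trans ?_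
  refine (m12a_hom_sum (PKap I) _).trans (Finset.sum_congr rfl fun j _ => ?_)
  have h3 := m12a_mapEl (teeKap I) (d.app j) k
  exact congrArg (fun t => ((f j).hom : 𝟙_ (KC I) ⟶ (Y.obj j).obj) ≫
    InducedWideCategory.Hom.hom t) h3

omit [CharP F 2] in
/-- the cocycles in terms of the entries -/
lemma m12a_cocyc (Y : FC (Tee I)) [Fintype Y.ι] (d : FC.Hom Y Y)
    (g : FC.Hom (FC.mapObj (teeKap I) Y) (FC.single (𝟙_ (Kap I))))
    (h : ∀ i, FC.push g (FC.mapEl (teeKap I) (d.app i)) = 0) (i : Y.ι) :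
    ∑ j, degPart ((d.app i) j).hom ≫ (((g.app j) ()).hom : (Y.obj j).obj ⟶ 𝟙_ (KC I)) = 0 := by
  have h1 := congrArg (fun t => (t ()).hom) (h i)
  refine Eq.trans ?_ h1
  refine Eq.symm ?_
  refine (congrArg (fun t => InducedWideCategory.Hom.hom t)
    (m12a_push (Y := FC.mapObj (teeKap I) Y) g (FC.mapEl (teeKap I) (d.app i)) ())).trans ?_
  refine (m12a_hom_sum (PKap I) _).trans (Finset.sum_congr rfl fun j _ => ?_)
  have h3 := m12a_mapEl (teeKap I) (d.app i) j
  exact congrArg (fun t => InducedWideCategory.Hom.hom t ≫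
    (((g.app j) ()).hom : (Y.obj j).obj ⟶ 𝟙_ (KC I))) h3

theorem m12a (M : D (FC (Tee I))) (hM : Finite M.X.ι)
    (hη : IsZero ((K.mapF (FC.mapF (teeEta I))).obj ((Q (FC (Tee I))).obj M)))
    (f : 𝟙_ (K (FC (Kap I))) ⟶ (K.mapF (FC.mapF (teeKap I))).obj ((Q (FC (Tee I))).obj M))
    (g : (K.mapF (FC.mapF (teeKap I))).obj ((Q (FC (Tee I))).obj M) ⟶ 𝟙_ (K (FC (Kap I)))) :
    f ≫ g = 0 := by
  have := Fintype.ofFinite M.X.ι
  obtain ⟨h, hh⟩ := K.isZero_iff (A := (D.mapF (FC.mapF (teeEta I))).obj M).1 hη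
  obtain ⟨f', hf'⟩ := Q_map_surjective (A := 𝟙_ (D (FC (Kap I))))
    (B := (D.mapF (FC.mapF (teeKap I))).obj M) f
  obtain ⟨g', hg'⟩ := Q_map_surjective (A := (D.mapF (FC.mapF (teeKap I))).obj M)
    (B := 𝟙_ (D (FC (Kap I)))) g
  subst hf' hg'
  -- the square of the differential
  have hdd : ∀ i k, ∑ j, (((FC.Hom.app M.d i) j).hom : (M.X.obj i).obj ⟶ (M.X.obj j).obj) ≫
      ((FC.Hom.app M.d j) k).hom = 0 := by
    intro i k
    have h1 : (FC.push M.d (FC.Hom.app M.d i)) k = 0 :=
      congrArg (fun t : M.X ⟶ M.X => (FC.Hom.app t i) k) M.d2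
    rw [m12a_push] at h1
    have h2 := congrArg (fun t => InducedWideCategory.Hom.hom t) h1
    exact (m12a_hom_sum (PTee I) _).symm.trans h2
  have hz : f' ≫ g' = 0 := by
    refine D.hom_ext _ _ (FC.hom_ext fun u => ?_)
    have hfd : FC.push (FC.fcm_mapHom (teeKap I) M.d) (FC.Hom.app f'.f ()) = 0 := by
      have h1 := congrArg (fun t => FC.Hom.app t ()) f'.comm
      refine h1.trans ?_
      exact map_zero (FC.push f'.f)
    have hdg : ∀ i, FC.push g'.f (FC.mapEl (teeKap I) (FC.Hom.app M.d i)) = 0 := by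
      intro i
      have h0 : (g'.f ≫ (0 : 𝟙_ (FC (Kap I)) ⟶ 𝟙_ (FC (Kap I)))) = 0 := comp_zero
      have h1 := congrArg (fun t : FC.Hom (FC.mapObj (teeKap I) M.X) (FC.single (𝟙_ (Kap I))) =>
        t.app i) (h0.symm.trans g'.comm)
      exact h1.symm
    have key := sector M.X.ι (fun j => (M.X.obj j).obj) (fun i j => ((FC.Hom.app M.d i) j).hom)
      (fun i j => ((FC.Hom.app h i) j).hom)
      (fun i j => ((FC.Hom.app M.d i) j).property)
      (fun i j => ((FC.Hom.app h i) j).property) hdd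
      (m12a_eta M.X M.d h (fun i => congrArg (fun t => FC.Hom.app t i) hh) _ _
        (fun _ _ => rfl) (fun _ _ => rfl))
      (fun j => ((FC.Hom.app f'.f ()) j).hom) (fun j => ((FC.Hom.app g'.f j) ()).hom)
      (fun j => ((FC.Hom.app f'.f ()) j).property) (fun j => ((FC.Hom.app g'.f j) ()).property)
      (m12a_cyc M.X M.d (FC.Hom.app f'.f ()) hfd) (m12a_cocyc M.X M.d g'.f hdg)
    refine DFinsupp.ext fun v => ?_
    refine WideSubcategory.hom_ext _ ?_
    refine (congrArg (fun t => InducedWideCategory.Hom.hom t)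
      (m12a_push (Y := FC.mapObj (teeKap I) M.X) g'.f (FC.Hom.app f'.f ()) ())).trans ?_
    exact (m12a_hom_sum (PKap I) _).trans key
  refine ((Q (FC (Kap I))).map_comp f' g').symm.trans ?_
  rw [hz]
  exact (Q (FC (Kap I))).map_zero _ _

end Pool.Agent.H939.TT
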