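import Pool.Agent.H939.TT.KerSub
import Pool.Agent.H939.TT.DTFun

/-!
# Finite objects killed by the degree preserving part are zero
-/

namespace Pool.Agent.H939.TT

open CategoryTheory CategoryTheory.Limits CategoryTheory.MonoidalCategory

section General

variable {A : Type} [Category.{0} A] [Preadditive A] (δ : A → ℤ)

/-- the elements whose components have degree at least `c` -/
def m12b_Hi (a : A) (Y : FC A) (c : ℤ) : AddSubgroup (FC.El a Y) :=
  AddSubgroup.closure {x | ∃ (j : Y.ι) (u : a ⟶ Y.obj j), c ≤ δ (Y.obj j) ∧ x = FC.of Y j u}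

lemma m12b_of_mem {a : A} {Y : FC A} {c : ℤ} {j : Y.ι} (u : a ⟶ Y.obj j)
    (h : c ≤ δ (Y.obj j)) : FC.of Y j u ∈ m12b_Hi δ a Y c :=
  AddSubgroup.subset_closure ⟨j, u, h, rfl⟩

lemma m12b_act_mem {a b : A} {Y : FC A} {c : ℤ} (u : a ⟶ b) {x : FC.El b Y}
    (hx : x ∈ m12b_Hi δ b Y c) : FC.act Y u x ∈ m12b_Hi δ a Y c := by
  induction hx using AddSubgroup.closure_induction with
  | mem x hx =>
    obtain ⟨j, v, hj, rfl⟩ := hx
    rw [FC.act_of]
    exact m12b_of_mem δ _ hj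
  | zero => rw [map_zero]; exact zero_mem _
  | add x y _ _ hx hy => rw [map_add]; exact add_mem hx hy
  | neg x _ hx => rw [map_neg]; exact neg_mem hx

lemma m12b_push_mem {a : A} {Y Z : FC A} {c s : ℤ} (g : Y ⟶ Z)
    (hg : ∀ j, FC.Hom.app g j ∈ m12b_Hi δ (Y.obj j) Z (δ (Y.obj j) + s)) {x : FC.El a Y}
    (hx : x ∈ m12b_Hi δ a Y c) : FC.push g x ∈ m12b_Hi δ a Z (c + s) := by
  have mono : ∀ {b : A} {c' c'' : ℤ} {y : FC.El b Z}, c' ≤ c'' → y ∈ m12b_Hi δ b Z c'' →
      y ∈ m12b_Hi δ b Z c' := by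
    intro b c' c'' y h hy
    refine AddSubgroup.closure_mono ?_ hy
    rintro x ⟨j, u, hj, rfl⟩
    exact ⟨j, u, h.trans hj, rfl⟩
  induction hx using AddSubgroup.closure_induction with
  | mem x hx =>
    obtain ⟨j, v, hj, rfl⟩ := hx
    rw [FC.push_of]
    exact m12b_act_mem δ _ (mono (by linarith) (hg j))
  | zero => rw [map_zero]; exact zero_mem _
  | add x y _ _ hx hy => rw [map_add]; exact add_mem hx hy
  | neg x _ hx => rw [map_neg]; exact neg_mem hx

lemma m12b_eq_zero {a : A} {Y : FC A} {c : ℤ} {x : FC.El a Y} (hx : x ∈ m12b_Hi δ a Y c)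
    (hc : ∀ j, δ (Y.obj j) < c) : x = 0 := by
  induction hx using AddSubgroup.closure_induction with
  | mem x hx =>
    obtain ⟨j, v, hj, rfl⟩ := hx
    exact absurd hj (not_le.2 (hc j))
  | zero => rfl
  | add x y _ _ hx hy => rw [hx, hy, add_zero]
  | neg x _ hx => rw [hx, neg_zero]

/-- the powers of an endomorphism -/
noncomputable def m12b_pw {C : Type*} [Category C] {X : C} (n : X ⟶ X) : ℕ → (X ⟶ X)
  | 0 => 𝟙 X
  | r + 1 => m12b_pw n r ≫ n

lemma m12b_pw_mem {X : FC A} (n : X ⟶ X)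
    (hn : ∀ i, FC.Hom.app n i ∈ m12b_Hi δ (X.obj i) X (δ (X.obj i) + 1)) (r : ℕ) (i : X.ι) :
    FC.Hom.app (m12b_pw n r) i ∈ m12b_Hi δ (X.obj i) X (δ (X.obj i) + r) := by
  induction r with
  | zero =>
    refine m12b_of_mem δ (𝟙 (X.obj i)) ?_
    simp
  | succ r ih =>
    have h := m12b_push_mem δ n hn ih
    rw [show δ (X.obj i) + ((r + 1 : ℕ) : ℤ) = δ (X.obj i) + (r : ℤ) + 1 by push_cast; ring]
    exact h

lemma m12b_pw_zero {X : FC A} [Finite X.ι] (n : X ⟶ X)
    (hn : ∀ i, FC.Hom.app n i ∈ m12b_Hi δ (X.obj i) X (δ (X.obj i) + 1)) :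
    ∃ r, m12b_pw n r = 0 := by
  obtain ⟨U, hU⟩ := (Set.finite_range (fun j => δ (X.obj j))).bddAbove
  obtain ⟨L, hL⟩ := (Set.finite_range (fun j => δ (X.obj j))).bddBelow
  refine ⟨(U - L + 1).toNat, FC.hom_ext fun i => ?_⟩
  refine m12b_eq_zero δ (m12b_pw_mem δ n hn _ i) fun j => ?_
  have h1 : δ (X.obj j) ≤ U := hU ⟨j, rfl⟩
  have h2 : L ≤ δ (X.obj i) := hL ⟨i, rfl⟩
  have h3 : U - L + 1 ≤ ((U - L + 1).toNat : ℤ) := Int.self_le_toNat _
  linarith

end General

lemma m12b_null {C : Type*} [Category C] [Preadditive C] {X : C} (d k n : X ⟶ X)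
    (hd : d ≫ d = 0) (hn : 𝟙 X = n + (k ≫ d + d ≫ k)) (r : ℕ) :
    ∃ h : X ⟶ X, 𝟙 X = m12b_pw n r + (h ≫ d + d ≫ h) := by
  have hnd : n ≫ d = d ≫ n := by
    have e1 : n = 𝟙 X - (k ≫ d + d ≫ k) := eq_sub_of_add_eq hn.symm
    rw [e1]
    simp only [Preadditive.sub_comp, Preadditive.comp_sub, Preadditive.add_comp,
      Preadditive.comp_add, Category.assoc, hd, comp_zero, Category.id_comp, Category.comp_id]
    rw [← Category.assoc d d k, hd, zero_comp, zero_add, add_zero]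
  have hpd : ∀ r, m12b_pw n r ≫ d = d ≫ m12b_pw n r := by
    intro r
    induction r with
    | zero => exact (Category.id_comp d).trans (Category.comp_id d).symm
    | succ r ih =>
      change (m12b_pw n r ≫ n) ≫ d = d ≫ m12b_pw n r ≫ n
      rw [Category.assoc, hnd, ← Category.assoc, ih, Category.assoc]
  induction r with
  | zero => exact ⟨0, by simp [m12b_pw]⟩
  | succ r ih =>
    obtain ⟨h, hh⟩ := ih
    refine ⟨h + m12b_pw n r ≫ k, ?_⟩
    have e : m12b_pw n r = m12b_pw n r ≫ n + ((m12b_pw n r ≫ k) ≫ d + d ≫ m12b_pw n r ≫ k) := by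
      calc m12b_pw n r = m12b_pw n r ≫ 𝟙 X := (Category.comp_id _).symm
        _ = m12b_pw n r ≫ (n + (k ≫ d + d ≫ k)) := by rw [← hn]
        _ = _ := by
          rw [Preadditive.comp_add, Preadditive.comp_add, Category.assoc, ← Category.assoc _ d k,
            hpd, Category.assoc]
    change 𝟙 X = m12b_pw n r ≫ n + _
    rw [Preadditive.add_comp, Preadditive.comp_add]
    calc 𝟙 X = m12b_pw n r + (h ≫ d + d ≫ h) := hh
      _ = (m12b_pw n r ≫ n + ((m12b_pw n r ≫ k) ≫ d + d ≫ m12b_pw n r ≫ k)) +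
          (h ≫ d + d ≫ h) := by rw [← e]
      _ = _ := by abel

variable {F : Type} [Field F] [CharP F 2] {I : Integral F}

/-- the degree of an object -/
def m12b_deg (X : Tee I) : ℤ := X.obj.ob.deg

omit [CharP F 2] in
lemma m12b_entry {X Y : Tee I} (K : X ⟶ Y) (h : Y.obj.ob.deg < X.obj.ob.deg) : K = 0 := by
  refine WideSubcategory.hom_ext _ ?_
  rw [wide_zero_hom]
  apply Ker.ext
  funext x y
  by_contra hne
  exact absurd (K.property.2.1 x y hne) (not_le.2 h)

/-- the degree preserving part of a morphism -/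
noncomputable def m12b_bar {a b : Tee I} (u : a ⟶ b) : a ⟶ b :=
  (kapTee I).map ((teeKap I).map u)

/-- the degree preserving part of an element -/
noncomputable def m12b_part {a : Tee I} (Y : FC (Tee I)) (x : FC.El a Y) : FC.El a Y :=
  FC.mapEl (kapTee I) (a := (teeKap I).obj a) (Y := FC.mapObj (teeKap I) Y)
    (FC.mapEl (teeKap I) (a := a) (Y := Y) x)

omit [CharP F 2] in
lemma m12b_part_zero {a : Tee I} (Y : FC (Tee I)) : m12b_part Y (0 : FC.El a Y) = 0 := by
  refine (congrArg (FC.mapEl (kapTee I) (a := (teeKap I).obj a) (Y := FC.mapObj (teeKap I) Y))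
    (map_zero (FC.mapEl (teeKap I) (a := a) (Y := Y)))).trans ?_
  exact map_zero (FC.mapEl (kapTee I) (a := (teeKap I).obj a) (Y := FC.mapObj (teeKap I) Y))

omit [CharP F 2] in
lemma m12b_part_add {a : Tee I} (Y : FC (Tee I)) (x y : FC.El a Y) :
    m12b_part Y (x + y) = m12b_part Y x + m12b_part Y y := by
  refine (congrArg (FC.mapEl (kapTee I) (a := (teeKap I).obj a) (Y := FC.mapObj (teeKap I) Y))
    (map_add (FC.mapEl (teeKap I) (a := a) (Y := Y)) x y)).trans ?_
  exact map_add (FC.mapEl (kapTee I) (a := (teeKap I).obj a) (Y := FC.mapObj (teeKap I) Y)) _ _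

omit [CharP F 2] in
lemma m12b_part_of {a : Tee I} {Y : FC (Tee I)} (j : Y.ι) (u : a ⟶ Y.obj j) :
    m12b_part Y (FC.of Y j u) = FC.of Y j (m12b_bar u) := by
  refine (congrArg (FC.mapEl (kapTee I) (a := (teeKap I).obj a) (Y := FC.mapObj (teeKap I) Y))
    (FC.mapEl_of (teeKap I) j u)).trans ?_
  exact FC.mapEl_of (kapTee I) (Y := FC.mapObj (teeKap I) Y) j ((teeKap I).map u)

omit [CharP F 2] in
lemma m12b_diff {a : Tee I} {Y : FC (Tee I)} (x : FC.El a Y) :
    x - m12b_part Y x ∈ m12b_Hi m12b_deg a Y (m12b_deg a + 1) := by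
  induction x using FC.El.induction with
  | h0 => rw [m12b_part_zero, sub_zero]; exact zero_mem _
  | h1 j u =>
    rw [m12b_part_of, ← map_sub]
    rcases lt_trichotomy (m12b_deg a) (m12b_deg (Y.obj j)) with h | h | h
    · exact m12b_of_mem _ _ (by omega)
    · have e : m12b_bar u = u := WideSubcategory.hom_ext _ (teeKap_map_of_eq u h)
      rw [e, sub_self, map_zero]
      exact zero_mem _
    · rw [m12b_entry (u - m12b_bar u) h, map_zero]
      exact zero_mem _
  | h2 x y hx hy =>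
    rw [m12b_part_add, add_sub_add_comm]
    exact add_mem hx hy

omit [CharP F 2] in
lemma m12b_mapEl {a : Kap I} {Y : FC (Kap I)} (x : FC.El a Y) :
    (FC.mapEl (teeKap I) (Y := FC.mapObj (kapTee I) Y) (FC.mapEl (kapTee I) x) : FC.El a Y) =
      x := by
  induction x using FC.El.induction with
  | h0 =>
    refine (congrArg (FC.mapEl (teeKap I) (a := (kapTee I).obj a) (Y := FC.mapObj (kapTee I) Y))
      (map_zero (FC.mapEl (kapTee I) (a := a) (Y := Y)))).trans ?_
    exact map_zero (FC.mapEl (teeKap I) (a := (kapTee I).obj a) (Y := FC.mapObj (kapTee I) Y))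
  | h1 j u =>
    refine (congrArg (FC.mapEl (teeKap I) (a := (kapTee I).obj a)
      (Y := FC.mapObj (kapTee I) Y)) (FC.mapEl_of (kapTee I) j u)).trans ?_
    refine (FC.mapEl_of (teeKap I) (Y := FC.mapObj (kapTee I) Y) j ((kapTee I).map u)).trans ?_
    exact congrArg (FC.of Y j) (teeKap_kapTee u)
  | h2 x y hx hy =>
    refine (congrArg (FC.mapEl (teeKap I) (a := (kapTee I).obj a) (Y := FC.mapObj (kapTee I) Y))
      (map_add (FC.mapEl (kapTee I) (a := a) (Y := Y)) x y)).trans ?_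
    refine (map_add (FC.mapEl (teeKap I) (a := (kapTee I).obj a)
      (Y := FC.mapObj (kapTee I) Y)) _ _).trans ?_
    exact congrArg₂ (· + ·) hx hy

omit [CharP F 2] in
lemma m12b_section {X Y : FC (Kap I)} (f : X ⟶ Y) :
    (FC.mapF (teeKap I)).map ((FC.mapF (kapTee I)).map f) = f :=
  FC.hom_ext fun i => m12b_mapEl (FC.Hom.app f i)

omit [CharP F 2] in
lemma m12b_high {X : FC (Tee I)} (n : X ⟶ X) (hn : (FC.mapF (teeKap I)).map n = 0) (i : X.ι) :
    FC.Hom.app n i ∈ m12b_Hi m12b_deg (X.obj i) X (m12b_deg (X.obj i) + 1) := by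
  have h := m12b_diff (FC.Hom.app n i)
  have e1 : FC.mapEl (teeKap I) (FC.Hom.app n i) = 0 :=
    congrArg (fun u : (FC.mapF (teeKap I)).obj X ⟶ (FC.mapF (teeKap I)).obj X =>
      FC.Hom.app u i) hn
  have e : m12b_part X (FC.Hom.app n i) = 0 := by
    refine (congrArg (FC.mapEl (kapTee I) (a := (teeKap I).obj (X.obj i))
      (Y := FC.mapObj (teeKap I) X)) e1).trans ?_
    exact map_zero (FC.mapEl (kapTee I) (a := (teeKap I).obj (X.obj i))
      (Y := FC.mapObj (teeKap I) X))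
  rwa [e, sub_zero] at h

omit [CharP F 2] in
lemma m12b_zero {X : FC (Tee I)} (d k' : X ⟶ X)
    (k : (FC.mapF (teeKap I)).obj X ⟶ (FC.mapF (teeKap I)).obj X)
    (hk' : (FC.mapF (teeKap I)).map k' = k)
    (hk : 𝟙 ((FC.mapF (teeKap I)).obj X) =
      k ≫ (FC.mapF (teeKap I)).map d + (FC.mapF (teeKap I)).map d ≫ k) :
    (FC.mapF (teeKap I)).map (𝟙 X - (k' ≫ d + d ≫ k')) = 0 := by
  rw [Functor.map_sub, Functor.map_add, Functor.map_comp, Functor.map_comp, hk',
    CategoryTheory.Functor.map_id, sub_eq_zero]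
  exact hk

theorem m12b (M : D (FC (Tee I))) (hM : Finite M.X.ι)
    (hκ : IsZero ((K.mapF (FC.mapF (teeKap I))).obj ((Q (FC (Tee I))).obj M))) :
    IsZero ((Q (FC (Tee I))).obj M) := by
  rw [K.mapF_obj, K.isZero_iff] at hκ
  obtain ⟨k, hk⟩ := hκ
  let k' : M.X ⟶ M.X := (FC.mapF (kapTee I)).map k
  have hk' : (FC.mapF (teeKap I)).map k' = k := m12b_section k
  have hn0 := m12b_zero M.d k' k hk' hk
  obtain ⟨r, hr⟩ := m12b_pw_zero m12b_deg _ (m12b_high _ hn0)
  obtain ⟨h, hh⟩ := m12b_null M.d k' _ M.d2 (sub_add_cancel _ _).symm r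
  rw [hr, zero_add] at hh
  exact K.isZero_iff.2 ⟨h, hh⟩

end Pool.Agent.H939.TT
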