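import Pool.Agent.H939.TT.IntDefs

/-!
# The pairing of invariant functions given by the integral is perfect
-/

namespace Pool.Agent.H939.TT

variable {F : Type} [Field F]

/-- Two maps from a finite type to the natural numbers with the same coincidences are conjugate
under a permutation. -/
theorem ppc_perm (K : Type) [Finite K] (u v : K → ℕ) (h : ∀ i j, u i = u j ↔ v i = v j) :
    ∃ σ : Equiv.Perm ℕ, ∀ k, σ (u k) = v k := by
  classical
  let f : Set.range u → Set.range v := fun a => ⟨v a.2.choose, a.2.choose, rfl⟩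
  have hf : ∀ k, f ⟨u k, k, rfl⟩ = ⟨v k, k, rfl⟩ := by
    intro k
    have hk : ∃ j, u j = u k := ⟨k, rfl⟩
    apply Subtype.ext
    exact (h _ _).1 hk.choose_spec
  have hbij : Function.Bijective f := by
    constructor
    · rintro ⟨a, i, rfl⟩ ⟨b, j, rfl⟩ hab
      rw [hf, hf] at hab
      apply Subtype.ext
      exact (h i j).2 (Subtype.ext_iff.1 hab)
    · rintro ⟨b, j, rfl⟩
      exact ⟨⟨u j, j, rfl⟩, hf j⟩
  have hu : Infinite ((Set.range u)ᶜ : Set ℕ) := (Set.finite_range u).infinite_compl.to_subtype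
  have hv : Infinite ((Set.range v)ᶜ : Set ℕ) := (Set.finite_range v).infinite_compl.to_subtype
  obtain ⟨e₂⟩ : Nonempty (((Set.range u)ᶜ : Set ℕ) ≃ ((Set.range v)ᶜ : Set ℕ)) :=
    nonempty_equiv_of_countable
  let e₁ : Set.range u ≃ Set.range v := Equiv.ofBijective f hbij
  let σ : Equiv.Perm ℕ := (Equiv.Set.sumCompl (Set.range u)).symm.trans
    ((Equiv.sumCongr e₁ e₂).trans (Equiv.Set.sumCompl (Set.range v)))
  refine ⟨σ, fun k => ?_⟩
  have h1 : (Equiv.Set.sumCompl (Set.range u)).symm (u k) = Sum.inl ⟨u k, k, rfl⟩ := by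
    rw [Equiv.symm_apply_eq]
    rfl
  change (Equiv.Set.sumCompl (Set.range v)) ((Equiv.sumCongr e₁ e₂)
    ((Equiv.Set.sumCompl (Set.range u)).symm (u k))) = v k
  rw [h1, Equiv.sumCongr_apply, Sum.map_inl, Equiv.Set.sumCompl_apply_inl]
  change ((f ⟨u k, k, rfl⟩ : Set.range v) : ℕ) = v k
  rw [hf]

/-- Two points with the same coincidences, and the same coordinates `< N`, are conjugate under
the permutations which fix the numbers `< N`. -/
theorem exists_perm (N : ℕ) (J : Type) [Finite J] (x y : J → ℕ)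
    (h₁ : ∀ i j, x i = x j ↔ y i = y j) (h₂ : ∀ i, ∀ n < N, x i = n ↔ y i = n) :
    ∃ σ : Equiv.Perm ℕ, (∀ n < N, σ n = n) ∧ y = σ ∘ x := by
  obtain ⟨σ, hσ⟩ := ppc_perm (J ⊕ Fin N) (Sum.elim x (fun n => (n : ℕ)))
    (Sum.elim y (fun n => (n : ℕ))) (by
      rintro (i | m) (j | n)
      · exact h₁ i j
      · exact h₂ i n n.2
      · change (m : ℕ) = x j ↔ (m : ℕ) = y j
        rw [eq_comm, h₂ j m m.2, eq_comm]
      · exact Iff.rfl)
  refine ⟨σ, fun n hn => hσ (Sum.inr ⟨n, hn⟩), ?_⟩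
  funext i
  exact (hσ (Sum.inl i)).symm

/-- the type of a point: its coincidences and its coordinates `< N` -/
def ppcT (N : ℕ) {J : Type} (x : J → ℕ) : Set (J × J) × Set (J × Fin N) :=
  ({p | x p.1 = x p.2}, {p | x p.1 = p.2})

theorem ppcT_comp (N : ℕ) {J : Type} (x : J → ℕ) (σ : Equiv.Perm ℕ) (hσ : ∀ n < N, σ n = n) :
    ppcT N (σ ∘ x) = ppcT N x := by
  unfold ppcT
  refine Prod.ext ?_ ?_
  · ext p
    exact σ.injective.eq_iff
  · ext p
    change σ (x p.1) = p.2 ↔ x p.1 = p.2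
    constructor
    · intro h
      apply σ.injective
      rw [h, hσ _ p.2.2]
    · intro h
      rw [h, hσ _ p.2.2]

theorem ppcT_eq (N : ℕ) {J : Type} [Finite J] {x y : J → ℕ} (h : ppcT N y = ppcT N x) :
    ∃ σ : Equiv.Perm ℕ, (∀ n < N, σ n = n) ∧ y = σ ∘ x := by
  apply exists_perm
  · intro i j
    have h1 := Set.ext_iff.1 (congrArg Prod.fst h) (i, j)
    exact h1.symm
  · intro i n hn
    have h1 := Set.ext_iff.1 (congrArg Prod.snd h) (i, ⟨n, hn⟩)
    exact h1.symm

open Classical in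
/-- the indicator of a type -/
noncomputable def ppcI (F : Type) [Field F] (N : ℕ) {J : Type}
    (t : Set (J × J) × Set (J × Fin N)) (x : J → ℕ) : F :=
  if ppcT N x = t then 1 else 0

theorem ppcI_sm (N : ℕ) {J : Type} (t : Set (J × J) × Set (J × Fin N)) :
    Sm N (ppcI F N t) := by
  intro σ hσ y
  unfold ppcI
  rw [ppcT_comp N y σ hσ]

theorem ppcI_self (N : ℕ) {J : Type} (x : J → ℕ) : ppcI F N (ppcT N x) x = 1 := if_pos rfl

theorem ppcI_ne (N : ℕ) {J : Type} {t : Set (J × J) × Set (J × Fin N)} {x : J → ℕ}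
    (h : ppcI F N t x ≠ 0) : ppcT N x = t := by
  by_contra hne
  exact h (if_neg hne)

theorem ppc_int_ne (I : Integral F) (N : ℕ) {J : Type} [Finite J] (x : J → ℕ) :
    I.int J (ppcI F N (ppcT N x)) ≠ 0 := by
  refine I.orbit_ne_zero J N x _ (ppcI_sm N _) (by rw [ppcI_self]; exact one_ne_zero) ?_
  intro y hy
  exact ppcT_eq N (ppcI_ne N hy)

/-- functionals which are linear on the invariant functions -/
structure PpcLin (N : ℕ) {J : Type} (l : ((J → ℕ) → F) → F) : Prop where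
  add : ∀ f g, Sm N f → Sm N g → l (fun x => f x + g x) = l f + l g
  smul : ∀ (c : F) f, Sm N f → l (fun x => c * f x) = c * l f

theorem PpcLin.zero {N : ℕ} {J : Type} {l : ((J → ℕ) → F) → F} (h : PpcLin N l) :
    l (fun _ => 0) = 0 := by
  have h1 := h.smul 0 (fun _ => 0) (fun _ _ _ => rfl)
  rw [zero_mul, zero_mul] at h1
  exact h1

theorem ppc_sum_sm (N : ℕ) {J : Type} (s : Finset (Set (J × J) × Set (J × Fin N)))
    (d : Set (J × J) × Set (J × Fin N) → F) :
    Sm N (fun x => ∑ t ∈ s, d t * ppcI F N t x) := by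
  intro σ hσ y
  refine Finset.sum_congr rfl fun t _ => ?_
  rw [ppcI_sm N t σ hσ y]

theorem PpcLin.sum {N : ℕ} {J : Type} {l : ((J → ℕ) → F) → F} (h : PpcLin N l)
    (s : Finset (Set (J × J) × Set (J × Fin N))) (d : Set (J × J) × Set (J × Fin N) → F) :
    l (fun x => ∑ t ∈ s, d t * ppcI F N t x) = ∑ t ∈ s, d t * l (ppcI F N t) := by
  classical
  induction s using Finset.induction_on with
  | empty =>
    simp only [Finset.sum_empty]
    exact h.zero
  | insert a s ha ih =>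
    rw [Finset.sum_insert ha, ← ih, ← h.smul _ _ (ppcI_sm N a), ← h.add]
    · congr 1
      funext x
      rw [Finset.sum_insert ha]
    · intro σ hσ y
      change d a * ppcI F N a (σ ∘ y) = d a * ppcI F N a y
      rw [ppcI_sm N a σ hσ y]
    · exact ppc_sum_sm N s d

theorem ppc_expand (N : ℕ) {J : Type} [Fintype (Set (J × J) × Set (J × Fin N))]
    (d : Set (J × J) × Set (J × Fin N) → F) (x : J → ℕ) :
    ∑ t, d t * ppcI F N t x = d (ppcT N x) := by
  classical
  rw [Finset.sum_eq_single (ppcT N x)]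
  · rw [ppcI_self, mul_one]
  · intro t _ ht
    have : ppcI F N t x = 0 := if_neg (Ne.symm ht)
    rw [this, mul_zero]
  · intro h
    exact absurd (Finset.mem_univ _) h

theorem ppc_const (N : ℕ) {J : Type} [Finite J] (f : (J → ℕ) → F) (hf : Sm N f) :
    ∃ c : Set (J × J) × Set (J × Fin N) → F, ∀ x, f x = c (ppcT N x) := by
  classical
  refine ⟨fun t => if h : ∃ x, ppcT N x = t then f h.choose else 0, fun x => ?_⟩
  have hx : ∃ y : J → ℕ, ppcT N y = ppcT N x := ⟨x, rfl⟩
  change f x = if h : ∃ y, ppcT N y = ppcT N x then f h.choose else 0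
  rw [dif_pos hx]
  obtain ⟨σ, hσ, hy⟩ := ppcT_eq N hx.choose_spec
  rw [hy, hf σ hσ]

/-- perfect pairing, for invariant functions with a given invariant support condition -/
theorem pairing (I : Integral F) (N : ℕ) (J : Type) [Finite J] (S : Set (J → ℕ))
    (hS : ∀ σ : Equiv.Perm ℕ, (∀ n < N, σ n = n) → ∀ x, σ ∘ x ∈ S ↔ x ∈ S)
    (l : ((J → ℕ) → F) → F)
    (hadd : ∀ f g, Sm N f → Sm N g → l (fun x => f x + g x) = l f + l g)
    (hsmul : ∀ (c : F) f, Sm N f → l (fun x => c * f x) = c * l f) :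
    ∃ g : (J → ℕ) → F, Sm N g ∧ (∀ x, g x ≠ 0 → x ∈ S) ∧
      ∀ f : (J → ℕ) → F, Sm N f → (∀ x, f x ≠ 0 → x ∈ S) → I.int J (fun x => f x * g x) = l f := by
  classical
  have hl : PpcLin N l := ⟨hadd, hsmul⟩
  have hI : PpcLin N (I.int J) := ⟨I.add J N, I.smul J N⟩
  let _ : Fintype (Set (J × J) × Set (J × Fin N)) := Fintype.ofFinite _
  let r : Set (J × J) × Set (J × Fin N) → F := fun t => l (ppcI F N t) / I.int J (ppcI F N t)
  refine ⟨fun x => if x ∈ S then r (ppcT N x) else 0, ?_, ?_, ?_⟩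
  · intro σ hσ y
    change (if σ ∘ y ∈ S then r (ppcT N (σ ∘ y)) else 0) = if y ∈ S then r (ppcT N y) else 0
    rw [ppcT_comp N y σ hσ]
    by_cases hy : y ∈ S
    · rw [if_pos hy, if_pos ((hS σ hσ y).2 hy)]
    · rw [if_neg hy, if_neg (fun h => hy ((hS σ hσ y).1 h))]
  · intro x hx
    by_contra hxS
    exact hx (if_neg hxS)
  · intro f hf hfS
    obtain ⟨c, hc⟩ := ppc_const N f hf
    have h1 : f = fun x => ∑ t, c t * ppcI F N t x := by
      funext x
      rw [ppc_expand, hc]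
    have h2 : (fun x => f x * (if x ∈ S then r (ppcT N x) else 0)) =
        fun x => ∑ t, (c t * r t) * ppcI F N t x := by
      funext x
      rw [ppc_expand]
      by_cases hx : x ∈ S
      · rw [if_pos hx, hc]
      · have h3 : f x = 0 := by
          by_contra h
          exact hx (hfS x h)
        rw [if_neg hx, mul_zero, ← hc x, h3, zero_mul]
    have h4 : l f = ∑ t, c t * l (ppcI F N t) := by
      conv_lhs => rw [h1]
      exact hl.sum _ _
    rw [h2, hI.sum, h4]
    refine Finset.sum_congr rfl fun t _ => ?_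
    by_cases ht : ∃ x, ppcT N x = t
    · obtain ⟨x, rfl⟩ := ht
      have h5 := ppc_int_ne I N x
      change c (ppcT N x) * (l (ppcI F N (ppcT N x)) / I.int J (ppcI F N (ppcT N x))) *
        I.int J (ppcI F N (ppcT N x)) = c (ppcT N x) * l (ppcI F N (ppcT N x))
      rw [mul_assoc, div_mul_cancel₀ _ h5]
    · have h6 : ppcI F N t = fun _ => 0 := by
        funext x
        exact if_neg (fun h => ht ⟨x, h⟩)
      rw [h6, hI.zero, hl.zero, mul_zero, mul_zero]

/-- nondegeneracy, for invariant functions -/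
theorem pairing_nondeg (I : Integral F) (N : ℕ) (J : Type) [Finite J] (g : (J → ℕ) → F)
    (hg : Sm N g) (S : Set (J → ℕ)) (hS : ∀ σ : Equiv.Perm ℕ, (∀ n < N, σ n = n) →
      ∀ x, σ ∘ x ∈ S ↔ x ∈ S) (hgS : ∀ x, g x ≠ 0 → x ∈ S)
    (h : ∀ f : (J → ℕ) → F, Sm N f → (∀ x, f x ≠ 0 → x ∈ S) → I.int J (fun x => f x * g x) = 0) :
    g = 0 := by
  funext x
  by_contra hx
  have hx' : g x ≠ 0 := hx
  have hconst : ∀ y, ppcI F N (ppcT N x) y ≠ 0 → g y = g x := by
    intro y hy
    obtain ⟨σ, hσ, hyx⟩ := ppcT_eq N (ppcI_ne N hy)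
    rw [hyx, hg σ hσ]
  have h1 := h (ppcI F N (ppcT N x)) (ppcI_sm N _) (by
    intro y hy
    apply hgS
    rw [hconst y hy]
    exact hx')
  have h2 : (fun y => ppcI F N (ppcT N x) y * g y) = fun y => g x * ppcI F N (ppcT N x) y := by
    funext y
    by_cases hy : ppcI F N (ppcT N x) y = 0
    · rw [hy, zero_mul, mul_zero]
    · rw [hconst y hy, mul_comm]
  rw [h2, I.smul J N _ _ (ppcI_sm N _)] at h1
  rcases mul_eq_zero.1 h1 with h3 | h3
  · exact hx' h3
  · exact ppc_int_ne I N x h3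

end Pool.Agent.H939.TT
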