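import Pool.Agent.H939.TT.KerSub
import Pool.Agent.H939.TT.DTPi
import Pool.Agent.H939.TT.PPComb

/-!
# The perfect pairings of `Kap` and `Eta`
-/

namespace Pool.Agent.H939.TT

open CategoryTheory CategoryTheory.Limits CategoryTheory.MonoidalCategory

variable {F : Type} [Field F] {I : Integral F}

/-! ### Generalities -/

/-- the only point of the unit -/
def ppk_e : Ob.unit.ix → ℕ := fun i => isEmptyElim i

lemma ppk_sub (x : Ob.unit.ix → ℕ) : x = ppk_e := funext fun i => isEmptyElim i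

/-- a wide subcategory of `KC I` in which the morphisms from and to the unit are the invariant
functions with an invariant support -/
structure PpkGood (P : MorphismProperty (KC I)) (N : ℕ) (S : ∀ Z : Ob, Set (Z.ix → ℕ)) :
    Prop where
  /-- the support is invariant -/
  inv : ∀ (Z : Ob) (σ : Equiv.Perm ℕ), (∀ n < N, σ n = n) → ∀ x, σ ∘ x ∈ S Z ↔ x ∈ S Z
  /-- morphisms from the unit -/
  src : ∀ (Z : KC I) (K : 𝟙_ (KC I) ⟶ Z), P K ↔ (Sm N (fun y => KC.ker K ppk_e y) ∧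
    ∀ y, KC.ker K ppk_e y ≠ 0 → y ∈ S Z.ob)
  /-- morphisms to the unit -/
  tgt : ∀ (Z : KC I) (K : Z ⟶ 𝟙_ (KC I)), P K ↔ (Sm N (fun y => KC.ker K y ppk_e) ∧
    ∀ y, KC.ker K y ppk_e ≠ 0 → y ∈ S Z.ob)

/-- a morphism from the unit -/
def ppkIn (Z : KC I) (f : (Z.ob.ix → ℕ) → F) (hf : ∃ N, Sm N f) : 𝟙_ (KC I) ⟶ Z :=
  (⟨fun _ y => f y, by
    obtain ⟨N, h⟩ := hf
    exact ⟨N, fun σ hσ _ y => h σ hσ y⟩⟩ : Ker F Ob.unit Z.ob)

/-- a morphism to the unit -/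
def ppkOut (Z : KC I) (f : (Z.ob.ix → ℕ) → F) (hf : ∃ N, Sm N f) : Z ⟶ 𝟙_ (KC I) :=
  (⟨fun y _ => f y, by
    obtain ⟨N, h⟩ := hf
    exact ⟨N, fun σ hσ y _ => h σ hσ y⟩⟩ : Ker F Z.ob Ob.unit)

lemma ppkIn_ker (Z : KC I) (f : (Z.ob.ix → ℕ) → F) (hf : ∃ N, Sm N f) (x : Ob.unit.ix → ℕ)
    (y : Z.ob.ix → ℕ) : KC.ker (ppkIn Z f hf) x y = f y := rfl

lemma ppkOut_ker (Z : KC I) (f : (Z.ob.ix → ℕ) → F) (hf : ∃ N, Sm N f) (x : Ob.unit.ix → ℕ)
    (y : Z.ob.ix → ℕ) : KC.ker (ppkOut Z f hf) y x = f y := rfl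

open Classical in
/-- restriction to the support -/
noncomputable def ppkInd {J : Type} (S : Set (J → ℕ)) (f : (J → ℕ) → F) : (J → ℕ) → F :=
  fun y => if y ∈ S then f y else 0

lemma ppkInd_sm {J : Type} {N : ℕ} {S : Set (J → ℕ)}
    (hS : ∀ σ : Equiv.Perm ℕ, (∀ n < N, σ n = n) → ∀ x, σ ∘ x ∈ S ↔ x ∈ S)
    {f : (J → ℕ) → F} (hf : Sm N f) : Sm N (ppkInd S f) := by
  intro σ hσ y
  unfold ppkInd
  by_cases h : y ∈ S
  · rw [if_pos h, if_pos ((hS σ hσ y).2 h), hf σ hσ]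
  · rw [if_neg h, if_neg (fun h' => h ((hS σ hσ y).1 h'))]

lemma ppkInd_supp {J : Type} {S : Set (J → ℕ)} {f : (J → ℕ) → F} (y : J → ℕ)
    (h : ppkInd S f y ≠ 0) : y ∈ S := by
  unfold ppkInd at h
  by_contra h'
  exact h (if_neg h')

lemma ppkInd_eq {J : Type} {S : Set (J → ℕ)} {f : (J → ℕ) → F}
    (h : ∀ y, f y ≠ 0 → y ∈ S) : ppkInd S f = f := by
  funext y
  unfold ppkInd
  by_cases hy : y ∈ S
  · exact if_pos hy
  · rw [if_neg hy]
    by_contra h'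
    exact hy (h y (fun h0 => h' h0.symm))

section Wide

variable {P : MorphismProperty (KC I)} [P.IsStableUnderBraiding] [AddClosed P] [SmulClosed F P]
  {N : ℕ} {S : ∀ Z : Ob, Set (Z.ix → ℕ)}

/-- an invariant function as a morphism from the unit -/
noncomputable def ppkMk (hP : PpkGood P N S) (Z : WideSubcategory P)
    (f : (Z.obj.ob.ix → ℕ) → F) (hf : Sm N f) : 𝟙_ (WideSubcategory P) ⟶ Z :=
  ⟨ppkIn Z.obj (ppkInd (S Z.obj.ob) f) ⟨N, ppkInd_sm (hP.inv _) hf⟩,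
    (hP.src Z.obj _).2 ⟨ppkInd_sm (hP.inv _) hf, fun y hy => ppkInd_supp y hy⟩⟩

open Classical in
/-- the functional on all functions -/
noncomputable def ppkL (hP : PpkGood P N S) (Z : WideSubcategory P)
    (l : (𝟙_ (WideSubcategory P) ⟶ Z) →ₗ[F] F) (f : (Z.obj.ob.ix → ℕ) → F) : F :=
  if hf : Sm N f then l (ppkMk hP Z f hf) else 0


lemma ppkL_add (hP : PpkGood P N S) (Z : WideSubcategory P)
    (l : (𝟙_ (WideSubcategory P) ⟶ Z) →ₗ[F] F) (f g : (Z.obj.ob.ix → ℕ) → F)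
    (hf : Sm N f) (hg : Sm N g) :
    ppkL hP Z l (fun x => f x + g x) = ppkL hP Z l f + ppkL hP Z l g := by
  have hfg : Sm N (fun x => f x + g x) := fun σ hσ y => by
    change f (σ ∘ y) + g (σ ∘ y) = f y + g y
    rw [hf σ hσ, hg σ hσ]
  unfold ppkL
  rw [dif_pos hf, dif_pos hg, dif_pos hfg, ← map_add]
  congr 1
  refine WideSubcategory.hom_ext P (KC.hom_ext fun x y => ?_)
  change ppkInd (S Z.obj.ob) (fun x => f x + g x) y =
    ppkInd (S Z.obj.ob) f y + ppkInd (S Z.obj.ob) g y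
  unfold ppkInd
  split_ifs
  · rfl
  · rw [add_zero]

lemma ppkL_smul (hP : PpkGood P N S) (Z : WideSubcategory P)
    (l : (𝟙_ (WideSubcategory P) ⟶ Z) →ₗ[F] F) (c : F) (f : (Z.obj.ob.ix → ℕ) → F)
    (hf : Sm N f) :
    ppkL hP Z l (fun x => c * f x) = c * ppkL hP Z l f := by
  have hcf : Sm N (fun x => c * f x) := fun σ hσ y => by
    change c * f (σ ∘ y) = c * f y
    rw [hf σ hσ]
  unfold ppkL
  rw [dif_pos hf, dif_pos hcf, ← smul_eq_mul, ← map_smul]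
  congr 1
  refine WideSubcategory.hom_ext P (KC.hom_ext fun x y => ?_)
  change ppkInd (S Z.obj.ob) (fun x => c * f x) y = c * ppkInd (S Z.obj.ob) f y
  unfold ppkInd
  split_ifs
  · rfl
  · rw [mul_zero]

lemma ppk_hasPP (hP : PpkGood P N S) [CharP F 2] : HasPP F (𝟙 (𝟙_ (WideSubcategory P))) := by
  intro Z l _
  obtain ⟨g, hg1, hg2, hg3⟩ := pairing I N Z.obj.ob.ix (S Z.obj.ob) (hP.inv _) (ppkL hP Z l)
    (ppkL_add hP Z l) (ppkL_smul hP Z l)
  refine ⟨⟨ppkOut Z.obj g ⟨N, hg1⟩, (hP.tgt Z.obj _).2 ⟨hg1, hg2⟩⟩, fun u => ?_⟩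
  refine WideSubcategory.hom_ext P (KC.hom_ext fun x y => ?_)
  obtain ⟨hu1, hu2⟩ := (hP.src Z.obj u.hom).1 u.property
  have h1 := hg3 _ hu1 hu2
  have h2 : ppkL hP Z l (fun y => KC.ker u.hom ppk_e y) = l u := by
    unfold ppkL
    rw [dif_pos hu1]
    congr 1
    refine WideSubcategory.hom_ext P (KC.hom_ext fun x y => ?_)
    change ppkInd (S Z.obj.ob) (fun y => KC.ker u.hom ppk_e y) y = KC.ker u.hom x y
    rw [ppkInd_eq hu2, ppk_sub x]
  rw [h2] at h1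
  rw [ppk_sub x, ppk_sub y]
  have h3 : KC.ker (𝟙 (𝟙_ (KC I))) ppk_e ppk_e = 1 :=
    (kmon_perm_f (F := F) (X := Ob.unit) (Y := Ob.unit) (Equiv.refl _) ppk_e ppk_e).trans
      (if_pos (funext fun i => isEmptyElim i))
  change I.int Z.obj.ob.ix (fun y => KC.ker u.hom ppk_e y * g y) =
    l u * KC.ker (𝟙 (𝟙_ (KC I))) ppk_e ppk_e
  rw [h1, h3, mul_one]

omit [SmulClosed F P] in
lemma ppk_nonDeg (hP : PpkGood P N S) [CharP F 2] : NonDeg (𝟙 (𝟙_ (WideSubcategory P))) := by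
  intro Z g hg
  rw [Category.comp_id]
  obtain ⟨hg1, hg2⟩ := (hP.tgt Z.obj g.hom).1 g.property
  have h := pairing_nondeg I N Z.obj.ob.ix (fun y => KC.ker g.hom y ppk_e) hg1 (S Z.obj.ob)
    (hP.inv _) hg2 (fun f hf1 hf2 => by
      have h1 := hg ⟨ppkIn Z.obj f ⟨N, hf1⟩, (hP.src Z.obj _).2 ⟨hf1, hf2⟩⟩
      rw [Category.comp_id] at h1
      exact congrArg (fun k : 𝟙_ (WideSubcategory P) ⟶ 𝟙_ (WideSubcategory P) =>
        KC.ker k.hom ppk_e ppk_e) h1)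
  refine WideSubcategory.hom_ext P (KC.hom_ext fun y x => ?_)
  rw [ppk_sub x]
  exact congrFun h y

end Wide

/-! ### Divisors -/

lemma ppk_div_perm (Z : Ob) (σ : Equiv.Perm ℕ) (x : Z.ix → ℕ) (n : ℕ) :
    Z.div (σ ∘ x) n = Z.div x (σ.symm n) := by
  unfold Ob.div
  refine Finset.sum_congr rfl fun i _ => ?_
  have : (σ ∘ x) i = n ↔ x i = σ.symm n := by
    rw [Function.comp_apply, Equiv.eq_symm_apply]
  simp only [this]

lemma ppk_div_unit (x : Ob.unit.ix → ℕ) (n : ℕ) : Ob.unit.div x n = 0 :=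
  Finset.sum_eq_zero fun i _ => isEmptyElim i

lemma ppk_inv_src {Z : KC I} {N : ℕ} (K : 𝟙_ (KC I) ⟶ Z) :
    Inv N (KC.ker K) ↔ Sm N (fun y => KC.ker K ppk_e y) := by
  constructor
  · intro h σ hσ y
    have := h σ hσ ppk_e y
    rwa [ppk_sub (σ ∘ ppk_e)] at this
  · intro h σ hσ x y
    have := h σ hσ y
    rw [ppk_sub x, ppk_sub (σ ∘ ppk_e)]
    exact this

lemma ppk_inv_tgt {Z : KC I} {N : ℕ} (K : Z ⟶ 𝟙_ (KC I)) :
    Inv N (KC.ker K) ↔ Sm N (fun y => KC.ker K y ppk_e) := by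
  constructor
  · intro h σ hσ y
    have := h σ hσ y ppk_e
    rwa [ppk_sub (σ ∘ ppk_e)] at this
  · intro h σ hσ x y
    have := h σ hσ x
    rw [ppk_sub y, ppk_sub (σ ∘ ppk_e)]
    exact this

/-- the support for `Kap` -/
def ppkSK (Z : Ob) : Set (Z.ix → ℕ) := {z | Z.div z = 0 ∧ Z.deg = 0}

/-- the support for `Eta` -/
def ppkSE (Z : Ob) : Set (Z.ix → ℕ) := {z | ∀ n : ℕ, Z.div z n + (if n = 0 then Z.deg else 0) = 0}

lemma ppk_good_kap (I : Integral F) : PpkGood (PKap I) 0 ppkSK where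
  inv Z σ _ x := by
    change (Z.div (σ ∘ x) = 0 ∧ Z.deg = 0) ↔ (Z.div x = 0 ∧ Z.deg = 0)
    refine and_congr_left fun _ => ⟨fun h => ?_, fun h => ?_⟩
    · funext n
      have := congrFun h (σ n)
      rwa [ppk_div_perm, Equiv.symm_apply_apply] at this
    · funext n
      rw [ppk_div_perm, h]
      rfl
  src Z K := by
    refine and_congr (ppk_inv_src K) ⟨fun h y hy => ?_, fun h x y hxy => ?_⟩
    · obtain ⟨h1, h2⟩ := h ppk_e y hy
      refine ⟨?_, h2.symm⟩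
      rw [← h1]
      funext n
      exact ppk_div_unit _ n
    · rw [ppk_sub x] at hxy
      obtain ⟨h1, h2⟩ := h y hxy
      refine ⟨?_, h2.symm⟩
      rw [h1]
      funext n
      exact ppk_div_unit _ n
  tgt Z K := by
    refine and_congr (ppk_inv_tgt K) ⟨fun h y hy => ?_, fun h y x hxy => ?_⟩
    · obtain ⟨h1, h2⟩ := h y ppk_e hy
      refine ⟨?_, h2⟩
      rw [h1]
      funext n
      exact ppk_div_unit _ n
    · rw [ppk_sub x] at hxy
      obtain ⟨h1, h2⟩ := h y hxy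
      refine ⟨?_, h2⟩
      rw [h1]
      funext n
      exact (ppk_div_unit _ n).symm

lemma ppk_unit_zero (x : Ob.unit.ix → ℕ) (n : ℕ) :
    Ob.unit.div x n + (if n = 0 then Ob.unit.deg else 0) = 0 := by
  rw [ppk_div_unit]
  split_ifs <;> rfl

lemma ppk_good_eta (I : Integral F) : PpkGood (PEta I) 1 ppkSE where
  inv Z σ hσ x := by
    change (∀ n : ℕ, Z.div (σ ∘ x) n + (if n = 0 then Z.deg else 0) = 0) ↔
      (∀ n : ℕ, Z.div x n + (if n = 0 then Z.deg else 0) = 0)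
    have h0 : σ 0 = 0 := hσ 0 Nat.one_pos
    have h1 : ∀ n, σ n = 0 ↔ n = 0 := fun n =>
      ⟨fun h => σ.injective (h.trans h0.symm), fun h => by rw [h, h0]⟩
    refine ⟨fun h n => ?_, fun h n => ?_⟩
    · have := h (σ n)
      rw [ppk_div_perm, Equiv.symm_apply_apply] at this
      simpa only [h1] using this
    · have h2 := h (σ.symm n)
      have h3 : σ.symm n = 0 ↔ n = 0 := by
        rw [← h1 (σ.symm n), Equiv.apply_symm_apply]
      rw [ppk_div_perm]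
      simpa only [h3] using h2
  src Z K := by
    refine and_congr (ppk_inv_src K) ⟨fun h y hy n => ?_, fun h x y hxy n => ?_⟩
    · exact (h ppk_e y hy n).symm.trans (ppk_unit_zero _ n)
    · rw [ppk_sub x] at hxy
      exact (ppk_unit_zero _ n).trans (h y hxy n).symm
  tgt Z K := by
    refine and_congr (ppk_inv_tgt K) ⟨fun h y hy n => ?_, fun h y x hxy n => ?_⟩
    · exact (h y ppk_e hy n).trans (ppk_unit_zero _ n)
    · rw [ppk_sub x] at hxy
      exact (h y hxy n).trans (ppk_unit_zero _ n).symm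

theorem kap_hasPP (I : Integral F) [CharP F 2] : HasPP F (𝟙 (𝟙_ (Kap I))) :=
  ppk_hasPP (ppk_good_kap I)

theorem kap_nonDeg (I : Integral F) [CharP F 2] : NonDeg (𝟙 (𝟙_ (Kap I))) :=
  ppk_nonDeg (ppk_good_kap I)

theorem eta_hasPP (I : Integral F) [CharP F 2] : HasPP F (𝟙 (𝟙_ (Eta I))) :=
  ppk_hasPP (ppk_good_eta I)

theorem eta_nonDeg (I : Integral F) [CharP F 2] : NonDeg (𝟙 (𝟙_ (Eta I))) :=
  ppk_nonDeg (ppk_good_eta I)

end Pool.Agent.H939.TT
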