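import Pool.Agent.H939.TT.KerSub

/-!
# A sequence of morphisms of `Tee` of positive degree with nonzero composites
-/

namespace Pool.Agent.H939.TT

open CategoryTheory CategoryTheory.Limits CategoryTheory.MonoidalCategory

variable {F : Type} [Field F] (I : Integral F)

/-- the object with one point of charge `-1`, in degree `1` -/
def tm_L : Ob where
  code := .point
  w := fun _ => -1
  deg := 1

/-- the point of `tm_L` -/
def tm_pt : tm_L.ix := ()

/-- the powers of `tm_L` -/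
def tm_P : ℕ → Ob
  | 0 => Ob.unit
  | n + 1 => (tm_P n).tensor tm_L

lemma tm_div_L (x : tm_L.ix → ℕ) (n : ℕ) :
    tm_L.div x n = if x tm_pt = n then -1 else 0 := by
  have h : ∀ f : Unit → ℤ,
      (@Finset.sum (Code.point).El ℤ _ (@Finset.univ _ (Code.fintype .point)) f) = f () := by
    intro f
    exact Fintype.sum_unique f
  exact h _

open Classical in
/-- the kernel of the morphism from `X` to `X ⊗ L` -/
noncomputable def tm_ker (F : Type) [Field F] (X : Ob) : Ker F X (X.tensor tm_L) where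
  f x y := if Ob.fst y = x ∧ Ob.snd y tm_pt = 0 then 1 else 0
  sm := by
    refine ⟨1, fun σ hσ x y => ?_⟩
    have h0 : σ 0 = 0 := hσ 0 Nat.zero_lt_one
    have h : (Ob.fst (σ ∘ y) = σ ∘ x ∧ Ob.snd (σ ∘ y) tm_pt = 0) ↔
        (Ob.fst y = x ∧ Ob.snd y tm_pt = 0) := by
      constructor
      · rintro ⟨h1, h2⟩
        refine ⟨funext fun i => σ.injective (congrFun h1 i), σ.injective ?_⟩
        rw [h0]
        exact h2
      · rintro ⟨h1, h2⟩
        refine ⟨?_, ?_⟩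
        · rw [← h1]
          rfl
        · have h3 : Ob.snd (σ ∘ y) tm_pt = σ (Ob.snd y tm_pt) := rfl
          rw [h3, h2, h0]
    simp only [h]

lemma tm_ker_inv (X : Ob) : Inv 1 (tm_ker F X).f := by
  classical
  intro σ hσ x y
  have h0 : σ 0 = 0 := hσ 0 Nat.zero_lt_one
  have h : (Ob.fst (σ ∘ y) = σ ∘ x ∧ Ob.snd (σ ∘ y) tm_pt = 0) ↔
      (Ob.fst y = x ∧ Ob.snd y tm_pt = 0) := by
    constructor
    · rintro ⟨h1, h2⟩
      refine ⟨funext fun i => σ.injective (congrFun h1 i), σ.injective ?_⟩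
      rw [h0]
      exact h2
    · rintro ⟨h1, h2⟩
      refine ⟨?_, ?_⟩
      · rw [← h1]
        rfl
      · have h3 : Ob.snd (σ ∘ y) tm_pt = σ (Ob.snd y tm_pt) := rfl
        rw [h3, h2, h0]
  show (if Ob.fst (σ ∘ y) = σ ∘ x ∧ Ob.snd (σ ∘ y) tm_pt = 0 then (1 : F) else 0) =
    if Ob.fst y = x ∧ Ob.snd y tm_pt = 0 then 1 else 0
  simp only [h]

lemma tm_ker_pos {X : Ob} {x : X.ix → ℕ} {y : (X.tensor tm_L).ix → ℕ} (h1 : Ob.fst y = x)
    (h2 : Ob.snd y tm_pt = 0) : (tm_ker F X).f x y = 1 := if_pos ⟨h1, h2⟩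

lemma tm_ker_ne {X : Ob} {x : X.ix → ℕ} {y : (X.tensor tm_L).ix → ℕ}
    (h : (tm_ker F X).f x y ≠ 0) : Ob.fst y = x ∧ Ob.snd y tm_pt = 0 := by
  by_contra hc
  exact h (if_neg hc)

lemma tm_ker_isTee (X : Ob) : IsTee (tm_ker F X).f := by
  refine ⟨⟨tm_ker_inv X, fun x y h n => ?_⟩, fun x y _ => ?_, fun h => ?_⟩
  · obtain ⟨h1, h2⟩ := tm_ker_ne h
    rw [ks_div_tensor, tm_div_L, h1, h2]
    show X.div x n + (if n = 0 then X.deg else 0) =
      X.div x n + (if 0 = n then -1 else 0) + (if n = 0 then X.deg + 1 else 0)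
    by_cases hn : n = 0
    · rw [if_pos hn, if_pos hn.symm, if_pos hn]
      ring
    · rw [if_neg hn, if_neg (fun h => hn h.symm), if_neg hn]
      ring
  · show X.deg ≤ X.deg + 1
    omega
  · have h' : X.deg = X.deg + 1 := h
    omega

/-- the objects -/
def tm_obj (n : ℕ) : Tee I := ⟨tm_P n⟩

/-- the morphisms -/
noncomputable def tm_phi (n : ℕ) : tm_obj I n ⟶ tm_obj I (n + 1) :=
  ⟨tm_ker F (tm_P n), tm_ker_isTee (tm_P n)⟩

/-- the composites -/
noncomputable def tm_c : ∀ n : ℕ, tm_obj I 0 ⟶ tm_obj I n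
  | 0 => 𝟙 _
  | n + 1 => tm_c n ≫ tm_phi I n

lemma tm_unit (x : Ob.unit.ix → ℕ) :
    (permKer (Equiv.refl _) : Ker F Ob.unit Ob.unit).f x (fun _ => 0) = 1 := by
  rw [kmon_perm_f]
  exact if_pos (funext fun i => isEmptyElim i)

lemma tm_c_ker (n : ℕ) (x : (tm_P 0).ix → ℕ) :
    KC.ker (tm_c I n).hom x (fun _ => 0) = 1 := by
  induction n with
  | zero =>
    exact tm_unit x
  | succ n ih =>
    have h : KC.ker (tm_c I (n + 1)).hom x (fun _ => 0) =
        I.int (tm_P n).ix (fun y => Ker.f (tm_c I n).hom x y *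
          (tm_ker F (tm_P n)).f y (fun _ => 0)) := rfl
    rw [h]
    obtain ⟨N, hN⟩ := kcat_sm_mid (tm_c I n).hom (tm_ker F (tm_P n)) x (fun _ => 0)
    refine (I.delta (tm_P n).ix N _ hN (fun _ => 0) ?_).trans ?_
    · intro y hy
      have h1 : (tm_ker F (tm_P n)).f y (fun _ => 0) = 0 := by
        by_contra hc
        exact hy (tm_ker_ne hc).1.symm
      rw [h1, mul_zero]
    · have h1 : (tm_ker F (tm_P n)).f (fun _ => 0) (fun _ => 0) = 1 := tm_ker_pos rfl rfl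
      rw [h1, mul_one]
      exact ih

theorem exists_tower : ∃ (P : ℕ → Tee I) (φ : ∀ n, P n ⟶ P (n + 1)) (c : ∀ n, P 0 ⟶ P n),
    Nonempty (P 0 ≅ 𝟙_ (Tee I)) ∧ c 0 = 𝟙 (P 0) ∧ (∀ n, c (n + 1) = c n ≫ φ n) ∧
      (∀ n, c n ≠ 0) ∧ ∀ n, (teeKap I).map (φ n) = 0 := by
  refine ⟨tm_obj I, tm_phi I, tm_c I, ⟨Iso.refl _⟩, rfl, fun _ => rfl, fun n h => ?_, fun n => ?_⟩
  · have h1 := tm_c_ker I n (fun _ => 0)
    rw [h] at h1
    have h2 : KC.ker (0 : tm_obj I 0 ⟶ tm_obj I n).hom (fun _ => 0) (fun _ => 0) = (0 : F) := rfl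
    exact zero_ne_one (h2.symm.trans h1)
  · apply WideSubcategory.hom_ext
    refine teeKap_map_of_ne (tm_phi I n) ?_
    show (tm_P n).deg ≠ (tm_P n).deg + 1
    omega

end Pool.Agent.H939.TT
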