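import Pool.Agent.H939.TT.MainGen
import Pool.Agent.H939.TT.IntEx
import Pool.Agent.H939.TT.PPKap
import Pool.Agent.H939.TT.MEleven
import Pool.Agent.H939.TT.MTwelveA
import Pool.Agent.H939.TT.MTwelveB
import Pool.Agent.H939.TT.TeleMaps

/-!
# The counterexample
-/

namespace Pool.Agent.H939.TT

open CategoryTheory CategoryTheory.Limits CategoryTheory.MonoidalCategory
open CategoryTheory.Pretriangulated Pool.Agent.Helper609_TT

variable {F : Type} [Field F] [CharP F 2] (I : Integral F)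

omit [CharP F 2] in
theorem kc_unit_ne : KC.ker (𝟙 (𝟙_ (KC I))) (fun i => i.elim) (fun i => i.elim) ≠ 0 := by
  have h : KC.ker (𝟙 (𝟙_ (KC I))) (fun i => i.elim) (fun i => i.elim) = 1 := by
    change (permKer (F := F) (X := Ob.unit) (Y := Ob.unit) (Equiv.refl _)).f _ _ = 1
    simp only [permKer]
    exact if_pos (funext fun i => i.elim)
  rw [h]
  exact one_ne_zero

omit [CharP F 2] in
theorem kap_unit_ne : (𝟙 (𝟙_ (Kap I))) ≠ 0 := by
  intro h
  have h1 : KC.ker (𝟙 (𝟙_ (KC I))) = KC.ker (0 : 𝟙_ (KC I) ⟶ 𝟙_ (KC I)) :=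
    congrArg (fun u : 𝟙_ (Kap I) ⟶ 𝟙_ (Kap I) => KC.ker u.hom) h
  exact kc_unit_ne I (congrFun (congrFun h1 (fun i => i.elim)) (fun i => i.elim))

omit [CharP F 2] in
theorem eta_unit_ne : (𝟙 (𝟙_ (Eta I))) ≠ 0 := by
  intro h
  have h1 : KC.ker (𝟙 (𝟙_ (KC I))) = KC.ker (0 : 𝟙_ (KC I) ⟶ 𝟙_ (KC I)) :=
    congrArg (fun u : 𝟙_ (Eta I) ⟶ 𝟙_ (Eta I) => KC.ker u.hom) h
  exact kc_unit_ne I (congrFun (congrFun h1 (fun i => i.elim)) (fun i => i.elim))

theorem ingredients : Ingredients (teeKap I) (teeEta I) F where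
  rigA := kap_rigid
  rigB := eta_rigid
  rigT := tee_rigid
  ppA := kap_hasPP I
  ppB := eta_hasPP I
  ndA := kap_nonDeg I
  ndB := eta_nonDeg I
  neA := kap_unit_ne I
  neB := eta_unit_ne I
  surj a := ⟨(kapTee I).obj a, ⟨Iso.refl _⟩⟩
  cons M hη hκ Y f := m11 M hη hκ Y f
  nilp M hM hκ := m12b M hM hκ
  sect M hM hη f g := m12a M hM hη f g
  tower := exists_tower I

/-- a field of characteristic two with an element which is not a natural number -/
theorem exists_field : ∃ (F : Type) (_ : Field F) (_ : CharP F 2), Nonempty (Integral F) := by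
  haveI : Fact (Nat.Prime 2) := ⟨Nat.prime_two⟩
  let F := GaloisField 2 2
  have hc : Nat.card F = 2 ^ 2 := GaloisField.card 2 2 (by norm_num)
  haveI : Finite F := Nat.finite_of_card_ne_zero (by rw [hc]; norm_num)
  have h1 : ∃ t : F, t ≠ 0 ∧ t ≠ 1 := by
    by_contra hcon
    push Not at hcon
    have h2 : (Set.univ : Set F) ⊆ {0, 1} := by
      intro t _
      by_cases h : t = 0
      · exact Or.inl h
      · exact Or.inr (hcon t h)
    have h3 := Set.ncard_le_ncard h2 (Set.toFinite _)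
    rw [Set.ncard_univ, hc] at h3
    have h4 : ({0, 1} : Set F).ncard ≤ 2 := Set.ncard_insert_le _ _ |>.trans (by simp)
    omega
  obtain ⟨t, ht0, ht1⟩ := h1
  refine ⟨F, inferInstance, inferInstance, exists_integral' F t fun n => ?_⟩
  rcases Nat.even_or_odd n with h | h
  · rw [(CharP.cast_eq_zero_iff F 2 n).2 h.two_dvd]
    exact ht0
  · obtain ⟨k, rfl⟩ := h
    rw [Nat.cast_add, Nat.cast_one, (CharP.cast_eq_zero_iff F 2 (2 * k)).2 (dvd_mul_right 2 k),
      zero_add]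
    exact ht1

end Pool.Agent.H939.TT
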