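import Pool.Agent.H939.TT.DTProdMap
import Pool.Agent.H939.TT.DTGen
import Pool.Agent.H939.TT.DTZero
import Pool.Agent.H939.TT.AbsUnit
import Pool.Agent.H939.TT.AbsSplit
import Pool.Agent.H939.TT.AbsField
import Pool.Agent.H939.TT.AbsTwo
import Pool.Agent.H939.TT.AbsNot
import Pool.Agent.H939.TT.AbsTel
import Pool.Agent.H939.TT.Coh

/-!
# The counterexample, from its elementary ingredients
-/

namespace Pool.Agent.H939.TT

open CategoryTheory CategoryTheory.Limits CategoryTheory.MonoidalCategory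
open CategoryTheory.Pretriangulated Pool.Agent.Helper609_TT

section General

/-- an object of `DT A` is zero if it is zero in `K (FC A)` -/
theorem isZero_of_obj {A : Type} [Category.{0} A] [Preadditive A] [CharTwo A] {X : DT A}
    (h : IsZero X.obj) : IsZero X := by
  rw [IsZero.iff_id_eq_zero]
  apply (locP A).ι.map_injective
  exact h.eq_of_src _ _

/-- a retract of a zero object is zero -/
theorem isZero_of_retract {C : Type*} [Category C] [Preadditive C] {X Y : C} (r : Retract X Y)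
    (h : IsZero Y) : IsZero X := by
  rw [IsZero.iff_id_eq_zero, ← r.retract, h.eq_of_tgt r.i 0, zero_comp]

theorem isZero_tensor_right {C : Type*} [Category C] [Preadditive C] [MonoidalCategory C]
    [MonoidalPreadditive C] (e : C) {X : C} (h : IsZero X) : IsZero (e ⊗ X) := by
  rw [IsZero.iff_id_eq_zero, ← MonoidalCategory.whiskerLeft_id, h.eq_of_src (𝟙 X) 0,
    MonoidalPreadditive.whiskerLeft_zero]

theorem isZero_tensor_left {C : Type*} [Category C] [Preadditive C] [MonoidalCategory C]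
    [MonoidalPreadditive C] (e : C) {X : C} (h : IsZero X) : IsZero (X ⊗ e) := by
  rw [IsZero.iff_id_eq_zero, ← MonoidalCategory.id_whiskerRight, h.eq_of_src (𝟙 X) 0,
    MonoidalPreadditive.zero_whiskerRight]

end General

section Product

variable {A : Type} [Category.{0} A] [Preadditive A] [CharTwo A]
  [MonoidalCategory A] [MonoidalPreadditive A] [SymmetricCategory A]
  {B : Type} [Category.{0} B] [Preadditive B] [CharTwo B]
  [MonoidalCategory B] [MonoidalPreadditive B] [SymmetricCategory B]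

theorem prod_rigid (hA : ∀ a : A, ∃ b : A, Nonempty (ExactPairing a b))
    (hB : ∀ a : B, ∃ b : B, Nonempty (ExactPairing a b)) (X : A × B) :
    ∃ Y : A × B, Nonempty (ExactPairing X Y) := by
  obtain ⟨Y₁, ⟨p₁⟩⟩ := hA X.1
  obtain ⟨Y₂, ⟨p₂⟩⟩ := hB X.2
  exact ⟨(Y₁, Y₂), ⟨prodExactPairing p₁ p₂⟩⟩

theorem piFst_idem : piFst A B ≫ piFst A B = piFst A B :=
  Prod.ext (Category.id_comp _) zero_comp

theorem piSnd_idem : piSnd A B ≫ piSnd A B = piSnd A B :=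
  Prod.ext zero_comp (Category.id_comp _)

theorem piFst_piSnd : piFst A B ≫ piSnd A B = 0 := Prod.ext comp_zero zero_comp

theorem pi_sum : piFst A B + piSnd A B = 𝟙 _ := Prod.ext (add_zero _) (zero_add _)

theorem p₁_idem : DT.pi (piFst A B) ≫ DT.pi (piFst A B) = DT.pi (piFst A B) := by
  rw [DT.pi_comp, piFst_idem]

theorem p₂_idem : DT.pi (piSnd A B) ≫ DT.pi (piSnd A B) = DT.pi (piSnd A B) := by
  rw [DT.pi_comp, piSnd_idem]

theorem p₁_p₂ : DT.pi (piFst A B) ≫ DT.pi (piSnd A B) = 0 := by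
  rw [DT.pi_comp, piFst_piSnd, DT.pi_zero]

theorem p_sum : 𝟙 (𝟙_ (DT (A × B))) = DT.pi (piFst A B) + DT.pi (piSnd A B) := by
  rw [← DT.pi_add, pi_sum, DT.pi_id]

theorem p₁_ne (h : 𝟙 (𝟙_ A) ≠ 0) : DT.pi (piFst A B) ≠ 0 := by
  intro h0
  have h1 : piFst A B = 0 := DT.pi_inj (h0.trans DT.pi_zero.symm)
  exact h (congrArg (fun u : 𝟙_ (A × B) ⟶ 𝟙_ (A × B) => u.1) h1)

theorem p₂_ne (h : 𝟙 (𝟙_ B) ≠ 0) : DT.pi (piSnd A B) ≠ 0 := by
  intro h0
  have h1 : piSnd A B = 0 := DT.pi_inj (h0.trans DT.pi_zero.symm)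
  exact h (congrArg (fun u : 𝟙_ (A × B) ⟶ 𝟙_ (A × B) => u.2) h1)

theorem not_isZero_of_retract {S : Type*} [Category S] [Preadditive S] [MonoidalCategory S]
    {e : S} (r : Retract e (𝟙_ S)) (h : r.r ≫ r.i ≠ 0) : ¬ IsZero e := by
  intro h0
  apply h
  rw [h0.eq_of_tgt r.r 0, zero_comp]

end Product

section Main

variable {A : Type} [Category.{0} A] [Preadditive A] [CharTwo A]
  [MonoidalCategory A] [MonoidalPreadditive A] [SymmetricCategory A]
  {B : Type} [Category.{0} B] [Preadditive B] [CharTwo B]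
  [MonoidalCategory B] [MonoidalPreadditive B] [SymmetricCategory B]
  {T : Type} [Category.{0} T] [Preadditive T] [CharTwo T]
  [MonoidalCategory T] [MonoidalPreadditive T] [SymmetricCategory T]
  (G : T ⥤ A) [G.Additive] [G.Braided] (H : T ⥤ B) [H.Additive] [H.Braided]

/-- the first component of `Φ X` -/
theorem phi_fst {e : DT (A × B)} (r : Retract e (𝟙_ (DT (A × B))))
    (h : r.r ≫ r.i = DT.pi (piFst A B)) (X : DT T) :
    IsZero (e ⊗ (DT.map (G.prod' H)).obj X) ↔ IsZero ((K.mapF (FC.mapF G)).obj X.obj) := by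
  rw [isZero_tensor_iff r, h, piFst_iff]
  exact mapF_comp_isZero_iff (G.prod' H) (CategoryTheory.Prod.fst _ _) G
    (Iso.refl _) X.obj

/-- the second component of `Φ X` -/
theorem phi_snd {e : DT (A × B)} (r : Retract e (𝟙_ (DT (A × B))))
    (h : r.r ≫ r.i = DT.pi (piSnd A B)) (X : DT T) :
    IsZero (e ⊗ (DT.map (G.prod' H)).obj X) ↔ IsZero ((K.mapF (FC.mapF H)).obj X.obj) := by
  rw [isZero_tensor_iff r, h, piSnd_iff]
  exact mapF_comp_isZero_iff (G.prod' H) (CategoryTheory.Prod.snd _ _) H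
    (Iso.refl _) X.obj

theorem whisker_emb {e : DT (A × B)} (r : Retract e (𝟙_ (DT (A × B))))
    (h : r.r ≫ r.i = DT.pi (piFst A B)) {P P' : T} (φ : P ⟶ P') (hφ : G.map φ = 0) :
    e ◁ (DT.map (G.prod' H)).map ((DT.emb T).map φ) = 0 := by
  refine whiskerLeft_eq_zero r ((DT.map (G.prod' H)).map ((DT.emb T).map φ)) ?_
  have h5 := piFst_map _ (mapF_emb_eq_zero G H φ hφ)
  rw [h, h5]

theorem trans_emb [RigidlyCompactlyGenerated (DT T)] (P : ℕ → T) (φ : ∀ n, P n ⟶ P (n + 1))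
    (c : ∀ n, P 0 ⟶ P n) (hc0 : c 0 = 𝟙 (P 0)) (hcs : ∀ n, c (n + 1) = c n ≫ φ n) (n : ℕ) :
    trans (fun n => (DT.emb T).obj (P n)) (fun n => (DT.emb T).map (φ n)) 0 n =
        (DT.emb T).map (c (0 + n)) := by
  induction n with
  | zero =>
    have h0 : (DT.emb T).map (c 0) = 𝟙 _ := by rw [hc0, CategoryTheory.Functor.map_id]
    exact h0.symm
  | succ n ih =>
    have h0 : (DT.emb T).map (c ((0 + n) + 1)) =
        (DT.emb T).map (c (0 + n)) ≫ (DT.emb T).map (φ (0 + n)) := by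
      rw [hcs, Functor.map_comp]
    rw [← ih] at h0
    exact h0.symm

/-- the elementary ingredients -/
structure Ingredients (F : Type) [Field F] [Linear F A] [Linear F B] : Prop where
  rigA : ∀ a : A, ∃ b : A, Nonempty (ExactPairing a b)
  rigB : ∀ a : B, ∃ b : B, Nonempty (ExactPairing a b)
  rigT : ∀ a : T, ∃ b : T, Nonempty (ExactPairing a b)
  ppA : HasPP F (𝟙 (𝟙_ A))
  ppB : HasPP F (𝟙 (𝟙_ B))
  ndA : NonDeg (𝟙 (𝟙_ A))
  ndB : NonDeg (𝟙 (𝟙_ B))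
  neA : 𝟙 (𝟙_ A) ≠ 0
  neB : 𝟙 (𝟙_ B) ≠ 0
  surj : ∀ a : A, ∃ t : T, Nonempty (G.obj t ≅ a)
  cons : ∀ M : D (FC T), IsZero ((K.mapF (FC.mapF H)).obj ((Q (FC T)).obj M)) →
    IsZero ((K.mapF (FC.mapF G)).obj ((Q (FC T)).obj M)) →
    ∀ (Y : T) (f : (emb T).obj Y ⟶ (Q (FC T)).obj M), f = 0
  nilp : ∀ M : D (FC T), Finite M.X.ι →
    IsZero ((K.mapF (FC.mapF G)).obj ((Q (FC T)).obj M)) → IsZero ((Q (FC T)).obj M)
  sect : ∀ M : D (FC T), Finite M.X.ι →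
    IsZero ((K.mapF (FC.mapF H)).obj ((Q (FC T)).obj M)) →
    ∀ (f : 𝟙_ (K (FC A)) ⟶ (K.mapF (FC.mapF G)).obj ((Q (FC T)).obj M))
      (g : (K.mapF (FC.mapF G)).obj ((Q (FC T)).obj M) ⟶ 𝟙_ (K (FC A))), f ≫ g = 0
  tower : ∃ (P : ℕ → T) (φ : ∀ n, P n ⟶ P (n + 1)) (c : ∀ n, P 0 ⟶ P n),
    Nonempty (P 0 ≅ 𝟙_ T) ∧ c 0 = 𝟙 (P 0) ∧ (∀ n, c (n + 1) = c n ≫ φ n) ∧
      (∀ n, c n ≠ 0) ∧ ∀ n, G.map (φ n) = 0

variable {G H} {F : Type} [Field F] [Linear F A] [Linear F B] (hI : Ingredients G H F)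

/-- the image of an object of `T` -/
noncomputable def mapEmbIso (t : T) :
    (K.mapF (FC.mapF G)).obj ((emb T).obj t) ≅ (emb A).obj (G.obj t) :=
  (Q (FC A)).mapIso (dtfun_incIso (FC.mapF G) (FC.single t))

/-- a morphism from the unit of `K (FC A)` to an object of the localizing subcategory all whose
composites with the morphisms to the unit vanish is zero -/
theorem eq_zero_of_comp {F : Type} [Field F] [Linear F A] (ppA : HasPP F (𝟙 (𝟙_ A)))
    (ndA : NonDeg (𝟙 (𝟙_ A))) (neA : 𝟙 (𝟙_ A) ≠ 0) {X : K (FC A)} (hX : locP A X)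
    (f : 𝟙_ (K (FC A)) ⟶ X) (h : ∀ g : X ⟶ 𝟙_ (K (FC A)), f ≫ g = 0) : f = 0 := by
  by_contra hf
  let X' : DT A := ⟨X, hX⟩
  let f' : 𝟙_ (DT A) ⟶ X' := ObjectProperty.homMk f
  have h1 : DT.pi (𝟙 (𝟙_ A)) ≫ f' ≠ 0 := by
    rw [DT.pi_id, Category.id_comp]
    intro h2
    exact hf (congrArg (fun u : 𝟙_ (DT A) ⟶ X' => u.hom) h2)
  obtain ⟨g, hg⟩ := dt_hPP F (𝟙 (𝟙_ A)) (Category.comp_id _) ppA ndA X' f' h1
  have h3 : f ≫ g.hom = 0 := h g.hom
  have h4 : DT.pi (𝟙 (𝟙_ A)) = 0 := by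
    rw [← hg]
    exact ObjectProperty.hom_ext _ h3
  exact neA (DT.pi_inj (h4.trans DT.pi_zero.symm))

include hI

/-- finite objects killed by `H` are killed by `G` -/
theorem fin_zero (M : D (FC T)) (hM : Finite M.X.ι) (hP : locP T ((Q (FC T)).obj M))
    (hH : IsZero ((K.mapF (FC.mapF H)).obj ((Q (FC T)).obj M))) :
    IsZero ((K.mapF (FC.mapF G)).obj ((Q (FC T)).obj M)) := by
  refine locP_isZero' hI.rigA _ (locP_map G _ hP) fun b f => ?_
  obtain ⟨t, ⟨i⟩⟩ := hI.surj b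
  let N : D (FC T) := D.ofObj (FC.single t)
  have hPN : locP T ((Q (FC T)).obj M ⊗ (emb T).obj t) := locP_tensor T hP (locP_emb T t)
  have e : (K.mapF (FC.mapF G)).obj ((Q (FC T)).obj M) ⊗ (emb A).obj b ≅
      (K.mapF (FC.mapF G)).obj ((Q (FC T)).obj (M ⊗ N)) :=
    whiskerLeftIso _ ((emb A).mapIso i.symm ≪≫ (mapEmbIso t).symm) ≪≫
      Functor.Monoidal.μIso (K.mapF (FC.mapF G)) ((Q (FC T)).obj M) ((Q (FC T)).obj N)
  have hN : Finite (M ⊗ N).X.ι := by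
    haveI := hM
    exact inferInstanceAs (Finite (M.X.ι × Unit))
  have hH' : IsZero ((K.mapF (FC.mapF H)).obj ((Q (FC T)).obj (M ⊗ N))) :=
    (isZero_tensor_left _ hH).of_iso
      (Functor.Monoidal.μIso (K.mapF (FC.mapF H)) ((Q (FC T)).obj M) ((Q (FC T)).obj N)).symm
  have h1 : f ≫ e.hom = 0 :=
    eq_zero_of_comp hI.ppA hI.ndA hI.neA (locP_map G _ hPN) (f ≫ e.hom)
      (fun g => hI.sect (M ⊗ N) hN hH' (f ≫ e.hom) g)
  rw [← cancel_mono e.hom, h1, zero_comp]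

theorem phi_conservative (X : DT T) (h : IsZero ((DT.map (G.prod' H)).obj X)) : IsZero X := by
  let _ := dtRCG (prod_rigid hI.rigA hI.rigB)
  obtain ⟨e₁, r₁, h₁⟩ := exists_split (DT.pi (piFst A B)) p₁_idem
  obtain ⟨e₂, r₂, h₂⟩ := exists_split (DT.pi (piSnd A B)) p₂_idem
  have hκ := (phi_fst G H r₁ h₁ X).1 (isZero_tensor_right e₁ h)
  have hη := (phi_snd G H r₂ h₂ X).1 (isZero_tensor_right e₂ h)
  exact isZero_of_obj (locP_isZero X.obj X.property (fun a f => hI.cons X.obj.as hη hκ a f))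

theorem hc₁ {e₁ : DT (A × B)} (r₁ : Retract e₁ (𝟙_ (DT (A × B))))
    (h₁ : r₁.r ≫ r₁.i = DT.pi (piFst A B)) (x : DT T) (hx : IsCpt x)
    (h : IsZero (e₁ ⊗ (DT.map (G.prod' H)).obj x)) : IsZero x := by
  obtain ⟨Y, hY, ⟨r⟩⟩ := (dt_compact hI.rigT).2.2.2 x hx
  obtain ⟨w, hw, ⟨r'⟩, hG⟩ := exists_retract_cone (S := DT (A × B)) dtR DTG_hshift DTG_hext hY r
  have hw1 := (phi_fst G H r₁ h₁ w).1
    (hG (DT.map (G.prod' H) ⋙ tensorLeft e₁) inferInstance inferInstance inferInstance h)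
  obtain ⟨M, N, hM, hN, fM, fN, _, ⟨e⟩⟩ := hw
  have h2 : IsZero ((K.mapF (FC.mapF G)).obj ((Q _).obj M)) :=
    hw1.of_iso ((K.mapF (FC.mapF G)).mapIso e.symm)
  exact isZero_of_retract r' (isZero_of_obj ((hI.nilp M fM h2).of_iso e))

theorem hc₂ {e₂ : DT (A × B)} (r₂ : Retract e₂ (𝟙_ (DT (A × B))))
    (h₂ : r₂.r ≫ r₂.i = DT.pi (piSnd A B)) (x : DT T) (hx : IsCpt x)
    (h : IsZero (e₂ ⊗ (DT.map (G.prod' H)).obj x)) : IsZero x := by
  obtain ⟨Y, hY, ⟨r⟩⟩ := (dt_compact hI.rigT).2.2.2 x hx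
  obtain ⟨w, hw, ⟨r'⟩, hG⟩ := exists_retract_cone (S := DT (A × B)) dtR DTG_hshift DTG_hext hY r
  have hw1 := (phi_snd G H r₂ h₂ w).1
    (hG (DT.map (G.prod' H) ⋙ tensorLeft e₂) inferInstance inferInstance inferInstance h)
  obtain ⟨M, N, hM, hN, fM, fN, _, ⟨e⟩⟩ := hw
  have h2 : IsZero ((K.mapF (FC.mapF H)).obj ((Q _).obj M)) :=
    hw1.of_iso ((K.mapF (FC.mapF H)).mapIso e.symm)
  exact isZero_of_retract r' (isZero_of_obj ((hI.nilp M fM (fin_zero hI M fM hM h2)).of_iso e))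

omit hI in
theorem isCpt_emb [RigidlyCompactlyGenerated (DT T)] {P : T} (i : P ≅ 𝟙_ T) :
    IsCpt ((DT.emb T).obj P) := by
  have i1 : (DT.emb T).obj P ≅ 𝟙_ (DT T) := (DT.emb T).mapIso i ≪≫ eqToIso DT.emb_unit
  exact isCpt_of_iso i1.symm isCpt_unit

theorem exists_H {e : DT (A × B)} (r : Retract e (𝟙_ (DT (A × B))))
    (h : r.r ≫ r.i = DT.pi (piFst A B)) :
    ∃ X : DT T, ¬ IsZero X ∧ IsZero (e ⊗ (DT.map (G.prod' H)).obj X) := by
  let _ := dtRCG hI.rigT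
  let _ := dtRCG (prod_rigid hI.rigA hI.rigB)
  obtain ⟨P, φ, c, ⟨i0⟩, hc0, hcs, hcn, hφ⟩ := hI.tower
  refine exists_tel (DT.map (G.prod' H)) (fun J => inferInstance) e (fun n => (DT.emb T).obj (P n))
    (fun n => (DT.emb T).map (φ n)) (isCpt_emb i0) ?_ ?_
  · intro n
    rw [whisker_emb G H r h (φ n) (hφ n)]
  · intro n
    rw [trans_emb P φ c hc0 hcs]
    intro h4
    exact hcn (0 + n) ((DT.emb T).map_injective (h4.trans (Functor.map_zero _ _ _).symm))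

theorem hf₁ {e : DT (A × B)} (r : Retract e (𝟙_ (DT (A × B))))
    (h : r.r ≫ r.i = DT.pi (piFst A B)) (X : DT (A × B)) (hX : ¬ IsZero (e ⊗ X)) :
    letI := dtRCG (prod_rigid hI.rigA hI.rigB)
    locIdeal (fun x => x = X) e := by
  let _ := dtRCG (prod_rigid hI.rigA hI.rigB)
  exact field_of_split (DT.pi (piFst A B)) e r h (fun X f hf => dt_hPP F (piFst A B) piFst_idem
    (hasPP_fst F hI.ppA) (nonDeg_fst hI.ndA) X f hf) X hX

theorem hf₂ {e : DT (A × B)} (r : Retract e (𝟙_ (DT (A × B))))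
    (h : r.r ≫ r.i = DT.pi (piSnd A B)) (X : DT (A × B)) (hX : ¬ IsZero (e ⊗ X)) :
    letI := dtRCG (prod_rigid hI.rigA hI.rigB)
    locIdeal (fun x => x = X) e := by
  let _ := dtRCG (prod_rigid hI.rigA hI.rigB)
  exact field_of_split (DT.pi (piSnd A B)) e r h (fun X f hf => dt_hPP F (piSnd A B) piSnd_idem
    (hasPP_snd F hI.ppB) (nonDeg_snd hI.ndB) X f hf) X hX

/-- the counterexample -/
theorem counterexample :
    letI := dtRCG hI.rigT
    letI := dtRCG (prod_rigid hI.rigA hI.rigB)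
    (∀ J : Type, PreservesColimitsOfShape (Discrete J) (DT.map (G.prod' H))) ∧
    (∀ t : DT T, IsZero ((DT.map (G.prod' H)).obj t) → IsZero t) ∧
    WeaklyNoetherian (DT T) ∧ WeaklyNoetherian (DT (A × B)) ∧ Stratified (DT (A × B)) ∧
      ¬ Stratified (DT T) := by
  let _ := dtRCG hI.rigT
  let _ := dtRCG (prod_rigid hI.rigA hI.rigB)
  obtain ⟨e₁, r₁, h₁⟩ := exists_split (DT.pi (piFst A B)) p₁_idem
  obtain ⟨e₂, r₂, h₂⟩ := exists_split (DT.pi (piSnd A B)) p₂_idem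
  obtain ⟨X, hX, hX₁⟩ := exists_H hI r₁ h₁
  have hn₁ : ¬ IsZero e₁ := not_isZero_of_retract r₁ (by rw [h₁]; exact p₁_ne hI.neA)
  have hn₂ : ¬ IsZero e₂ := not_isZero_of_retract r₂ (by rw [h₂]; exact p₂_ne hI.neB)
  have h₁₂ : IsZero (e₁ ⊗ e₂) :=
    isZero_tensor_of_comp_eq_zero r₁ r₂ (by rw [h₁, h₂, p₁_p₂])
  obtain ⟨wS, sS, hQ⟩ := two_point e₁ e₂ r₁ r₂ (by rw [h₁, h₂, p_sum]) h₁₂ hn₁ hn₂
    (hf₁ hI r₁ h₁) (hf₂ hI r₂ h₂)
  obtain ⟨wT, sT⟩ := not_stratified (DT.map (G.prod' H)) (fun J => inferInstance)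
    (phi_conservative hI) e₁ e₂ hQ (hc₁ hI r₁ h₁) (hc₂ hI r₂ h₂) hn₁ X hX hX₁
  exact ⟨fun J => inferInstance, phi_conservative hI, wT, wS, sS, sT⟩

end Main

end Pool.Agent.H939.TT
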