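import Pool.Agent.H939.TT.KerSub

/-!
# The sector argument

`X j` (`j` in a finite type) are objects, `d` is a matrix of morphisms of `Tee` with square zero,
`h` a matrix of morphisms of `Eta` with `d h + h d = 1`. Then the degree preserving part of `d` is
exact on smooth functions, so the composites of the cycles and the cocycles vanish.
-/

namespace Pool.Agent.H939.TT

open CategoryTheory CategoryTheory.Limits CategoryTheory.MonoidalCategory

/-! ### The abstract argument on filtered groups -/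

section SectAbs

variable {M : Type} [AddCommGroup M] (S : AddSubgroup M) (d h d0 : M →+ M) (π : ℤ → M →+ M)

/-- exactness in the degrees above `a` -/
lemma sect_up (hi : ℤ)
    (hSd : ∀ m ∈ S, d m ∈ S) (hSπ : ∀ b, ∀ m ∈ S, π b m ∈ S)
    (hdd : ∀ m, d (d m) = 0)
    (hπ1 : ∀ b m, π b (π b m) = π b m) (hπ2 : ∀ b c m, b ≠ c → π b (π c m) = 0)
    (hfil : ∀ b m, (∀ c < b, π c m = 0) → (∀ c < b, π c (d m) = 0) ∧ π b (d m) = d0 (π b m))
    (hhi : ∀ m, (∀ c < hi, π c m = 0) → m = 0)
    (a : ℤ) (hex : ∀ b, b ≠ a → ∀ w ∈ S, π b w = w → d0 w = 0 → ∃ v ∈ S, π b v = v ∧ w = d0 v) :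
    ∀ n : ℕ, ∀ b : ℤ, hi ≤ b + n → a < b → ∀ w ∈ S, (∀ c < b, π c w = 0) → d w = 0 →
      ∃ u ∈ S, (∀ c < b, π c u = 0) ∧ w = d u := by
  intro n
  induction n with
  | zero =>
    intro b hb hab w hw hwb hdw
    refine ⟨0, S.zero_mem, fun c _ => map_zero _, ?_⟩
    rw [map_zero]
    exact hhi w fun c hc => hwb c (by push_cast at hb; omega)
  | succ n ih =>
    intro b hb hab w hw hwb hdw
    have h1 : d0 (π b w) = 0 := by rw [← (hfil b w hwb).2, hdw, map_zero]
    obtain ⟨v, hvS, hvb, hv⟩ := hex b (ne_of_gt hab) (π b w) (hSπ b w hw) (hπ1 b w) h1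
    have hvF : ∀ c < b, π c v = 0 := fun c hc => by
      rw [← hvb]
      exact hπ2 c b v (ne_of_lt hc)
    obtain ⟨h2, h3⟩ := hfil b v hvF
    have h4 : π b (d v) = π b w := by rw [h3, hvb, ← hv]
    obtain ⟨u, huS, huF, hu⟩ := ih (b + 1) (by push_cast at hb ⊢; omega) (by omega) (w - d v)
      (S.sub_mem hw (hSd v hvS))
      (by
        intro c hc
        rw [map_sub]
        rcases lt_or_eq_of_le (Int.lt_add_one_iff.mp hc) with hc' | hc'
        · rw [hwb c hc', h2 c hc', sub_zero]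
        · rw [hc', h4, sub_self])
      (by rw [map_sub, hdw, hdd, sub_zero])
    refine ⟨v + u, S.add_mem hvS huS, fun c hc => ?_, ?_⟩
    · rw [map_add, hvF c hc, huF c (by omega), add_zero]
    · rw [map_add, ← hu]
      abel

/-- removal of the parts of degree less than `a` -/
lemma sect_down
    (hSd : ∀ m ∈ S, d m ∈ S) (hSπ : ∀ b, ∀ m ∈ S, π b m ∈ S)
    (hdd : ∀ m, d (d m) = 0)
    (hπ1 : ∀ b m, π b (π b m) = π b m) (hπ2 : ∀ b c m, b ≠ c → π b (π c m) = 0)
    (hfil : ∀ b m, (∀ c < b, π c m = 0) → (∀ c < b, π c (d m) = 0) ∧ π b (d m) = d0 (π b m))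
    (a : ℤ) (hex : ∀ b, b ≠ a → ∀ w ∈ S, π b w = w → d0 w = 0 → ∃ v ∈ S, π b v = v ∧ w = d0 v) :
    ∀ n : ℕ, ∀ b : ℤ, a ≤ b + n → ∀ v ∈ S, (∀ c < b, π c v = 0) → (∀ c < a, π c (d v) = 0) →
      ∃ v' ∈ S, (∀ c < a, π c v' = 0) ∧ d v' = d v := by
  intro n
  induction n with
  | zero =>
    intro b hb v hv hvb hdv
    exact ⟨v, hv, fun c hc => hvb c (by push_cast at hb; omega), rfl⟩
  | succ n ih =>
    intro b hb v hv hvb hdv
    rcases le_or_gt a b with hab | hab
    · exact ⟨v, hv, fun c hc => hvb c (by omega), rfl⟩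
    have h1 : d0 (π b v) = 0 := by rw [← (hfil b v hvb).2, hdv b hab]
    obtain ⟨z, hzS, hzb, hz⟩ := hex b (ne_of_lt hab) (π b v) (hSπ b v hv) (hπ1 b v) h1
    have hzF : ∀ c < b, π c z = 0 := fun c hc => by
      rw [← hzb]
      exact hπ2 c b z (ne_of_lt hc)
    obtain ⟨h2, h3⟩ := hfil b z hzF
    have h4 : π b (d z) = π b v := by rw [h3, hzb, ← hz]
    have h5 : d (v - d z) = d v := by rw [map_sub, hdd, sub_zero]
    obtain ⟨v', hS', hF', hv'⟩ := ih (b + 1) (by push_cast at hb ⊢; omega) (v - d z)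
      (S.sub_mem hv (hSd z hzS))
      (by
        intro c hc
        rw [map_sub]
        rcases lt_or_eq_of_le (Int.lt_add_one_iff.mp hc) with hc' | hc'
        · rw [hvb c hc', h2 c hc', sub_zero]
        · rw [hc', h4, sub_self])
      (by rw [h5]; exact hdv)
    exact ⟨v', hS', hF', by rw [hv', h5]⟩

/-- the abstract form of the sector argument -/
lemma sect_abs (lo hi : ℤ)
    (hSd : ∀ m ∈ S, d m ∈ S) (hSh : ∀ m ∈ S, h m ∈ S) (hSπ : ∀ b, ∀ m ∈ S, π b m ∈ S)
    (hdd : ∀ m, d (d m) = 0) (hdh : ∀ m, h (d m) + d (h m) = m)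
    (hπ1 : ∀ b m, π b (π b m) = π b m) (hπ2 : ∀ b c m, b ≠ c → π b (π c m) = 0)
    (hfil : ∀ b m, (∀ c < b, π c m = 0) → (∀ c < b, π c (d m) = 0) ∧ π b (d m) = d0 (π b m))
    (hhi : ∀ m, (∀ c < hi, π c m = 0) → m = 0)
    (hlo : ∀ m, ∀ c < lo, π c m = 0)
    (a : ℤ) (hex : ∀ b, b ≠ a → ∀ w ∈ S, π b w = w → d0 w = 0 → ∃ v ∈ S, π b v = v ∧ w = d0 v)
    (m : M) (hm : m ∈ S) (hma : π a m = m) (hmd : d0 m = 0) :
    ∃ v ∈ S, π a v = v ∧ m = d0 v := by
  have hmF : ∀ c < a, π c m = 0 := fun c hc => by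
    rw [← hma]
    exact hπ2 c a m (ne_of_lt hc)
  obtain ⟨h1, h2⟩ := hfil a m hmF
  have h3 : ∀ c < a + 1, π c (d m) = 0 := by
    intro c hc
    rcases lt_or_eq_of_le (Int.lt_add_one_iff.mp hc) with hc' | hc'
    · exact h1 c hc'
    · rw [hc', h2, hma, hmd]
  obtain ⟨u, huS, huF, hu⟩ := sect_up S d d0 π hi hSd hSπ hdd hπ1 hπ2 hfil hhi a hex
    (hi - (a + 1)).toNat (a + 1) (by omega) (by omega) (d m) (hSd m hm) h3 (hdd m)
  have h4 : d (m - u) = 0 := by rw [map_sub, ← hu, sub_self]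
  have h5 : d (h (m - u)) = m - u := by
    have := hdh (m - u)
    rwa [h4, map_zero, zero_add] at this
  obtain ⟨v, hvS, hvF, hv⟩ := sect_down S d d0 π hSd hSπ hdd hπ1 hπ2 hfil a hex
    (a - lo).toNat lo (by omega) (h (m - u)) (hSh _ (S.sub_mem hm huS)) (hlo _)
    (by
      intro c hc
      rw [h5, map_sub, hmF c hc, huF c (by omega), sub_zero])
  refine ⟨π a v, hSπ a v hvS, hπ1 a v, ?_⟩
  rw [← (hfil a v hvF).2, hv, h5, map_sub, hma, huF a (by omega), sub_zero]

end SectAbs

/-! ### Families of smooth functions -/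

section SectFam

variable {F : Type} [Field F] {I : Integral F}

/-- the evaluation of kernels -/
def sectEv {X Y : KC I} (x : X.ob.ix → ℕ) (y : Y.ob.ix → ℕ) : (X ⟶ Y) →+ F where
  toFun K := KC.ker K x y
  map_zero' := rfl
  map_add' _ _ := rfl

lemma sect_ker_sum {X Y : KC I} {J : Type} (s : Finset J) (K : J → (X ⟶ Y)) (x : X.ob.ix → ℕ)
    (y : Y.ob.ix → ℕ) : KC.ker (∑ j ∈ s, K j) x y = ∑ j ∈ s, KC.ker (K j) x y :=
  map_sum (sectEv x y) K s

lemma sect_comp_ne {X Y Z : KC I} (K : X ⟶ Y) (L : Y ⟶ Z) (x : X.ob.ix → ℕ) (z : Z.ob.ix → ℕ)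
    (h : KC.ker (K ≫ L) x z ≠ 0) : ∃ y, KC.ker K x y ≠ 0 ∧ KC.ker L y z ≠ 0 := by
  by_contra hc
  push Not at hc
  apply h
  rw [KC.comp_ker]
  have h0 : (fun y => KC.ker K x y * KC.ker L y z) = fun _ => (0 : F) * 0 := by
    funext y
    by_cases h1 : KC.ker K x y = 0
    · rw [h1, zero_mul, zero_mul]
    · rw [hc y h1, mul_zero, mul_zero]
  rw [h0, I.smul Y.ob.ix 0 0 (fun _ => 0) (fun _ _ _ => rfl), zero_mul]

lemma sect_ext_zero {X Y : KC I} (K : X ⟶ Y) (h : ∀ x y, KC.ker K x y = 0) : K = 0 :=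
  KC.hom_ext h

/-- families of smooth functions -/
abbrev SectM {J : Type} (X : J → KC I) : Type := ∀ j, 𝟙_ (KC I) ⟶ X j

/-- matrices act on families -/
noncomputable def sectAct {J : Type} [Fintype J] (X : J → KC I) (T : ∀ i j, X i ⟶ X j) :
    SectM X →+ SectM X where
  toFun m k := ∑ j, m j ≫ T j k
  map_zero' := by
    funext k
    exact Finset.sum_eq_zero fun j _ => by
      change (0 : 𝟙_ (KC I) ⟶ X j) ≫ T j k = 0
      rw [zero_comp]
  map_add' m m' := by
    funext k
    change ∑ j, (m j + m' j) ≫ T j k = ∑ j, m j ≫ T j k + ∑ j, m' j ≫ T j k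
    rw [← Finset.sum_add_distrib]
    exact Finset.sum_congr rfl fun j _ => Preadditive.add_comp _ _ _ _ _ _

lemma sectAct_apply {J : Type} [Fintype J] (X : J → KC I) (T : ∀ i j, X i ⟶ X j) (m : SectM X)
    (k : J) : sectAct X T m k = ∑ j, m j ≫ T j k := rfl

lemma sectAct_comp {J : Type} [Fintype J] (X : J → KC I) (T T' : ∀ i j, X i ⟶ X j)
    (m : SectM X) (k : J) :
    sectAct X T (sectAct X T' m) k = ∑ i, m i ≫ ∑ j, T' i j ≫ T j k := by
  rw [sectAct_apply]
  simp_rw [sectAct_apply, Preadditive.sum_comp, Preadditive.comp_sum, Category.assoc]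
  exact Finset.sum_comm

open Classical in
/-- the part of degree `b` of a family -/
noncomputable def sectPi {J : Type} (X : J → KC I) (b : ℤ) : SectM X →+ SectM X where
  toFun m j := if (X j).ob.deg = b then m j else 0
  map_zero' := by
    funext j
    exact ite_self _
  map_add' m m' := by
    funext j
    change (if (X j).ob.deg = b then m j + m' j else 0) =
      (if (X j).ob.deg = b then m j else 0) + (if (X j).ob.deg = b then m' j else 0)
    split_ifs
    · rfl
    · rw [add_zero]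

lemma sectPi_eq {J : Type} (X : J → KC I) (b : ℤ) (m : SectM X) (j : J)
    (h : (X j).ob.deg = b) : sectPi X b m j = m j := if_pos h

lemma sectPi_ne {J : Type} (X : J → KC I) (b : ℤ) (m : SectM X) (j : J)
    (h : (X j).ob.deg ≠ b) : sectPi X b m j = 0 := if_neg h

/-- the sector of `E` -/
noncomputable def sectS {J : Type} (X : J → KC I) (E : ℕ → ℤ) : AddSubgroup (SectM X) where
  carrier := {m | ∀ j x y, KC.ker (m j) x y ≠ 0 → ∀ n : ℕ,
    (X j).ob.div y n + (if n = 0 then (X j).ob.deg else 0) = E n}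
  zero_mem' := by
    intro j x y h
    exact absurd (KC.zero_ker x y) h
  add_mem' := by
    intro m m' hm hm' j x y h
    by_cases h1 : KC.ker (m j) x y = 0
    · refine hm' j x y fun h2 => h ?_
      change KC.ker (m j) x y + KC.ker (m' j) x y = 0
      rw [h1, h2, add_zero]
    · exact hm j x y h1
  neg_mem' := by
    intro m hm j x y h
    refine hm j x y fun h2 => h ?_
    change - KC.ker (m j) x y = 0
    rw [h2, neg_zero]

lemma sect_mem {J : Type} (X : J → KC I) (E : ℕ → ℤ) (m : SectM X) :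
    m ∈ sectS X E ↔ ∀ j x y, KC.ker (m j) x y ≠ 0 → ∀ n : ℕ,
    (X j).ob.div y n + (if n = 0 then (X j).ob.deg else 0) = E n := Iff.rfl

lemma sect_act_mem {J : Type} [Fintype J] (X : J → KC I) (T : ∀ i j, X i ⟶ X j)
    (hT : ∀ i j, IsEta (KC.ker (T i j))) (E : ℕ → ℤ) (m : SectM X) (hm : m ∈ sectS X E) :
    sectAct X T m ∈ sectS X E := by
  intro k x z hk n
  have h1 : ∃ j, KC.ker (m j ≫ T j k) x z ≠ 0 := by
    by_contra hc
    push Not at hc
    apply hk
    rw [sectAct_apply, sect_ker_sum]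
    exact Finset.sum_eq_zero fun j _ => hc j
  obtain ⟨j, hj⟩ := h1
  obtain ⟨y, hy1, hy2⟩ := sect_comp_ne _ _ _ _ hj
  rw [← hm j x y hy1 n]
  exact ((hT j k).2 y z hy2 n).symm

lemma sect_pi_mem {J : Type} (X : J → KC I) (b : ℤ) (E : ℕ → ℤ) (m : SectM X)
    (hm : m ∈ sectS X E) : sectPi X b m ∈ sectS X E := by
  intro j x y h
  by_cases hb : (X j).ob.deg = b
  · rw [sectPi_eq X b m j hb] at h
    exact hm j x y h
  · rw [sectPi_ne X b m j hb] at h
    exact absurd (KC.zero_ker x y) h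

/-- the action of a permutation on kernels -/
noncomputable def sectRho (σ : Equiv.Perm ℕ) (X Y : KC I) : (X ⟶ Y) →+ (X ⟶ Y) where
  toFun K := (⟨fun x y => KC.ker K (σ ∘ x) (σ ∘ y), by
    obtain ⟨N, hN⟩ := Ker.sm K
    obtain ⟨B, hB⟩ : ∃ B, ∀ n < N, σ.symm n < B := by
      obtain ⟨B, hB⟩ := kcat_bound (fun i : Fin N => σ.symm i)
      exact ⟨B, fun n hn => hB ⟨n, hn⟩⟩
    refine ⟨B, fun τ hτ x y => ?_⟩
    have h1 := hN (σ * τ * σ⁻¹) (fun n hn => by
      change σ (τ (σ.symm n)) = n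
      rw [hτ _ (hB n hn), Equiv.apply_symm_apply]) (σ ∘ x) (σ ∘ y)
    have h2 : ∀ (L : Type) (u : L → ℕ), (σ * τ * σ⁻¹ : Equiv.Perm ℕ) ∘ (σ ∘ u) = σ ∘ (τ ∘ u) := by
      intro L u
      funext i
      change σ (τ (σ.symm (σ (u i)))) = σ (τ (u i))
      rw [Equiv.symm_apply_apply]
    rw [h2, h2] at h1
    exact h1⟩ : Ker F X.ob Y.ob)
  map_zero' := rfl
  map_add' _ _ := rfl

lemma sectRho_ker (σ : Equiv.Perm ℕ) {X Y : KC I} (K : X ⟶ Y) (x : X.ob.ix → ℕ)
    (y : Y.ob.ix → ℕ) : KC.ker (sectRho σ X Y K) x y = KC.ker K (σ ∘ x) (σ ∘ y) := rfl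

lemma sectRho_comp (σ : Equiv.Perm ℕ) {X Y Z : KC I} (K : X ⟶ Y) (L : Y ⟶ Z) :
    sectRho σ X Z (K ≫ L) = sectRho σ X Y K ≫ sectRho σ Y Z L := by
  apply KC.hom_ext
  intro x z
  rw [sectRho_ker, KC.comp_ker, KC.comp_ker]
  obtain ⟨N, hN⟩ := kcat_sm_mid (X := X.ob) (Y := Y.ob) (Z := Z.ob) K L (σ ∘ x) (σ ∘ z)
  exact (I.perm Y.ob.ix N _ hN σ).symm

lemma sectRho_inv (σ : Equiv.Perm ℕ) {X Y : KC I} (K : X ⟶ Y) (hK : Inv 0 (KC.ker K)) :
    sectRho σ X Y K = K := by
  apply KC.hom_ext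
  intro x y
  exact hK σ (fun n hn => absurd hn (Nat.not_lt_zero n)) x y

lemma sectRho_sq (σ : Equiv.Perm ℕ) (hσ : ∀ n, σ (σ n) = n) {X Y : KC I} (K : X ⟶ Y) :
    sectRho σ X Y (sectRho σ X Y K) = K := by
  apply KC.hom_ext
  intro x y
  rw [sectRho_ker, sectRho_ker]
  congr 1
  · funext i
    exact hσ _
  · funext i
    exact hσ _

/-- the action of a permutation on families -/
noncomputable def sectFam {J : Type} (X : J → KC I) (σ : Equiv.Perm ℕ) (m : SectM X) : SectM X :=
  fun j => sectRho σ _ (X j) (m j)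

lemma sectFam_act {J : Type} [Fintype J] (X : J → KC I) (σ : Equiv.Perm ℕ)
    (T : ∀ i j, X i ⟶ X j) (hT : ∀ i j, Inv 0 (KC.ker (T i j))) (m : SectM X) :
    sectFam X σ (sectAct X T m) = sectAct X T (sectFam X σ m) := by
  funext k
  change sectRho σ _ (X k) (∑ j, m j ≫ T j k) = ∑ j, sectRho σ _ (X j) (m j) ≫ T j k
  rw [map_sum]
  refine Finset.sum_congr rfl fun j _ => ?_
  rw [sectRho_comp, sectRho_inv σ (T j k) (hT j k)]

lemma sectFam_sq {J : Type} (X : J → KC I) (σ : Equiv.Perm ℕ) (hσ : ∀ n, σ (σ n) = n)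
    (m : SectM X) : sectFam X σ (sectFam X σ m) = m := by
  funext j
  exact sectRho_sq σ hσ (m j)

/-- families of degree `a` and divisor `D` -/
def SectIn {J : Type} (X : J → KC I) (D : ℕ → ℤ) (a : ℤ) (m : SectM X) : Prop :=
  ∀ j x y, KC.ker (m j) x y ≠ 0 → (X j).ob.deg = a ∧ ∀ n, (X j).ob.div y n = D n

lemma sect_div_perm {X : Ob} (σ : Equiv.Perm ℕ) (hσ : ∀ n, σ (σ n) = n) (y : X.ix → ℕ) (n : ℕ) :
    X.div (σ ∘ y) n = X.div y (σ n) := by
  unfold Ob.div
  refine Finset.sum_congr rfl fun i _ => ?_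
  have h : (σ ∘ y) i = n ↔ y i = σ n := by
    constructor
    · intro h
      rw [← h]
      exact (hσ _).symm
    · intro h
      change σ (y i) = n
      rw [h, hσ]
  simp only [h]

lemma sectFam_in {J : Type} (X : J → KC I) (σ : Equiv.Perm ℕ) (hσ : ∀ n, σ (σ n) = n)
    (D : ℕ → ℤ) (a : ℤ) (m : SectM X) (hm : SectIn X D a m) :
    SectIn X (fun n => D (σ n)) a (sectFam X σ m) := by
  intro j x y h
  obtain ⟨h1, h2⟩ := hm j _ _ h
  refine ⟨h1, fun n => ?_⟩
  change (X j).ob.div y n = D (σ n)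
  rw [← h2 (σ n), sect_div_perm σ hσ, hσ]

lemma sect_in_iff {J : Type} (X : J → KC I) (E : ℕ → ℤ) (a : ℤ) (m : SectM X) :
    SectIn X (fun n => E n - if n = 0 then a else 0) a m ↔
      m ∈ sectS X E ∧ sectPi X a m = m := by
  constructor
  · intro h
    refine ⟨fun j x y hy n => ?_, ?_⟩
    · obtain ⟨h1, h2⟩ := h j x y hy
      rw [h2 n, h1]
      ring
    · funext j
      by_cases hj : (X j).ob.deg = a
      · exact sectPi_eq X a m j hj
      · rw [sectPi_ne X a m j hj]
        refine (sect_ext_zero _ fun x y => ?_).symm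
        by_contra hc
        exact hj (h j x y hc).1
  · rintro ⟨h1, h2⟩ j x y hy
    have h3 : (X j).ob.deg = a := by
      by_contra hj
      rw [← h2, sectPi_ne X a m j hj] at hy
      exact hy (KC.zero_ker x y)
    refine ⟨h3, fun n => ?_⟩
    have h4 := h1 j x y hy n
    rw [h3] at h4
    change (X j).ob.div y n = E n - if n = 0 then a else 0
    rw [← h4]
    ring

end SectFam

variable {F : Type} [Field F] [CharP F 2] {I : Integral F}

open Classical in
/-- the degree preserving part of a morphism -/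
noncomputable def degPart {X Y : KC I} (K : X ⟶ Y) : X ⟶ Y := if X.ob.deg = Y.ob.deg then K else 0

omit [CharP F 2] in
lemma degPart_inv {X Y : KC I} (K : X ⟶ Y) (hK : IsTee (KC.ker K)) :
    Inv 0 (KC.ker (degPart K)) := by
  unfold degPart
  split_ifs with h
  · exact hK.2.2 h
  · exact fun _ _ _ _ => rfl

omit [CharP F 2] in
lemma degPart_eq {X Y : KC I} (K : X ⟶ Y) (h : X.ob.deg = Y.ob.deg) : degPart K = K := if_pos h

omit [CharP F 2] in
lemma degPart_ne {X Y : KC I} (K : X ⟶ Y) (h : X.ob.deg ≠ Y.ob.deg) : degPart K = 0 := if_neg h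

omit [CharP F 2] in
/-- morphisms of `Tee` do not lower the degree -/
lemma sect_tee_zero {X Y : KC I} (K : X ⟶ Y) (hK : IsTee (KC.ker K))
    (h : Y.ob.deg < X.ob.deg) : K = 0 := by
  refine sect_ext_zero _ fun x y => ?_
  by_contra hc
  exact absurd (hK.2.1 x y hc) (not_le.mpr h)

omit [CharP F 2] in
/-- the filtration by the degree -/
lemma sect_fil {J : Type} [Fintype J] (X : J → KC I) (d : ∀ i j, X i ⟶ X j)
    (hd : ∀ i j, IsTee (KC.ker (d i j))) (b : ℤ) (m : SectM X)
    (hm : ∀ c < b, sectPi X c m = 0) :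
    (∀ c < b, sectPi X c (sectAct X d m) = 0) ∧
      sectPi X b (sectAct X d m) = sectAct X (fun i j => degPart (d i j)) (sectPi X b m) := by
  have hm' : ∀ j, (X j).ob.deg < b → m j = 0 := by
    intro j hj
    have := congrFun (hm _ hj) j
    rwa [sectPi_eq X _ m j rfl] at this
  constructor
  · intro c hc
    funext k
    by_cases hk : (X k).ob.deg = c
    · rw [sectPi_eq X c _ k hk, sectAct_apply]
      refine Finset.sum_eq_zero fun j _ => ?_
      rcases lt_or_ge (X j).ob.deg b with hj | hj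
      · rw [hm' j hj, zero_comp]
      · rw [sect_tee_zero (d j k) (hd j k) (by omega), comp_zero]
    · exact sectPi_ne X c _ k hk
  · funext k
    rw [sectAct_apply]
    by_cases hk : (X k).ob.deg = b
    · rw [sectPi_eq X b _ k hk, sectAct_apply]
      refine Finset.sum_congr rfl fun j _ => ?_
      rcases lt_trichotomy (X j).ob.deg b with hj | hj | hj
      · rw [hm' j hj, zero_comp, sectPi_ne X b _ j (ne_of_lt hj), zero_comp]
      · rw [sectPi_eq X b _ j hj, degPart_eq _ (hj.trans hk.symm)]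
      · rw [sect_tee_zero (d j k) (hd j k) (by omega), comp_zero, sectPi_ne X b _ j (ne_of_gt hj),
          zero_comp]
    · rw [sectPi_ne X b _ k hk]
      refine (Finset.sum_eq_zero fun j _ => ?_).symm
      by_cases hj : (X j).ob.deg = b
      · rw [degPart_ne (d j k) (fun h => hk (h.symm.trans hj)), comp_zero]
      · rw [sectPi_ne X b _ j hj, zero_comp]

/-- the support of the divisor of a point is contained in the range of the point -/
lemma sect_supp {X : Ob} (y : X.ix → ℕ) (D : ℕ → ℤ) (h : ∀ n, X.div y n = D n) :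
    Function.support D ⊆ Set.range y := by
  intro n hn
  by_contra hc
  apply hn
  rw [← h n]
  unfold Ob.div
  exact Finset.sum_eq_zero fun i _ => if_neg fun hi => hc ⟨i, hi⟩

omit [CharP F 2] in
lemma sect_hi {J : Type} [Fintype J] (X : J → KC I) :
    ∃ hi : ℤ, ∀ m : SectM X, (∀ c < hi, sectPi X c m = 0) → m = 0 := by
  obtain ⟨B, hB⟩ := (Set.finite_range fun j => (X j).ob.deg).bddAbove
  refine ⟨B + 1, fun m hm => ?_⟩
  funext j
  have h1 : (X j).ob.deg ≤ B := hB ⟨j, rfl⟩
  have h2 := congrFun (hm _ (Int.lt_add_one_iff.mpr h1)) j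
  rwa [sectPi_eq X _ m j rfl] at h2

omit [CharP F 2] in
lemma sect_lo {J : Type} [Fintype J] (X : J → KC I) :
    ∃ lo : ℤ, ∀ m : SectM X, ∀ c < lo, sectPi X c m = 0 := by
  obtain ⟨B, hB⟩ := (Set.finite_range fun j => (X j).ob.deg).bddBelow
  refine ⟨B, fun m c hc => ?_⟩
  funext j
  have h1 : B ≤ (X j).ob.deg := hB ⟨j, rfl⟩
  exact sectPi_ne X _ m j (by omega)

omit [CharP F 2] in
open Classical in
/-- exactness of the degree preserving part -/
lemma sect_claim (J : Type) [Fintype J] (X : J → KC I) (d h : ∀ i j, X i ⟶ X j)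
    (hd : ∀ i j, IsTee (KC.ker (d i j))) (hh : ∀ i j, IsEta (KC.ker (h i j)))
    (hdd : ∀ i k, ∑ j, d i j ≫ d j k = 0)
    (hdh : ∀ i k, ∑ j, (d i j ≫ h j k + h i j ≫ d j k) =
      if e : i = k then eqToHom (congrArg X e) else 0)
    (N : ℕ) (hN : ∀ j, Nat.card (X j).ob.ix ≤ N) :
    ∀ n : ℕ, ∀ (D : ℕ → ℤ) (a : ℤ), (Function.support D).Finite →
      N < (Function.support D).ncard + n → ∀ m : SectM X, SectIn X D a m →
      sectAct X (fun i j => degPart (d i j)) m = 0 →
      ∃ v : SectM X, SectIn X D a v ∧ m = sectAct X (fun i j => degPart (d i j)) v := by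
  intro n
  induction n with
  | zero =>
    intro D a hfin hcard m hm _
    refine ⟨0, fun j x y hy => absurd (KC.zero_ker x y) hy, ?_⟩
    rw [map_zero]
    funext j
    refine sect_ext_zero _ fun x y => ?_
    by_contra hc
    have h1 := sect_supp y D (hm j x y hc).2
    have h2 := Set.ncard_le_ncard h1 (Set.finite_range y)
    have h3 : (Set.range y).ncard ≤ Nat.card (X j).ob.ix := by
      rw [← Nat.card_coe_set_eq]
      exact Finite.card_range_le y
    have h4 := hN j
    omega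
  | succ n ih =>
    intro D a hfin hcard m hm hmd
    -- a permutation
    obtain ⟨p, hp⟩ := hfin.exists_notMem
    have hDp : D p = 0 := by
      by_contra hc
      exact hp hc
    set σ : Equiv.Perm ℕ := Equiv.swap 0 p with hσdef
    have hσ : ∀ n, σ (σ n) = n := fun n => Equiv.swap_apply_self 0 p n
    have hT : ∀ i j, Inv 0 (KC.ker (degPart (d i j))) := fun i j => degPart_inv _ (hd i j)
    set D' : ℕ → ℤ := fun n => D (σ n) with hD'
    have hD'0 : D' 0 = 0 := by
      change D (σ 0) = 0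
      rw [hσdef, Equiv.swap_apply_left]
      exact hDp
    have hsupp : Function.support D' = σ ⁻¹' (Function.support D) := rfl
    have hfin' : (Function.support D').Finite := by
      rw [hsupp]
      exact hfin.preimage σ.injective.injOn
    have hcard' : (Function.support D').ncard = (Function.support D).ncard := by
      rw [hsupp, Set.ncard_preimage_of_injective_subset_range σ.injective]
      rw [σ.surjective.range_eq]
      exact Set.subset_univ _
    have hm' := sectFam_in X σ hσ D a m hm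
    have hmd' : sectAct X (fun i j => degPart (d i j)) (sectFam X σ m) = 0 := by
      rw [← sectFam_act X σ _ hT, hmd]
      funext j
      exact map_zero _
    set E : ℕ → ℤ := fun n => D' n + if n = 0 then a else 0 with hE
    have hED : (fun n => E n - if n = 0 then a else 0) = D' := by
      funext n
      simp only [hE]
      ring
    obtain ⟨hi, hhi⟩ := sect_hi X
    obtain ⟨lo, hlo⟩ := sect_lo X
    have key : ∃ v ∈ sectS X E, sectPi X a v = v ∧
        sectFam X σ m = sectAct X (fun i j => degPart (d i j)) v := by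
      have hm2 : SectIn X (fun n => E n - if n = 0 then a else 0) a (sectFam X σ m) := by
        rw [hED]
        exact hm'
      obtain ⟨hmS, hma⟩ := (sect_in_iff X E a _).mp hm2
      refine sect_abs (sectS X E) (sectAct X d) (sectAct X h)
        (sectAct X (fun i j => degPart (d i j))) (sectPi X) lo hi
        (fun m hm => sect_act_mem X d (fun i j => (hd i j).1) E m hm)
        (fun m hm => sect_act_mem X h hh E m hm)
        (fun b m hm => sect_pi_mem X b E m hm) ?_ ?_ ?_ ?_
        (fun b m hm => sect_fil X d hd b m hm) hhi hlo a ?_ _ hmS hma hmd'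
      · intro m
        funext k
        rw [sectAct_comp]
        exact Finset.sum_eq_zero fun i _ => by rw [hdd, comp_zero]
      · intro m
        funext k
        change sectAct X h (sectAct X d m) k + sectAct X d (sectAct X h m) k = m k
        rw [sectAct_comp, sectAct_comp, ← Finset.sum_add_distrib]
        rw [Finset.sum_eq_single k]
        · rw [← Preadditive.comp_add, ← Finset.sum_add_distrib, hdh, dif_pos rfl]
          simp
        · intro i _ hik
          rw [← Preadditive.comp_add, ← Finset.sum_add_distrib, hdh, dif_neg hik, comp_zero]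
        · intro hk
          exact absurd (Finset.mem_univ k) hk
      · intro b m
        funext j
        by_cases hj : (X j).ob.deg = b
        · rw [sectPi_eq X b _ j hj]
        · rw [sectPi_ne X b _ j hj, sectPi_ne X b _ j hj]
      · intro b c m hbc
        funext j
        by_cases hj : (X j).ob.deg = b
        · rw [sectPi_eq X b _ j hj, sectPi_ne X c _ j (fun h => hbc (hj.symm.trans h))]
          rfl
        · rw [sectPi_ne X b _ j hj]
          rfl
      · intro b hb w hw hwb hwd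
        have hw2 := (sect_in_iff X E b w).mpr ⟨hw, hwb⟩
        have hs : Function.support (fun n => E n - if n = 0 then b else 0) =
            insert 0 (Function.support D') := by
          ext n
          rw [Function.mem_support, Set.mem_insert_iff, Function.mem_support]
          by_cases hn : n = 0
          · subst hn
            simp only [hE, hD'0, if_true, true_or, iff_true]
            omega
          · simp only [hE, hn, if_false, false_or, add_zero, sub_zero]
        obtain ⟨v, hv1, hv2⟩ := ih _ b (by rw [hs]; exact hfin'.insert 0) (by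
          rw [hs, Set.ncard_insert_of_notMem (by simp [hD'0]) hfin', hcard']
          omega) w hw2 hwd
        obtain ⟨hv3, hv4⟩ := (sect_in_iff X E b v).mp hv1
        exact ⟨v, hv3, hv4, hv2⟩
    obtain ⟨v, hvS, hva, hv⟩ := key
    have hv1 : SectIn X D' a v := by
      rw [← hED]
      exact (sect_in_iff X E a v).mpr ⟨hvS, hva⟩
    refine ⟨sectFam X σ v, ?_, ?_⟩
    · have h1 := sectFam_in X σ hσ D' a v hv1
      have h2 : (fun n => D' (σ n)) = D := by
        funext n
        change D (σ (σ n)) = D n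
        rw [hσ]
      rwa [h2] at h1
    · rw [← sectFam_act X σ _ hT, ← hv, sectFam_sq X σ hσ]

open Classical in
theorem sector (J : Type) [Fintype J] (X : J → KC I) (d h : ∀ i j, X i ⟶ X j)
    (hd : ∀ i j, IsTee (KC.ker (d i j))) (hh : ∀ i j, IsEta (KC.ker (h i j)))
    (hdd : ∀ i k, ∑ j, d i j ≫ d j k = 0)
    (hdh : ∀ i k, ∑ j, (d i j ≫ h j k + h i j ≫ d j k) =
      if e : i = k then eqToHom (congrArg X e) else 0)
    (f : ∀ j, 𝟙_ (KC I) ⟶ X j) (g : ∀ j, X j ⟶ 𝟙_ (KC I))
    (hf : ∀ j, IsKap (KC.ker (f j))) (hg : ∀ j, IsKap (KC.ker (g j)))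
    (hfd : ∀ k, ∑ j, f j ≫ degPart (d j k) = 0) (hdg : ∀ i, ∑ j, degPart (d i j) ≫ g j = 0) :
    ∑ j, f j ≫ g j = 0 := by
  obtain ⟨N, hN⟩ : ∃ N, ∀ j, Nat.card (X j).ob.ix ≤ N := by
    obtain ⟨B, hB⟩ := (Set.finite_range fun j => Nat.card (X j).ob.ix).bddAbove
    exact ⟨B, fun j => hB ⟨j, rfl⟩⟩
  have hf1 : SectIn X (fun _ => 0) 0 f := by
    intro j x y hy
    obtain ⟨h1, h2⟩ := (hf j).2 x y hy
    refine ⟨h2.symm, fun n => ?_⟩
    rw [← congrFun h1 n]
    exact Finset.sum_eq_zero fun i _ => isEmptyElim (α := Ob.unit.ix) i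
  obtain ⟨v, _, hv⟩ := sect_claim J X d h hd hh hdd hdh N hN (N + 1) (fun _ => 0) 0
    (by simp) (by simp) f hf1 (by
      funext k
      exact hfd k)
  have h1 : ∀ j, f j = ∑ i, v i ≫ degPart (d i j) := fun j => congrFun hv j
  calc ∑ j, f j ≫ g j = ∑ j, ∑ i, v i ≫ (degPart (d i j) ≫ g j) := by
        refine Finset.sum_congr rfl fun j _ => ?_
        rw [h1 j, Preadditive.sum_comp]
        exact Finset.sum_congr rfl fun i _ => Category.assoc _ _ _
    _ = ∑ i, v i ≫ ∑ j, degPart (d i j) ≫ g j := by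
        rw [Finset.sum_comm]
        exact Finset.sum_congr rfl fun i _ => (Preadditive.comp_sum _ _ _ ).symm
    _ = 0 := Finset.sum_eq_zero fun i _ => by rw [hdg, comp_zero]

end Pool.Agent.H939.TT
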