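import Pool.Agent.H939.TT.KMon

/-!
# The cone triangles in the homotopy category
-/

namespace Pool.Agent.H939.TT

open CategoryTheory CategoryTheory.Limits CategoryTheory.MonoidalCategory
open CategoryTheory.Pretriangulated

universe v u v' u'

variable {C : Type u} [Category.{v} C] [Preadditive C] [HasBinaryBiproducts C]

/-- The triangle `A ⟶ B ⟶ cone f ⟶ A` (the shift is the identity). -/
noncomputable def coneTri [CharTwo C] {A B : D C} (f : A ⟶ B) : Triangle (K C) where
  obj₁ := (Q C).obj A
  obj₂ := (Q C).obj B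
  obj₃ := (Q C).obj (D.cone f)
  mor₁ := (Q C).map f
  mor₂ := (Q C).map (D.coneInr f)
  mor₃ := (Q C).map (D.coneFst f)

variable (C) in
/-- The distinguished triangles are those isomorphic to a cone triangle. -/
def distK [CharTwo C] : Set (Triangle (K C)) :=
  {T | ∃ (A B : D C) (f : A ⟶ B), Nonempty (T ≅ coneTri f)}

variable [CharTwo C]

lemma coneTri_mem {A B : D C} (f : A ⟶ B) : coneTri f ∈ distK C := ⟨A, B, f, ⟨Iso.refl _⟩⟩

end Pool.Agent.H939.TT
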