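import Pool.Agent.H939.TT.TriDefs

/-!
# Existence of cones, completion of morphisms of triangles
-/

namespace Pool.Agent.H939.TT

open CategoryTheory CategoryTheory.Limits CategoryTheory.MonoidalCategory
open CategoryTheory.Pretriangulated

universe v u v' u'

variable {C : Type u} [Category.{v} C] [Preadditive C] [HasBinaryBiproducts C] [CharTwo C]

theorem isomorphic_distK (T₁ : Triangle (K C)) (h : T₁ ∈ distK C) (T₂ : Triangle (K C))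
    (e : T₂ ≅ T₁) : T₂ ∈ distK C := by
  obtain ⟨A, B, f, ⟨e'⟩⟩ := h
  exact ⟨A, B, f, ⟨e ≪≫ e'⟩⟩

theorem exists_cone_distK {X Y : K C} (f : X ⟶ Y) :
    ∃ (Z : K C) (g : Y ⟶ Z) (h : Z ⟶ X⟦(1 : ℤ)⟧), Triangle.mk f g h ∈ distK C := by
  obtain ⟨X, rfl⟩ := X.exists_rep
  obtain ⟨Y, rfl⟩ := Y.exists_rep
  obtain ⟨f, rfl⟩ := Q_map_surjective f
  exact ⟨(Q C).obj (D.cone f), (Q C).map (D.coneInr f), (Q C).map (D.coneFst f), coneTri_mem f⟩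

/-- the morphism of cones given by a square which commutes up to a homotopy -/
@[simps] noncomputable def triMorCone {A B A' B' : D C} (f : A ⟶ B) (g : A' ⟶ B') (a : A ⟶ A')
    (b : B ⟶ B') (h : A.X ⟶ B'.X) (hh : (f ≫ b).f - (a ≫ g).f = h ≫ B'.d + A.d ≫ h) :
    D.cone f ⟶ D.cone g where
  f := biprod.desc (biprod.lift a.f h) (biprod.lift 0 b.f)
  comm := by
    have h1 : f.f ≫ b.f = a.f ≫ g.f + (h ≫ B'.d + A.d ≫ h) := by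
      rw [← hh]
      simp
    dsimp only [D.cone]
    ext
    · simp
    · simp [h1]
      try simp only [sub_eq', neg_eq']
      rw [← sub_eq_zero, sub_eq']
      abel_nf
      try simp only [two_zsmul', two_nsmul', four_zsmul', four_nsmul', add_zero, zero_add]
    · simp
    · simp

lemma triMorCone_inr {A B A' B' : D C} (f : A ⟶ B) (g : A' ⟶ B') (a : A ⟶ A')
    (b : B ⟶ B') (h : A.X ⟶ B'.X) (hh : (f ≫ b).f - (a ≫ g).f = h ≫ B'.d + A.d ≫ h) :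
    D.coneInr f ≫ triMorCone f g a b h hh = b ≫ D.coneInr g := by
  apply D.hom_ext
  change (biprod.inr : B.X ⟶ A.X ⊞ B.X) ≫ biprod.desc (biprod.lift a.f h) (biprod.lift 0 b.f) =
    b.f ≫ (biprod.inr : B'.X ⟶ A'.X ⊞ B'.X)
  ext <;> simp

lemma triMorCone_fst {A B A' B' : D C} (f : A ⟶ B) (g : A' ⟶ B') (a : A ⟶ A')
    (b : B ⟶ B') (h : A.X ⟶ B'.X) (hh : (f ≫ b).f - (a ≫ g).f = h ≫ B'.d + A.d ≫ h) :
    D.coneFst f ≫ a = triMorCone f g a b h hh ≫ D.coneFst g := by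
  apply D.hom_ext
  change (biprod.fst : A.X ⊞ B.X ⟶ A.X) ≫ a.f =
    biprod.desc (biprod.lift a.f h) (biprod.lift 0 b.f) ≫ (biprod.fst : A'.X ⊞ B'.X ⟶ A'.X)
  ext <;> simp

lemma triMor_cone {A B A' B' : D C} (f : A ⟶ B) (g : A' ⟶ B')
    (a : (Q C).obj A ⟶ (Q C).obj A') (b : (Q C).obj B ⟶ (Q C).obj B')
    (hab : (Q C).map f ≫ b = a ≫ (Q C).map g) :
    ∃ c : (Q C).obj (D.cone f) ⟶ (Q C).obj (D.cone g),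
      (Q C).map (D.coneInr f) ≫ c = b ≫ (Q C).map (D.coneInr g) ∧
      (Q C).map (D.coneFst f) ≫ a = c ≫ (Q C).map (D.coneFst g) := by
  obtain ⟨a, rfl⟩ := Q_map_surjective a
  obtain ⟨b, rfl⟩ := Q_map_surjective b
  rw [← Functor.map_comp, ← Functor.map_comp, Q_map_eq] at hab
  obtain ⟨h, hh⟩ := hab
  refine ⟨(Q C).map (triMorCone f g a b h hh), ?_, ?_⟩
  · rw [← Functor.map_comp, ← Functor.map_comp, triMorCone_inr]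
  · rw [← Functor.map_comp, ← Functor.map_comp, ← triMorCone_fst]

/-- transport of the completion property along isomorphisms -/
lemma triMor_abs {E : Type u'} [Category.{v'} E] {T1 T2 T3 S1 S2 S3 A1 A2 A3 B1 B2 B3 : E}
    (m1 : T1 ⟶ T2) (m2 : T2 ⟶ T3) (m3 : T3 ⟶ T1) (n1 : S1 ⟶ S2) (n2 : S2 ⟶ S3) (n3 : S3 ⟶ S1)
    (p1 : A1 ⟶ A2) (p2 : A2 ⟶ A3) (p3 : A3 ⟶ A1) (q1 : B1 ⟶ B2) (q2 : B2 ⟶ B3) (q3 : B3 ⟶ B1)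
    (u1 : T1 ⟶ A1) (u2 : T2 ⟶ A2) (u3 : T3 ⟶ A3) (v1 : A1 ⟶ T1) (v2 : A2 ⟶ T2)
    (w1 : S1 ⟶ B1) (w2 : S2 ⟶ B2) (x1 : B1 ⟶ S1) (x2 : B2 ⟶ S2) (x3 : B3 ⟶ S3)
    (h1 : m2 ≫ u3 = u2 ≫ p2) (h2 : m3 ≫ u1 = u3 ≫ p3) (h3 : p1 ≫ v2 = v1 ≫ m1)
    (h4 : u1 ≫ v1 = 𝟙 _) (h5 : u2 ≫ v2 = 𝟙 _) (h6 : n1 ≫ w2 = w1 ≫ q1)
    (h7 : q2 ≫ x3 = x2 ≫ n2) (h8 : q3 ≫ x1 = x3 ≫ n3) (h9 : w1 ≫ x1 = 𝟙 _)
    (h10 : w2 ≫ x2 = 𝟙 _)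
    (H : ∀ (a : A1 ⟶ B1) (b : A2 ⟶ B2), p1 ≫ b = a ≫ q1 →
      ∃ c : A3 ⟶ B3, p2 ≫ c = b ≫ q2 ∧ p3 ≫ a = c ≫ q3)
    (a : T1 ⟶ S1) (b : T2 ⟶ S2) (hab : m1 ≫ b = a ≫ n1) :
    ∃ c : T3 ⟶ S3, m2 ≫ c = b ≫ n2 ∧ m3 ≫ a = c ≫ n3 := by
  obtain ⟨c, hc1, hc2⟩ := H (v1 ≫ a ≫ w1) (v2 ≫ b ≫ w2) (by
    rw [← Category.assoc, h3, Category.assoc, ← Category.assoc m1, hab, Category.assoc,
      Category.assoc, Category.assoc, h6])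
  refine ⟨u3 ≫ c ≫ x3, ?_, ?_⟩
  · rw [← Category.assoc, h1, Category.assoc, ← Category.assoc p2, hc1]
    simp only [Category.assoc]
    rw [h7, ← Category.assoc u2, h5, Category.id_comp, ← Category.assoc w2, h10,
      Category.id_comp]
  · have h11 : m3 ≫ a = m3 ≫ (u1 ≫ v1) ≫ a ≫ (w1 ≫ x1) := by
      rw [h4, h9, Category.id_comp, Category.comp_id]
    have h12 : m3 ≫ (u1 ≫ v1) ≫ a ≫ (w1 ≫ x1) = (m3 ≫ u1) ≫ (v1 ≫ a ≫ w1) ≫ x1 := by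
      simp only [Category.assoc]
    rw [h11, h12, h2, Category.assoc, ← Category.assoc p3, hc2]
    simp only [Category.assoc]
    rw [h8]

theorem complete_distK (T₁ T₂ : Triangle (K C)) (h₁ : T₁ ∈ distK C) (h₂ : T₂ ∈ distK C)
    (a : T₁.obj₁ ⟶ T₂.obj₁) (b : T₁.obj₂ ⟶ T₂.obj₂) (hab : T₁.mor₁ ≫ b = a ≫ T₂.mor₁) :
    ∃ c : T₁.obj₃ ⟶ T₂.obj₃, T₁.mor₂ ≫ c = b ≫ T₂.mor₂ ∧ T₁.mor₃ ≫ a⟦(1 : ℤ)⟧' = c ≫ T₂.mor₃ := by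
  obtain ⟨A, B, f, ⟨e⟩⟩ := h₁
  obtain ⟨A', B', g, ⟨e'⟩⟩ := h₂
  exact triMor_abs (E := K C) T₁.mor₁ T₁.mor₂ T₁.mor₃ T₂.mor₁ T₂.mor₂ T₂.mor₃
    (coneTri f).mor₁ (coneTri f).mor₂ (coneTri f).mor₃
    (coneTri g).mor₁ (coneTri g).mor₂ (coneTri g).mor₃
    e.hom.hom₁ e.hom.hom₂ e.hom.hom₃ e.inv.hom₁ e.inv.hom₂
    e'.hom.hom₁ e'.hom.hom₂ e'.inv.hom₁ e'.inv.hom₂ e'.inv.hom₃
    e.hom.comm₂ e.hom.comm₃ e.inv.comm₁ (Iso.hom_inv_id_triangle_hom₁ e)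
    (Iso.hom_inv_id_triangle_hom₂ e) e'.hom.comm₁ e'.inv.comm₂ e'.inv.comm₃
    (Iso.hom_inv_id_triangle_hom₁ e') (Iso.hom_inv_id_triangle_hom₂ e')
    (fun a b hab => triMor_cone f g a b hab) a b hab

end Pool.Agent.H939.TT
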