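import Pool.Agent.H939.TT.TriRot
import Pool.Agent.H939.TT.TriMor

/-!
# The pretriangulated structure of the homotopy category
-/

namespace Pool.Agent.H939.TT

open CategoryTheory CategoryTheory.Limits CategoryTheory.MonoidalCategory
open CategoryTheory.Pretriangulated

universe v u v' u'

variable {C : Type u} [Category.{v} C] [Preadditive C] [HasBinaryBiproducts C] [CharTwo C]
  [HasZeroObject C]

noncomputable instance : Pretriangulated (K C) where
  distinguishedTriangles := distK C
  isomorphic_distinguished := isomorphic_distK
  contractible_distinguished := contractible_distK
  distinguished_cocone_triangle := exists_cone_distK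
  rotate_distinguished_triangle := rotate_distK_iff
  complete_distinguished_triangle_morphism := complete_distK

lemma mem_distTriang_K {T : Triangle (K C)} : T ∈ distTriang (K C) ↔ T ∈ distK C := Iff.rfl

end Pool.Agent.H939.TT
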