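import Pool.Agent.H939.TT.TriDefs

/-!
# Contractible triangles and rotation
-/

namespace Pool.Agent.H939.TT

open CategoryTheory CategoryTheory.Limits CategoryTheory.MonoidalCategory
open CategoryTheory.Pretriangulated

universe v u v' u'

variable {C : Type u} [Category.{v} C] [Preadditive C] [HasBinaryBiproducts C] [CharTwo C]

private lemma triRot_cone_id (X : D C) : IsZero ((Q C).obj (D.cone (𝟙 X))) := by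
  rw [K.isZero_iff]
  refine ⟨(biprod.desc 0 (biprod.lift (𝟙 X.X) 0) : X.X ⊞ X.X ⟶ X.X ⊞ X.X), ?_⟩
  change 𝟙 (X.X ⊞ X.X) = (biprod.desc 0 (biprod.lift (𝟙 X.X) 0) : X.X ⊞ X.X ⟶ X.X ⊞ X.X) ≫
    (biprod.desc (biprod.lift X.d (𝟙 X.X)) (biprod.lift 0 X.d) : X.X ⊞ X.X ⟶ X.X ⊞ X.X) +
    (biprod.desc (biprod.lift X.d (𝟙 X.X)) (biprod.lift 0 X.d) : X.X ⊞ X.X ⟶ X.X ⊞ X.X) ≫
    (biprod.desc 0 (biprod.lift (𝟙 X.X) 0) : X.X ⊞ X.X ⟶ X.X ⊞ X.X)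
  ext <;> simp

theorem contractible_distK [HasZeroObject C] (X : K C) : contractibleTriangle X ∈ distK C := by
  obtain ⟨X, rfl⟩ := X.exists_rep
  refine ⟨X, X, 𝟙 X, ⟨?_⟩⟩
  have h1 : IsZero ((Q C).obj (D.cone (𝟙 X))) := triRot_cone_id X
  have h2 : IsZero (contractibleTriangle ((Q C).obj X)).obj₃ := isZero_zero _
  refine Triangle.isoMk _ _ (Iso.refl _) (Iso.refl _) (h2.iso h1) ?_ ?_ ?_
  · change 𝟙 _ ≫ 𝟙 _ = 𝟙 _ ≫ (Q C).map (𝟙 X)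
    rw [(Q C).map_id]
  · exact h1.eq_of_tgt _ _
  · exact h2.eq_of_src _ _

/-- the homotopy equivalence from `A` to the cone of `B ⟶ cone f` -/
private noncomputable def triRotPhi {A B : D C} (f : A ⟶ B) : A ⟶ D.cone (D.coneInr f) where
  f := (biprod.lift f.f (biprod.lift (𝟙 A.X) 0 : A.X ⟶ A.X ⊞ B.X) : A.X ⟶ B.X ⊞ (A.X ⊞ B.X))
  comm := by
    dsimp only [D.cone, D.coneInr]
    ext <;> simp

private noncomputable def triRotPsi {A B : D C} (f : A ⟶ B) : D.cone (D.coneInr f) ⟶ A where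
  f := (biprod.snd : B.X ⊞ (A.X ⊞ B.X) ⟶ A.X ⊞ B.X) ≫ (biprod.fst : A.X ⊞ B.X ⟶ A.X)
  comm := by
    dsimp only [D.cone, D.coneInr]
    ext <;> simp

private lemma triRot_phi_psi {A B : D C} (f : A ⟶ B) : triRotPhi f ≫ triRotPsi f = 𝟙 A := by
  apply D.hom_ext
  change (biprod.lift f.f (biprod.lift (𝟙 A.X) 0 : A.X ⟶ A.X ⊞ B.X) : A.X ⟶ B.X ⊞ (A.X ⊞ B.X)) ≫
    (biprod.snd : B.X ⊞ (A.X ⊞ B.X) ⟶ A.X ⊞ B.X) ≫ (biprod.fst : A.X ⊞ B.X ⟶ A.X) = 𝟙 A.X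
  simp

private lemma triRot_psi_phi {A B : D C} (f : A ⟶ B) :
    (Q C).map (triRotPsi f ≫ triRotPhi f) = (Q C).map (𝟙 _) := by
  rw [Q_map_eq]
  refine ⟨(biprod.desc 0 (biprod.desc 0 (biprod.lift (𝟙 B.X) 0) :
    A.X ⊞ B.X ⟶ B.X ⊞ (A.X ⊞ B.X)) : B.X ⊞ (A.X ⊞ B.X) ⟶ B.X ⊞ (A.X ⊞ B.X)), ?_⟩
  change ((biprod.snd : B.X ⊞ (A.X ⊞ B.X) ⟶ A.X ⊞ B.X) ≫ (biprod.fst : A.X ⊞ B.X ⟶ A.X)) ≫
    (biprod.lift f.f (biprod.lift (𝟙 A.X) 0 : A.X ⟶ A.X ⊞ B.X) : A.X ⟶ B.X ⊞ (A.X ⊞ B.X)) -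
    𝟙 (B.X ⊞ (A.X ⊞ B.X)) =
    (biprod.desc 0 (biprod.desc 0 (biprod.lift (𝟙 B.X) 0) :
      A.X ⊞ B.X ⟶ B.X ⊞ (A.X ⊞ B.X)) : B.X ⊞ (A.X ⊞ B.X) ⟶ B.X ⊞ (A.X ⊞ B.X)) ≫
    (biprod.desc (biprod.lift B.d biprod.inr) (biprod.lift 0 (biprod.desc (biprod.lift A.d f.f)
      (biprod.lift 0 B.d))) : B.X ⊞ (A.X ⊞ B.X) ⟶ B.X ⊞ (A.X ⊞ B.X)) +
    (biprod.desc (biprod.lift B.d biprod.inr) (biprod.lift 0 (biprod.desc (biprod.lift A.d f.f)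
      (biprod.lift 0 B.d))) : B.X ⊞ (A.X ⊞ B.X) ⟶ B.X ⊞ (A.X ⊞ B.X)) ≫
    (biprod.desc 0 (biprod.desc 0 (biprod.lift (𝟙 B.X) 0) :
      A.X ⊞ B.X ⟶ B.X ⊞ (A.X ⊞ B.X)) : B.X ⊞ (A.X ⊞ B.X) ⟶ B.X ⊞ (A.X ⊞ B.X))
  ext <;> simp [sub_eq', neg_eq']

private noncomputable def triRotIso {A B : D C} (f : A ⟶ B) :
    (Q C).obj A ≅ (Q C).obj (D.cone (D.coneInr f)) where
  hom := (Q C).map (triRotPhi f)
  inv := (Q C).map (triRotPsi f)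
  hom_inv_id := by rw [← (Q C).map_comp, triRot_phi_psi, (Q C).map_id]
  inv_hom_id := by rw [← (Q C).map_comp, triRot_psi_phi, (Q C).map_id]

/-- The rotation of a cone triangle: `cone (B ⟶ cone f)` is homotopy equivalent to `A`. -/
theorem rotate_coneTri {A B : D C} (f : A ⟶ B) : (coneTri f).rotate ∈ distK C := by
  refine ⟨B, D.cone f, D.coneInr f, ⟨?_⟩⟩
  refine Triangle.isoMk _ _ (Iso.refl ((Q C).obj B)) (Iso.refl ((Q C).obj (D.cone f)))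
    (triRotIso f) ?_ ?_ ?_
  · change (Q C).map (D.coneInr f) ≫ 𝟙 _ = 𝟙 _ ≫ (Q C).map (D.coneInr f)
    rw [Category.comp_id, Category.id_comp]
  · change (Q C).map (D.coneFst f) ≫ (Q C).map (triRotPhi f)
      = 𝟙 _ ≫ (Q C).map (D.coneInr (D.coneInr f))
    rw [Category.id_comp, ← (Q C).map_comp, Q_map_eq]
    refine ⟨(biprod.desc 0 (biprod.lift (𝟙 B.X) 0) : A.X ⊞ B.X ⟶ B.X ⊞ (A.X ⊞ B.X)), ?_⟩
    change (biprod.fst : A.X ⊞ B.X ⟶ A.X) ≫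
      (biprod.lift f.f (biprod.lift (𝟙 A.X) 0 : A.X ⟶ A.X ⊞ B.X) : A.X ⟶ B.X ⊞ (A.X ⊞ B.X)) -
      (biprod.inr : A.X ⊞ B.X ⟶ B.X ⊞ (A.X ⊞ B.X)) =
      (biprod.desc 0 (biprod.lift (𝟙 B.X) 0) : A.X ⊞ B.X ⟶ B.X ⊞ (A.X ⊞ B.X)) ≫
      (biprod.desc (biprod.lift B.d biprod.inr) (biprod.lift 0 (biprod.desc (biprod.lift A.d f.f)
        (biprod.lift 0 B.d))) : B.X ⊞ (A.X ⊞ B.X) ⟶ B.X ⊞ (A.X ⊞ B.X)) +
      (biprod.desc (biprod.lift A.d f.f) (biprod.lift 0 B.d) : A.X ⊞ B.X ⟶ A.X ⊞ B.X) ≫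
      (biprod.desc 0 (biprod.lift (𝟙 B.X) 0) : A.X ⊞ B.X ⟶ B.X ⊞ (A.X ⊞ B.X))
    ext <;> simp [sub_eq', neg_eq']
  · change (-(Q C).map f) ≫ 𝟙 _ = (Q C).map (triRotPhi f) ≫ (Q C).map (D.coneFst (D.coneInr f))
    rw [Category.comp_id, neg_eq', ← (Q C).map_comp]
    congr 1
    apply D.hom_ext
    change f.f = (biprod.lift f.f (biprod.lift (𝟙 A.X) 0 : A.X ⟶ A.X ⊞ B.X) :
      A.X ⟶ B.X ⊞ (A.X ⊞ B.X)) ≫ (biprod.fst : B.X ⊞ (A.X ⊞ B.X) ⟶ B.X)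
    simp

theorem rotate_distK (T : Triangle (K C)) (hT : T ∈ distK C) : T.rotate ∈ distK C := by
  obtain ⟨A, B, f, ⟨e⟩⟩ := hT
  obtain ⟨A', B', f', ⟨e'⟩⟩ := rotate_coneTri f
  exact ⟨A', B', f', ⟨(rotate (K C)).mapIso e ≪≫ e'⟩⟩

/-- As the shift is the identity and `2 = 0`, rotating three times gives an isomorphic
triangle. -/
theorem rotate_three (T : Triangle (K C)) : Nonempty (T.rotate.rotate.rotate ≅ T) := by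
  refine ⟨Triangle.isoMk _ _ (Iso.refl T.obj₁) (Iso.refl T.obj₂) (Iso.refl T.obj₃) ?_ ?_ ?_⟩
  · change (-T.mor₁) ≫ 𝟙 _ = 𝟙 _ ≫ T.mor₁
    rw [Category.comp_id, Category.id_comp, neg_eq']
  · change (-T.mor₂) ≫ 𝟙 _ = 𝟙 _ ≫ T.mor₂
    rw [Category.comp_id, Category.id_comp, neg_eq']
  · change (-(show T.obj₃ ⟶ T.obj₁ from T.mor₃)) ≫ 𝟙 T.obj₁ = 𝟙 _ ≫ (show T.obj₃ ⟶ T.obj₁ from T.mor₃)
    rw [Category.comp_id, Category.id_comp, neg_eq']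

theorem rotate_distK_iff (T : Triangle (K C)) : T ∈ distK C ↔ T.rotate ∈ distK C := by
  constructor
  · exact rotate_distK T
  · intro h
    obtain ⟨e⟩ := rotate_three T
    obtain ⟨A, B, f, ⟨e'⟩⟩ := rotate_distK _ (rotate_distK _ h)
    exact ⟨A, B, f, ⟨e.symm ≪≫ e'⟩⟩

end Pool.Agent.H939.TT
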